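import Pool.Agent.Q211.FS.Small2
import Pool.Agent.W868.NDfn

/-!
# Totally bounded spaces have well-ordered networks
-/

set_option autoImplicit false
set_option linter.unusedSectionVars false
set_option linter.unreachableTactic false
set_option linter.unusedTactic false

namespace Pool.Agent.Q211.FS

open Pool.Agent.W868 Pool.Agent.W868.PName Pool.Agent.Q211.SY
open ZFSet (pair)

/-- The set `Z(κ)` is `n`-small. -/
def smal (X D Z κ n : ZFSet.{0}) : Prop :=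
  ∀ z ∈ X, ∀ w ∈ X, pair κ z ∈ Z → pair κ w ∈ Z → pair (pair z w) n ∈ D

/-- `Z` is a network that consists of sets `Z(κ)` where `κ` is in the set `I` of ordinals. -/
def isNet (X D I Z : ZFSet.{0}) : Prop :=
  (∀ κ ∈ I, κ.IsOrdinal) ∧
  (∀ x ∈ X, ∀ n ∈ ZFSet.omega, ∃ κ ∈ I, pair κ x ∈ Z ∧ smal X D Z κ n) ∧
  ∀ κ ∈ I, (∃ z ∈ X, pair κ z ∈ Z) → ∀ n ∈ ZFSet.omega, ∃ κ' ∈ I, (∃ z ∈ X, pair κ' z ∈ Z) ∧
    (∀ z ∈ X, pair κ' z ∈ Z → pair κ z ∈ Z) ∧ smal X D Z κ' n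

/-- There is a well-ordered network. -/
def net (M : Set ZFSet.{0}) (X D : ZFSet.{0}) : Prop := ∃ I ∈ M, ∃ Z ∈ M, isNet X D I Z

theorem ud_isOrdinal : UD fun _ (v : Fin 1 → ZFSet.{0}) => (v 0).IsOrdinal := by
  have h : UD fun _ (w : Fin 1 → ZFSet.{0}) => (∀ y ∈ w 0, ∀ z ∈ y, z ∈ w 0) ∧
      ∀ y ∈ w 0, ∀ z ∈ y, ∀ u ∈ z, u ∈ y := by
    (repeat' first
      | assumption
      | exact UF.proj _
      | exact UF.om
      | exact UD.prop _
      | apply UD.not | apply UD.and | apply UD.or | apply UD.imp | apply UD.iff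
      | apply UD.bex | apply UD.ball | apply UD.ex | apply UD.all
      | apply UD.eq | apply UD.mem | apply UF.pair)
  refine h.congr fun M _ v _ => ?_
  constructor
  · rintro ⟨h1, h2⟩
    exact ⟨fun y hy z hz => h1 y hy z hz, fun {y z w} h3 h4 h5 => h2 w h5 z h4 y h3⟩
  · rintro ⟨h1, h2⟩
    exact ⟨fun y hy z hz => h1.mem_trans hz hy, fun y hy z hz u hu => h2 hu hz hy⟩

theorem ud_net : UD fun M (v : Fin 2 → ZFSet.{0}) => net M (v 0) (v 1) := by
  unfold net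
  refine UD.ex (Q := fun M I (v : Fin 2 → ZFSet.{0}) => ∃ Z ∈ M, isNet (v 0) (v 1) I Z) ?_
  refine UD.ex (Q := fun M Z (v : Fin 3 → ZFSet.{0}) => isNet (v 1) (v 2) (v 0) Z) ?_
  unfold isNet smal
  refine UD.and ?_ ?_
  · refine UD.ball (Q := fun _ κ _ => κ.IsOrdinal) (UF.proj 1) ?_
    exact UD.comp1 ud_isOrdinal (UF.proj 0)
  · (repeat' first
      | assumption
      | exact UF.proj _
      | exact UF.om
      | exact UD.prop _
      | apply UD.not | apply UD.and | apply UD.or | apply UD.imp | apply UD.iff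
      | apply UD.bex | apply UD.ball | apply UD.ex | apply UD.all
      | apply UD.eq | apply UD.mem | apply UF.pair)

/-- To prove that something is forced it suffices to find one suitable package below each
condition. -/
theorem frc_of_some {P : Type} [Preorder P] [OrderTop P] {S : Sys P} {n : ℕ}
    {R : Set ZFSet.{0} → (Fin n → ZFSet.{0}) → Prop} (h : UD R) {x : Fin n → PName P}
    (hx : ∀ i, S.HS (x i)) {p : P} (hf : ∀ q ≤ p, ∃ π : Pkg P, S.Cld π ∧ (∀ i, x i ∈ π.N) ∧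
      π.g 0 ≤ q ∧ R (S.Ms π) (π.val ∘ x)) : S.Frc h x p := by
  refine Sys.frc_dense fun q hq => ?_
  obtain ⟨π, hcl, hN, h0, hR⟩ := hf q hq
  obtain ⟨k, hk⟩ := (Sys.frc_iff h hcl fun i => ⟨hN i, hx i⟩).1 hR
  exact ⟨π.g k, (π.g_anti (Nat.zero_le k)).trans h0, hk⟩

variable {K : Type} {Q : K → Type} [∀ k, Preorder (Q k)] [∀ k, OrderTop (Q k)] [DecidableEq K]

theorem fmem_res {x X : PName (FP Q)} {e : Finset (K × ℕ)} (hx : Fx e x) (hX : Fx e X) {p : FP Q}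
    (hf : Fmem x X p) : Fmem x X (res e p) := by
  refine fmem_dense fun q hq => ?_
  obtain ⟨σ, hσ, -, r, hr, hr'⟩ := exists_common e p q ∅ (by
    intro k i hk
    have h1 := hq k i
    rwa [res_pos hk] at h1)
  exact ⟨r, hr, (fmem_congr (hx σ hσ _) (hX σ hσ _) (fmem_ax (σ := σ) hf)).mono hr'⟩

theorem fmem_of_el {P : Type} [Preorder P] [OrderTop P] {x y : PName P} {c p : P} (h : El x y c)
    (hp : p ≤ c) : Fmem y x p := by
  rw [fmem_iff]
  exact fun q hq => ⟨q, le_rfl, y, c, h, hq.trans hp, Feq.refl _ _⟩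

section net

open Classical in
/-- A support of `y` that contains `E`. -/
noncomputable def ef (E : Finset (K × ℕ)) (y : PName (FP Q)) : Finset (K × ℕ) :=
  if h : ∃ e, E ⊆ e ∧ Fx e y then h.choose else E

theorem ef_spec {E : Finset (K × ℕ)} {y : PName (FP Q)} (hy : (Sy Q).HS y) :
    E ⊆ ef E y ∧ Fx (ef E y) y := by
  have h : ∃ e, E ⊆ e ∧ Fx e y := by
    obtain ⟨e, he⟩ := sym_iff.1 hy.sym
    exact ⟨E ∪ e, Finset.subset_union_left, he.mono Finset.subset_union_right⟩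
  unfold ef
  rw [dif_pos h]
  exact h.choose_spec

variable (X D : PName (FP Q)) (E : Finset (K × ℕ)) (p0 : FP Q)

/-- The index type of the network. -/
def NI : Type := {t : X.idx × FP Q // Sp (ef E (X.chd t.1)) t.2 ∧ t.2 ≤ p0 ∧
  Fmem (X.chd t.1) X t.2}

/-- The name of the network. -/
noncomputable def Zn : PName (FP Q) :=
  PName.mk (NI X E p0 × Hs K E) (fun t => opN (check (cd t.1)) (ax t.2.1 (X.chd t.1.1.1)))
    (fun t => FP.sm t.2.1 t.1.1.2)

/-- The index set of the network. -/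
noncomputable def In : ZFSet.{0} := ZFSet.range fun t : NI X E p0 => cd t

variable {X D E p0}

theorem el_Zn {z : PName (FP Q)} {c : FP Q} : El (Zn X E p0) z c ↔
    ∃ t : NI X E p0, ∃ σ ∈ Hs K E, z = opN (check (cd t)) (ax σ (X.chd t.1.1)) ∧
      c = FP.sm σ t.1.2 := by
  rw [Zn, el_mk]
  constructor
  · rintro ⟨⟨t, σ, hσ⟩, rfl, rfl⟩
    exact ⟨t, σ, hσ, rfl, rfl⟩
  · rintro ⟨t, σ, hσ, rfl, rfl⟩
    exact ⟨(t, ⟨σ, hσ⟩), rfl, rfl⟩

theorem hs_Zn (hX : (Sy Q).HS X) : (Sy Q).HS (Zn X E p0) := by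
  refine (Sy Q).hs_iff.2 ⟨sym_iff.2 ⟨E, ?_⟩, fun z c hz => ?_⟩
  · intro (θ : K → Equiv.Perm ℕ) hθ p
    refine feq_of_el fun z c => ?_
    rw [el_act, el_Zn]
    constructor
    · rintro ⟨z', c', hz, rfl, rfl⟩
      obtain ⟨t, σ, hσ, rfl, rfl⟩ := el_Zn.1 hz
      refine ⟨t, θ * σ, (Hs K E).mul_mem hθ hσ, ?_, ?_⟩
      · rw [act_opN ((Sy Q).top θ), act_check ((Sy Q).top θ), ax_mul]
        rfl
      · rw [FP.sm_mul]
        rfl
    · rintro ⟨t, σ, hσ, rfl, rfl⟩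
      refine ⟨opN (check (cd t)) (ax (θ⁻¹ * σ) (X.chd t.1.1)), FP.sm (θ⁻¹ * σ) t.1.2,
        el_Zn.2 ⟨t, _, (Hs K E).mul_mem ((Hs K E).inv_mem hθ) hσ, rfl, rfl⟩, ?_, ?_⟩
      · rw [act_opN ((Sy Q).top θ), act_check ((Sy Q).top θ)]
        congr 1
        change _ = ax θ _
        rw [← ax_mul, mul_inv_cancel_left]
      · change _ = FP.sm θ _
        rw [← FP.sm_mul, mul_inv_cancel_left]
  · obtain ⟨t, σ, hσ, rfl, -⟩ := el_Zn.1 hz
    exact (Sy Q).hs_opN ((Sy Q).hs_check _) (hs_ax (hX.el ⟨t.1.1, rfl, rfl⟩) σ)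

/-- The point given by an index. -/
theorem pt (d : Dat X D E p0) (t : NI X E p0) :
    Pt X E p0 (X.chd t.1.1) (ef E (X.chd t.1.1)) t.1.2 :=
  ⟨(ef_spec (d.hX.el ⟨t.1.1, rfl, rfl⟩)).1, d.hX.el ⟨t.1.1, rfl, rfl⟩,
    (ef_spec (d.hX.el ⟨t.1.1, rfl, rfl⟩)).2, t.2.1, t.2.2.1, t.2.2.2⟩

theorem Sma.mono {x : PName (FP Q)} {k : ℕ} {b b' : FP Q} (h : Sma D x E k b) (hb : b' ≤ b) :
    Sma D x E k b' := fun σ hσ τ hτ q h1 h2 =>
  h σ hσ τ hτ q (h1.trans (sm_le_sm hb)) (h2.trans (sm_le_sm hb))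

/-- Small sets of points. -/
theorem close_of_sma (d : Dat X D E p0) {x : PName (FP Q)} (hx : (Sy Q).HS x) {k : ℕ} {b : FP Q}
    (h : Sma D x E k b) {σ τ : K → Equiv.Perm ℕ} (hσ : σ ∈ Hs K E) (hτ : τ ∈ Hs K E)
    {π : Pkg (FP Q)} (hcl : (Sy Q).Cld π) (hD : D ∈ π.N) (h1 : ax σ x ∈ π.N) (h2 : ax τ x ∈ π.N)
    {m m' : ℕ} (hm : π.g m ≤ FP.sm σ b) (hm' : π.g m' ≤ FP.sm τ b) :
    pair (pair (π.val (ax σ x)) (π.val (ax τ x))) (nat k) ∈ π.val D := by
  by_contra h3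
  obtain ⟨j, hj⟩ := far_of d.hD (hs_ax hx σ) (hs_ax hx τ) hcl hD h1 h2 h3
  exact h σ hσ τ hτ (π.g (max j (max m m')))
    ((π.g_le_right _ _).trans ((π.g_le_left _ _).trans hm))
    ((π.g_le_right _ _).trans ((π.g_le_right _ _).trans hm'))
    (Sys.Frc.mono hj (π.g_le_left _ _))

/-! ### The rules -/

open Classical in
/-- The index of a child and a condition. -/
noncomputable def F0 (X : PName (FP Q)) (E : Finset (K × ℕ)) (p0 : FP Q) (y : PName (FP Q))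
    (p : FP Q) : PName (FP Q) :=
  if h : ∃ t : NI X E p0, X.chd t.1.1 = y ∧ t.1.2 = res (ef E y) p then check (cd h.choose)
  else emp

/-- The small conditions. -/
noncomputable def F1 (D : PName (FP Q)) (E : Finset (K × ℕ)) (k : ℕ) (y : PName (FP Q))
    (_ : FP Q) : PName (FP Q) := Sys.nm (FP Q) {r | Sma D y E k (res (ef E y) r)}

/-- The copies of the small conditions below `b`. -/
def A2 (X D : PName (FP Q)) (E : Finset (K × ℕ)) (p0 : FP Q) (k : ℕ) (t : NI X E p0) :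
    Set (FP Q) :=
  {r | ∃ t' : NI X E p0, ∃ σ ∈ Hs K E, t'.1.1 = t.1.1 ∧ t'.1.2 ≤ t.1.2 ∧
    Sma D (X.chd t.1.1) E k t'.1.2 ∧ r ≤ FP.sm σ t'.1.2}

noncomputable def F2 (X D : PName (FP Q)) (E : Finset (K × ℕ)) (p0 : FP Q) (k : ℕ)
    (t : NI X E p0) (_ : FP Q) : PName (FP Q) := Sys.nm (FP Q) (A2 X D E p0 k t)

open Classical in
noncomputable def F3 (X D : PName (FP Q)) (E : Finset (K × ℕ)) (p0 : FP Q) (k : ℕ)
    (t : NI X E p0) (p : FP Q) : PName (FP Q) :=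
  if h : p ∈ A2 X D E p0 k t then check (cd h.choose) else emp

open Classical in
noncomputable def F4 (X D : PName (FP Q)) (E : Finset (K × ℕ)) (p0 : FP Q) (k : ℕ)
    (t : NI X E p0) (p : FP Q) : PName (FP Q) :=
  if h : p ∈ A2 X D E p0 k t then ax h.choose_spec.choose (X.chd t.1.1) else emp

/-- The rules. -/
noncomputable def nrules (X D : PName (FP Q)) (E : Finset (K × ℕ)) (p0 : FP Q) :
    Set (Rule (FP Q)) :=
  {r0 (F0 X E p0)} ∪ ((Set.range fun k => r0 (F1 D E k)) ∪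
    ((Set.range fun k => r1 (F2 X D E p0 k)) ∪
    ((Set.range fun k => r1 (F3 X D E p0 k)) ∪ (Set.range fun k => r1 (F4 X D E p0 k)))))

theorem countable_nrules : (nrules X D E p0).Countable :=
  (Set.countable_singleton _).union ((Set.countable_range _).union ((Set.countable_range _).union
    ((Set.countable_range _).union (Set.countable_range _))))

theorem res_le {e : Finset (K × ℕ)} (hE : E ⊆ e) (hp : Sp E p0) {q : FP Q} (hq : q ≤ p0) :
    res e q ≤ p0 := by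
  intro k i
  by_cases h : (k, i) ∈ e
  · rw [res_pos h]
    exact hq k i
  · rw [hp (k, i) fun h' => h (hE h')]
    exact le_top

/-- The network, in a package that is closed under the rules. -/
theorem isNet_of (d : Dat X D E p0) (hp : Sp E p0) {π : Pkg (FP Q)} (hcl : (Sy Q).Cld π)
    (hR : ClR (nrules X D E p0) π) (hX : X ∈ π.N) (hD : D ∈ π.N)
    (hI : (check (In X E p0) : PName (FP Q)) ∈ π.N) (h0 : π.g 0 ≤ p0) :
    isNet (π.val X) (π.val D) (π.val (check (In X E p0))) (π.val (Zn X E p0)) := by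
  classical
  have hle : ∀ m, π.g m ≤ p0 := fun m => (π.g_anti (Nat.zero_le m)).trans h0
  -- the elements of the network
  have hZmem : ∀ z, z ∈ π.val (Zn X E p0) ↔ ∃ t : NI X E p0, ∃ σ ∈ Hs K E,
      (check (cd t) : PName (FP Q)) ∈ π.N ∧ ax σ (X.chd t.1.1) ∈ π.N ∧
      (∃ m, π.g m ≤ FP.sm σ t.1.2) ∧
      z = pair (π.hat (cd t)) (π.val (ax σ (X.chd t.1.1))) := by
    intro z
    rw [π.mem_val]
    constructor
    · rintro ⟨y, hy, c, hc, hm, rfl⟩
      obtain ⟨t, σ, hσ, rfl, rfl⟩ := el_Zn.1 hc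
      exact ⟨t, σ, hσ, π.fst_mem hy, π.snd_mem hy, hm, π.val_opN (π.fst_mem hy) (π.snd_mem hy)⟩
    · rintro ⟨t, σ, hσ, h1, h2, hm, rfl⟩
      exact ⟨_, π.opN_mem h1 h2, _, el_Zn.2 ⟨t, σ, hσ, rfl, rfl⟩, hm, π.val_opN h1 h2⟩
  have hZpair : ∀ (t : NI X E p0) w, (check (cd t) : PName (FP Q)) ∈ π.N →
      (pair (π.hat (cd t)) w ∈ π.val (Zn X E p0) ↔ ∃ σ ∈ Hs K E, ax σ (X.chd t.1.1) ∈ π.N ∧
      (∃ m, π.g m ≤ FP.sm σ t.1.2) ∧ w = π.val (ax σ (X.chd t.1.1))) := by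
    intro t w ht
    rw [hZmem]
    constructor
    · rintro ⟨t', σ, hσ, h1, h2, hm, h3⟩
      obtain ⟨h4, h5⟩ := ZFSet.pair_injective h3
      have h6 : cd t = cd t' := (π.hat_inj ht h1).1 h4
      obtain rfl := cd_injective h6
      exact ⟨σ, hσ, h2, hm, h5⟩
    · rintro ⟨σ, hσ, h2, hm, rfl⟩
      exact ⟨t, σ, hσ, ht, h2, hm, rfl⟩
  have hImem : ∀ (t : NI X E p0), (check (cd t) : PName (FP Q)) ∈ π.N →
      π.hat (cd t) ∈ π.val (check (In X E p0)) := by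
    intro t ht
    exact (π.hat_mem_hat ht hI).2 (ZFSet.mem_range.2 ⟨t, rfl⟩)
  have hsm : ∀ (t : NI X E p0) (n : ℕ), (check (cd t) : PName (FP Q)) ∈ π.N →
      Sma D (X.chd t.1.1) E n t.1.2 →
      smal (π.val X) (π.val D) (π.val (Zn X E p0)) (π.hat (cd t)) (nat n) := by
    intro t n ht hs z _ w _ hz hw
    obtain ⟨σ, hσ, h1, ⟨m, hm⟩, rfl⟩ := (hZpair t z ht).1 hz
    obtain ⟨τ, hτ, h2, ⟨m', hm'⟩, rfl⟩ := (hZpair t w ht).1 hw
    exact close_of_sma d (pt d t).hx hs hσ hτ hcl hD h1 h2 hm hm'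
  refine ⟨?_, ?_, ?_⟩
  · intro κ hκ
    obtain ⟨a, ha, haZ, rfl⟩ := π.mem_hat.1 hκ
    obtain ⟨t, rfl⟩ := ZFSet.mem_range.1 ha
    exact π.hat_isOrdinal (ZFSet.isOrdinal_toZFSet _)
  · intro x hx no hno
    obtain ⟨n, rfl⟩ := mem_omega_iff.1 hno
    obtain ⟨y, hy, c, hc, ⟨m, hm⟩, rfl⟩ := π.mem_val.1 hx
    obtain ⟨i, rfl, rfl⟩ := hc
    have hc : El X (X.chd i) (X.cnd i) := ⟨i, rfl, rfl⟩
    obtain ⟨hEe, hfy⟩ := ef_spec (E := E) (d.hX.el hc)
    have hyS : (Sy Q).HS (X.chd i) := d.hX.el hc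
    have hmem : ∀ q ≤ π.g m, Fmem (X.chd i) X (res (ef E (X.chd i)) q) := fun q hq =>
      fmem_res hfy (d.fX.mono hEe) (fmem_of_el hc (hq.trans hm))
    -- the small conditions are dense
    have h1 : F1 D E n (X.chd i) (π.g 0) ∈ π.N :=
      r0_mem hR (Or.inr (Or.inl ⟨n, rfl⟩)) hy 0
    obtain ⟨j, hj, hjA⟩ := gen_dense' π
      (A := {r | Sma D (X.chd i) E n (res (ef E (X.chd i)) r)}) h1 (m := m)
      (fun r hr q hq => Sma.mono hr (res_mono hq)) (by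
        intro q hq
        have P : Pt X E p0 (X.chd i) (ef E (X.chd i)) (res (ef E (X.chd i)) q) :=
          ⟨hEe, hyS, hfy, sp_res _ _, res_le hEe hp (hq.trans (hle m)), hmem q hq⟩
        obtain ⟨b, hb, hbS, hbs⟩ := exists_small d P le_rfl (sp_res _ _) n
        refine ⟨join (ef E (X.chd i)) b q, ?_, ?_⟩
        · intro k l
          by_cases h : (k, l) ∈ ef E (X.chd i)
          · rw [join_pos h]
            have h2 := hb k l
            rwa [res_pos h] at h2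
          · rw [join_neg h]
        · refine Sma.mono hbs ?_
          intro k l
          by_cases h : (k, l) ∈ ef E (X.chd i)
          · rw [res_pos h, join_pos h]
          · rw [hbS (k, l) h]
            exact le_top)
    have hjm : π.g j ≤ π.g m := π.g_anti hj
    have hex : ∃ t : NI X E p0, X.chd t.1.1 = X.chd i ∧ t.1.2 = res (ef E (X.chd i)) (π.g j) :=
      ⟨⟨(i, res (ef E (X.chd i)) (π.g j)), sp_res _ _, res_le hEe hp (hle j), hmem _ hjm⟩,
        rfl, rfl⟩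
    have h2 : F0 X E p0 (X.chd i) (π.g j) ∈ π.N := r0_mem hR (Or.inl rfl) hy j
    unfold F0 at h2
    rw [dif_pos hex] at h2
    obtain ⟨h3, h4⟩ := hex.choose_spec
    set t := hex.choose with ht
    refine ⟨π.hat (cd t), hImem t h2, ?_, ?_⟩
    · refine (hZpair t _ h2).2 ⟨1, (Hs K E).one_mem, ?_, ⟨j, ?_⟩, ?_⟩
      · rw [h3]
        have h5 : ax 1 (X.chd i) = X.chd i := by
          unfold ax
          rw [map_one, act_one]
        rwa [h5]
      · rw [FP.sm_one, h4]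
        exact le_res _ _
      · rw [h3]
        have h5 : ax 1 (X.chd i) = X.chd i := by
          unfold ax
          rw [map_one, act_one]
        rw [h5]
    · refine hsm t n h2 ?_
      rw [h3, h4]
      exact hjA
  · intro κ hκ hne no hno
    obtain ⟨n, rfl⟩ := mem_omega_iff.1 hno
    obtain ⟨a, ha, haZ, rfl⟩ := π.mem_hat.1 hκ
    obtain ⟨t, rfl⟩ := ZFSet.mem_range.1 ha
    obtain ⟨z, hz, hz'⟩ := hne
    obtain ⟨σ, hσ, hσN, ⟨m, hm⟩, rfl⟩ := (hZpair t z haZ).1 hz'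
    have P := pt d t
    have h1 : F2 X D E p0 n t (π.g 0) ∈ π.N :=
      r1_mem hR (Or.inr (Or.inr (Or.inl ⟨n, rfl⟩))) haZ 0
    obtain ⟨j, hj, hjA⟩ := gen_dense' π (A := A2 X D E p0 n t) h1 (m := m)
      (by
        rintro r ⟨t', σ', h2, h3, h4, h5, h6⟩ q hq
        exact ⟨t', σ', h2, h3, h4, h5, hq.trans h6⟩) (by
        intro q hq
        set e := ef E (X.chd t.1.1) with he
        have hb0 : res e (FP.sm σ⁻¹ q) ≤ t.1.2 := by
          have h2 := res_mono (s := e) (sm_inv_le (hq.trans hm))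
          rwa [P.sp.res_eq] at h2
        obtain ⟨b, hb, hbS, hbs⟩ := exists_small d P hb0 (sp_res _ _) n
        have hbt : b ≤ t.1.2 := hb.trans hb0
        refine ⟨join (e.image (im σ)) (FP.sm σ b) q, ?_,
          ⟨(t.1.1, b), hbS, hbt.trans t.2.2.1, t.2.2.2.mono hbt⟩, σ, hσ, rfl, hbt, hbs, ?_⟩
        · intro k l
          by_cases h : (k, l) ∈ e.image (im σ)
          · rw [join_pos h]
            obtain ⟨c, hc, h2⟩ := Finset.mem_image.1 h
            have h3 := hb c.1 c.2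
            rw [res_pos (k := c.1) (i := c.2) hc, sm_inv_im] at h3
            have h4 := sm_im σ b c
            have h5 : (im σ c).1 = c.1 := rfl
            have h6 : (im σ c).2 = σ c.1 c.2 := rfl
            have h7 : (FP.sm σ b).1 (im σ c).1 (im σ c).2 ≤ q.1 (im σ c).1 (im σ c).2 := by
              rw [h4]
              exact h3
            rw [h2] at h7
            exact h7
          · rw [join_neg h]
        · intro k l
          by_cases h : (k, l) ∈ e.image (im σ)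
          · rw [join_pos h]
          · rw [join_neg h]
            have h2 : (FP.sm σ b).1 k l = ⊤ := by
              refine hbS (k, (σ k)⁻¹ l) fun h3 => h ?_
              exact Finset.mem_image.2 ⟨_, h3, by simp [im]⟩
            rw [h2]
            exact le_top)
    have h2 : F3 X D E p0 n t (π.g j) ∈ π.N :=
      r1_mem hR (Or.inr (Or.inr (Or.inr (Or.inl ⟨n, rfl⟩)))) haZ j
    have h3 : F4 X D E p0 n t (π.g j) ∈ π.N :=
      r1_mem hR (Or.inr (Or.inr (Or.inr (Or.inr ⟨n, rfl⟩)))) haZ j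
    unfold F3 at h2
    unfold F4 at h3
    rw [dif_pos hjA] at h2 h3
    obtain ⟨h4, h5, h6, h7, h8⟩ := hjA.choose_spec.choose_spec
    set t' := hjA.choose with ht'
    set σ' := hjA.choose_spec.choose with hσ'
    rw [← h5] at h3 h7
    have h9 : π.val (ax σ' (X.chd t'.1.1)) ∈ π.val X :=
      val_mem_of_le ((pt d t').mem_ax d.fX h4) h3 hX h8
    refine ⟨π.hat (cd t'), hImem t' h2, ⟨_, h9, (hZpair t' _ h2).2 ⟨σ', h4, h3, ⟨j, h8⟩, rfl⟩⟩,
      ?_, hsm t' n h2 h7⟩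
    intro w _ hw
    obtain ⟨τ, hτ, hτN, ⟨m', hm'⟩, rfl⟩ := (hZpair t' w h2).1 hw
    rw [h5] at hτN ⊢
    exact (hZpair t _ haZ).2 ⟨τ, hτ, hτN, ⟨m', hm'.trans (sm_le_sm h6)⟩, rfl⟩

/-- Totally bounded spaces in the symmetric submodel have well-ordered networks. -/
theorem net_of_reg {π : Pkg (FP Q)} (hcl : (Sy Q).Cld π) {X D : ZFSet.{0}}
    (hX : X ∈ (Sy Q).Ms π) (hD : D ∈ (Sy Q).Ms π) (hr : reg ((Sy Q).Ms π) X D) :
    net ((Sy Q).Ms π) X D := by
  classical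
  obtain ⟨X, ⟨hXN, hXS⟩, rfl⟩ := hX
  obtain ⟨D, ⟨hDN, hDS⟩, rfl⟩ := hD
  have hN : ∀ i, ![X, D] i ∈ π.N := by
    intro i
    fin_cases i
    exacts [hXN, hDN]
  have hS : ∀ i, (Sy Q).HS (![X, D] i) := by
    intro i
    fin_cases i
    exacts [hXS, hDS]
  obtain ⟨j, hj⟩ := (Sys.frc_iff ud_reg hcl (x := ![X, D]) fun i => ⟨hN i, hS i⟩).1 hr
  obtain ⟨e1, he1⟩ := sym_iff.1 hXS.sym
  obtain ⟨e2, he2⟩ := sym_iff.1 hDS.sym
  have hf : ∀ i, Fx (e1 ∪ e2) (![X, D] i) := by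
    intro i
    fin_cases i
    exacts [he1.mono Finset.subset_union_left, he2.mono Finset.subset_union_right]
  have hj' := frc_res hf hj
  have d : Dat X D (e1 ∪ e2) (res (e1 ∪ e2) (π.g j)) := ⟨hXS, hDS, hf 0, hf 1, hj'⟩
  have h1 : (Sy Q).Frc ud_net ![X, D] (res (e1 ∪ e2) (π.g j)) := by
    refine frc_of_some ud_net hS fun q hq => ?_
    obtain ⟨π', h2, h3, h4, h5⟩ := Sys.exists_cld (Sy Q)
      {X, D, Zn X (e1 ∪ e2) (res (e1 ∪ e2) (π.g j)),
        check (In X (e1 ∪ e2) (res (e1 ∪ e2) (π.g j)))} (Set.toFinite _).countable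
      (nrules X D (e1 ∪ e2) (res (e1 ∪ e2) (π.g j))) countable_nrules q
    have hXN' : X ∈ π'.N := h2 (by simp)
    have hDN' : D ∈ π'.N := h2 (by simp)
    have hZN' : Zn X (e1 ∪ e2) (res (e1 ∪ e2) (π.g j)) ∈ π'.N := h2 (by simp)
    have hIN' : (check (In X (e1 ∪ e2) (res (e1 ∪ e2) (π.g j))) : PName (FP Q)) ∈ π'.N :=
      h2 (by simp)
    refine ⟨π', h4, ?_, h3.le, _, Sys.mem_Ms hIN' ((Sy Q).hs_check _), _,
      Sys.mem_Ms hZN' (hs_Zn hXS), isNet_of d (sp_res _ _) h4 h5 hXN' hDN' hIN' (h3.le.trans hq)⟩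
    intro i
    fin_cases i
    exacts [hXN', hDN']
  exact (Sys.frc_sem hS).1 h1 π hcl hN ⟨j, le_res _ _⟩

end net

end Pool.Agent.Q211.FS
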