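import Pool.Agent.Q211.SY.Cnt
import Pool.Agent.Q211.FS.Net

/-!
# Compact metrizable spaces in transitive models
-/

set_option autoImplicit false
set_option linter.unusedSectionVars false
set_option linter.unreachableTactic false
set_option linter.unusedTactic false

namespace Pool.Agent.Q211.FS

open Pool.Agent.W868 Pool.Agent.W868.PName Pool.Agent.Q211.SY
open ZFSet (pair)

/-- The real valued function `d` on `X` is coded in `M`: the set of all `((x, y), (m, n))` with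
`d x y < m / (n + 1)` is an element of `M`. -/
def CodedIn (M : Set ZFSet.{0}) (X : ZFSet.{0}) (d : ZFSet.{0} → ZFSet.{0} → ℝ) : Prop :=
  ∃ G ∈ M, ∀ z, z ∈ G ↔ ∃ x ∈ X, ∃ y ∈ X, ∃ m n : ℕ,
    z = pair (pair x y) (pair (nat m) (nat n)) ∧ d x y < m / (n + 1)

/-- In `M`, the function `d` is a metric on `X` that induces the topology `τ`. -/
structure MetricIn (M : Set ZFSet.{0}) (X τ : ZFSet.{0}) (d : ZFSet.{0} → ZFSet.{0} → ℝ) :
    Prop where
  self : ∀ x ∈ X, d x x = 0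
  eq_of : ∀ x ∈ X, ∀ y ∈ X, d x y = 0 → x = y
  symm : ∀ x ∈ X, ∀ y ∈ X, d x y = d y x
  tri : ∀ x ∈ X, ∀ y ∈ X, ∀ z ∈ X, d x z ≤ d x y + d y z
  coded : CodedIn M X d
  top : ∀ U, U ∈ τ ↔ U ∈ M ∧ U ⊆ X ∧ ∀ x ∈ U, ∃ ε : ℝ, 0 < ε ∧ ∀ y ∈ X, d x y < ε → y ∈ U

/-- In `M`, the space `(X, τ)` is metrizable. -/
def MetrizableIn (M : Set ZFSet.{0}) (X τ : ZFSet.{0}) : Prop :=
  ∃ d : ZFSet.{0} → ZFSet.{0} → ℝ, MetricIn M X τ d

/-- In `M`, the space `(X, τ)` is compact: every cover in `M` of `X` by open sets has a finite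
subcover. -/
def CompactIn (M : Set ZFSet.{0}) (X τ : ZFSet.{0}) : Prop :=
  ∀ C ∈ M, C ⊆ τ → (∀ x ∈ X, ∃ U ∈ C, x ∈ U) →
    ∃ F : Finset ZFSet.{0}, (∀ U ∈ F, U ∈ C) ∧ ∀ x ∈ X, ∃ U ∈ F, x ∈ U

/-- In `M`, the space `(X, τ)` is separable. -/
def SeparableIn (M : Set ZFSet.{0}) (X τ : ZFSet.{0}) : Prop :=
  ∃ Y ∈ M, Y ⊆ X ∧ CntIn M Y ∧ ∀ U ∈ τ, (∃ x, x ∈ U) → ∃ y ∈ Y, y ∈ U

section

variable {M : Set ZFSet.{0}} (hM : IsZF M) {X τ : ZFSet.{0}} {d : ZFSet.{0} → ZFSet.{0} → ℝ}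
  (hX : X ∈ M) (hτ : τ ∈ M) (m : MetricIn M X τ d)

include hM hX m

theorem MetricIn.nonneg {x y : ZFSet.{0}} (hx : x ∈ X) (hy : y ∈ X) : 0 ≤ d x y := by
  have h1 := m.tri x hx y hy x hx
  rw [m.self x hx, m.symm y hy x hx] at h1
  linarith

/-- The entourages. -/
theorem exists_ent : ∃ D ∈ M, ∀ x ∈ X, ∀ y ∈ X, ∀ k : ℕ,
    pair (pair x y) (nat k) ∈ D ↔ d x y < 1 / (k + 1) := by
  have hB := hM.base
  have h0 := hM.infinity
  obtain ⟨G, hG, h1⟩ := m.coded
  have h2 : nat 1 ∈ M := hM.nat_mem 1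
  have h4 : ZFSet.prod X X ∈ M := hM.prod_mem hX hX
  obtain ⟨D, hD, -, h3⟩ := hM.rel_mem (x := ZFSet.prod X X) (y := ZFSet.omega) h4 h0
    (Q := fun x k => pair x (pair (nat 1) k) ∈ G) (by
      (repeat' first
        | assumption
        | exact DfnF.proj _
        | exact DfnF.const (by assumption)
        | exact DfnF.const' (by first | assumption | trivial) (by first | assumption | trivial)
        | exact Dfn.prop _
        | apply Dfn.not | apply Dfn.and | apply Dfn.or | apply Dfn.imp | apply Dfn.iff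
        | apply hB.bex | apply hB.ball | apply Dfn.ex | apply Dfn.all
        | apply Dfn.eq | apply Dfn.mem | apply hB.pair' | apply hB.subset' | apply hB.insert'
        | apply hB.isFunc' | apply hB.isInj' | apply hB.isBij' | apply hB.isOrdinal'))
  refine ⟨D, hD, fun x hx y hy k => ?_⟩
  rw [h3, ZFSet.pair_mem_prod, h1]
  constructor
  · rintro ⟨-, -, x', -, y', -, a, b, h5, h6⟩
    obtain ⟨h7, h8⟩ := ZFSet.pair_inj.1 h5
    obtain ⟨rfl, rfl⟩ := ZFSet.pair_inj.1 h7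
    obtain ⟨h9, h10⟩ := ZFSet.pair_inj.1 h8
    rw [nat_injective h10]
    rw [← nat_injective h9] at h6
    simpa using h6
  · intro h5
    exact ⟨⟨hx, hy⟩, mem_omega_iff.2 ⟨k, rfl⟩, x, hx, y, hy, 1, k, rfl, by simpa using h5⟩

end

/-- A compact metrizable space in `M`, with its entourages and a network. -/
structure Sp0 (M : Set ZFSet.{0}) (X τ : ZFSet.{0}) (d : ZFSet.{0} → ZFSet.{0} → ℝ)
    (D : ZFSet.{0}) : Prop where
  hM : IsZF M
  hX : X ∈ M
  hτ : τ ∈ M
  m : MetricIn M X τ d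
  hD : D ∈ M
  ent : ∀ x ∈ X, ∀ y ∈ X, ∀ k : ℕ, pair (pair x y) (nat k) ∈ D ↔ d x y < 1 / (k + 1)
  cpt : CompactIn M X τ

namespace Sp0

variable {M : Set ZFSet.{0}} {X τ D : ZFSet.{0}} {d : ZFSet.{0} → ZFSet.{0} → ℝ}
  (s : Sp0 M X τ d D)

include s

theorem nonneg {x y : ZFSet.{0}} (hx : x ∈ X) (hy : y ∈ X) : 0 ≤ d x y :=
  s.m.nonneg s.hM s.hX hx hy

theorem lt_small {x y : ZFSet.{0}} {k l : ℕ} (h : d x y < 1 / (l + 1)) (hkl : k ≤ l) :
    d x y < 1 / (k + 1) := by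
  refine h.trans_le ?_
  have h1 : (k : ℝ) ≤ l := Nat.cast_le.2 hkl
  have h2 : (0 : ℝ) ≤ k := Nat.cast_nonneg k
  exact one_div_le_one_div_of_le (by linarith) (by linarith)

/-- Balls. -/
theorem ball (x : ZFSet.{0}) (hx : x ∈ X) (k : ℕ) : ∃ U ∈ τ, x ∈ U ∧
    ∀ y, y ∈ U ↔ y ∈ X ∧ d x y < 1 / (k + 1) := by
  have hB := s.hM.base
  have h1 : x ∈ M := s.hM.trans _ s.hX _ hx
  have h2 := s.hD
  have h3 := s.hM.nat_mem k
  have h4 : ZFSet.sep (fun y => pair (pair x y) (nat k) ∈ D) X ∈ M :=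
    s.hM.sep_mem (Q := fun y => pair (pair x y) (nat k) ∈ D) (by
      (repeat' first
        | assumption
        | exact DfnF.proj _
        | exact DfnF.const (by assumption)
        | exact DfnF.const' (by first | assumption | trivial) (by first | assumption | trivial)
        | exact Dfn.prop _
        | apply Dfn.not | apply Dfn.and | apply Dfn.or | apply Dfn.imp | apply Dfn.iff
        | apply hB.bex | apply hB.ball | apply Dfn.ex | apply Dfn.all
        | apply Dfn.eq | apply Dfn.mem | apply hB.pair' | apply hB.subset' | apply hB.insert'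
        | apply hB.isFunc' | apply hB.isInj' | apply hB.isBij' | apply hB.isOrdinal')) s.hX
  have h5 : ∀ y, y ∈ ZFSet.sep (fun y => pair (pair x y) (nat k) ∈ D) X ↔
      y ∈ X ∧ d x y < 1 / (k + 1) := by
    intro y
    rw [ZFSet.mem_sep]
    exact and_congr_right fun hy => s.ent x hx y hy k
  have h6 : (0 : ℝ) < k + 1 := by positivity
  refine ⟨_, (s.m.top _).2 ⟨h4, fun y hy => ((h5 y).1 hy).1, ?_⟩, (h5 x).2 ⟨hx, ?_⟩, h5⟩
  · intro y hy
    obtain ⟨hyX, h7⟩ := (h5 y).1 hy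
    refine ⟨1 / (k + 1) - d x y, by linarith, fun z hz h8 => (h5 z).2 ⟨hz, ?_⟩⟩
    have h9 := s.m.tri x hx y hyX z hz
    linarith
  · rw [s.m.self x hx]
    positivity

theorem reg : reg M X D := by
  classical
  have hB := s.hM.base
  intro ko hko
  obtain ⟨k, rfl⟩ := mem_omega_iff.1 hko
  refine ⟨?_, nat (2 * k + 1), mem_omega_iff.2 ⟨_, rfl⟩, ?_⟩
  · -- totally bounded
    have h1 := s.hτ
    have h2 := s.hX
    have h3 := s.hD
    have h4 := s.hM.nat_mem (2 * k + 1)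
    obtain ⟨F, hF, hF'⟩ := s.cpt
      (ZFSet.sep (fun U => ∃ x ∈ X, ∀ y ∈ U, pair (pair x y) (nat (2 * k + 1)) ∈ D) τ)
      (s.hM.sep_mem (Q := fun U => ∃ x ∈ X, ∀ y ∈ U, pair (pair x y) (nat (2 * k + 1)) ∈ D) (by
        (repeat' first
          | assumption
          | exact DfnF.proj _
          | exact DfnF.const (by assumption)
          | exact DfnF.const' (by first | assumption | trivial) (by first | assumption | trivial)
          | exact Dfn.prop _
          | apply Dfn.not | apply Dfn.and | apply Dfn.or | apply Dfn.imp | apply Dfn.iff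
          | apply hB.bex | apply hB.ball | apply Dfn.ex | apply Dfn.all
          | apply Dfn.eq | apply Dfn.mem | apply hB.pair' | apply hB.subset' | apply hB.insert'
          | apply hB.isFunc' | apply hB.isInj' | apply hB.isBij' | apply hB.isOrdinal')) h1) (fun U hU => (ZFSet.mem_sep.1 hU).1) (by
        intro x hx
        obtain ⟨U, hU, hxU, hU'⟩ := s.ball x hx (2 * k + 1)
        refine ⟨U, ZFSet.mem_sep.2 ⟨hU, x, hx, fun y hy => ?_⟩, hxU⟩
        obtain ⟨hyX, h5⟩ := (hU' y).1 hy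
        exact (s.ent x hx y hyX _).2 h5)
    refine ⟨nat (F.card + 1), mem_omega_iff.2 ⟨_, rfl⟩, ?_⟩
    intro t _ ht
    have h5 : ∀ i : Fin (F.card + 1), ∃ x ∈ X, pair (nat i) x ∈ t := by
      intro i
      obtain ⟨x, hx, -⟩ := ht.2 (nat i) (nat_mem_nat.2 i.2)
      exact ⟨x, (ZFSet.pair_mem_prod.1 (ht.1 hx)).2, hx⟩
    choose a haX hat using h5
    have h6 : ∀ i, ∃ U ∈ F, a i ∈ U := fun i => hF' _ (haX i)
    choose U hU haU using h6
    obtain ⟨i, -, j, -, hij, h7⟩ := Finset.exists_ne_map_eq_of_card_lt_of_maps_to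
      (s := (Finset.univ : Finset (Fin (F.card + 1)))) (t := F) (by simp) (f := U)
      (fun i _ => hU i)
    have hclose : ∀ i j, U i = U j → d (a i) (a j) < 1 / (k + 1) := by
      intro i j h8
      obtain ⟨-, c, hc, h9⟩ := ZFSet.mem_sep.1 (hF _ (hU i))
      have h10 := (s.ent c hc (a i) (haX i) _).1 (h9 _ (haU i))
      have h11 := (s.ent c hc (a j) (haX j) _).1 (h9 _ (h8 ▸ haU j))
      have h12 := s.m.tri (a i) (haX i) c hc (a j) (haX j)
      rw [s.m.symm (a i) (haX i) c hc] at h12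
      have h13 : (1 : ℝ) / ((2 * k + 1 : ℕ) + 1) + 1 / ((2 * k + 1 : ℕ) + 1) = 1 / (k + 1) := by
        push_cast
        field_simp
        ring
      linarith
    rcases lt_or_gt_of_ne hij with h8 | h8
    · exact ⟨nat j, nat_mem_nat.2 j.2, nat i, nat_mem_nat.2 h8, a i, haX i, a j, haX j, hat i,
        hat j, (s.ent _ (haX i) _ (haX j) k).2 (hclose i j h7)⟩
    · exact ⟨nat i, nat_mem_nat.2 i.2, nat j, nat_mem_nat.2 h8, a j, haX j, a i, haX i, hat j,
        hat i, (s.ent _ (haX j) _ (haX i) k).2 (hclose j i h7.symm)⟩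
  · intro x hx y hy z hz h1 h2
    have h3 := (s.ent x hx z hz _).1 h1
    have h4 := (s.ent y hy z hz _).1 h2
    refine (s.ent x hx y hy k).2 ?_
    have h5 := s.m.tri x hx z hz y hy
    rw [s.m.symm z hz y hy] at h5
    have h13 : (1 : ℝ) / ((2 * k + 1 : ℕ) + 1) + 1 / ((2 * k + 1 : ℕ) + 1) = 1 / (k + 1) := by
      push_cast
      field_simp
      ring
    linarith

end Sp0

end Pool.Agent.Q211.FS
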