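import Pool.Agent.Q211.FS.Opc

/-!
# A product of one-point compactifications that is not separable
-/

set_option autoImplicit false
set_option linter.unusedSectionVars false
set_option linter.unreachableTactic false
set_option linter.unusedTactic false

namespace Pool.Agent.Q211.FS

open Pool.Agent.W868 Pool.Agent.W868.PName Pool.Agent.Q211.SY
open ZFSet (pair)

theorem exists_prod_inj : ∃ f, IsInj (ZFSet.prod ZFSet.omega ZFSet.omega) ZFSet.omega f := by
  refine exists_isInj ?_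
  rw [card_prod, card_omega, Cardinal.aleph0_mul_aleph0]

theorem mem_AlS {z : ZFSet.{0}} : z ∈ AlS ↔ ∃ n, z = pair (nat n) (Al n) := by
  rw [AlS, ZFSet.mem_range]
  exact ⟨fun ⟨n, h⟩ => ⟨n, h.symm⟩, fun ⟨n, h⟩ => ⟨n, h.symm⟩⟩

theorem hat_WW {P : Type} [Preorder P] [OrderTop P] (π : Pkg P) : π.hat WW = WW := by
  have h1 : ∀ z ∈ WW, z ∈ π.Z ∧ π.hat z = z := by
    intro z hz
    obtain ⟨t, rfl⟩ := ZFSet.mem_range.1 hz
    have h2 := π.nat_Z t.1.1
    have h3 := π.nat_Z t.1.2.1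
    have h4 := π.nat_Z t.1.2.2
    have h5 := π.pair_mem_Z h3 h4
    refine ⟨π.pair_mem_Z h2 h5, ?_⟩
    rw [π.hat_pair h2 h5, π.hat_pair h3 h4, π.hat_nat, π.hat_nat, π.hat_nat]
  ext z
  rw [π.mem_hat]
  constructor
  · rintro ⟨y, hy, -, rfl⟩
    rw [(h1 y hy).2]
    exact hy
  · intro hz
    exact ⟨z, hz, (h1 z hz).1, (h1 z hz).2⟩

namespace IsMod

variable {π : Pkg PA} (h : IsMod π)

include h

theorem mem_hat_AlS {z : ZFSet.{0}} : z ∈ π.hat AlS ↔ ∃ n, z = pair (nat n) (π.hat (Al n)) := by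
  rw [π.mem_hat]
  constructor
  · rintro ⟨y, hy, -, rfl⟩
    obtain ⟨n, rfl⟩ := mem_AlS.1 hy
    exact ⟨n, by rw [π.hat_pair (π.nat_Z n) (h.al n), π.hat_nat]⟩
  · rintro ⟨n, rfl⟩
    exact ⟨_, mem_AlS.2 ⟨n, rfl⟩, π.pair_mem_Z (π.nat_Z n) (h.al n), by
      rw [π.hat_pair (π.nat_Z n) (h.al n), π.hat_nat]⟩

/-- Sequences that are defined from the sequence of the `Al n`. -/
theorem seqIn {F : ZFSet.{0} → ZFSet.{0}}
    (hF : DfnF (SA.Ms π) (SA.Ms π) fun w : Fin 1 → ZFSet.{0} => F (w 0)) :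
    SeqIn (SA.Ms π) fun n => F (π.hat (Al n)) := by
  have hM := h.isZF
  have hB := hM.base
  unfold SeqIn
  have h1 := hM.im_mem (x := π.hat AlS) (h.hat_mem h.alS)
    (h := fun p => pair (fs p) (F (sn p)))
    (hB.pair' (hM.fs' (DfnF.proj 0)) (DfnF.comp1 (f := F) hF (hM.sn' (DfnF.proj 0))))
  have h2 : W868.im (fun p => pair (fs p) (F (sn p))) (π.hat AlS) =
      ZFSet.range fun n => pair (nat n) (F (π.hat (Al n))) := by
    ext z
    rw [mem_im, ZFSet.mem_range]
    constructor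
    · rintro ⟨p, hp, rfl⟩
      obtain ⟨n, rfl⟩ := h.mem_hat_AlS.1 hp
      exact ⟨n, by rw [fs_pair, sn_pair]⟩
    · rintro ⟨n, rfl⟩
      exact ⟨_, h.mem_hat_AlS.2 ⟨n, rfl⟩, by rw [fs_pair, sn_pair]⟩
  rwa [h2] at h1

theorem seqX : SeqIn (SA.Ms π) fun n => insert (π.hat (Al n)) (π.hat (Al n)) :=
  h.seqIn (F := fun a => insert a a) (h.isZF.base.insert' (DfnF.proj 0) (DfnF.proj 0))

theorem seqT : SeqIn (SA.Ms π) fun n => opc (SA.Ms π) (π.hat (Al n)) :=
  h.seqIn (F := fun a => opc (SA.Ms π) a) (opc' h.isZF (DfnF.proj 0))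

theorem cnt_prod : CntIn (SA.Ms π) (ZFSet.prod ZFSet.omega ZFSet.omega) := by
  have h1 := h.cnt_of_inj (π.prod_Z π.omega_Z π.omega_Z) exists_prod_inj
  rwa [π.hat_prod π.omega_Z π.omega_Z, π.hat_omega] at h1

/-- The product of the one-point compactifications of the `Al n` is not separable. -/
theorem not_separable {P T : ZFSet.{0}} (hP : P ∈ SA.Ms π)
    (hpr : IsProductIn (SA.Ms π) (fun n => insert (π.hat (Al n)) (π.hat (Al n)))
      (fun n => opc (SA.Ms π) (π.hat (Al n))) P T) : ¬ SeparableIn (SA.Ms π) P T := by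
  classical
  rintro ⟨Y, hY, hYP, hYc, hYd⟩
  have hM := h.isZF
  have hB := hM.base
  have h0 := hM.infinity
  have haM : ∀ n, π.hat (Al n) ∈ SA.Ms π := fun n => h.hat_mem (h.al n)
  have key : ∀ n, ∀ x ∈ π.hat (Al n), ∃ y ∈ Y, pair (nat n) x ∈ y := by
    intro n x hx
    have hxM : x ∈ SA.Ms π := hM.trans _ (haM n) _ hx
    have hnM : nat n ∈ SA.Ms π := hM.nat_mem n
    have hxn : pair (nat n) x ∈ SA.Ms π := hM.pair_mem hnM hxM
    -- the open set
    have hW : ZFSet.sep (fun f => pair (nat n) x ∈ f) P ∈ SA.Ms π :=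
      hM.sep_mem (Q := fun f => pair (nat n) x ∈ f) (by
        (repeat' first
          | assumption
          | exact DfnF.proj _
          | exact DfnF.const (by assumption)
          | exact DfnF.const' (by first | assumption | trivial) (by first | assumption | trivial)
          | exact Dfn.prop _
          | apply hB.isFunc' | apply hB.isInj' | apply hB.isBij' | apply hB.isOrdinal'
          | apply hB.subset' | apply hB.pair' | apply hB.insert'
          | apply Dfn.not | apply Dfn.and | apply Dfn.or | apply Dfn.imp | apply Dfn.iff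
          | apply hB.bex | apply hB.ball | apply Dfn.ex | apply Dfn.all
          | apply Dfn.eq | apply Dfn.mem)) hP
    have hWT : ZFSet.sep (fun f => pair (nat n) x ∈ f) P ∈ T := by
      refine (hpr.2 _).2 ⟨hW, fun f hf => (ZFSet.mem_sep.1 hf).1, fun f hf => ?_⟩
      obtain ⟨hfP, hfx⟩ := ZFSet.mem_sep.1 hf
      obtain ⟨hfM, hf1, hf2⟩ := (hpr.1 f).1 hfP
      refine ⟨n + 1, fun i => if i = n then {x} else insert (π.hat (Al i)) (π.hat (Al i)),
        fun i _ => ?_, fun g hg h1 => ?_⟩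
      · by_cases hi : i = n
        · subst hi
          simp only [if_true]
          refine ⟨mem_opc.2 ⟨hM.single_mem hxM, fun z hz => ?_, fun h1 => ?_⟩, x,
            ZFSet.mem_singleton.2 rfl, hfx⟩
          · rw [ZFSet.mem_singleton.1 hz]
            exact ZFSet.mem_insert_iff.2 (Or.inr hx)
          · rw [← ZFSet.mem_singleton.1 h1] at hx
            exact absurd hx (ZFSet.mem_irrefl _)
        · simp only [hi, if_false]
          refine ⟨mem_opc.2 ⟨hM.insert_mem (haM i) (haM i), fun z hz => hz, fun _ => ?_⟩, ?_⟩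
          · refine Set.Finite.subset Set.finite_empty ?_
            rintro z ⟨hz1, hz2⟩
            exact hz2 (ZFSet.mem_insert_iff.2 (Or.inr hz1))
          · obtain ⟨y, hy, -⟩ := hf2 i
            obtain ⟨j, z, hz, h2⟩ := hf1 _ hy
            obtain ⟨h3, h4⟩ := ZFSet.pair_inj.1 h2
            have h5 : i = j := nat_injective h3
            subst h5
            refine ⟨y, ?_, hy⟩
            rw [h4]
            exact hz
      · obtain ⟨z, hz, h2⟩ := h1 n (Nat.lt_succ_self n)
        simp only [if_true] at hz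
        rw [ZFSet.mem_singleton.1 hz] at h2
        exact ZFSet.mem_sep.2 ⟨hg, h2⟩
    -- it is nonempty
    have hfd : DfnF (SA.Ms π) (SA.Ms π) fun w : Fin 1 → ZFSet.{0} =>
        if fs (w 0) = nat n then pair (nat n) x else w 0 := by
      refine DfnF.ite (Q := fun w : Fin 1 → ZFSet.{0} => fs (w 0) = nat n) ?_ ?_ ?_
      · exact Dfn.eq (hM.fs' (DfnF.proj 0)) (DfnF.const hnM)
      · exact DfnF.const hxn
      · exact DfnF.proj 0
    have hf0 := hM.im_mem (x := π.hat AlS) (h.hat_mem h.alS)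
      (h := fun p => if fs p = nat n then pair (nat n) x else p) hfd
    have hf0m : ∀ z, z ∈ W868.im (fun p => if fs p = nat n then pair (nat n) x else p) (π.hat AlS) ↔
        ∃ i : ℕ, z = pair (nat i) (if i = n then x else π.hat (Al i)) := by
      intro z
      rw [mem_im]
      have h1 : ∀ i, (if fs (pair (nat i) (π.hat (Al i))) = nat n then pair (nat n) x else
          pair (nat i) (π.hat (Al i))) = pair (nat i) (if i = n then x else π.hat (Al i)) := by
        intro i
        rw [fs_pair]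
        by_cases hi : i = n
        · subst hi
          simp
        · have h2 : nat i ≠ nat n := fun h => hi (nat_injective h)
          simp [hi, h2]
      constructor
      · rintro ⟨p, hp, rfl⟩
        obtain ⟨i, rfl⟩ := h.mem_hat_AlS.1 hp
        exact ⟨i, h1 i⟩
      · rintro ⟨i, rfl⟩
        exact ⟨_, h.mem_hat_AlS.2 ⟨i, rfl⟩, (h1 i).symm⟩
    have hf0P : W868.im (fun p => if fs p = nat n then pair (nat n) x else p) (π.hat AlS) ∈ P := by
      refine (hpr.1 _).2 ⟨hf0, fun z hz => ?_, fun i => ?_⟩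
      · obtain ⟨i, rfl⟩ := (hf0m z).1 hz
        refine ⟨i, _, ?_, rfl⟩
        by_cases hi : i = n
        · subst hi
          simp only [if_true]
          exact ZFSet.mem_insert_iff.2 (Or.inr hx)
        · simp only [hi, if_false]
          exact ZFSet.mem_insert_iff.2 (Or.inl rfl)
      · refine ⟨_, (hf0m _).2 ⟨i, rfl⟩, fun y hy => ?_⟩
        obtain ⟨j, hj⟩ := (hf0m _).1 hy
        obtain ⟨h1, h2⟩ := ZFSet.pair_inj.1 hj
        rw [h2, nat_injective h1]
    obtain ⟨y, hy, hyW⟩ := hYd _ hWT ⟨_, ZFSet.mem_sep.2 ⟨hf0P, (hf0m _).2 ⟨n, by simp⟩⟩⟩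
    exact ⟨y, hy, (ZFSet.mem_sep.1 hyW).2⟩
  -- the union of the `Al n` is countable
  obtain ⟨e, he, hei⟩ := hYc
  apply h.not_cnt_union
  have hAM : ZFSet.prod ZFSet.omega ZFSet.omega ∈ SA.Ms π := hM.prod_mem h0 h0
  refine cnt_image hM h.cnt_prod hAM (hM.union _ (h.hat_mem h.alF))
    (G := fun p a => ∃ k ∈ ZFSet.omega, ∃ m ∈ ZFSet.omega, ∃ y ∈ Y, p = pair k m ∧
      pair y k ∈ e ∧ pair m a ∈ y) ?_ ?_ ?_
  · (repeat' first
      | assumption
      | exact DfnF.proj _
      | exact DfnF.const (by assumption)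
      | exact DfnF.const' (by first | assumption | trivial) (by first | assumption | trivial)
      | exact Dfn.prop _
      | apply hB.isFunc' | apply hB.isInj' | apply hB.isBij' | apply hB.isOrdinal'
      | apply hB.subset' | apply hB.pair' | apply hB.insert'
      | apply Dfn.not | apply Dfn.and | apply Dfn.or | apply Dfn.imp | apply Dfn.iff
      | apply hB.bex | apply hB.ball | apply Dfn.ex | apply Dfn.all
      | apply Dfn.eq | apply Dfn.mem)
  · rintro p - a - b - ⟨k, hk, m, hm, y, hy, rfl, h1, h2⟩ ⟨k', hk', m', hm', y', hy', h3, h4, h5⟩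
    obtain ⟨rfl, rfl⟩ := ZFSet.pair_inj.1 h3
    obtain rfl := hei.2 _ _ _ h1 h4
    obtain ⟨m, rfl⟩ := mem_omega_iff.1 hm
    exact (((hpr.1 _).1 (hYP hy)).2.2 m).unique h2 h5
  · intro a ha
    obtain ⟨B, hB', haB⟩ := ZFSet.mem_sUnion.1 ha
    obtain ⟨n, rfl⟩ := h.mem_hat_AlF.1 hB'
    obtain ⟨y, hy, h1⟩ := key n a haB
    obtain ⟨k, hk, -⟩ := hei.1.2 y hy
    have hk' := (ZFSet.pair_mem_prod.1 (hei.1.1 hk)).2
    exact ⟨pair k (nat n), ZFSet.pair_mem_prod.2 ⟨hk', mem_omega_iff.2 ⟨n, rfl⟩⟩, k, hk', nat n,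
      mem_omega_iff.2 ⟨n, rfl⟩, y, hy, rfl, hk, h1⟩

end IsMod

end Pool.Agent.Q211.FS
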