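import Pool.Agent.Q211.FS.Nar
import Pool.Agent.Q211.FS.Opc2

/-!
# A narrow forcing that is not uniformly narrow
-/

set_option autoImplicit false
set_option linter.unusedSectionVars false
set_option linter.unreachableTactic false
set_option linter.unusedTactic false

namespace Pool.Agent.Q211.FS

open Pool.Agent.W868 Pool.Agent.W868.PName Pool.Agent.Q211.SY
open ZFSet (pair)

/-! ### Definitions -/

/-- `R` is a partial order on `P` with a largest element. -/
structure IsForcing (P R : ZFSet.{0}) : Prop where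
  refl : ∀ p ∈ P, pair p p ∈ R
  trans : ∀ p ∈ P, ∀ q ∈ P, ∀ r ∈ P, pair p q ∈ R → pair q r ∈ R → pair p r ∈ R
  antisymm : ∀ p ∈ P, ∀ q ∈ P, pair p q ∈ R → pair q p ∈ R → p = q
  top : ∃ t ∈ P, ∀ p ∈ P, pair p t ∈ R

/-- The conditions `p` and `q` are compatible. -/
def Compat (P R p q : ZFSet.{0}) : Prop := ∃ r ∈ P, pair r p ∈ R ∧ pair r q ∈ R

/-- `f` is a function whose domain is a subset of `P` and whose values are ordinals, and it has
the same value at any two compatible conditions in its domain. -/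
def IsHom (P R f : ZFSet.{0}) : Prop :=
  (∀ z ∈ f, ∃ p ∈ P, ∃ α : ZFSet.{0}, α.IsOrdinal ∧ z = pair p α) ∧
    ∀ p α q β, pair p α ∈ f → pair q β ∈ f → Compat P R p q → α = β

/-- In `M`, the forcing `(P, R)` is `θ`-narrow, for an ordinal `θ`: if `μ` is an ordinal and `F` is
a sequence of length `μ` of partial homomorphisms, then the union of their ranges injects into
`max θ μ = θ ∪ μ`. -/
def NarrowIn (M : Set ZFSet.{0}) (θ P R : ZFSet.{0}) : Prop :=
  ∀ μ ∈ M, μ.IsOrdinal → ∀ F ∈ M, (∀ z ∈ F, ∃ i ∈ μ, ∃ f, z = pair i f) →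
    (∀ i ∈ μ, ∃! f, pair i f ∈ F) → (∀ i f, pair i f ∈ F → IsHom P R f) →
    ∃ S ∈ M, (∀ α, α ∈ S ↔ ∃ i f p, pair i f ∈ F ∧ pair p α ∈ f) ∧ ∃ h ∈ M, IsInj S (θ ∪ μ) h

/-- In `M`, the forcing `(P, R)` is uniformly `θ`-narrow: there is a function `G` whose value at
each partial homomorphism `f` with range an ordinal `ρ` is an injective function from `ρ`
to `θ`. -/
def UniformlyNarrowIn (M : Set ZFSet.{0}) (θ P R : ZFSet.{0}) : Prop :=
  ∃ G ∈ M, (∀ f g g', pair f g ∈ G → pair f g' ∈ G → g = g') ∧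
    ∀ f ∈ M, IsHom P R f → ∀ ρ ∈ M, ρ.IsOrdinal → (∀ α, α ∈ ρ ↔ ∃ p, pair p α ∈ f) →
      ∃ g, pair f g ∈ G ∧ IsInj ρ θ g

/-! ### Images of sets of ordinals -/

section

variable {M : Set ZFSet.{0}} (hM : IsZF M)

include hM

theorem inj_image {A Y O : ZFSet.{0}} (hA : ∃ f ∈ M, IsInj A O f) (hAM : A ∈ M) (hY : Y ∈ M)
    (hO : O ∈ M) (hOo : ∀ x ∈ O, x.IsOrdinal)
    {G : ZFSet.{0} → ZFSet.{0} → Prop} (hG : Dfn M M fun w : Fin 2 → ZFSet.{0} => G (w 0) (w 1))
    (h1 : ∀ κ ∈ A, ∀ x ∈ Y, ∀ y ∈ Y, G κ x → G κ y → x = y)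
    (h2 : ∀ x ∈ Y, ∃ κ ∈ A, G κ x) : ∃ f ∈ M, IsInj Y O f := by
  have hB := hM.base
  have h0 := hM.infinity
  obtain ⟨f, hf, hfi⟩ := hA
  obtain ⟨e, he, hee, he'⟩ := hM.rel_mem (x := Y) (y := O) hY hO
    (Q := fun x m => (∃ κ ∈ A, pair κ m ∈ f ∧ G κ x) ∧ ∀ n ∈ O, n ∈ m →
      ¬ ∃ κ ∈ A, pair κ n ∈ f ∧ G κ x) (by
      (repeat' first
        | apply Dfn.comp2 (Q := fun a b => G a b) hG
        | assumption
        | exact DfnF.proj _
        | exact DfnF.const (by assumption)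
        | exact DfnF.const' (by first | assumption | trivial) (by first | assumption | trivial)
        | exact Dfn.prop _
        | apply hB.isFunc' | apply hB.isInj' | apply hB.isBij' | apply hB.isOrdinal'
        | apply hB.subset' | apply hB.pair' | apply hB.insert'
        | apply Dfn.not | apply Dfn.and | apply Dfn.or | apply Dfn.imp | apply Dfn.iff
        | apply hB.bex | apply hB.ball | apply Dfn.ex | apply Dfn.all
        | apply Dfn.eq | apply Dfn.mem))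
  refine ⟨e, he, ⟨hee, fun x hx => ?_⟩, fun x y c hx hy => ?_⟩
  · have h3 : {m | m ∈ O ∧ ∃ κ ∈ A, pair κ m ∈ f ∧ G κ x}.Nonempty := by
      obtain ⟨κ, hκ, h4⟩ := h2 x hx
      obtain ⟨m, hm, -⟩ := hfi.1.2 κ hκ
      exact ⟨m, (ZFSet.pair_mem_prod.1 (hfi.1.1 hm)).2, κ, hκ, hm, h4⟩
    have h5 := ZFSet.mem_wf.min_mem _ h3
    have h6 : ∀ n ∈ O, n ∈ ZFSet.mem_wf.min _ h3 → ¬ ∃ κ ∈ A, pair κ n ∈ f ∧ G κ x := by
      intro n hn hnm h7
      have h8 : n ∈ {m | m ∈ O ∧ ∃ κ ∈ A, pair κ m ∈ f ∧ G κ x} := ⟨hn, h7⟩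
      exact ZFSet.mem_wf.not_lt_min _ h8 hnm
    refine ⟨_, (he' _ _).2 ⟨hx, h5.1, h5.2, h6⟩, fun m hm => ?_⟩
    obtain ⟨-, h7, h8, h9⟩ := (he' _ _).1 hm
    rcases (hOo _ h7).mem_trichotomous (hOo _ h5.1) with h | h | h
    · exact absurd h8 (h6 m h7 h)
    · exact h
    · exact absurd h5.2 (h9 _ h5.1 h)
  · obtain ⟨hxY, -, ⟨κ, hκ, h3, h4⟩, -⟩ := (he' _ _).1 hx
    obtain ⟨hyY, -, ⟨κ', hκ', h5, h6⟩, -⟩ := (he' _ _).1 hy
    have h7 := hfi.2 _ _ _ h3 h5
    subst h7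
    exact h1 κ hκ x hxY y hyY h4 h6

end

/-! ### The forcing -/

/-- The finite functions that are subsets of `L`. -/
noncomputable def FinP (M : Set ZFSet.{0}) (L : ZFSet.{0}) : ZFSet.{0} :=
  ZFSet.sep (fun p => (∃ m ∈ ZFSet.omega, ∃ g ∈ M, IsBij m p g) ∧
    ∀ x ∈ M, ∀ a ∈ M, ∀ b ∈ M, pair x a ∈ p → pair x b ∈ p → a = b) (PM M L)

/-- The order: the larger sets are stronger. -/
noncomputable def FinR (M : Set ZFSet.{0}) (L : ZFSet.{0}) : ZFSet.{0} :=
  ZFSet.sep (fun z => ∃ p ∈ FinP M L, ∃ q ∈ FinP M L, z = pair p q ∧ q ⊆ p)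
    (ZFSet.prod (FinP M L) (FinP M L))

section

variable {M : Set ZFSet.{0}} (hM : IsZF M) {L : ZFSet.{0}} (hL : L ∈ M)

include hM hL

theorem FinP_mem : FinP M L ∈ M := by
  have hB := hM.base
  have h0 := hM.infinity
  refine hM.sep_mem (Q := fun p => (∃ m ∈ ZFSet.omega, ∃ g ∈ M, IsBij m p g) ∧
    ∀ x ∈ M, ∀ a ∈ M, ∀ b ∈ M, pair x a ∈ p → pair x b ∈ p → a = b) ?_ (PM_mem hM hL)
  (repeat' first
    | assumption
    | exact DfnF.proj _
    | exact DfnF.const (by assumption)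
    | exact DfnF.const' (by first | assumption | trivial) (by first | assumption | trivial)
    | exact Dfn.prop _
    | apply hB.isFunc' | apply hB.isInj' | apply hB.isBij' | apply hB.isOrdinal'
    | apply hB.subset' | apply hB.pair' | apply hB.insert'
    | apply Dfn.not | apply Dfn.and | apply Dfn.or | apply Dfn.imp | apply Dfn.iff
    | apply hB.bex | apply hB.ball | apply Dfn.ex | apply Dfn.all
    | apply Dfn.eq | apply Dfn.mem)

theorem FinR_mem : FinR M L ∈ M := by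
  have hB := hM.base
  have h0 := FinP_mem hM hL
  refine hM.sep_mem (Q := fun z => ∃ p ∈ FinP M L, ∃ q ∈ FinP M L, z = pair p q ∧ q ⊆ p) ?_
    (hM.prod_mem h0 h0)
  (repeat' first
    | assumption
    | exact DfnF.proj _
    | exact DfnF.const (by assumption)
    | exact DfnF.const' (by first | assumption | trivial) (by first | assumption | trivial)
    | exact Dfn.prop _
    | apply hB.isFunc' | apply hB.isInj' | apply hB.isBij' | apply hB.isOrdinal'
    | apply hB.subset' | apply hB.pair' | apply hB.insert'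
    | apply Dfn.not | apply Dfn.and | apply Dfn.or | apply Dfn.imp | apply Dfn.iff
    | apply hB.bex | apply hB.ball | apply Dfn.ex | apply Dfn.all
    | apply Dfn.eq | apply Dfn.mem)

theorem mem_FinP {p : ZFSet.{0}} : p ∈ FinP M L ↔ p ∈ M ∧ p ⊆ L ∧ {z | z ∈ p}.Finite ∧
    ∀ x a b, pair x a ∈ p → pair x b ∈ p → a = b := by
  rw [FinP, ZFSet.mem_sep, mem_PM, and_assoc]
  refine and_congr_right fun hp => and_congr_right fun _ => ?_
  rw [finite_iff hM hp]
  refine and_congr_right fun _ => ?_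
  constructor
  · intro h x a b ha hb
    obtain ⟨hx, ha'⟩ := hM.of_pair_mem (hM.trans _ hp _ ha)
    exact h x hx a ha' b (hM.of_pair_mem (hM.trans _ hp _ hb)).2 ha hb
  · exact fun h x _ a _ b _ => h x a b

omit hM hL in
theorem pair_mem_FinR {p q : ZFSet.{0}} : pair p q ∈ FinR M L ↔
    p ∈ FinP M L ∧ q ∈ FinP M L ∧ q ⊆ p := by
  rw [FinR, ZFSet.mem_sep, ZFSet.pair_mem_prod]
  constructor
  · rintro ⟨⟨h1, h2⟩, p', -, q', -, h3, h4⟩
    obtain ⟨rfl, rfl⟩ := ZFSet.pair_inj.1 h3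
    exact ⟨h1, h2, h4⟩
  · rintro ⟨h1, h2, h3⟩
    exact ⟨⟨h1, h2⟩, p, h1, q, h2, rfl, h3⟩

theorem isForcing : IsForcing (FinP M L) (FinR M L) := by
  refine ⟨fun p hp => pair_mem_FinR.2 ⟨hp, hp, fun _ h => h⟩, ?_, ?_, ∅, ?_, ?_⟩
  · intro p hp q _ r hr h1 h2
    exact pair_mem_FinR.2 ⟨hp, hr, fun z hz =>
      (pair_mem_FinR.1 h1).2.2 ((pair_mem_FinR.1 h2).2.2 hz)⟩
  · intro p _ q _ h1 h2
    ext z
    exact ⟨fun h => (pair_mem_FinR.1 h2).2.2 h, fun h => (pair_mem_FinR.1 h1).2.2 h⟩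
  · refine (mem_FinP hM hL).2 ⟨hM.empty_mem, ZFSet.empty_subset _, ?_, fun x a b h => ?_⟩
    · simp
    · exact absurd h (ZFSet.notMem_empty _)
  · intro p hp
    refine pair_mem_FinR.2 ⟨hp, ?_, ZFSet.empty_subset _⟩
    refine (mem_FinP hM hL).2 ⟨hM.empty_mem, ZFSet.empty_subset _, ?_, fun x a b h => ?_⟩
    · simp
    · exact absurd h (ZFSet.notMem_empty _)

theorem compat_of {p q : ZFSet.{0}} (hp : p ∈ FinP M L) (hq : q ∈ FinP M L)
    (h : ∀ x a b, pair x a ∈ p → pair x b ∈ q → a = b) : Compat (FinP M L) (FinR M L) p q := by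
  obtain ⟨h1, h2, h3, h4⟩ := (mem_FinP hM hL).1 hp
  obtain ⟨h5, h6, h7, h8⟩ := (mem_FinP hM hL).1 hq
  have h9 : p ∪ q ∈ FinP M L := by
    refine (mem_FinP hM hL).2 ⟨hM.union_mem h1 h5, fun z hz => ?_, ?_, ?_⟩
    · rcases ZFSet.mem_union.1 hz with hz | hz
      · exact h2 hz
      · exact h6 hz
    · refine (h3.union h7).subset fun z hz => ?_
      exact ZFSet.mem_union.1 hz
    · intro x a b ha hb
      rcases ZFSet.mem_union.1 ha with ha | ha <;> rcases ZFSet.mem_union.1 hb with hb | hb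
      · exact h4 x a b ha hb
      · exact h x a b ha hb
      · exact (h x b a hb ha).symm
      · exact h8 x a b ha hb
  exact ⟨p ∪ q, h9, pair_mem_FinR.2 ⟨h9, hp, fun z hz => ZFSet.mem_union.2 (Or.inl hz)⟩,
    pair_mem_FinR.2 ⟨h9, hq, fun z hz => ZFSet.mem_union.2 (Or.inr hz)⟩⟩

end

/-! ### Names -/

/-- The name for the set of all the pairs. -/
noncomputable def Lam : PName PA := PName.mk TT un fun _ => ⊤

theorem el_Lam {z : PName PA} {c : PA} : El Lam z c ↔ ∃ u, z = un u ∧ c = ⊤ := by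
  rw [Lam, el_mk]
  constructor
  · rintro ⟨u, rfl, rfl⟩
    exact ⟨u, rfl, rfl⟩
  · rintro ⟨u, rfl, rfl⟩
    exact ⟨u, rfl, rfl⟩

theorem hs_Lam : SA.HS Lam := by
  refine SA.hs_iff.2 ⟨sym_iff.2 ⟨∅, ?_⟩, fun z c hz => ?_⟩
  · intro (σ : ℕ → Equiv.Perm ℕ) _ p
    refine feq_of_el fun z c => ?_
    rw [el_act, el_Lam]
    constructor
    · rintro ⟨z', c', hz, rfl, rfl⟩
      obtain ⟨u, rfl, rfl⟩ := el_Lam.1 hz
      exact ⟨mv σ u, ax_un σ u, SA.top σ⟩
    · rintro ⟨u, rfl, rfl⟩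
      refine ⟨un (mv σ⁻¹ u), ⊤, el_Lam.2 ⟨_, rfl, rfl⟩, ?_, (SA.top σ).symm⟩
      have h := ax_un σ (mv σ⁻¹ u)
      have h2 : mv σ (mv σ⁻¹ u) = u := by
        obtain ⟨n, i, a⟩ := u
        unfold mv
        simp
      rw [h2] at h
      exact h.symm
  · obtain ⟨u, rfl, -⟩ := el_Lam.1 hz
    exact hs_un u

/-- The lists with columns in `e`. -/
def Le (e : Finset (ℕ × ℕ)) : Type := {l : List TT // ∀ u ∈ l, col u ∈ e}

/-- The codes of the lists with columns in `e`. -/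
noncomputable def A0 (e : Finset (ℕ × ℕ)) : ZFSet.{0} :=
  ZFSet.range fun l : Le e => cd l.1

/-- The name for the relation between the codes and the finite sets. -/
noncomputable def Rl (e : Finset (ℕ × ℕ)) : PName PA :=
  PName.mk (Le e) (fun l => opN (check (cd l.1)) (fnl un l.1)) fun _ => ⊤

theorem hs_Rl (e : Finset (ℕ × ℕ)) : SA.HS (Rl e) := by
  refine SA.hs_iff.2 ⟨sym_iff.2 ⟨e, ?_⟩, fun z c hz => ?_⟩
  · intro (σ : ℕ → Equiv.Perm ℕ) hσ p
    have h1 : act (SA.ac σ) (Rl e) = Rl e := by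
      unfold Rl
      rw [act]
      congr 1
      · funext l
        rw [act_opN (SA.top σ), act_check (SA.top σ)]
        congr 1
        have h2 := ax_fnl σ l.1
        change act (SA.ac σ) (fnl un l.1) = _ at h2
        rw [h2]
        congr 1
        conv_rhs => rw [← List.map_id l.1]
        refine List.map_congr_left fun u hu => ?_
        have h3 : σ u.1 u.2.1 = u.2.1 := hσ _ (l.2 u hu)
        unfold mv
        rw [h3]
        rfl
    rw [h1]
    exact Feq.refl _ _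
  · obtain ⟨l, rfl, -⟩ := hz
    exact SA.hs_opN (SA.hs_check _) (hs_fnlu _)

theorem card_A0 (e : Finset (ℕ × ℕ)) :
    (A0 e).card ≤ (Al (e.sup Prod.fst + 1)).card := by
  have h1 : (A0 e).card ≤ Cardinal.mk (Le e) := by
    have h2 : ∀ z : Ty (A0 e), ∃ l : Le e, cd l.1 = el z := fun z => ZFSet.mem_range.1 (el_mem z)
    choose g hg using h2
    refine Cardinal.mk_le_of_injective (f := g) fun a b hab => ?_
    have h3 := hg b
    rw [← hab, hg a] at h3
    exact el_injective h3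
  refine h1.trans ?_
  rw [card_Al]
  set m := e.sup Prod.fst with hm
  -- lists over a small type
  have hle : ∀ c ∈ e, c.1 ≤ m := fun c hc => Finset.le_sup (f := Prod.fst) hc
  let E : Type := Σ c : e, Ty (Al (c.1.1 + 1))
  have h2 : Cardinal.mk (Le e) ≤ Cardinal.mk (List E) := by
    let g : Le e → List E := fun l => l.1.attach.map fun u => ⟨⟨col u.1, l.2 u.1 u.2⟩, u.1.2.2⟩
    refine Cardinal.mk_le_of_injective (f := g) fun l l' hll => ?_
    let h : E → TT := fun x => ⟨x.1.1.1, x.1.1.2, x.2⟩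
    have h3 : ∀ l : Le e, (g l).map h = l.1 := by
      intro l
      simp only [g, List.map_map]
      conv_rhs => rw [← List.attach_map_subtype_val l.1]
      refine List.map_congr_left fun u _ => ?_
      rfl
    exact Subtype.ext (by rw [← h3 l, ← h3 l', hll])
  refine h2.trans ((Cardinal.mk_list_le_max _).trans (max_le (Cardinal.aleph0_le_aleph _) ?_))
  have h3 : Cardinal.mk E = Cardinal.sum fun c : e => Cardinal.mk (Ty (Al (c.1.1 + 1))) :=
    Cardinal.mk_sigma _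
  rw [h3]
  refine (Cardinal.sum_le_sum (fun c : e => Cardinal.mk (Ty (Al (c.1.1 + 1))))
    (fun _ => Cardinal.aleph ((m + 1 : ℕ) : Ordinal.{0})) fun c => ?_).trans ?_
  · have h4 : Cardinal.mk (Ty (Al (c.1.1 + 1))) = Cardinal.aleph ((c.1.1 + 1 : ℕ) : Ordinal.{0}) :=
      card_Al _
    rw [h4]
    refine Cardinal.aleph_le_aleph.2 ?_
    have h5 := hle c.1 c.2
    exact_mod_cast Nat.succ_le_succ h5
  · rw [Cardinal.sum_const, Cardinal.lift_id, Cardinal.lift_id]
    refine (mul_le_mul' (Cardinal.lt_aleph0_of_finite _).le le_rfl).trans ?_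
    refine (mul_le_mul' (Cardinal.aleph0_le_aleph ((m + 1 : ℕ) : Ordinal.{0})) le_rfl).trans ?_
    rw [Cardinal.mul_eq_self (Cardinal.aleph0_le_aleph _)]

/-- The packages for the model of the narrow forcing. -/
structure IsMod2 (π : Pkg PA) : Prop extends IsMod π where
  cl2 : ClR {rn insN, r0 (cdl un)} π
  lam : Lam ∈ π.N
  rl : ∀ e, Rl e ∈ π.N
  a0 : ∀ e, A0 e ∈ π.Z

theorem exists_mod2 : ∃ π : Pkg PA, IsMod2 π := by
  obtain ⟨π, h1, -, h3, h4⟩ := Sys.exists_cld SA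
    ({Lam, check AlF, check AlS} ∪ ((Set.range fun n => check (Al n)) ∪
      ((Set.range fun t : ℕ × ℕ => Gn Al t.1 t.2) ∪ ((Set.range Rl) ∪
      (Set.range fun e => check (A0 e))))))
    ((Set.toFinite _).countable.union
      ((Set.countable_range _).union ((Set.countable_range _).union
      ((Set.countable_range _).union (Set.countable_range _))))) {rn insN, r0 (cdl un)}
      (Set.toFinite _).countable ⊤
  exact ⟨π, ⟨h3, fun n i => h1 (Or.inr (Or.inr (Or.inl ⟨(n, i), rfl⟩))),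
    fun n => h1 (Or.inr (Or.inl ⟨n, rfl⟩)),
    h1 (Or.inl (by simp)), h1 (Or.inl (by simp))⟩, h4, h1 (Or.inl (by simp)),
    fun e => h1 (Or.inr (Or.inr (Or.inr (Or.inl ⟨e, rfl⟩)))),
    fun e => h1 (Or.inr (Or.inr (Or.inr (Or.inr ⟨e, rfl⟩))))⟩

end Pool.Agent.Q211.FS
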