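import Pool.Agent.Q211.FS.Rea
import Pool.Agent.Q211.FS.Nar2

/-!
# The basic Cohen model

We add infinitely many Cohen reals; the conditions for one real number are rational intervals.
-/

set_option autoImplicit false
set_option linter.unusedSectionVars false
set_option linter.unreachableTactic false
set_option linter.unusedTactic false

namespace Pool.Agent.Q211.FS

open Pool.Agent.W868 Pool.Agent.W868.PName Pool.Agent.Q211.SY
open ZFSet (pair)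

/-- Open intervals with rational endpoints. -/
structure RI : Type where
  /-- the left endpoint -/
  a : ℚ
  /-- the right endpoint -/
  b : ℚ
  /-- the interval is not empty -/
  h : a < b

instance : Preorder RI where
  le I J := J.a ≤ I.a ∧ I.b ≤ J.b
  le_refl I := ⟨le_rfl, le_rfl⟩
  le_trans I J L h1 h2 := ⟨h2.1.trans h1.1, h1.2.trans h2.2⟩

theorem RI.le_def {I J : RI} : I ≤ J ↔ J.a ≤ I.a ∧ I.b ≤ J.b := Iff.rfl

/-- The notion of forcing for one Cohen real. -/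
abbrev QI : Unit → Type := fun _ => WithTop RI

theorem le_coe {x : WithTop RI} {I : RI} (h : x ≤ I) : ∃ L : RI, x = L ∧ L ≤ I :=
  WithTop.le_coe_iff.1 h

/-- The notion of forcing. -/
abbrev PC : Type := FP QI

/-- The symmetric system. -/
noncomputable abbrev SC : Sys PC := Sy QI

/-- Changing the interval of one column. -/
noncomputable abbrev ud (q : PC) (i : ℕ) (I : RI) : PC := upd q () i (I : WithTop RI)

theorem ud_self (q : PC) (i : ℕ) (I : RI) : (ud q i I).1 () i = I := upd_self _ _ _ _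

theorem ud_ne' (q : PC) {i j : ℕ} (I : RI) (h : j ≠ i) : (ud q i I).1 () j = q.1 () j :=
  upd_ne _ _ _ _ fun h' => h h'.2

theorem ud_le {q : PC} {i : ℕ} {I : RI} (h : (I : WithTop RI) ≤ q.1 () i) : ud q i I ≤ q :=
  upd_le h

theorem exists_RI {a b : ℝ} (h : a < b) : ∃ I : RI, a < I.a ∧ (I.b : ℝ) < b := by
  obtain ⟨x, h1, h2⟩ := exists_rat_btwn h
  obtain ⟨y, h3, h4⟩ := exists_rat_btwn h2
  exact ⟨⟨x, y, by exact_mod_cast h3⟩, h1, h4⟩

/-- The name of the set of codes of rational numbers below the Cohen real. -/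
noncomputable def Cn (i : ℕ) : PName PC :=
  PName.mk {t : RI × (ℕ × ℕ × ℕ) // qv t.2 ≤ t.1.a} (fun t => check (qc t.1.2))
    (fun t => ud ⊤ i t.1.1)

theorem le_ud_top {i : ℕ} {I : RI} {p : PC} : p ≤ ud ⊤ i I ↔ p.1 () i ≤ I := by
  constructor
  · intro h
    have h1 := h () i
    rwa [ud_self] at h1
  · intro h k j
    by_cases h2 : k = () ∧ j = i
    · obtain ⟨rfl, rfl⟩ := h2
      rwa [ud_self]
    · rw [upd_ne _ _ _ _ h2]
      exact le_top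

theorem ax_Cn (σ : Unit → Equiv.Perm ℕ) (i : ℕ) : ax σ (Cn i) = Cn (σ () i) := by
  have h3 : ∀ x : RI, FP.sm σ (ud ⊤ i x) = ud (⊤ : PC) (σ () i) x := by
    intro x
    refine FP.ext' fun k j => ?_
    rw [FP.sm_app]
    by_cases h2 : k = () ∧ j = σ () i
    · obtain ⟨rfl, rfl⟩ := h2
      have h4 : (σ ())⁻¹ (σ () i) = i := by rw [Equiv.Perm.inv_eq_iff_eq]
      rw [ud_self, h4, ud_self]
    · rw [upd_ne _ _ _ _ h2, upd_ne]
      · rfl
      · rintro ⟨rfl, h4⟩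
        rw [Equiv.Perm.inv_eq_iff_eq] at h4
        exact h2 ⟨rfl, h4⟩
  change act (FP.ac σ) (Cn i) = _
  unfold Cn
  rw [act]
  congr 1
  · funext t
    change act (SC.ac σ) _ = _
    rw [act_check (SC.top σ)]
  · funext t
    exact h3 _

theorem fx_Cn (i : ℕ) : Fx {((), i)} (Cn i) := by
  intro (σ : Unit → Equiv.Perm ℕ) hσ p
  have h1 : σ () i = i := mem_Hs.1 hσ ((), i) (Finset.mem_singleton_self _)
  have h2 := ax_Cn σ i
  rw [h1] at h2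
  change Feq (ax σ (Cn i)) _ _
  rw [h2]
  exact Feq.refl _ _

theorem hs_Cn (i : ℕ) : SC.HS (Cn i) := by
  refine SC.hs_iff.2 ⟨sym_iff.2 ⟨_, fx_Cn i⟩, fun z c hz => ?_⟩
  obtain ⟨t, rfl, rfl⟩ := hz
  exact SC.hs_check _

/-- The name of the set of the Cohen reals. -/
noncomputable def An : PName PC := PName.mk ℕ Cn fun _ => ⊤

theorem el_An {z : PName PC} {c : PC} : El An z c ↔ ∃ i, z = Cn i ∧ c = ⊤ := by
  rw [An, el_mk]
  constructor
  · rintro ⟨i, rfl, rfl⟩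
    exact ⟨i, rfl, rfl⟩
  · rintro ⟨i, rfl, rfl⟩
    exact ⟨i, rfl, rfl⟩

theorem fx_An : Fx ∅ An := by
  intro (σ : Unit → Equiv.Perm ℕ) _ p
  refine feq_of_el fun z c => ?_
  rw [el_act, el_An]
  constructor
  · rintro ⟨z', c', hz, rfl, rfl⟩
    obtain ⟨i, rfl, rfl⟩ := el_An.1 hz
    exact ⟨σ () i, ax_Cn σ i, SC.top σ⟩
  · rintro ⟨i, rfl, rfl⟩
    refine ⟨Cn ((σ ())⁻¹ i), ⊤, el_An.2 ⟨_, rfl, rfl⟩, ?_, (SC.top σ).symm⟩
    have h := ax_Cn σ ((σ ())⁻¹ i)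
    have h2 : σ () ((σ ())⁻¹ i) = i := by simp
    rw [h2] at h
    exact h.symm

theorem hs_An : SC.HS An := by
  refine SC.hs_iff.2 ⟨sym_iff.2 ⟨∅, fx_An⟩, fun z c hz => ?_⟩
  obtain ⟨i, rfl, -⟩ := el_An.1 hz
  exact hs_Cn i

/-- Dense sets for one column. -/
def DD (i : ℕ) (y : ℝ) : Set PC := {r | ∃ I : RI, r.1 () i = I ∧ (y < I.a ∨ (I.b : ℝ) < y)}

/-- Dense sets for density of the set of the Cohen reals. -/
def DE (s t : ℚ) : Set PC := {r | ∃ (i : ℕ) (I : RI), r.1 () i = I ∧ s ≤ I.a ∧ I.b ≤ t}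

theorem DD_dense (i : ℕ) (y : ℝ) (q : PC) : ∃ r ≤ q, r ∈ DD i y := by
  rcases h : q.1 () i with _ | I
  · obtain ⟨I, h1, h2⟩ := exists_RI (show y < y + 1 by linarith)
    exact ⟨ud q i I, ud_le (by rw [h]; exact le_top), I, ud_self _ _ _, Or.inl h1⟩
  · rcases lt_or_ge y I.b with hy | hy
    · obtain ⟨J, h1, h2⟩ := exists_RI (show max y I.a < I.b from
        max_lt hy (by exact_mod_cast I.h))
      refine ⟨ud q i J, ud_le ?_, J, ud_self _ _ _, Or.inl ((le_max_left _ _).trans_lt h1)⟩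
      rw [h]
      refine WithTop.coe_le_coe.2 ⟨?_, ?_⟩
      · have h3 := (le_max_right y (I.a : ℝ)).trans_lt h1
        exact_mod_cast h3.le
      · exact_mod_cast h2.le
    · obtain ⟨J, h1, h2⟩ := exists_RI (show (I.a : ℝ) < I.b by exact_mod_cast I.h)
      refine ⟨ud q i J, ud_le ?_, J, ud_self _ _ _, Or.inr (h2.trans_le hy)⟩
      rw [h]
      exact WithTop.coe_le_coe.2 ⟨by exact_mod_cast h1.le, by exact_mod_cast h2.le⟩

theorem DE_dense {s t : ℚ} (hst : s < t) (q : PC) : ∃ r ≤ q, r ∈ DE s t := by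
  obtain ⟨i, hi⟩ := Infinite.exists_notMem_finset (q.supp.image Prod.snd)
  have h1 : q.1 () i = ⊤ := by
    by_contra h
    exact hi (Finset.mem_image.2 ⟨((), i), FP.mem_supp.2 h, rfl⟩)
  exact ⟨ud q i ⟨s, t, hst⟩, ud_le (by rw [h1]; exact le_top), i, ⟨s, t, hst⟩, ud_self _ _ _,
    le_rfl, le_rfl⟩

/-- The packages for the basic Cohen model. -/
structure IsCM (Y : Set ℝ) (π : Pkg PC) : Prop where
  cl : SC.Cld π
  cn : ∀ i, Cn i ∈ π.N
  an : An ∈ π.N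
  qc : Qc ∈ π.Z
  lq : LQ ∈ π.Z
  dd : ∀ i, ∀ y ∈ Y, Sys.nm PC (DD i y) ∈ π.N
  dq : ∀ i (y : ℚ), Sys.nm PC (DD i y) ∈ π.N
  de : ∀ s t : ℚ, Sys.nm PC (DE s t) ∈ π.N
  yz : ∀ y ∈ Y, cutS y ∈ π.Z

theorem exists_CM (Y : Set ℝ) (hY : Y.Countable) : ∃ π : Pkg PC, IsCM Y π := by
  obtain ⟨π, h1, -, h3, -⟩ := Sys.exists_cld SC
    ({An, check Qc, check LQ} ∪ ((Set.range Cn) ∪ ((⋃ i : ℕ, (fun y => Sys.nm PC (DD i y)) '' Y) ∪
      ((Set.range fun t : ℕ × ℚ => Sys.nm PC (DD t.1 t.2)) ∪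
      ((Set.range fun t : ℚ × ℚ => Sys.nm PC (DE t.1 t.2)) ∪ (fun y => check (cutS y)) '' Y)))))
    ((Set.toFinite _).countable.union ((Set.countable_range _).union
      ((Set.countable_iUnion fun i => hY.image _).union ((Set.countable_range _).union
      ((Set.countable_range _).union (hY.image _)))))) ∅ Set.countable_empty ⊤
  exact ⟨π, ⟨h3, fun i => h1 (Or.inr (Or.inl ⟨i, rfl⟩)), h1 (Or.inl (by simp)),
    h1 (Or.inl (by simp)), h1 (Or.inl (by simp)),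
    fun i y hy => h1 (Or.inr (Or.inr (Or.inl (Set.mem_iUnion.2 ⟨i, y, hy, rfl⟩)))),
    fun i y => h1 (Or.inr (Or.inr (Or.inr (Or.inl ⟨(i, y), rfl⟩)))),
    fun s t => h1 (Or.inr (Or.inr (Or.inr (Or.inr (Or.inl ⟨(s, t), rfl⟩))))),
    fun y hy => h1 (Or.inr (Or.inr (Or.inr (Or.inr (Or.inr ⟨y, hy, rfl⟩)))))⟩⟩

/-- The interval `I` contains the Cohen real of the column `i`. -/
def InG (π : Pkg PC) (i : ℕ) (I : RI) : Prop := ∃ j, (π.g j).1 () i = I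

theorem InG.chain {π : Pkg PC} {i : ℕ} {I J : RI} (hI : InG π i I) (hJ : InG π i J) :
    ∃ L, InG π i L ∧ L ≤ I ∧ L ≤ J := by
  obtain ⟨j, hj⟩ := hI
  obtain ⟨k, hk⟩ := hJ
  have h1 := (π.g_le_left j k) () i
  have h2 := (π.g_le_right j k) () i
  rw [hj] at h1
  rw [hk] at h2
  obtain ⟨L, h, h3⟩ := le_coe h1
  rw [h] at h2
  exact ⟨L, ⟨_, h⟩, h3, WithTop.coe_le_coe.1 h2⟩

theorem InG.lt {π : Pkg PC} {i : ℕ} {I J : RI} (hI : InG π i I) (hJ : InG π i J) :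
    I.a < J.b := by
  obtain ⟨L, -, h1, h2⟩ := hI.chain hJ
  exact h1.1.trans_lt (L.h.trans_le h2.2)

/-- The Cohen real. -/
noncomputable def cr (π : Pkg PC) (i : ℕ) : ℝ := sSup {x : ℝ | ∃ I, InG π i I ∧ x = I.a}

namespace IsCM

variable {Y : Set ℝ} {π : Pkg PC} (h : IsCM Y π)

include h

theorem isZF : IsZF (SC.Ms π) := T_ZF.isZF h.cl

theorem exists_InG_q (i : ℕ) (y : ℚ) : ∃ I, InG π i I ∧ ((y : ℝ) < I.a ∨ (I.b : ℝ) < y) := by
  obtain ⟨k, -, r, ⟨I, hI, h1⟩, hr⟩ := gen_dense π (h.dq i y) (m := 0)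
    fun q _ => DD_dense i y q
  have h2 := hr () i
  rw [hI] at h2
  obtain ⟨J, h3, h4⟩ := le_coe h2
  refine ⟨J, ⟨k, h3⟩, ?_⟩
  rcases h1 with h1 | h1
  · exact Or.inl (h1.trans_le (by exact_mod_cast h4.1))
  · exact Or.inr (lt_of_le_of_lt (by exact_mod_cast h4.2) h1)

theorem exists_InG_y (i : ℕ) {y : ℝ} (hy : y ∈ Y) :
    ∃ I, InG π i I ∧ (y < I.a ∨ (I.b : ℝ) < y) := by
  obtain ⟨k, -, r, ⟨I, hI, h1⟩, hr⟩ := gen_dense π (h.dd i y hy) (m := 0)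
    fun q _ => DD_dense i y q
  have h2 := hr () i
  rw [hI] at h2
  obtain ⟨J, h3, h4⟩ := le_coe h2
  refine ⟨J, ⟨k, h3⟩, ?_⟩
  rcases h1 with h1 | h1
  · exact Or.inl (h1.trans_le (by exact_mod_cast h4.1))
  · exact Or.inr (lt_of_le_of_lt (by exact_mod_cast h4.2) h1)

theorem cr_mem {i : ℕ} {I : RI} (hI : InG π i I) : (I.a : ℝ) < cr π i ∧ cr π i < I.b := by
  have hne : {x : ℝ | ∃ I, InG π i I ∧ x = I.a}.Nonempty := ⟨_, I, hI, rfl⟩
  have hb : ∀ J, InG π i J → ∀ x ∈ {x : ℝ | ∃ I, InG π i I ∧ x = I.a}, x ≤ J.b := by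
    rintro J hJ _ ⟨L, hL, rfl⟩
    exact_mod_cast (hL.lt hJ).le
  have hbd : BddAbove {x : ℝ | ∃ I, InG π i I ∧ x = I.a} := ⟨_, hb I hI⟩
  constructor
  · obtain ⟨J, hJ, h1⟩ := h.exists_InG_q i I.a
    rcases h1 with h1 | h1
    · exact h1.trans_le (le_csSup hbd ⟨J, hJ, rfl⟩)
    · have h2 := hI.lt hJ
      have h3 : J.b < I.a := by exact_mod_cast h1
      exact absurd h2 (not_lt.2 h3.le)
  · obtain ⟨J, hJ, h1⟩ := h.exists_InG_q i I.b
    rcases h1 with h1 | h1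
    · have h2 := hJ.lt hI
      have h3 : I.b < J.a := by exact_mod_cast h1
      exact absurd h2 (not_lt.2 h3.le)
    · exact lt_of_le_of_lt (csSup_le hne (hb J hJ)) h1

theorem cr_ne_rat (i : ℕ) (y : ℚ) : cr π i ≠ y := by
  obtain ⟨I, hI, h1⟩ := h.exists_InG_q i y
  obtain ⟨h2, h3⟩ := h.cr_mem hI
  rcases h1 with h1 | h1
  · exact (h1.trans h2).ne'
  · exact (h3.trans h1).ne

theorem cr_ne (i : ℕ) {y : ℝ} (hy : y ∈ Y) : cr π i ≠ y := by
  obtain ⟨I, hI, h1⟩ := h.exists_InG_y i hy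
  obtain ⟨h2, h3⟩ := h.cr_mem hI
  rcases h1 with h1 | h1
  · exact (h1.trans h2).ne'
  · exact (h3.trans h1).ne

theorem irrational (i : ℕ) : Irrational (cr π i) := by
  rintro ⟨q, hq⟩
  exact h.cr_ne_rat i q hq.symm

theorem val_Cn (i : ℕ) : π.val (Cn i) = cutS (cr π i) := by
  ext z
  rw [π.mem_val, mem_cutS]
  constructor
  · rintro ⟨w, hw, c, ⟨⟨⟨I, t⟩, ht⟩, rfl, rfl⟩, ⟨j, hj⟩, rfl⟩
    have h1 : (π.g j).1 () i ≤ I := le_ud_top.1 hj
    obtain ⟨J, h2, h3⟩ := le_coe h1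
    have h4 := (h.cr_mem (I := J) ⟨j, h2⟩).1
    refine ⟨t, ?_, (qc_Z π t).2⟩
    have h5 : (I.a : ℝ) ≤ J.a := by exact_mod_cast h3.1
    have h6 : qv t ≤ I.a := ht
    linarith
  · rintro ⟨t, ht, rfl⟩
    have hne : {x : ℝ | ∃ I, InG π i I ∧ x = I.a}.Nonempty := by
      obtain ⟨I, hI, -⟩ := h.exists_InG_q i 0
      exact ⟨_, I, hI, rfl⟩
    obtain ⟨_, ⟨I, ⟨j, hj⟩, rfl⟩, h1⟩ := exists_lt_of_lt_csSup hne ht
    exact ⟨check (FS.qc t), (qc_Z π t).1, _, ⟨⟨(I, t), h1.le⟩, rfl, rfl⟩,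
      ⟨j, le_ud_top.2 hj.le⟩, (qc_Z π t).2⟩

theorem mem_An {z : ZFSet.{0}} : z ∈ π.val An ↔ ∃ i, z = cutS (cr π i) := by
  rw [π.mem_val]
  constructor
  · rintro ⟨w, hw, c, hc, -, rfl⟩
    obtain ⟨i, rfl, -⟩ := el_An.1 hc
    exact ⟨i, h.val_Cn i⟩
  · rintro ⟨i, rfl⟩
    exact ⟨_, h.cn i, ⊤, el_An.2 ⟨i, rfl, rfl⟩, ⟨0, le_top⟩, h.val_Cn i⟩

/-- The set of the Cohen reals is dense. -/
theorem cr_dense {s t : ℝ} (hst : s < t) : ∃ i, s < cr π i ∧ cr π i < t := by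
  obtain ⟨I, h1, h2⟩ := exists_RI hst
  obtain ⟨k, -, r, ⟨i, J, hJ, h3, h4⟩, hr⟩ := gen_dense π (h.de I.a I.b) (m := 0)
    fun q _ => DE_dense I.h q
  have h5 := hr () i
  rw [hJ] at h5
  obtain ⟨L, h6, h7⟩ := le_coe h5
  obtain ⟨h8, h9⟩ := h.cr_mem (I := L) ⟨k, h6⟩
  have h10 : (I.a : ℝ) ≤ L.a := by exact_mod_cast h3.trans h7.1
  have h11 : (L.b : ℝ) ≤ I.b := by exact_mod_cast h7.2.trans h4
  exact ⟨i, by linarith, by linarith⟩

end IsCM

/-- The value of the name of a Cohen real, in any closed package, below a condition. -/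
theorem mem_Cn_of {π : Pkg PC} (hN : ∀ t : ℕ × ℕ × ℕ, (check (qc t) : PName PC) ∈ π.N)
    {i : ℕ} {I : RI} {j : ℕ} (hj : (π.g j).1 () i ≤ I) {t : ℕ × ℕ × ℕ} :
    (qv t ≤ I.a → qc t ∈ π.val (Cn i)) ∧ ((I.b : ℝ) ≤ qv t → qc t ∉ π.val (Cn i)) := by
  constructor
  · intro ht
    rw [π.mem_val]
    exact ⟨check (qc t), hN t, _, ⟨⟨(I, t), ht⟩, rfl, rfl⟩, ⟨j, le_ud_top.2 hj⟩, (qc_Z π t).2⟩
  · intro ht hmem
    rw [π.mem_val] at hmem
    obtain ⟨w, hw, c, ⟨⟨⟨J, t'⟩, ht'⟩, rfl, rfl⟩, ⟨k, hk⟩, h1⟩ := hmem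
    have h2 : qc t' = qc t := by
      rw [← (qc_Z π t').2]
      exact h1
    have h3 := qc_injective h2
    subst h3
    have h4 : (π.g k).1 () i ≤ J := le_ud_top.1 hk
    have h5 := ((π.g_le_left j k) () i).trans hj
    have h6 := ((π.g_le_right j k) () i).trans h4
    obtain ⟨L, h7, h8⟩ := le_coe h5
    · rw [h7] at h6
      have h9 := WithTop.coe_le_coe.1 h6
      have h10 : (J.a : ℝ) ≤ L.a := by exact_mod_cast h9.1
      have h11 : (L.b : ℝ) ≤ I.b := by exact_mod_cast h8.2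
      have h12 : (L.a : ℝ) < L.b := by exact_mod_cast L.h
      have h13 : qv t' ≤ J.a := ht'
      linarith

end Pool.Agent.Q211.FS
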