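import Pool.Agent.Q211.FS.Sep2
import Pool.Agent.W868.Cohen

/-!
# The collapse of all the cardinals below the first singular cardinal, with finite supports
-/

set_option autoImplicit false
set_option linter.unusedSectionVars false
set_option linter.unreachableTactic false
set_option linter.unusedTactic false

namespace Pool.Agent.Q211.FS

open Pool.Agent.W868 Pool.Agent.W868.PName Pool.Agent.Q211.SY
open ZFSet (pair)

/-- Finite sequences of elements of `A`, the longer ones being stronger. -/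
@[ext] structure CQ (A : Type) where
  /-- the sequence -/
  l : List A

instance (A : Type) : Preorder (CQ A) where
  le p q := ∃ r : List A, q.l ++ r = p.l
  le_refl p := ⟨[], List.append_nil p.l⟩
  le_trans := by
    rintro p q r ⟨a, ha⟩ ⟨b, hb⟩
    exact ⟨b ++ a, by rw [← List.append_assoc, hb, ha]⟩

instance (A : Type) : OrderTop (CQ A) where
  top := ⟨[]⟩
  le_top p := ⟨p.l, rfl⟩

/-- The value at `m`. -/
def CQ.at {A : Type} (p : CQ A) (m : ℕ) : Option A := p.l[m]?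

theorem CQ.at_mono {A : Type} {p q : CQ A} (h : p ≤ q) {m : ℕ} {a : A} (ha : q.at m = some a) :
    p.at m = some a := by
  obtain ⟨r, hr⟩ := h
  unfold CQ.at at ha ⊢
  rw [← hr, List.getElem?_append_left]
  · exact ha
  · obtain ⟨h1, -⟩ := List.getElem?_eq_some_iff.1 ha
    exact h1

/-- The extension of `p` by `a`. -/
def CQ.snoc {A : Type} (p : CQ A) (a : A) : CQ A := ⟨p.l ++ [a]⟩

theorem CQ.snoc_le {A : Type} (p : CQ A) (a : A) : p.snoc a ≤ p := ⟨[a], rfl⟩

theorem CQ.snoc_at {A : Type} (p : CQ A) (a : A) : (p.snoc a).at p.l.length = some a := by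
  unfold CQ.at CQ.snoc
  simp

theorem CQ.mk_le {A : Type} {c : Cardinal.{0}} (hc : Cardinal.aleph0 ≤ c)
    (hA : Cardinal.mk A ≤ c) : Cardinal.mk (CQ A) ≤ c := by
  have h : Function.Injective (CQ.l : CQ A → List A) := fun p q h => CQ.ext h
  exact (Cardinal.mk_le_of_injective h).trans ((Cardinal.mk_list_le_max A).trans (max_le hc hA))

/-- Changing one column. -/
noncomputable def upd {K : Type} {Q : K → Type} [∀ k, Preorder (Q k)] [∀ k, OrderTop (Q k)]
    [DecidableEq K] (p : FP Q) (k : K) (i : ℕ) (x : Q k) : FP Q :=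
  ⟨fun k' i' => if h : k' = k ∧ i' = i then h.1 ▸ x else p.1 k' i', by
    refine (p.2.union (Set.finite_singleton (k, i))).subset ?_
    rintro ⟨k', i'⟩ h
    simp only [ne_eq, Set.mem_setOf_eq] at h
    by_cases h1 : k' = k ∧ i' = i
    · exact Or.inr (Prod.ext h1.1 h1.2)
    · rw [dif_neg h1] at h
      exact Or.inl h⟩

section upd

variable {K : Type} {Q : K → Type} [∀ k, Preorder (Q k)] [∀ k, OrderTop (Q k)]
    [DecidableEq K]

theorem upd_self (p : FP Q) (k : K) (i : ℕ) (x : Q k) : (upd p k i x).1 k i = x := by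
  simp [upd]

theorem upd_ne (p : FP Q) (k : K) (i : ℕ) (x : Q k) {k' : K} {i' : ℕ} (h : ¬ (k' = k ∧ i' = i)) :
    (upd p k i x).1 k' i' = p.1 k' i' := dif_neg h

theorem upd_le {p : FP Q} {k : K} {i : ℕ} {x : Q k} (h : x ≤ p.1 k i) : upd p k i x ≤ p := by
  intro k' i'
  by_cases h1 : k' = k ∧ i' = i
  · obtain ⟨rfl, rfl⟩ := h1
    rwa [upd_self]
  · rw [upd_ne _ _ _ _ h1]

end upd

/-- A dense set of conditions that force a statement. -/
theorem of_dense {P : Type} [Preorder P] [OrderTop P] {S : Sys P} {n : ℕ}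
    {R : Set ZFSet.{0} → (Fin n → ZFSet.{0}) → Prop} (h : UD R) {x : Fin n → PName P}
    (hx : ∀ i, S.HS (x i)) {π : Pkg P} (hcl : S.Cld π) (hN : ∀ i, x i ∈ π.N) {m : ℕ}
    (hd : ∀ q ≤ π.g m, ∃ r ≤ q, ∀ π' : Pkg P, S.Cld π' → (∀ i, x i ∈ π'.N) →
      (∃ k, π'.g k ≤ r) → R (S.Ms π') (π'.val ∘ x)) : R (S.Ms π) (π.val ∘ x) := by
  refine (Sys.frc_sem hx (h := h) (p := π.g m)).1 ?_ π hcl hN ⟨m, le_rfl⟩
  refine Sys.frc_dense fun q hq => ?_
  obtain ⟨r, hr, h1⟩ := hd q hq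
  exact ⟨r, hr, (Sys.frc_sem hx).2 h1⟩

section gen

variable {A : ℕ → ZFSet.{0}}

/-- The notions of forcing. -/
abbrev QQ (A : ℕ → ZFSet.{0}) (n : ℕ) : Type := CQ (Ty (A n))

/-- The name of the generic function. -/
noncomputable def Gn (A : ℕ → ZFSet.{0}) (n i : ℕ) : PName (FP (QQ A)) :=
  PName.mk {t : CQ (Ty (A n)) × ℕ × Ty (A n) // t.1.at t.2.1 = some t.2.2}
    (fun t => opN (check (nat t.1.2.1)) (check (el t.1.2.2)))
    (fun t => upd ⊤ n i t.1.1)

theorem fx_Gn (n i : ℕ) : Fx {(n, i)} (Gn A n i) := by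
  intro (σ : ℕ → Equiv.Perm ℕ) hσ p
  have h1 : σ n i = i := mem_Hs.1 hσ (n, i) (Finset.mem_singleton_self _)
  have h3 : ∀ x : CQ (Ty (A n)), FP.sm σ (upd ⊤ n i x) = upd (⊤ : FP (QQ A)) n i x := by
    intro x
    refine FP.ext' fun k j => ?_
    rw [FP.sm_app]
    by_cases h2 : k = n ∧ j = i
    · obtain ⟨rfl, rfl⟩ := h2
      have h4 : (σ k)⁻¹ j = j := by
        rw [Equiv.Perm.inv_eq_iff_eq]
        exact h1.symm
      rw [h4]
    · rw [upd_ne _ _ _ _ h2, upd_ne]
      · rfl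
      · rintro ⟨rfl, h4⟩
        rw [Equiv.Perm.inv_eq_iff_eq, h1] at h4
        exact h2 ⟨rfl, h4⟩
  have h4 : act ((Sy (QQ A)).ac σ) (Gn A n i) = Gn A n i := by
    unfold Gn
    rw [act]
    congr 1
    · funext t
      rw [act_opN ((Sy (QQ A)).top σ), act_check ((Sy (QQ A)).top σ),
        act_check ((Sy (QQ A)).top σ)]
    · funext t
      exact h3 _
  rw [h4]
  exact Feq.refl _ _

theorem hs_Gn (n i : ℕ) : (Sy (QQ A)).HS (Gn A n i) := by
  refine (Sy (QQ A)).hs_iff.2 ⟨sym_iff.2 ⟨_, fx_Gn n i⟩, fun z c hz => ?_⟩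
  obtain ⟨t, rfl, rfl⟩ := hz
  exact (Sy (QQ A)).hs_opN ((Sy (QQ A)).hs_check _) ((Sy (QQ A)).hs_check _)

theorem le_upd_top {n i : ℕ} {x : CQ (Ty (A n))} {p : FP (QQ A)} :
    p ≤ upd ⊤ n i x ↔ p.1 n i ≤ x := by
  constructor
  · intro h
    have h1 := h n i
    rwa [upd_self] at h1
  · intro h k j
    by_cases h2 : k = n ∧ j = i
    · obtain ⟨rfl, rfl⟩ := h2
      rwa [upd_self]
    · rw [upd_ne _ _ _ _ h2]
      exact le_top

theorem mem_Gn (π : Pkg (FP (QQ A))) {n i : ℕ} {z : ZFSet.{0}} : z ∈ π.val (Gn A n i) ↔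
    ∃ (m : ℕ) (a : Ty (A n)), el a ∈ π.Z ∧ z = pair (nat m) (π.hat (el a)) ∧
      ∃ j, ((π.g j).1 n i).at m = some a := by
  rw [Pkg.mem_val]
  constructor
  · rintro ⟨t, ht, c, hc, ⟨j, hj⟩, he⟩
    obtain ⟨⟨⟨x, m, a⟩, hx⟩, rfl, rfl⟩ := el_mk.1 hc
    have h1 : el a ∈ π.Z := π.snd_mem ht
    have h2 := π.val_opN (π.fst_mem ht) (π.snd_mem ht)
    refine ⟨m, a, h1, ?_, j, CQ.at_mono (le_upd_top.1 hj) hx⟩
    rw [← he, h2]
    have h5 : π.val (check (nat m)) = nat m := π.hat_nat m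
    rw [h5]
    rfl
  · rintro ⟨m, a, ha, rfl, j, hj⟩
    refine ⟨opN (check (nat m)) (check (el a)), π.opN_mem (π.nat_Z m) ha, _,
      el_mk.2 ⟨⟨((π.g j).1 n i, m, a), hj⟩, rfl, rfl⟩, ⟨j, le_upd_top.2 le_rfl⟩, ?_⟩
    rw [π.val_opN (π.nat_Z m) ha]
    have h5 : π.val (check (nat m)) = nat m := π.hat_nat m
    rw [h5]
    rfl

theorem ud_rng : UD fun _ (v : Fin 2 → ZFSet.{0}) => ∃ m ∈ ZFSet.omega, pair m (v 1) ∈ v 0 := by
  (repeat' first
    | assumption
    | exact UF.proj _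
    | exact UF.om
    | exact UD.prop _
    | apply UD.not | apply UD.and | apply UD.or | apply UD.imp | apply UD.iff
    | apply UD.bex | apply UD.ball | apply UD.ex | apply UD.all
    | apply UD.eq | apply UD.mem | apply UF.pair)

/-- The generic function is onto. -/
theorem Gn_onto {π : Pkg (FP (QQ A))} (hcl : (Sy (QQ A)).Cld π) {n i : ℕ}
    (hG : Gn A n i ∈ π.N) {a : ZFSet.{0}} (ha : a ∈ A n) (haZ : a ∈ π.Z) :
    ∃ m, pair (nat m) (π.hat a) ∈ π.val (Gn A n i) := by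
  obtain ⟨t, rfl⟩ := exists_el ha
  have h1 : ∃ m ∈ ZFSet.omega, pair m (π.val (check (el t))) ∈ π.val (Gn A n i) := by
    refine of_dense (S := Sy (QQ A)) ud_rng (x := ![Gn A n i, check (el t)]) ?_ hcl ?_
      (m := 0) ?_
    · intro i'
      fin_cases i'
      exacts [hs_Gn _ _, (Sy (QQ A)).hs_check _]
    · intro i'
      fin_cases i'
      exacts [hG, haZ]
    · intro q _
      refine ⟨upd q n i ((q.1 n i).snoc t), upd_le (CQ.snoc_le _ _), ?_⟩
      rintro π' hcl' hN' ⟨k, hk⟩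
      have h2 : ((π'.g k).1 n i).at ((q.1 n i).l.length) = some t := by
        refine CQ.at_mono (hk n i) ?_
        rw [upd_self]
        exact CQ.snoc_at _ _
      refine ⟨_, mem_omega_iff.2 ⟨(q.1 n i).l.length, rfl⟩, ?_⟩
      exact (mem_Gn π').2 ⟨_, t, hN' 1, rfl, k, h2⟩
  obtain ⟨m, hm, h2⟩ := h1
  obtain ⟨m, rfl⟩ := mem_omega_iff.1 hm
  exact ⟨m, h2⟩

theorem Gn_func (π : Pkg (FP (QQ A))) {n i : ℕ} {m a b : ZFSet.{0}}
    (h1 : pair m a ∈ π.val (Gn A n i)) (h2 : pair m b ∈ π.val (Gn A n i)) : a = b := by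
  obtain ⟨m1, t1, h3, h4, j1, h5⟩ := (mem_Gn π).1 h1
  obtain ⟨m2, t2, h6, h7, j2, h8⟩ := (mem_Gn π).1 h2
  obtain ⟨rfl, rfl⟩ := ZFSet.pair_inj.1 h4
  obtain ⟨h9, rfl⟩ := ZFSet.pair_inj.1 h7
  obtain rfl := nat_injective h9
  have h10 := CQ.at_mono ((π.g_le_left j1 j2) n i) h5
  have h11 := CQ.at_mono ((π.g_le_right j1 j2) n i) h8
  rw [h10] at h11
  rw [Option.some.inj h11]

theorem cnt_omega {M : Set ZFSet.{0}} (hM : IsZF M) : CntIn M ZFSet.omega := by
  have hB := hM.base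
  obtain ⟨f, hf, hf1, hf2⟩ := hM.rel_mem hM.infinity hM.infinity (Q := fun a b => a = b) (by
    (repeat' first
      | assumption
      | exact DfnF.proj _
      | exact DfnF.const (by assumption)
      | exact DfnF.const' (by first | assumption | trivial) (by first | assumption | trivial)
      | exact Dfn.prop _
      | apply hB.isFunc' | apply hB.isInj' | apply hB.isBij' | apply hB.isOrdinal'
      | apply hB.subset' | apply hB.pair' | apply hB.insert'
      | apply Dfn.not | apply Dfn.and | apply Dfn.or | apply Dfn.imp | apply Dfn.iff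
      | apply hB.bex | apply hB.ball | apply Dfn.ex | apply Dfn.all
      | apply Dfn.eq | apply Dfn.mem))
  refine ⟨f, hf, ⟨fun z hz => hf1 hz, fun z hz => ⟨z, (hf2 _ _).2 ⟨hz, hz, rfl⟩, fun w hw => ?_⟩⟩,
    fun a b c ha hb => ?_⟩
  · exact ((hf2 _ _).1 hw).2.2.symm
  · exact ((hf2 _ _).1 ha).2.2.trans ((hf2 _ _).1 hb).2.2.symm

/-- The sets `A n` become countable. -/
theorem cnt_hat {π : Pkg (FP (QQ A))} (hcl : (Sy (QQ A)).Cld π) {n : ℕ}
    (hG : Gn A n 0 ∈ π.N) (hA : A n ∈ π.Z) : CntIn ((Sy (QQ A)).Ms π) (π.hat (A n)) := by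
  have hM := T_ZF.isZF hcl
  have hB := hM.base
  have hGM : π.val (Gn A n 0) ∈ (Sy (QQ A)).Ms π := Sys.mem_Ms hG (hs_Gn n 0)
  have hAM : π.hat (A n) ∈ (Sy (QQ A)).Ms π := Sys.mem_Ms hA ((Sy (QQ A)).hs_check _)
  refine cnt_image hM (cnt_omega hM) hM.infinity hAM
    (G := fun m a => pair m a ∈ π.val (Gn A n 0)) ?_ ?_ ?_
  · (repeat' first
      | assumption
      | exact DfnF.proj _
      | exact DfnF.const (by assumption)
      | exact DfnF.const' (by first | assumption | trivial) (by first | assumption | trivial)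
      | exact Dfn.prop _
      | apply hB.isFunc' | apply hB.isInj' | apply hB.isBij' | apply hB.isOrdinal'
      | apply hB.subset' | apply hB.pair' | apply hB.insert'
      | apply Dfn.not | apply Dfn.and | apply Dfn.or | apply Dfn.imp | apply Dfn.iff
      | apply hB.bex | apply hB.ball | apply Dfn.ex | apply Dfn.all
      | apply Dfn.eq | apply Dfn.mem)
  · exact fun m _ a _ b _ h1 h2 => Gn_func π h1 h2
  · intro a ha
    obtain ⟨b, hb, hbZ, rfl⟩ := π.mem_hat.1 ha
    obtain ⟨m, hm⟩ := Gn_onto hcl hG hb hbZ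
    exact ⟨_, mem_omega_iff.2 ⟨m, rfl⟩, hm⟩

end gen

/-! ### Cardinality -/

section card

variable {K : Type} {Q : K → Type} [∀ k, Preorder (Q k)] [∀ k, OrderTop (Q k)] [DecidableEq K]

/-- The number of conditions with support `e`. -/
theorem card_sp {e : Finset (K × ℕ)} {c : Cardinal.{0}} (hc : Cardinal.aleph0 ≤ c)
    (h : ∀ t ∈ e, Cardinal.mk (Q t.1) ≤ c) : Cardinal.mk {p : FP Q // Sp e p} ≤ c := by
  have h1 : Cardinal.mk {p : FP Q // Sp e p} ≤ Cardinal.mk (∀ t : e, Q t.1.1) := by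
    refine Cardinal.mk_le_of_injective (f := fun p t => p.1.1 t.1.1 t.1.2) ?_
    rintro ⟨p, hp⟩ ⟨q, hq⟩ hpq
    refine Subtype.ext (FP.ext' fun k i => ?_)
    by_cases h2 : (k, i) ∈ e
    · exact congrFun hpq ⟨(k, i), h2⟩
    · exact (hp _ h2).trans (hq _ h2).symm
  refine h1.trans ?_
  rw [Cardinal.mk_pi]
  refine (Cardinal.prod_le_prod _ (fun _ => c) fun t => h _ t.2).trans ?_
  rw [Cardinal.prod_const, Cardinal.lift_id, Cardinal.lift_id]
  have h3 : Cardinal.mk e < Cardinal.aleph0 := Cardinal.lt_aleph0_of_finite _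
  obtain ⟨n, hn⟩ := Cardinal.lt_aleph0.1 h3
  rw [hn]
  exact Cardinal.power_nat_le hc

theorem ud_inj : UD fun _ (v : Fin 2 → ZFSet.{0}) => IsInj (v 0) ZFSet.omega (v 1) :=
  UD.isInj (UF.proj 0) UF.om (UF.proj 1)

theorem ud_pm : UD fun _ (v : Fin 3 → ZFSet.{0}) => pair (v 0) (v 1) ∈ v 2 := by
  (repeat' first
    | assumption
    | exact UF.proj _
    | exact UF.om
    | exact UD.prop _
    | apply UD.not | apply UD.and | apply UD.or | apply UD.imp | apply UD.iff
    | apply UD.bex | apply UD.ball | apply UD.ex | apply UD.all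
    | apply UD.eq | apply UD.mem | apply UF.pair)

/-- A bound for the cardinality of a set of the ground model that becomes countable. -/
theorem inj_bound {B : ZFSet.{0}} {f : PName (FP Q)} (hF : (Sy Q).HS f) {e : Finset (K × ℕ)}
    (fx : Fx e f) {p : FP Q} (hp : Sp e p) (hf : (Sy Q).Frc ud_inj ![check B, f] p) :
    B.card ≤ Cardinal.mk {q : FP Q // Sp e q} * Cardinal.aleph0 := by
  classical
  have hS3 : ∀ (b : ZFSet.{0}) (m : ℕ) i, (Sy Q).HS (![check b, check (nat m), f] i) := by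
    intro b m i
    fin_cases i
    exacts [(Sy Q).hs_check _, (Sy Q).hs_check _, hF]
  have hS2 : ∀ i, (Sy Q).HS (![check B, f] i) := by
    intro i
    fin_cases i
    exacts [(Sy Q).hs_check _, hF]
  have key : ∀ b : Ty B, ∃ (q : FP Q) (m : ℕ), Sp e q ∧ q ≤ p ∧
      (Sy Q).Frc ud_pm ![check (el b), check (nat m), f] q := by
    intro b
    obtain ⟨π, hN, h0, hcl, -⟩ := Sys.exists_cld (Sy Q) {check B, f, check (el b)}
      (Set.toFinite _).countable ∅ Set.countable_empty p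
    have hBN : (check B : PName (FP Q)) ∈ π.N := hN (by simp)
    have hfN : f ∈ π.N := hN (by simp)
    have hbN : (check (el b) : PName (FP Q)) ∈ π.N := hN (by simp)
    have h1 : IsInj (π.hat B) ZFSet.omega (π.val f) :=
      (Sys.frc_sem hS2).1 hf π hcl (by
        intro i
        fin_cases i
        exacts [hBN, hfN]) ⟨0, h0.le⟩
    obtain ⟨m, hm, -⟩ := h1.1.2 (π.hat (el b)) ((π.hat_mem_hat hbN hBN).2 (el_mem b))
    obtain ⟨k, rfl⟩ := mem_omega_iff.1 (ZFSet.pair_mem_prod.1 (h1.1.1 hm)).2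
    have h2 : pair (π.val (check (el b))) (π.val (check (nat k))) ∈ π.val f := by
      have h3 : π.val (check (nat k)) = nat k := π.hat_nat k
      rw [h3]
      exact hm
    obtain ⟨j, hj⟩ := (Sys.frc_iff ud_pm hcl (x := ![check (el b), check (nat k), f])
      (fun i => ⟨by
        fin_cases i
        exacts [hbN, π.nat_Z k, hfN], hS3 _ _ i⟩)).1 h2
    refine ⟨res e (π.g j), k, sp_res _ _, ?_, ?_⟩
    · have h3 := res_mono (s := e) ((π.g_anti (Nat.zero_le j)).trans h0.le)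
      rwa [hp.res_eq] at h3
    · refine frc_res (fun i => ?_) hj
      fin_cases i
      exacts [fx_check _ _, fx_check _ _, fx]
  choose q m hq1 hq2 hq3 using key
  have hinj : Function.Injective fun b : Ty B => ((⟨q b, hq1 b⟩, m b) :
      {q : FP Q // Sp e q} × ℕ) := by
    intro a b hab
    obtain ⟨h1, h2⟩ := Prod.ext_iff.1 hab
    have h1' : q a = q b := Subtype.ext_iff.1 h1
    have h2' : m a = m b := h2
    obtain ⟨π, hN, h0, hcl, -⟩ := Sys.exists_cld (Sy Q) {check B, f, check (el a), check (el b)}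
      (Set.toFinite _).countable ∅ Set.countable_empty (q a)
    have hBN : (check B : PName (FP Q)) ∈ π.N := hN (by simp)
    have hfN : f ∈ π.N := hN (by simp)
    have haN : (check (el a) : PName (FP Q)) ∈ π.N := hN (by simp)
    have hbN : (check (el b) : PName (FP Q)) ∈ π.N := hN (by simp)
    have h3 : IsInj (π.hat B) ZFSet.omega (π.val f) :=
      (Sys.frc_sem hS2).1 hf π hcl (by
        intro i
        fin_cases i
        exacts [hBN, hfN]) ⟨0, h0.le.trans (hq2 a)⟩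
    have h4 : pair (π.hat (el a)) (π.val (check (nat (m a)))) ∈ π.val f :=
      (Sys.frc_sem (hS3 _ _)).1 (hq3 a) π hcl (by
        intro i
        fin_cases i
        exacts [haN, π.nat_Z _, hfN]) ⟨0, h0.le⟩
    have h5 : pair (π.hat (el b)) (π.val (check (nat (m b)))) ∈ π.val f :=
      (Sys.frc_sem (hS3 _ _)).1 (hq3 b) π hcl (by
        intro i
        fin_cases i
        exacts [hbN, π.nat_Z _, hfN]) ⟨0, h0.le.trans h1'.le⟩
    rw [← h2'] at h5
    have h6 := h3.2 _ _ _ h4 h5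
    exact el_injective ((π.hat_inj haN hbN).1 h6)
  have h1 := Cardinal.mk_le_of_injective hinj
  rw [Cardinal.mk_prod, Cardinal.mk_nat, Cardinal.lift_id, Cardinal.lift_id] at h1
  exact h1

/-- The sets of large cardinality do not become countable. -/
theorem not_cnt {π : Pkg (FP Q)} (hcl : (Sy Q).Cld π) {B : ZFSet.{0}} (hB : B ∈ π.Z)
    (hc : ∀ e : Finset (K × ℕ), Cardinal.mk {q : FP Q // Sp e q} * Cardinal.aleph0 < B.card) :
    ¬ CntIn ((Sy Q).Ms π) (π.hat B) := by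
  rintro ⟨_, ⟨f, ⟨hfN, hF⟩, rfl⟩, h1⟩
  obtain ⟨e, fx⟩ := sym_iff.1 hF.sym
  obtain ⟨j, hj⟩ := (Sys.frc_iff ud_inj hcl (x := ![check B, f]) (fun i => by
    fin_cases i
    exacts [⟨hB, (Sy Q).hs_check _⟩, ⟨hfN, hF⟩])).1 h1
  have h2 : (Sy Q).Frc ud_inj ![check B, f] (res e (π.g j)) := frc_res (fun i => by
    fin_cases i
    exacts [fx_check _ _, fx]) hj
  exact absurd (inj_bound hF fx (sp_res _ _) h2) (not_le.2 (hc e))

end card

end Pool.Agent.Q211.FS
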