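import Pool.Agent.Q211.FS.Coh

/-!
# The space of the irrational numbers in the basic Cohen model
-/

set_option autoImplicit false
set_option linter.unusedSectionVars false
set_option linter.unreachableTactic false
set_option linter.unusedTactic false

namespace Pool.Agent.Q211.FS

open Pool.Agent.W868 Pool.Agent.W868.PName Pool.Agent.Q211.SY
open ZFSet (pair)

/-- The subspace topology on the subset `K` of a space with topology `τ`. -/
noncomputable def subTop (τ K : ZFSet.{0}) : ZFSet.{0} := W868.im (fun U => U ∩ K) τ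

theorem mem_subTop {τ K V : ZFSet.{0}} : V ∈ subTop τ K ↔ ∃ U ∈ τ, V = U ∩ K := mem_im

/-- In `M`, the space `(X, τ)` is a `k`-space: a subset `A` of `X` is closed in `X` if `A ∩ K` is
closed in `K` for all compact subspaces `K` of `X`. -/
def KSpaceIn (M : Set ZFSet.{0}) (X τ : ZFSet.{0}) : Prop :=
  ∀ A ∈ M, A ⊆ X → (∀ K ∈ M, K ⊆ X → CompactIn M K (subTop τ K) → K \ (A ∩ K) ∈ subTop τ K) →
    X \ A ∈ τ

/-- `X` is the set of all irrational numbers of `M`. -/
def IsIrrationals (M : Set ZFSet.{0}) (X : ZFSet.{0}) : Prop :=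
  ∀ z, z ∈ X ↔ z ∈ M ∧ ∃ x : ℝ, Irrational x ∧ z = cutS x

theorem ud_phi : UD fun _ (v : Fin 3 → ZFSet.{0}) => ∀ x ∈ v 0, ¬ (v 1 ∈ x ∧ v 2 ∉ x) := by
  (repeat' first
    | assumption
    | exact UF.proj _
    | exact UF.om
    | exact UD.prop _
    | apply UD.not | apply UD.and | apply UD.or | apply UD.imp | apply UD.iff
    | apply UD.bex | apply UD.ball | apply UD.ex | apply UD.all
    | apply UD.eq | apply UD.mem | apply UF.pair)

theorem ud_mem : UD fun _ (v : Fin 2 → ZFSet.{0}) => v 1 ∈ v 0 := by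
  (repeat' first
    | assumption
    | exact UF.proj _
    | exact UF.om
    | exact UD.prop _
    | apply UD.not | apply UD.and | apply UD.or | apply UD.imp | apply UD.iff
    | apply UD.bex | apply UD.ball | apply UD.ex | apply UD.all
    | apply UD.eq | apply UD.mem | apply UF.pair)

section

variable {M : Set ZFSet.{0}} (hM : IsZF M)

include hM

theorem subTop_mem {τ K : ZFSet.{0}} (hτ : τ ∈ M) (hK : K ∈ M) : subTop τ K ∈ M := by
  have hB := hM.base
  have h1 : (fun U : ZFSet.{0} => U ∩ K) = fun U => ZFSet.sep (fun z => z ∈ K) U := by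
    funext U
    ext z
    rw [ZFSet.mem_inter, ZFSet.mem_sep]
  unfold subTop
  rw [h1]
  exact hM.im_mem hτ (hM.sep' (Q := fun z _ => z ∈ K) (DfnF.proj 0)
    (Dfn.mem (DfnF.proj 0) (DfnF.const hK)))

/-- Compact sets of irrational numbers keep away from every rational number. -/
theorem compact_gap (hQ : Qc ∈ M) (hL : LQ ∈ M) {X τ K : ZFSet.{0}} (hX : IsIrrationals M X)
    (hXM : X ∈ M) (hτM : τ ∈ M) (hτ : IsUsualTop M X τ) (hKM : K ∈ M) (hKX : K ⊆ X)
    (hK : CompactIn M K (subTop τ K)) (r : ℕ × ℕ × ℕ) : ∃ s t : ℕ × ℕ × ℕ, qv s < qv r ∧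
      qv r < qv t ∧ ∀ x ∈ K, ¬ (qc s ∈ x ∧ qc t ∉ x) := by
  classical
  have hB := hM.base
  have hrM : qc r ∈ M := hM.trans _ hQ _ (mem_Qc.2 ⟨r, rfl⟩)
  have hlt := dfn_LtC hM hQ hL
  have hsub := subTop_mem hM hτM hKM
  obtain ⟨F, hF, hF'⟩ := hK _ (hM.sep_mem (Q := fun V => ∃ s ∈ Qc, ∃ t ∈ Qc,
    pair s (qc r) ∈ LQ ∧ pair (qc r) t ∈ LQ ∧ ∀ x ∈ V, ¬ (s ∈ x ∧ t ∉ x)) (by
      (repeat' first
        | assumption
        | exact DfnF.proj _
        | exact DfnF.const (by assumption)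
        | exact DfnF.const' (by first | assumption | trivial) (by first | assumption | trivial)
        | exact Dfn.prop _
        | apply hB.isFunc' | apply hB.isInj' | apply hB.isBij' | apply hB.isOrdinal'
        | apply hB.subset' | apply hB.pair' | apply hB.insert'
        | apply Dfn.not | apply Dfn.and | apply Dfn.or | apply Dfn.imp | apply Dfn.iff
        | apply hB.bex | apply hB.ball | apply Dfn.ex | apply Dfn.all
        | apply Dfn.eq | apply Dfn.mem)) hsub) (fun V hV => (ZFSet.mem_sep.1 hV).1) (by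
      intro z hz
      obtain ⟨hzM, x, hx, rfl⟩ := (hX z).1 (hKX hz)
      have hne : x ≠ qv r := by
        obtain ⟨q, hq⟩ := qv_rat r
        rw [hq]
        exact fun h => hx ⟨q, h.symm⟩
      rcases lt_or_gt_of_ne hne with h | h
      · obtain ⟨s, h1, h2⟩ := exists_qv_btwn h
        obtain ⟨t, h3, h4⟩ := exists_qv_btwn (show qv r < qv r + 1 by linarith)
        have hsM : qc s ∈ M := hM.trans _ hQ _ (mem_Qc.2 ⟨s, rfl⟩)
        have hU : ZFSet.sep (fun y => LtC y (qc s)) X ∈ τ := by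
          refine (hτ _).2 ⟨hM.sep_mem (Q := fun y => LtC y (qc s)) (by
            exact Dfn.comp2 (Q := fun a b => LtC a b) hlt (DfnF.proj 0) (DfnF.const hsM)) hXM,
            fun y hy => (ZFSet.mem_sep.1 hy).1, fun y hy => ?_⟩
          have h5 := ltC_iff.1 (ZFSet.mem_sep.1 hy).2
          refine ⟨qv s - y, by linarith, fun w hw h6 => ZFSet.mem_sep.2 ⟨hw, ltC_iff.2 ?_⟩⟩
          rw [abs_lt] at h6
          linarith
        refine ⟨ZFSet.sep (fun y => LtC y (qc s)) X ∩ K, ZFSet.mem_sep.2 ⟨mem_subTop.2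
          ⟨_, hU, rfl⟩, qc s, mem_Qc.2 ⟨s, rfl⟩, qc t, mem_Qc.2 ⟨t, rfl⟩, mem_LQ.2 h2,
          mem_LQ.2 h3, ?_⟩, ZFSet.mem_inter.2 ⟨ZFSet.mem_sep.2 ⟨hKX hz, ltC_iff.2 h1⟩, hz⟩⟩
        intro y hy
        obtain ⟨hy1, hy2⟩ := ZFSet.mem_inter.1 hy
        obtain ⟨-, y, -, rfl⟩ := (hX y).1 (hKX hy2)
        have h5 := ltC_iff.1 (ZFSet.mem_sep.1 hy1).2
        rw [qc_mem_cutS]
        intro h6
        linarith [h6.1]
      · obtain ⟨t, h1, h2⟩ := exists_qv_btwn h
        obtain ⟨s, h3, h4⟩ := exists_qv_btwn (show qv r - 1 < qv r by linarith)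
        have htM : qc t ∈ M := hM.trans _ hQ _ (mem_Qc.2 ⟨t, rfl⟩)
        have hU : ZFSet.sep (fun y => qc t ∈ y) X ∈ τ := by
          refine (hτ _).2 ⟨hM.sep_mem (Q := fun y => qc t ∈ y) (by
            exact Dfn.mem (DfnF.const htM) (DfnF.proj 0)) hXM,
            fun y hy => (ZFSet.mem_sep.1 hy).1, fun y hy => ?_⟩
          have h5 := qc_mem_cutS.1 (ZFSet.mem_sep.1 hy).2
          refine ⟨y - qv t, by linarith, fun w hw h6 => ZFSet.mem_sep.2 ⟨hw, qc_mem_cutS.2 ?_⟩⟩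
          rw [abs_lt] at h6
          linarith
        refine ⟨ZFSet.sep (fun y => qc t ∈ y) X ∩ K, ZFSet.mem_sep.2 ⟨mem_subTop.2
          ⟨_, hU, rfl⟩, qc s, mem_Qc.2 ⟨s, rfl⟩, qc t, mem_Qc.2 ⟨t, rfl⟩, mem_LQ.2 h4,
          mem_LQ.2 h1, ?_⟩, ZFSet.mem_inter.2 ⟨ZFSet.mem_sep.2 ⟨hKX hz, qc_mem_cutS.2 h2⟩, hz⟩⟩
        intro y hy h6
        obtain ⟨hy1, hy2⟩ := ZFSet.mem_inter.1 hy
        exact h6.2 (ZFSet.mem_sep.1 hy1).2)
  -- the finite intersection
  have key : ∀ F' : Finset ZFSet.{0}, F' ⊆ F → ∃ s t : ℕ × ℕ × ℕ, qv s < qv r ∧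
      qv r < qv t ∧ ∀ V ∈ F', ∀ x ∈ V, x ∈ K → ¬ (qc s ∈ x ∧ qc t ∉ x) := by
    intro F'
    induction F' using Finset.induction_on with
    | empty =>
      intro _
      obtain ⟨s, -, h2⟩ := exists_qv_btwn (show qv r - 1 < qv r by linarith)
      obtain ⟨t, h3, -⟩ := exists_qv_btwn (show qv r < qv r + 1 by linarith)
      exact ⟨s, t, h2, h3, fun V hV => absurd hV (Finset.notMem_empty _)⟩
    | insert V F' _ ih =>
      intro hsub'
      obtain ⟨s, t, h1, h2, h3⟩ := ih fun x hx => hsub' (Finset.mem_insert_of_mem hx)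
      obtain ⟨-, s', hs', t', ht', h4, h5, h6⟩ := ZFSet.mem_sep.1
        (hF V (hsub' (Finset.mem_insert_self _ _)))
      obtain ⟨s', rfl⟩ := mem_Qc.1 hs'
      obtain ⟨t', rfl⟩ := mem_Qc.1 ht'
      rw [mem_LQ] at h4 h5
      obtain ⟨s2, h7, h8⟩ := exists_qv_btwn (max_lt h1 h4)
      obtain ⟨t2, h9, h10⟩ := exists_qv_btwn (lt_min h2 h5)
      refine ⟨s2, t2, h8, h9, fun W hW x hx hxK h11 => ?_⟩
      obtain ⟨-, y, -, rfl⟩ := (hX x).1 (hKX hxK)
      rw [qc_mem_cutS, qc_mem_cutS, not_lt] at h11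
      have e1 := (le_max_left _ _).trans_lt h7
      have e2 := (le_max_right _ _).trans_lt h7
      have e3 := h10.trans_le (min_le_left _ _)
      have e4 := h10.trans_le (min_le_right _ _)
      rcases Finset.mem_insert.1 hW with rfl | hW
      · refine h6 _ hx ?_
        rw [qc_mem_cutS, qc_mem_cutS, not_lt]
        exact ⟨by linarith [h11.1], by linarith [h11.2]⟩
      · refine h3 W hW _ hx hxK ?_
        rw [qc_mem_cutS, qc_mem_cutS, not_lt]
        exact ⟨by linarith [h11.1], by linarith [h11.2]⟩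
  obtain ⟨s, t, h1, h2, h3⟩ := key F subset_rfl
  refine ⟨s, t, h1, h2, fun x hx => ?_⟩
  obtain ⟨V, hV, hxV⟩ := hF' x hx
  exact h3 V hV x hxV hx

end

/-- A set that keeps away from all rational numbers does not contain a Cohen real outside its
support. -/
theorem cohen_notMem {Y : Set ℝ} {π : Pkg PC} (h : IsCM Y π) {K : PName PC} (hKN : K ∈ π.N)
    (hKS : SC.HS K) {e : Finset (Unit × ℕ)} (fK : Fx e K) {i : ℕ} (hi : ((), i) ∉ e)
    (hgap : ∀ r : ℕ × ℕ × ℕ, ∃ s t : ℕ × ℕ × ℕ, qv s < qv r ∧ qv r < qv t ∧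
      ∀ x ∈ π.val K, ¬ (qc s ∈ x ∧ qc t ∉ x)) : π.val (Cn i) ∉ π.val K := by
  intro hmem
  obtain ⟨j1, hj1⟩ := (Sys.frc_iff ud_mem h.cl (x := ![K, Cn i]) (fun k => by
    fin_cases k
    exacts [⟨hKN, hKS⟩, ⟨h.cn i, hs_Cn i⟩])).1 hmem
  obtain ⟨I1, ⟨j2, hj2⟩, -⟩ := h.exists_InG_q i 0
  set j0 := max j1 j2 with hj0
  have h1 : (π.g j0).1 () i ≤ I1 := ((π.g_le_right j1 j2) () i).trans hj2.le
  obtain ⟨I0, h2, -⟩ := le_coe h1
  have hj1' := Sys.Frc.mono hj1 (π.g_le_left j1 j2)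
  have hab : (I0.a : ℝ) < I0.b := by exact_mod_cast I0.h
  obtain ⟨r, h3, h4⟩ := exists_qv_btwn hab
  obtain ⟨s, t, h5, h6, h7⟩ := hgap r
  have hΦ : ∀ x ∈ π.val K, ¬ (π.val (check (qc s)) ∈ x ∧ π.val (check (qc t)) ∉ x) := by
    have e1 : π.val (check (qc s)) = qc s := (qc_Z π s).2
    have e2 : π.val (check (qc t)) = qc t := (qc_Z π t).2
    rw [e1, e2]
    exact h7
  obtain ⟨j3, hj3⟩ := (Sys.frc_iff ud_phi h.cl (x := ![K, check (qc s), check (qc t)]) (fun k => by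
    fin_cases k
    exacts [⟨hKN, hKS⟩, ⟨(qc_Z π s).1, SC.hs_check _⟩, ⟨(qc_Z π t).1, SC.hs_check _⟩])).1 hΦ
  set j4 := max j0 j3 with hj4
  have hj3' : SC.Frc ud_phi ![K, check (qc s), check (qc t)] (res e (π.g j4)) :=
    frc_res (fun k => by
      fin_cases k
      exacts [fK, fx_check _ _, fx_check _ _]) (Sys.Frc.mono hj3 (π.g_le_right j0 j3))
  have h8 : π.g j4 ≤ π.g j0 := π.g_le_left j0 j3
  obtain ⟨I, h9, h10⟩ := exists_RI (show max (qv s) I0.a < min (qv t) I0.b from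
    max_lt (lt_min (h5.trans h6) (h5.trans h4)) (lt_min (h3.trans h6) hab))
  have hIs := (le_max_left _ _).trans_lt h9
  have hIa := (le_max_right _ _).trans_lt h9
  have hIt := h10.trans_le (min_le_left _ _)
  have hIb := h10.trans_le (min_le_right _ _)
  set u : PC := ud (join e (π.g j4) (π.g j0)) i I with hu
  have hu1 : u ≤ π.g j0 := by
    intro k l
    by_cases hl : k = () ∧ l = i
    · obtain ⟨rfl, rfl⟩ := hl
      rw [hu, ud_self, h2]
      refine WithTop.coe_le_coe.2 ⟨?_, ?_⟩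
      · exact_mod_cast hIa.le
      · exact_mod_cast hIb.le
    · rw [hu, upd_ne _ _ _ _ hl]
      by_cases hc : (k, l) ∈ e
      · rw [join_pos hc]
        exact h8 k l
      · rw [join_neg hc]
  have hu2 : u ≤ res e (π.g j4) := by
    intro k l
    by_cases hc : (k, l) ∈ e
    · have hl : ¬ (k = () ∧ l = i) := by
        rintro ⟨rfl, rfl⟩
        exact hi hc
      rw [hu, upd_ne _ _ _ _ hl, join_pos hc, res_pos hc]
    · rw [res_neg hc]
      exact le_top
  obtain ⟨π', hN, h0, hcl', -⟩ := Sys.exists_cld SC {K, Cn i} (Set.toFinite _).countable ∅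
    Set.countable_empty u
  have hKN' : K ∈ π'.N := hN (by simp)
  have hCN' : Cn i ∈ π'.N := hN (by simp)
  have hm : π'.val (Cn i) ∈ π'.val K := (Sys.frc_sem (S := SC) (h := ud_mem) (x := ![K, Cn i])
    (fun k => by
      fin_cases k
      exacts [hKS, hs_Cn i])).1 hj1' π' hcl' (fun k => by
      fin_cases k
      exacts [hKN', hCN']) ⟨0, h0.le.trans hu1⟩
  have hΦ' : ∀ x ∈ π'.val K, ¬ (π'.val (check (qc s)) ∈ x ∧ π'.val (check (qc t)) ∉ x) :=
    (Sys.frc_sem (S := SC) (h := ud_phi) (x := ![K, check (qc s), check (qc t)]) (fun k => by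
      fin_cases k
      exacts [hKS, SC.hs_check _, SC.hs_check _])).1 hj3' π' hcl' (fun k => by
      fin_cases k
      exacts [hKN', (qc_Z π' s).1, (qc_Z π' t).1]) ⟨0, h0.le.trans hu2⟩
  have e1 : π'.val (check (qc s)) = qc s := (qc_Z π' s).2
  have e2 : π'.val (check (qc t)) = qc t := (qc_Z π' t).2
  rw [e1, e2] at hΦ'
  have h11 : (π'.g 0).1 () i ≤ I := by
    rw [h0, hu, ud_self]
  refine hΦ' _ hm ⟨?_, ?_⟩
  · exact (mem_Cn_of (fun t => (qc_Z π' t).1) h11).1 hIs.le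
  · exact (mem_Cn_of (fun t => (qc_Z π' t).1) h11).2 hIt.le

/-- In the basic Cohen model, the irrational numbers are not a `k`-space. -/
theorem not_kspace {Y : Set ℝ} {π : Pkg PC} (h : IsCM Y π) (hY : √2 ∈ Y) {X τ : ZFSet.{0}}
    (hX : IsIrrationals (SC.Ms π) X) (hXM : X ∈ SC.Ms π) (hτM : τ ∈ SC.Ms π)
    (hτ : IsUsualTop (SC.Ms π) X τ) : ¬ KSpaceIn (SC.Ms π) X τ := by
  classical
  intro hk
  have hM := h.isZF
  have hB := hM.base
  have hQM : Qc ∈ SC.Ms π := by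
    rw [← hat_Qc π]
    exact Sys.mem_Ms h.qc (SC.hs_check _)
  have hLM : LQ ∈ SC.Ms π := by
    rw [← hat_LQ π]
    exact Sys.mem_Ms h.lq (SC.hs_check _)
  have hAM : π.val An ∈ SC.Ms π := Sys.mem_Ms h.an hs_An
  have hAX : π.val An ⊆ X := by
    intro z hz
    obtain ⟨i, rfl⟩ := h.mem_An.1 hz
    exact (hX _).2 ⟨hM.trans _ hAM _ hz, _, h.irrational i, rfl⟩
  have hcl := hk _ hAM hAX (by
    intro K hKM hKX hKc
    have hgap := compact_gap hM hQM hLM hX hXM hτM hτ hKM hKX hKc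
    have hKM' := hKM
    obtain ⟨K, ⟨hKN, hKS⟩, rfl⟩ := hKM
    obtain ⟨e, fK⟩ := sym_iff.1 hKS.sym
    have hfin : ∀ i, cutS (cr π i) ∈ π.val K → ((), i) ∈ e := by
      intro i hi
      by_contra hie
      rw [← h.val_Cn i] at hi
      exact cohen_notMem h hKN hKS fK hie hgap hi
    -- the open set
    have hU : X \ (π.val An ∩ π.val K) ∈ τ := by
      refine (hτ _).2 ⟨?_, fun z hz => (ZFSet.mem_sdiff.1 hz).1, fun x hx => ?_⟩
      · have h1 : X \ (π.val An ∩ π.val K) =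
            ZFSet.sep (fun z => ¬ (z ∈ π.val An ∧ z ∈ π.val K)) X := by
          ext z
          rw [ZFSet.mem_sdiff, ZFSet.mem_sep, ZFSet.mem_inter]
        rw [h1]
        exact hM.sep_mem (Q := fun z => ¬ (z ∈ π.val An ∧ z ∈ π.val K)) (by
          (repeat' first
            | assumption
            | exact DfnF.proj _
            | exact DfnF.const (by assumption)
            | exact DfnF.const' (by first | assumption | trivial) (by first | assumption | trivial)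
            | exact Dfn.prop _
            | apply hB.isFunc' | apply hB.isInj' | apply hB.isBij' | apply hB.isOrdinal'
            | apply hB.subset' | apply hB.pair' | apply hB.insert'
            | apply Dfn.not | apply Dfn.and | apply Dfn.or | apply Dfn.imp | apply Dfn.iff
            | apply hB.bex | apply hB.ball | apply Dfn.ex | apply Dfn.all
            | apply Dfn.eq | apply Dfn.mem)) hXM
      · obtain ⟨hxX, hxA⟩ := ZFSet.mem_sdiff.1 hx
        set T : Finset ℝ := (e.filter fun c => cutS (cr π c.2) ∈ π.val K).image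
          fun c => cr π c.2 with hT
        have hxT : x ∉ T := by
          intro h1
          obtain ⟨c, hc, rfl⟩ := Finset.mem_image.1 h1
          exact hxA (ZFSet.mem_inter.2 ⟨h.mem_An.2 ⟨c.2, rfl⟩, (Finset.mem_filter.1 hc).2⟩)
        obtain ⟨ε, hε, h1⟩ : ∃ ε > 0, ∀ y ∈ T, ε ≤ |x - y| := by
          have h2 : IsClosed (T : Set ℝ) := T.finite_toSet.isClosed
          have h3 : (T : Set ℝ)ᶜ ∈ nhds x := h2.isOpen_compl.mem_nhds hxT
          obtain ⟨ε, hε, h4⟩ := Metric.mem_nhds_iff.1 h3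
          refine ⟨ε, hε, fun y hy => ?_⟩
          by_contra h5
          have h6 : y ∈ Metric.ball x ε := by
            rw [Metric.mem_ball, Real.dist_eq, abs_sub_comm]
            exact not_le.1 h5
          exact h4 h6 hy
        refine ⟨ε, hε, fun y hy hxy => ZFSet.mem_sdiff.2 ⟨hy, fun h2 => ?_⟩⟩
        obtain ⟨h3, h4⟩ := ZFSet.mem_inter.1 h2
        obtain ⟨i, hi⟩ := h.mem_An.1 h3
        have h5 : y = cr π i := cutS_injective hi
        subst h5
        have h6 : cr π i ∈ T := Finset.mem_image.2 ⟨((), i), Finset.mem_filter.2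
          ⟨hfin i h4, h4⟩, rfl⟩
        exact absurd hxy (not_lt.2 (h1 _ h6))
    refine mem_subTop.2 ⟨_, hU, ?_⟩
    ext z
    rw [ZFSet.mem_sdiff, ZFSet.mem_inter, ZFSet.mem_inter, ZFSet.mem_sdiff, ZFSet.mem_inter]
    constructor
    · rintro ⟨h1, h2⟩
      exact ⟨⟨hKX h1, h2⟩, h1⟩
    · rintro ⟨⟨-, h2⟩, h1⟩
      exact ⟨h1, h2⟩)
  -- the set of the Cohen reals is not closed
  have h1 : cutS √2 ∈ X \ π.val An := by
    refine ZFSet.mem_sdiff.2 ⟨(hX _).2 ⟨?_, √2, irrational_sqrt_two, rfl⟩, fun h2 => ?_⟩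
    · rw [← hat_cutS π]
      exact Sys.mem_Ms (h.yz _ hY) (SC.hs_check _)
    · obtain ⟨i, hi⟩ := h.mem_An.1 h2
      exact h.cr_ne i hY (cutS_injective hi).symm
  obtain ⟨-, -, h2⟩ := (hτ _).1 hcl
  obtain ⟨ε, hε, h3⟩ := h2 _ h1
  obtain ⟨i, h4, h5⟩ := h.cr_dense (show √2 < √2 + ε by linarith)
  have h6 : cutS (cr π i) ∈ π.val An := h.mem_An.2 ⟨i, rfl⟩
  have h7 := h3 (cr π i) (hAX h6) (by
    rw [abs_lt]
    constructor <;> linarith)
  exact (ZFSet.mem_sdiff.1 h7).2 h6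

/-- Existence of the set of the irrational numbers. -/
theorem exists_irrationals {M : Set ZFSet.{0}} (hM : IsZF M) (hQ : Qc ∈ M) (hL : LQ ∈ M) :
    ∃ X ∈ M, IsIrrationals M X := by
  have hB := hM.base
  obtain ⟨R, hR, h1⟩ := exists_reals hM hQ hL
  refine ⟨_, hM.sep_mem (Q := fun x => ∀ r ∈ Qc, ∃ q ∈ Qc, (pair q r ∈ LQ ∧ q ∉ x) ∨
    (q ∈ x ∧ pair q r ∉ LQ)) (by
      (repeat' first
        | assumption
        | exact DfnF.proj _
        | exact DfnF.const (by assumption)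
        | exact DfnF.const' (by first | assumption | trivial) (by first | assumption | trivial)
        | exact Dfn.prop _
        | apply hB.isFunc' | apply hB.isInj' | apply hB.isBij' | apply hB.isOrdinal'
        | apply hB.subset' | apply hB.pair' | apply hB.insert'
        | apply Dfn.not | apply Dfn.and | apply Dfn.or | apply Dfn.imp | apply Dfn.iff
        | apply hB.bex | apply hB.ball | apply Dfn.ex | apply Dfn.all
        | apply Dfn.eq | apply Dfn.mem)) hR, fun z => ?_⟩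
  rw [ZFSet.mem_sep, h1]
  constructor
  · rintro ⟨⟨hz, x, rfl⟩, h2⟩
    refine ⟨hz, x, ?_, rfl⟩
    rintro ⟨q, hq⟩
    obtain ⟨r, hr⟩ := exists_qv q
    obtain ⟨q', hq', h3⟩ := h2 _ (mem_Qc.2 ⟨r, rfl⟩)
    obtain ⟨t, rfl⟩ := mem_Qc.1 hq'
    rw [mem_LQ, qc_mem_cutS, ← hq, ← hr] at h3
    tauto
  · rintro ⟨hz, x, hx, rfl⟩
    refine ⟨⟨hz, x, rfl⟩, fun r hr => ?_⟩
    obtain ⟨r, rfl⟩ := mem_Qc.1 hr
    have hne : x ≠ qv r := by
      obtain ⟨q, hq⟩ := qv_rat r
      rw [hq]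
      exact fun h => hx ⟨q, h.symm⟩
    rcases lt_or_gt_of_ne hne with h | h
    · obtain ⟨t, h2, h3⟩ := exists_qv_btwn h
      refine ⟨qc t, mem_Qc.2 ⟨t, rfl⟩, Or.inl ⟨mem_LQ.2 h3, ?_⟩⟩
      rw [qc_mem_cutS, not_lt]
      exact h2.le
    · obtain ⟨t, h2, h3⟩ := exists_qv_btwn h
      refine ⟨qc t, mem_Qc.2 ⟨t, rfl⟩, Or.inr ⟨qc_mem_cutS.2 h3, ?_⟩⟩
      rw [mem_LQ, not_lt]
      exact h2.le

end Pool.Agent.Q211.FS
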