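import Pool.Agent.Q211.FS.Col

/-!
# The model
-/

set_option autoImplicit false
set_option linter.unusedSectionVars false
set_option linter.unreachableTactic false
set_option linter.unusedTactic false

namespace Pool.Agent.Q211.FS

open Pool.Agent.W868 Pool.Agent.W868.PName Pool.Agent.Q211.SY
open ZFSet (pair)

/-- In `M`, every union of a countable family of countable sets is countable. -/
def CUCIn (M : Set ZFSet.{0}) : Prop :=
  ∀ F ∈ M, CntIn M F → (∀ A ∈ F, CntIn M A) → CntIn M (ZFSet.sUnion F)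

/-- The initial ordinal of cardinality `ℵ n`. -/
noncomputable def Al (n : ℕ) : ZFSet.{0} := (Cardinal.aleph (n : Ordinal.{0})).ord.toZFSet

theorem card_Al (n : ℕ) : (Al n).card = Cardinal.aleph (n : Ordinal.{0}) := by
  rw [Al, Ordinal.card_toZFSet, Cardinal.card_ord]

theorem Al_injective : Function.Injective Al := by
  intro m n h
  have h1 := Ordinal.toZFSet_injective h
  have h2 := Cardinal.ord_injective h1
  exact_mod_cast Cardinal.aleph.injective h2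

/-- The set of all the `Al n`. -/
noncomputable def AlF : ZFSet.{0} := ZFSet.range Al

/-- The sequence of all the `Al n`. -/
noncomputable def AlS : ZFSet.{0} := ZFSet.range fun n => pair (nat n) (Al n)

theorem mem_AlF {z : ZFSet.{0}} : z ∈ AlF ↔ ∃ n, z = Al n := by
  rw [AlF, ZFSet.mem_range]
  exact ⟨fun ⟨n, h⟩ => ⟨n, h.symm⟩, fun ⟨n, h⟩ => ⟨n, h.symm⟩⟩

theorem exists_AlF_inj : ∃ f, IsInj AlF ZFSet.omega f := by
  refine ⟨ZFSet.range fun n => pair (Al n) (nat n), ⟨?_, ?_⟩, ?_⟩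
  · intro z hz
    obtain ⟨n, rfl⟩ := ZFSet.mem_range.1 hz
    exact ZFSet.pair_mem_prod.2 ⟨mem_AlF.2 ⟨n, rfl⟩, mem_omega_iff.2 ⟨n, rfl⟩⟩
  · intro z hz
    obtain ⟨n, rfl⟩ := mem_AlF.1 hz
    refine ⟨nat n, ZFSet.mem_range.2 ⟨n, rfl⟩, fun w hw => ?_⟩
    obtain ⟨m, h⟩ := ZFSet.mem_range.1 hw
    obtain ⟨h1, h2⟩ := ZFSet.pair_inj.1 h
    rw [← h2, Al_injective h1]
  · intro a b c ha hb
    obtain ⟨m, h1⟩ := ZFSet.mem_range.1 ha
    obtain ⟨n, h2⟩ := ZFSet.mem_range.1 hb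
    obtain ⟨rfl, rfl⟩ := ZFSet.pair_inj.1 h1
    obtain ⟨rfl, h3⟩ := ZFSet.pair_inj.1 h2
    rw [nat_injective h3]

/-- The conditions. -/
abbrev PA : Type := FP (QQ Al)

/-- The symmetric system. -/
noncomputable abbrev SA : Sys PA := Sy (QQ Al)

/-- The packages that contain the relevant names. -/
structure IsMod (π : Pkg PA) : Prop where
  cl : SA.Cld π
  gn : ∀ n i, Gn Al n i ∈ π.N
  al : ∀ n, Al n ∈ π.Z
  alF : AlF ∈ π.Z
  alS : AlS ∈ π.Z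

theorem exists_mod (A : Set (PName PA)) (hA : A.Countable) :
    ∃ π : Pkg PA, IsMod π ∧ A ⊆ π.N := by
  obtain ⟨π, h1, -, h3, -⟩ := Sys.exists_cld SA
    (A ∪ ({check AlF, check AlS} ∪ ((Set.range fun n => check (Al n)) ∪
      Set.range fun t : ℕ × ℕ => Gn Al t.1 t.2)))
    (hA.union ((Set.toFinite _).countable.union
      ((Set.countable_range _).union (Set.countable_range _)))) ∅ Set.countable_empty ⊤
  exact ⟨π, ⟨h3, fun n i => h1 (Or.inr (Or.inr (Or.inr ⟨(n, i), rfl⟩))),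
    fun n => h1 (Or.inr (Or.inr (Or.inl ⟨n, rfl⟩))),
    h1 (Or.inr (Or.inl (by simp))), h1 (Or.inr (Or.inl (by simp)))⟩,
    fun x hx => h1 (Or.inl hx)⟩

namespace IsMod

variable {π : Pkg PA} (h : IsMod π)

include h

theorem isZF : IsZF (SA.Ms π) := T_ZF.isZF h.cl

theorem hat_mem {x : ZFSet.{0}} (hx : x ∈ π.Z) : π.hat x ∈ SA.Ms π :=
  Sys.mem_Ms hx (SA.hs_check _)

theorem V_sub {x : ZFSet.{0}} (hx : x ∈ π.V) : x ∈ SA.Ms π := by
  obtain ⟨y, hy, rfl⟩ := hx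
  exact h.hat_mem hy

theorem mem_hat_AlF {z : ZFSet.{0}} : z ∈ π.hat AlF ↔ ∃ n, z = π.hat (Al n) := by
  rw [π.mem_hat]
  constructor
  · rintro ⟨y, hy, -, rfl⟩
    obtain ⟨n, rfl⟩ := mem_AlF.1 hy
    exact ⟨n, rfl⟩
  · rintro ⟨n, rfl⟩
    exact ⟨_, mem_AlF.2 ⟨n, rfl⟩, h.al n, rfl⟩

theorem sUnion_hat : ZFSet.sUnion (π.hat AlF) = π.hat (ZFSet.sUnion AlF) := by
  ext z
  rw [ZFSet.mem_sUnion, π.mem_hat]
  constructor
  · rintro ⟨y, hy, hz⟩
    obtain ⟨n, rfl⟩ := h.mem_hat_AlF.1 hy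
    obtain ⟨w, hw, hwZ, rfl⟩ := π.mem_hat.1 hz
    exact ⟨w, ZFSet.mem_sUnion.2 ⟨_, mem_AlF.2 ⟨n, rfl⟩, hw⟩, hwZ, rfl⟩
  · rintro ⟨w, hw, hwZ, rfl⟩
    obtain ⟨y, hy, hw'⟩ := ZFSet.mem_sUnion.1 hw
    obtain ⟨n, rfl⟩ := mem_AlF.1 hy
    exact ⟨_, h.mem_hat_AlF.2 ⟨n, rfl⟩, π.mem_hat.2 ⟨w, hw', hwZ, rfl⟩⟩

theorem cnt_Al (n : ℕ) : CntIn (SA.Ms π) (π.hat (Al n)) := cnt_hat h.cl (h.gn n 0) (h.al n)

theorem cnt_of_inj {B : ZFSet.{0}} (hB : B ∈ π.Z) (hf : ∃ f, IsInj B ZFSet.omega f) :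
    CntIn (SA.Ms π) (π.hat B) := by
  obtain ⟨f, hf, hi⟩ := π.exists_inj_V hB π.omega_Z hf
  rw [π.hat_omega] at hi
  exact ⟨f, h.V_sub hf, hi⟩

omit h in
theorem card_lt (e : Finset (ℕ × ℕ)) :
    Cardinal.mk {q : PA // Sp e q} * Cardinal.aleph0 < (ZFSet.sUnion AlF).card := by
  have h1 : Cardinal.mk {q : PA // Sp e q} ≤ Cardinal.aleph ((e.sup Prod.fst : ℕ) : Ordinal.{0}) := by
    refine card_sp (Cardinal.aleph0_le_aleph _) fun t ht => ?_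
    refine CQ.mk_le (Cardinal.aleph0_le_aleph _) ?_
    have h2 : Cardinal.mk (Ty (Al t.1)) = Cardinal.aleph (t.1 : Ordinal.{0}) := card_Al t.1
    rw [h2]
    refine Cardinal.aleph_le_aleph.2 ?_
    exact_mod_cast Finset.le_sup (f := Prod.fst) ht
  have h3 : Cardinal.mk {q : PA // Sp e q} * Cardinal.aleph0 ≤
      Cardinal.aleph ((e.sup Prod.fst : ℕ) : Ordinal.{0}) := by
    refine (mul_le_mul' h1 (Cardinal.aleph0_le_aleph ((e.sup Prod.fst : ℕ) : Ordinal.{0}))).trans ?_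
    rw [Cardinal.mul_eq_self (Cardinal.aleph0_le_aleph _)]
  refine h3.trans_lt ?_
  have h4 : Al (e.sup Prod.fst + 1) ⊆ ZFSet.sUnion AlF := fun z hz =>
    ZFSet.mem_sUnion.2 ⟨_, mem_AlF.2 ⟨_, rfl⟩, hz⟩
  have h5 := ZFSet.card_mono h4
  rw [card_Al] at h5
  refine lt_of_lt_of_le (Cardinal.aleph_lt_aleph.2 ?_) h5
  exact_mod_cast Nat.lt_succ_self _

/-- The union of the `Al n` is not countable in the model. -/
theorem not_cnt_union : ¬ CntIn (SA.Ms π) (ZFSet.sUnion (π.hat AlF)) := by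
  rw [h.sUnion_hat]
  exact not_cnt h.cl (π.union_Z h.alF) card_lt

theorem not_cuc : ¬ CUCIn (SA.Ms π) := by
  intro hc
  refine h.not_cnt_union (hc _ (h.hat_mem h.alF) (h.cnt_of_inj h.alF exists_AlF_inj) ?_)
  intro A hA
  obtain ⟨n, rfl⟩ := h.mem_hat_AlF.1 hA
  exact h.cnt_Al n

omit h in
theorem countable (π : Pkg PA) : (SA.Ms π).Countable :=
  (π.cnt.mono fun _ hx => hx.1).image _

end IsMod

end Pool.Agent.Q211.FS
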