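import Pool.Agent.Q211.FS.KSp

/-!
# Embeddings of sets of real numbers into powers of the discrete space of natural numbers
-/

set_option autoImplicit false
set_option linter.unusedSectionVars false
set_option linter.unreachableTactic false
set_option linter.unusedTactic false

namespace Pool.Agent.Q211.FS

open Pool.Agent.W868 Pool.Agent.W868.PName Pool.Agent.Q211.SY
open ZFSet (pair)

/-- The space `(X, τ)` is zero-dimensional: a `T₁` space with a base of clopen sets. -/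
def ZeroDim (X τ : ZFSet.{0}) : Prop :=
  (∀ x ∈ X, X \ {x} ∈ τ) ∧ ∀ U ∈ τ, ∀ x ∈ U, ∃ V ∈ τ, X \ V ∈ τ ∧ x ∈ V ∧ V ⊆ U

/-- In `M`, `N` is the set of all functions from `J` to the set of the natural numbers. -/
def IsFunSet (M : Set ZFSet.{0}) (J N : ZFSet.{0}) : Prop :=
  ∀ g, g ∈ N ↔ g ∈ M ∧ ZFSet.IsFunc J ZFSet.omega g

/-- In `M`, `ν` is the product topology of the set `N` of all functions from `J` to the discrete
space of the natural numbers. -/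
def IsPowerTop (M : Set ZFSet.{0}) (J N ν : ZFSet.{0}) : Prop :=
  ∀ W, W ∈ ν ↔ W ∈ M ∧ W ⊆ N ∧ ∀ g ∈ W, ∃ F : Finset ZFSet.{0}, (∀ j ∈ F, j ∈ J) ∧
    ∀ g' ∈ N, (∀ j ∈ F, ∀ n, pair j n ∈ g → pair j n ∈ g') → g' ∈ W

/-- `h` is a homeomorphism from `(X, τ)` to `(Y, σ)`. -/
def IsHomeo (X τ Y σ h : ZFSet.{0}) : Prop :=
  IsBij X Y h ∧ ∀ U, U ⊆ X → (U ∈ τ ↔ ZFSet.sep (fun y => ∃ x ∈ U, pair x y ∈ h) Y ∈ σ)

/-- In `M`, the space `(X, τ)` is `ℕ`-compact: it is homeomorphic to a closed subspace `C` of the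
power with exponent `J` of the discrete space of the natural numbers, for some set `J`. -/
def NCompactIn (M : Set ZFSet.{0}) (X τ : ZFSet.{0}) : Prop :=
  ∃ J ∈ M, ∃ N ∈ M, ∃ ν ∈ M, ∃ C ∈ M, ∃ h ∈ M, IsFunSet M J N ∧ IsPowerTop M J N ν ∧
    C ⊆ N ∧ N \ C ∈ ν ∧ IsHomeo X τ C (subTop ν C) h

/-- The order of the real numbers. -/
def LtR (x y : ZFSet.{0}) : Prop := ∃ r ∈ Qc, LtC x r ∧ r ∈ y

theorem ltR_iff {x y : ℝ} : LtR (cutS x) (cutS y) ↔ x < y := by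
  constructor
  · rintro ⟨r, hr, h1, h2⟩
    obtain ⟨r, rfl⟩ := mem_Qc.1 hr
    rw [ltC_iff] at h1
    rw [qc_mem_cutS] at h2
    linarith
  · intro h
    obtain ⟨r, h1, h2⟩ := exists_qv_btwn h
    exact ⟨qc r, mem_Qc.2 ⟨r, rfl⟩, ltC_iff.2 h1, qc_mem_cutS.2 h2⟩

section

variable {M : Set ZFSet.{0}} (hM : IsZF M) (hQ : Qc ∈ M) (hL : LQ ∈ M)

include hM hQ hL

theorem dfn_LtR : Dfn M M fun w : Fin 2 → ZFSet.{0} => LtR (w 0) (w 1) := by
  have hB := hM.base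
  have hlt := dfn_LtC hM hQ hL
  unfold LtR
  (repeat' first
    | apply Dfn.comp2 (Q := fun a b => LtC a b) hlt
    | assumption
    | exact DfnF.proj _
    | exact DfnF.const (by assumption)
    | exact DfnF.const' (by first | assumption | trivial) (by first | assumption | trivial)
    | exact Dfn.prop _
    | apply hB.isFunc' | apply hB.isInj' | apply hB.isBij' | apply hB.isOrdinal'
    | apply hB.subset' | apply hB.pair' | apply hB.insert'
    | apply Dfn.not | apply Dfn.and | apply Dfn.or | apply Dfn.imp | apply Dfn.iff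
    | apply hB.bex | apply hB.ball | apply Dfn.ex | apply Dfn.all
    | apply Dfn.eq | apply Dfn.mem)

/-- Cuts are real numbers. -/
theorem cut_real {S : ZFSet.{0}} (hSQ : S ⊆ Qc) {b : ℝ} (hne : ∃ q, q ∈ S)
    (hb : ∀ t, qc t ∈ S → qv t ≤ b) (h1 : ∀ t r, qc r ∈ S → qv t < qv r → qc t ∈ S)
    (h2 : ∀ r, qc r ∈ S → ∃ t, qc t ∈ S ∧ qv r < qv t) : ∃ c : ℝ, S = cutS c := by
  obtain ⟨q0, hq0⟩ := hne
  obtain ⟨t0, rfl⟩ := mem_Qc.1 (hSQ hq0)
  have hne : {y : ℝ | ∃ t, qc t ∈ S ∧ y = qv t}.Nonempty := ⟨_, t0, hq0, rfl⟩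
  have hbd : BddAbove {y : ℝ | ∃ t, qc t ∈ S ∧ y = qv t} := by
    refine ⟨b, ?_⟩
    rintro _ ⟨t, ht, rfl⟩
    exact hb t ht
  refine ⟨sSup {y : ℝ | ∃ t, qc t ∈ S ∧ y = qv t}, ?_⟩
  ext z
  rw [mem_cutS]
  constructor
  · intro hz
    obtain ⟨t, rfl⟩ := mem_Qc.1 (hSQ hz)
    obtain ⟨r, hr, h3⟩ := h2 _ hz
    exact ⟨t, h3.trans_le (le_csSup hbd ⟨r, hr, rfl⟩), rfl⟩
  · rintro ⟨t, ht, rfl⟩
    obtain ⟨_, ⟨r, hr, rfl⟩, h3⟩ := exists_lt_of_lt_csSup hne ht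
    exact h1 _ _ hr h3

/-- A definable property that is locally constant at all real numbers of an interval. -/
theorem const_aux {X : ZFSet.{0}} (hX : X ∈ M)
    (hXr : IsRealSet X) (hXq : ∀ r, cutS (qv r) ∈ X) {P : ZFSet.{0} → Prop}
    (hP : Dfn M M fun w : Fin 1 → ZFSet.{0} => P (w 0)) {u v : ℝ}
    (hloc : ∀ c : ℝ, cutS c ∈ M → u < c → c < v → ∃ s t : ℝ, s < c ∧ c < t ∧
      ∀ x y : ℝ, cutS x ∈ X → cutS y ∈ X → s < x → x < t → s < y → y < t →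
        P (cutS x) → P (cutS y)) {x1 x2 : ℝ} (h1 : cutS x1 ∈ X) (h2 : cutS x2 ∈ X)
    (hu : u < x1) (hv : x2 < v) (h12 : x1 < x2) (hp : P (cutS x1)) : P (cutS x2) := by
  by_contra hnp
  have hB := hM.base
  have hlt := dfn_LtC hM hQ hL
  have hx1M := hM.trans _ hX _ h1
  have hx2M := hM.trans _ hX _ h2
  set S := ZFSet.sep (fun q => ∃ q' ∈ Qc, pair q q' ∈ LQ ∧ q' ∈ cutS x2 ∧
    ∀ x ∈ X, cutS x1 ⊆ x → LtC x q' → P x) Qc with hS
  have hSM : S ∈ M := by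
    rw [hS]
    exact hM.sep_mem (Q := fun q => ∃ q' ∈ Qc, pair q q' ∈ LQ ∧ q' ∈ cutS x2 ∧
      ∀ x ∈ X, cutS x1 ⊆ x → LtC x q' → P x) (by
      (repeat' first
        | first | apply Dfn.comp2 (Q := fun a b => LtC a b) hlt | apply Dfn.comp1 (Q := fun a => P a) hP
        | assumption
        | exact DfnF.proj _
        | exact DfnF.const (by assumption)
        | exact DfnF.const' (by first | assumption | trivial) (by first | assumption | trivial)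
        | exact Dfn.prop _
        | apply hB.isFunc' | apply hB.isInj' | apply hB.isBij' | apply hB.isOrdinal'
        | apply hB.subset' | apply hB.pair' | apply hB.insert'
        | apply Dfn.not | apply Dfn.and | apply Dfn.or | apply Dfn.imp | apply Dfn.iff
        | apply hB.bex | apply hB.ball | apply Dfn.ex | apply Dfn.all
        | apply Dfn.eq | apply Dfn.mem)) hQ
  have hmem : ∀ t, qc t ∈ S ↔ ∃ r, qv t < qv r ∧ qv r < x2 ∧
      ∀ x : ℝ, cutS x ∈ X → x1 ≤ x → x < qv r → P (cutS x) := by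
    intro t
    rw [hS, ZFSet.mem_sep]
    constructor
    · rintro ⟨-, q', hq', h3, h4, h5⟩
      obtain ⟨r, rfl⟩ := mem_Qc.1 hq'
      refine ⟨r, mem_LQ.1 h3, qc_mem_cutS.1 h4, fun x hx h6 h7 => h5 _ hx ?_ (ltC_iff.2 h7)⟩
      intro z hz
      obtain ⟨w, hw, rfl⟩ := mem_cutS.1 hz
      exact qc_mem_cutS.2 (hw.trans_le h6)
    · rintro ⟨r, h3, h4, h5⟩
      refine ⟨mem_Qc.2 ⟨t, rfl⟩, _, mem_Qc.2 ⟨r, rfl⟩, mem_LQ.2 h3, qc_mem_cutS.2 h4,
        fun x hx h6 h7 => ?_⟩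
      obtain ⟨x, rfl⟩ := hXr x hx
      refine h5 x hx ?_ (ltC_iff.1 h7)
      by_contra h8
      obtain ⟨w, h9, h10⟩ := exists_qv_btwn (not_le.1 h8)
      have h11 := qc_mem_cutS.1 (h6 (qc_mem_cutS.2 h10))
      linarith
  have hlow : ∀ t, qv t < x1 → qc t ∈ S := by
    intro t ht
    obtain ⟨r, h3, h4⟩ := exists_qv_btwn ht
    exact (hmem t).2 ⟨r, h3, h4.trans h12, fun x _ h5 h6 => absurd (h4.trans_le h5)
      (not_lt.2 h6.le)⟩
  obtain ⟨c, hc⟩ := cut_real hM hQ hL (S := S) (b := x2) (fun z hz => by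
      rw [hS] at hz
      exact (ZFSet.mem_sep.1 hz).1) (by
      obtain ⟨t, -, h3⟩ := exists_qv_btwn (show x1 - 1 < x1 by linarith)
      exact ⟨_, hlow t h3⟩) (fun t ht => by
      obtain ⟨r, h3, h4, -⟩ := (hmem t).1 ht
      exact (h3.trans h4).le) (fun t r hr h3 => by
      obtain ⟨w, h4, h5⟩ := (hmem r).1 hr
      exact (hmem t).2 ⟨w, h3.trans h4, h5⟩) (fun r hr => by
      obtain ⟨w, h4, h5⟩ := (hmem r).1 hr
      obtain ⟨t, h6, h7⟩ := exists_qv_btwn h4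
      exact ⟨t, (hmem t).2 ⟨w, h7, h5⟩, h6⟩)
  have hcM : cutS c ∈ M := hc ▸ hSM
  have hx1c : x1 ≤ c := by
    by_contra h3
    obtain ⟨t, h4, h5⟩ := exists_qv_btwn (not_le.1 h3)
    have h6 := hlow t h5
    rw [hc, qc_mem_cutS] at h6
    linarith
  have hcx2 : c ≤ x2 := by
    by_contra h3
    obtain ⟨t, h4, h5⟩ := exists_qv_btwn (not_le.1 h3)
    have h6 : qc t ∈ S := by
      rw [hc, qc_mem_cutS]
      exact h5
    obtain ⟨r, h7, h8, -⟩ := (hmem t).1 h6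
    linarith
  obtain ⟨s, t, hs, ht, hst⟩ := hloc c hcM (hu.trans_le hx1c) (lt_of_le_of_lt hcx2 hv)
  -- a point with the property in the interval
  obtain ⟨x0, hx0, hx0s, hx0t, hx0P⟩ : ∃ x0, cutS x0 ∈ X ∧ s < x0 ∧ x0 < t ∧ P (cutS x0) := by
    rcases lt_or_ge s x1 with h3 | h3
    · exact ⟨x1, h1, h3, lt_of_le_of_lt hx1c ht, hp⟩
    · obtain ⟨w, h4, h5⟩ := exists_qv_btwn hs
      have h6 : qc w ∈ S := by
        rw [hc, qc_mem_cutS]
        exact h5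
      obtain ⟨r, h7, h8, h9⟩ := (hmem w).1 h6
      exact ⟨qv w, hXq w, h4, h5.trans ht, h9 _ (hXq w) (h3.trans h4.le) h7⟩
  have hall : ∀ y : ℝ, cutS y ∈ X → s < y → y < t → P (cutS y) :=
    fun y hy h3 h4 => hst x0 y hx0 hy hx0s hx0t h3 h4 hx0P
  -- all points between x1 and t
  have hall2 : ∀ y : ℝ, cutS y ∈ X → x1 ≤ y → y < t → P (cutS y) := by
    intro y hy h3 h4
    rcases lt_or_ge s y with h5 | h5
    · exact hall y hy h5 h4
    · obtain ⟨w, h6, h7⟩ := exists_qv_btwn hs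
      have h8 : qc w ∈ S := by
        rw [hc, qc_mem_cutS]
        exact h7
      obtain ⟨r, h9, h10, h11⟩ := (hmem w).1 h8
      exact h11 y hy h3 (by linarith)
  rcases lt_or_ge x2 t with h3 | h3
  · exact hnp (hall2 x2 h2 h12.le h3)
  · obtain ⟨w, h4, h5⟩ := exists_qv_btwn ht
    obtain ⟨r, h6, h7⟩ := exists_qv_btwn h5
    have h8 : qc w ∈ S := (hmem w).2 ⟨r, h6, h7.trans_le h3, fun x hx h9 h10 =>
      hall2 x hx h9 (h10.trans h7)⟩
    rw [hc, qc_mem_cutS] at h8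
    linarith

theorem const_interval {X : ZFSet.{0}} (hX : X ∈ M)
    (hXr : IsRealSet X) (hXq : ∀ r, cutS (qv r) ∈ X) {P : ZFSet.{0} → Prop}
    (hP : Dfn M M fun w : Fin 1 → ZFSet.{0} => P (w 0)) {u v : ℝ}
    (hloc : ∀ c : ℝ, cutS c ∈ M → u < c → c < v → ∃ s t : ℝ, s < c ∧ c < t ∧
      ∀ x y : ℝ, cutS x ∈ X → cutS y ∈ X → s < x → x < t → s < y → y < t →
        P (cutS x) → P (cutS y)) {x1 x2 : ℝ} (h1 : cutS x1 ∈ X) (h2 : cutS x2 ∈ X)
    (hu : u < x1) (hv : x1 < v) (hu' : u < x2) (hv' : x2 < v) (hp : P (cutS x1)) :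
    P (cutS x2) := by
  rcases lt_trichotomy x1 x2 with h | h | h
  · exact const_aux hM hQ hL hX hXr hXq hP hloc h1 h2 hu hv' h hp
  · rwa [← h]
  · by_contra hnp
    refine const_aux hM hQ hL hX hXr hXq (P := fun x => ¬ P x) hP.not (u := u) (v := v) ?_ h2 h1
      hu' hv h hnp hp
    intro c hc h3 h4
    obtain ⟨s, t, h5, h6, h7⟩ := hloc c hc h3 h4
    exact ⟨s, t, h5, h6, fun x y hx hy h8 h9 h10 h11 h12 h13 =>
      h12 (h7 y x hy hx h10 h11 h8 h9 h13)⟩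

end

end Pool.Agent.Q211.FS
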