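import Pool.Agent.Q211.FS.NCp

/-!
# The complement of the set of the Cohen reals
-/

set_option autoImplicit false
set_option linter.unusedSectionVars false
set_option linter.unreachableTactic false
set_option linter.unusedTactic false

namespace Pool.Agent.Q211.FS

open Pool.Agent.W868 Pool.Agent.W868.PName Pool.Agent.Q211.SY
open ZFSet (pair)

theorem open_of {M : Set ZFSet.{0}} (hM : IsZF M) {X τ : ZFSet.{0}} (hX : X ∈ M)
    (hXr : IsRealSet X) (hτ : IsUsualTop M X τ) {P : ZFSet.{0} → Prop}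
    (hP : Dfn M M fun w : Fin 1 → ZFSet.{0} => P (w 0))
    (h : ∀ x : ℝ, cutS x ∈ X → P (cutS x) → ∃ ε : ℝ, 0 < ε ∧ ∀ y : ℝ, cutS y ∈ X →
      |x - y| < ε → P (cutS y)) : ZFSet.sep P X ∈ τ := by
  refine (hτ _).2 ⟨hM.sep_mem hP hX, fun z hz => (ZFSet.mem_sep.1 hz).1, fun x hx => ?_⟩
  obtain ⟨h1, h2⟩ := ZFSet.mem_sep.1 hx
  obtain ⟨ε, hε, h3⟩ := h x h1 h2
  exact ⟨ε, hε, fun y hy hxy => ZFSet.mem_sep.2 ⟨hy, h3 y hy hxy⟩⟩

/-- Finite sets of real numbers are discrete. -/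
theorem finset_gap (T : Finset ℝ) (a : ℝ) : ∃ ε : ℝ, 0 < ε ∧ ∀ y ∈ T, y ≠ a → ε ≤ |a - y| := by
  have h2 : IsClosed ((T.erase a : Finset ℝ) : Set ℝ) := (T.erase a).finite_toSet.isClosed
  have h3 : ((T.erase a : Finset ℝ) : Set ℝ)ᶜ ∈ nhds a := h2.isOpen_compl.mem_nhds (by simp)
  obtain ⟨ε, hε, h4⟩ := Metric.mem_nhds_iff.1 h3
  refine ⟨ε, hε, fun y hy hne => ?_⟩
  by_contra h5
  have h6 : y ∈ Metric.ball a ε := by
    rw [Metric.mem_ball, Real.dist_eq, abs_sub_comm]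
    exact not_le.1 h5
  exact h4 h6 (Finset.mem_coe.2 (Finset.mem_erase.2 ⟨hne, hy⟩))

namespace IsCM

variable {Y : Set ℝ} {π : Pkg PC} (h : IsCM Y π)

include h

theorem Qc_mem : Qc ∈ SC.Ms π := by
  rw [← hat_Qc π]
  exact Sys.mem_Ms h.qc (SC.hs_check _)

theorem LQ_mem : LQ ∈ SC.Ms π := by
  rw [← hat_LQ π]
  exact Sys.mem_Ms h.lq (SC.hs_check _)

theorem A_mem : π.val An ∈ SC.Ms π := Sys.mem_Ms h.an hs_An

theorem cr_memM (i : ℕ) : cutS (cr π i) ∈ SC.Ms π :=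
  h.isZF.trans _ h.A_mem _ (h.mem_An.2 ⟨i, rfl⟩)

/-- Rational numbers are in the model. -/
theorem rat_mem (r : ℕ × ℕ × ℕ) : cutS (qv r) ∈ SC.Ms π := by
  have hM := h.isZF
  have hB := hM.base
  have hQ := h.Qc_mem
  have hL := h.LQ_mem
  have hr : FS.qc r ∈ SC.Ms π := hM.trans _ hQ _ (mem_Qc.2 ⟨r, rfl⟩)
  have h1 : cutS (qv r) = ZFSet.sep (fun z => pair z (FS.qc r) ∈ LQ) Qc := by
    ext z
    rw [ZFSet.mem_sep]
    constructor
    · intro hz
      obtain ⟨t, ht, rfl⟩ := mem_cutS.1 hz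
      exact ⟨mem_Qc.2 ⟨t, rfl⟩, mem_LQ.2 ht⟩
    · rintro ⟨h2, h3⟩
      obtain ⟨t, rfl⟩ := mem_Qc.1 h2
      exact qc_mem_cutS.2 (mem_LQ.1 h3)
  rw [h1]
  exact hM.sep_mem (Q := fun z => pair z (FS.qc r) ∈ LQ) (by
    (repeat' first
      | assumption
      | exact DfnF.proj _
      | exact DfnF.const (by assumption)
      | exact DfnF.const' (by first | assumption | trivial) (by first | assumption | trivial)
      | exact Dfn.prop _
      | apply hB.isFunc' | apply hB.isInj' | apply hB.isBij' | apply hB.isOrdinal'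
      | apply hB.subset' | apply hB.pair' | apply hB.insert'
      | apply Dfn.not | apply Dfn.and | apply Dfn.or | apply Dfn.imp | apply Dfn.iff
      | apply hB.bex | apply hB.ball | apply Dfn.ex | apply Dfn.all
      | apply Dfn.eq | apply Dfn.mem)) hQ

/-- A set of the model that keeps away from every rational number contains only finitely many of
the Cohen reals. -/
theorem finite_cohen {D : ZFSet.{0}} (hD : D ∈ SC.Ms π)
    (hgap : ∀ r : ℕ × ℕ × ℕ, ∃ s t : ℕ × ℕ × ℕ, qv s < qv r ∧ qv r < qv t ∧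
      ∀ x ∈ D, ¬ (FS.qc s ∈ x ∧ FS.qc t ∉ x)) :
    ∃ e : Finset (Unit × ℕ), ∀ i, cutS (cr π i) ∈ D → ((), i) ∈ e := by
  obtain ⟨K, ⟨hKN, hKS⟩, rfl⟩ := hD
  obtain ⟨e, fK⟩ := sym_iff.1 hKS.sym
  refine ⟨e, fun i hi => ?_⟩
  by_contra hie
  rw [← h.val_Cn i] at hi
  exact cohen_notMem h hKN hKS fK hie hgap hi

end IsCM

/-- `X` is the set of all real numbers of `M` that do not belong to `A`. -/
def IsCompl (M : Set ZFSet.{0}) (A X : ZFSet.{0}) : Prop :=
  ∀ z, z ∈ X ↔ z ∈ M ∧ (∃ x : ℝ, z = cutS x) ∧ z ∉ A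

section

variable {Y : Set ℝ} {π : Pkg PC} (h : IsCM Y π) {X τ : ZFSet.{0}}
  (hX : IsCompl (SC.Ms π) (π.val An) X) (hXM : X ∈ SC.Ms π) (hτM : τ ∈ SC.Ms π)
  (hτ : IsUsualTop (SC.Ms π) X τ)

include h hX

theorem compl_real : IsRealSet X := fun z hz => ((hX z).1 hz).2.1

theorem compl_rat (r : ℕ × ℕ × ℕ) : cutS (qv r) ∈ X := by
  refine (hX _).2 ⟨h.rat_mem r, ⟨_, rfl⟩, fun h1 => ?_⟩
  obtain ⟨i, hi⟩ := h.mem_An.1 h1
  obtain ⟨q, hq⟩ := qv_rat r
  have h2 := cutS_injective hi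
  rw [hq] at h2
  exact h.cr_ne_rat i q h2.symm

theorem compl_cr (i : ℕ) : cutS (cr π i) ∉ X := fun h1 => ((hX _).1 h1).2.2 (h.mem_An.2 ⟨i, rfl⟩)

include hXM hτM hτ

theorem compl_zeroDim : ZeroDim X τ := by
  have hM := h.isZF
  have hB := hM.base
  have hQ := h.Qc_mem
  have hL := h.LQ_mem
  have hlt := dfn_LtR hM hQ hL
  have hXr := compl_real h hX
  constructor
  · intro z hz
    have hzM := hM.trans _ hXM _ hz
    obtain ⟨x, rfl⟩ := hXr z hz
    have h1 : X \ {cutS x} = ZFSet.sep (fun y => ¬ y = cutS x) X := by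
      ext y
      rw [ZFSet.mem_sdiff, ZFSet.mem_singleton, ZFSet.mem_sep]
    rw [h1]
    refine open_of hM hXM hXr hτ (P := fun y => ¬ y = cutS x) (by
      (repeat' first
        | assumption
        | exact DfnF.proj _
        | exact DfnF.const (by assumption)
        | exact DfnF.const' (by first | assumption | trivial) (by first | assumption | trivial)
        | exact Dfn.prop _
        | apply hB.isFunc' | apply hB.isInj' | apply hB.isBij' | apply hB.isOrdinal'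
        | apply hB.subset' | apply hB.pair' | apply hB.insert'
        | apply Dfn.not | apply Dfn.and | apply Dfn.or | apply Dfn.imp | apply Dfn.iff
        | apply hB.bex | apply hB.ball | apply Dfn.ex | apply Dfn.all
        | apply Dfn.eq | apply Dfn.mem)) fun y hy hne => ?_
    have h2 : y ≠ x := fun h3 => hne (by rw [h3])
    refine ⟨|y - x|, abs_pos.2 (sub_ne_zero.2 h2), fun w hw h3 h4 => ?_⟩
    rw [cutS_injective h4] at h3
    exact lt_irrefl _ h3
  · intro U hU z hz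
    obtain ⟨hUM, hUX, hU⟩ := (hτ _).1 hU
    obtain ⟨x, rfl⟩ := hXr z (hUX hz)
    obtain ⟨ε, hε, h1⟩ := hU x hz
    obtain ⟨i, h2, h3⟩ := h.cr_dense (show x - ε < x by linarith)
    obtain ⟨k, h4, h5⟩ := h.cr_dense (show x < x + ε by linarith)
    have hiM := h.cr_memM i
    have hkM := h.cr_memM k
    have hP : Dfn (SC.Ms π) (SC.Ms π) fun w : Fin 1 → ZFSet.{0} =>
        LtR (cutS (cr π i)) (w 0) ∧ LtR (w 0) (cutS (cr π k)) := by
      (repeat' first
        | apply Dfn.comp2 (Q := fun a b => LtR a b) hlt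
        | assumption
        | exact DfnF.proj _
        | exact DfnF.const (by assumption)
        | exact DfnF.const' (by first | assumption | trivial) (by first | assumption | trivial)
        | exact Dfn.prop _
        | apply hB.isFunc' | apply hB.isInj' | apply hB.isBij' | apply hB.isOrdinal'
        | apply hB.subset' | apply hB.pair' | apply hB.insert'
        | apply Dfn.not | apply Dfn.and | apply Dfn.or | apply Dfn.imp | apply Dfn.iff
        | apply hB.bex | apply hB.ball | apply Dfn.ex | apply Dfn.all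
        | apply Dfn.eq | apply Dfn.mem)
    refine ⟨ZFSet.sep (fun y => LtR (cutS (cr π i)) y ∧ LtR y (cutS (cr π k))) X, ?_, ?_, ?_, ?_⟩
    · refine open_of hM hXM hXr hτ (P := fun y => LtR (cutS (cr π i)) y ∧
        LtR y (cutS (cr π k))) hP fun y hy ⟨h6, h7⟩ => ?_
      rw [ltR_iff] at h6 h7
      refine ⟨min (y - cr π i) (cr π k - y), lt_min (by linarith) (by linarith),
        fun w hw h8 => ?_⟩
      rw [lt_min_iff, abs_lt, abs_lt] at h8
      exact ⟨ltR_iff.2 (by linarith), ltR_iff.2 (by linarith)⟩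
    · have h6 : X \ ZFSet.sep (fun y => LtR (cutS (cr π i)) y ∧ LtR y (cutS (cr π k))) X =
          ZFSet.sep (fun y => ¬ (LtR (cutS (cr π i)) y ∧ LtR y (cutS (cr π k)))) X := by
        ext y
        rw [ZFSet.mem_sdiff, ZFSet.mem_sep, ZFSet.mem_sep]
        tauto
      rw [h6]
      refine open_of hM hXM hXr hτ (P := fun y => ¬ (LtR (cutS (cr π i)) y ∧
        LtR y (cutS (cr π k)))) hP.not fun y hy h7 => ?_
      rw [ltR_iff, ltR_iff] at h7
      have hyi : y ≠ cr π i := fun h8 => compl_cr h hX i (by rwa [← h8])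
      have hyk : y ≠ cr π k := fun h8 => compl_cr h hX k (by rwa [← h8])
      rcases lt_or_gt_of_ne hyi with h8 | h8
      · refine ⟨cr π i - y, by linarith, fun w hw h9 h10 => ?_⟩
        rw [ltR_iff, ltR_iff] at h10
        rw [abs_lt] at h9
        linarith [h10.1]
      · have h11 : cr π k < y := by
          rcases lt_or_gt_of_ne hyk with h12 | h12
          · exact absurd ⟨h8, h12⟩ h7
          · exact h12
        refine ⟨y - cr π k, by linarith, fun w hw h9 h10 => ?_⟩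
        rw [ltR_iff, ltR_iff] at h10
        rw [abs_lt] at h9
        linarith [h10.2]
    · exact ZFSet.mem_sep.2 ⟨hUX hz, ltR_iff.2 h3, ltR_iff.2 h4⟩
    · intro y hy
      obtain ⟨h6, h7, h8⟩ := ZFSet.mem_sep.1 hy
      obtain ⟨y, rfl⟩ := hXr y h6
      rw [ltR_iff] at h7 h8
      refine h1 y h6 ?_
      rw [abs_lt]
      constructor <;> linarith

theorem compl_not_ncompact : ¬ NCompactIn (SC.Ms π) X τ := by
  classical
  rintro ⟨J, hJ, N, hN, ν, hν, C, hC, g, hg, hNJ, hνt, hCN, hCcl, hbij, hhomeo⟩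
  have hM := h.isZF
  have hB := hM.base
  have hQ := h.Qc_mem
  have hL := h.LQ_mem
  have h0 := hM.infinity
  have hlt := dfn_LtR hM hQ hL
  have hltc := dfn_LtC hM hQ hL
  have hXr := compl_real h hX
  have hXq := compl_rat h hX
  set a := cr π 0 with ha
  have haM : cutS a ∈ SC.Ms π := h.cr_memM 0
  have haX : cutS a ∉ X := compl_cr h hX 0
  set V : ZFSet.{0} → ZFSet.{0} → ZFSet.{0} → Prop := fun x j n =>
    ∃ f ∈ N, pair x f ∈ g ∧ pair j n ∈ f with hV
  have hVd : Dfn (SC.Ms π) (SC.Ms π) fun w : Fin 3 → ZFSet.{0} => V (w 0) (w 1) (w 2) := by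
    rw [hV]
    (repeat' first
      | assumption
      | exact DfnF.proj _
      | exact DfnF.const (by assumption)
      | exact DfnF.const' (by first | assumption | trivial) (by first | assumption | trivial)
      | exact Dfn.prop _
      | apply hB.isFunc' | apply hB.isInj' | apply hB.isBij' | apply hB.isOrdinal'
      | apply hB.subset' | apply hB.pair' | apply hB.insert'
      | apply Dfn.not | apply Dfn.and | apply Dfn.or | apply Dfn.imp | apply Dfn.iff
      | apply hB.bex | apply hB.ball | apply Dfn.ex | apply Dfn.all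
      | apply Dfn.eq | apply Dfn.mem)
  -- values
  have hval : ∀ x ∈ X, ∃ f ∈ C, pair x f ∈ g := by
    intro x hx
    obtain ⟨f, hf, -⟩ := hbij.1.1.2 x hx
    exact ⟨f, (ZFSet.pair_mem_prod.1 (hbij.1.1.1 hf)).2, hf⟩
  have huniq : ∀ x f f', pair x f ∈ g → pair x f' ∈ g → f = f' := by
    intro x f f' h1 h2
    exact (hbij.1.1.2 x (ZFSet.pair_mem_prod.1 (hbij.1.1.1 h1)).1).unique h1 h2
  have hVe : ∀ x ∈ X, ∀ j ∈ J, ∃ n ∈ ZFSet.omega, V x j n := by
    intro x hx j hj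
    obtain ⟨f, hf, h1⟩ := hval x hx
    obtain ⟨-, h2⟩ := (hNJ f).1 (hCN hf)
    obtain ⟨n, hn, -⟩ := h2.2 j hj
    exact ⟨n, (ZFSet.pair_mem_prod.1 (h2.1 hn)).2, f, hCN hf, h1, hn⟩
  have hVu : ∀ x j n n', V x j n → V x j n' → n = n' := by
    rintro x j n n' ⟨f, hf, h1, h2⟩ ⟨f', hf', h3, h4⟩
    have h5 := huniq _ _ _ h1 h3
    subst h5
    obtain ⟨-, h6⟩ := (hNJ f).1 hf
    exact (h6.2 j (ZFSet.pair_mem_prod.1 (h6.1 h2)).1).unique h2 h4
  -- continuity
  have hcont : ∀ j ∈ J, ∀ x : ℝ, cutS x ∈ X → ∃ ε : ℝ, 0 < ε ∧ ∀ y : ℝ, cutS y ∈ X →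
      |x - y| < ε → ∀ n, V (cutS x) j n → V (cutS y) j n := by
    intro j hj x hx
    have hjM := hM.trans _ hJ _ hj
    obtain ⟨n, hn, hxn⟩ := hVe _ hx j hj
    have hnM := hM.trans _ h0 _ hn
    have hW : ZFSet.sep (fun f => pair j n ∈ f) N ∈ ν := by
      refine (hνt _).2 ⟨hM.sep_mem (Q := fun f => pair j n ∈ f) (by
        (repeat' first
          | assumption
          | exact DfnF.proj _
          | exact DfnF.const (by assumption)
          | exact DfnF.const' (by first | assumption | trivial) (by first | assumption | trivial)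
          | exact Dfn.prop _
          | apply hB.isFunc' | apply hB.isInj' | apply hB.isBij' | apply hB.isOrdinal'
          | apply hB.subset' | apply hB.pair' | apply hB.insert'
          | apply Dfn.not | apply Dfn.and | apply Dfn.or | apply Dfn.imp | apply Dfn.iff
          | apply hB.bex | apply hB.ball | apply Dfn.ex | apply Dfn.all
          | apply Dfn.eq | apply Dfn.mem)) hN, fun z hz => (ZFSet.mem_sep.1 hz).1, fun f hf => ⟨{j}, ?_, ?_⟩⟩
      · intro j' hj'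
        rwa [Finset.mem_singleton.1 hj']
      · intro f' hf' h1
        exact ZFSet.mem_sep.2 ⟨hf', h1 j (Finset.mem_singleton_self _) n (ZFSet.mem_sep.1 hf).2⟩
    have hU : ZFSet.sep (fun x => V x j n) X ∈ τ := by
      refine (hhomeo _ fun z hz => (ZFSet.mem_sep.1 hz).1).2 (mem_subTop.2 ⟨_, hW, ?_⟩)
      ext f
      rw [ZFSet.mem_sep, ZFSet.mem_inter, ZFSet.mem_sep]
      constructor
      · rintro ⟨h1, x', h2, h3⟩
        obtain ⟨h4, f', h5, h6, h7⟩ := ZFSet.mem_sep.1 h2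
        have h8 := huniq _ _ _ h6 h3
        subst h8
        exact ⟨⟨h5, h7⟩, h1⟩
      · rintro ⟨⟨h1, h2⟩, h3⟩
        obtain ⟨x', h4, h5⟩ := hbij.2 f h3
        exact ⟨h3, x', ZFSet.mem_sep.2 ⟨h4, f, h1, h5, h2⟩, h5⟩
    obtain ⟨-, -, h1⟩ := (hτ _).1 hU
    obtain ⟨ε, hε, h2⟩ := h1 x (ZFSet.mem_sep.2 ⟨hx, hxn⟩)
    refine ⟨ε, hε, fun y hy hxy n' hn' => ?_⟩
    rw [hVu _ _ _ _ hn' hxn]
    exact (ZFSet.mem_sep.1 (h2 y hy hxy)).2
  obtain ⟨R, hR, hR1⟩ := exists_reals hM hQ hL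
  -- limits from the right
  have hlim : ∀ j ∈ J, ∃ n ∈ ZFSet.omega, ∃ δ : ℝ, 0 < δ ∧ ∀ y : ℝ, cutS y ∈ X → a < y →
      y < a + δ → V (cutS y) j n := by
    intro j hj
    have hjM := hM.trans _ hJ _ hj
    have hDd : Dfn (SC.Ms π) (SC.Ms π) fun w : Fin 1 → ZFSet.{0} => ∀ s ∈ Qc, ∀ t ∈ Qc,
        s ∈ w 0 → LtC (w 0) t → ∃ x ∈ X, ∃ y ∈ X, s ∈ x ∧ LtC x t ∧ s ∈ y ∧ LtC y t ∧
          ∃ n ∈ ZFSet.omega, V x j n ∧ ¬ V y j n := by
      (repeat' first
        | first | apply Dfn.comp2 (Q := fun a b => LtC a b) hltc | apply Dfn.comp3 (Q := fun a b c => V a b c) hVd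
        | assumption
        | exact DfnF.proj _
        | exact DfnF.const (by assumption)
        | exact DfnF.const' (by first | assumption | trivial) (by first | assumption | trivial)
        | exact Dfn.prop _
        | apply hB.isFunc' | apply hB.isInj' | apply hB.isBij' | apply hB.isOrdinal'
        | apply hB.subset' | apply hB.pair' | apply hB.insert'
        | apply Dfn.not | apply Dfn.and | apply Dfn.or | apply Dfn.imp | apply Dfn.iff
        | apply hB.bex | apply hB.ball | apply Dfn.ex | apply Dfn.all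
        | apply Dfn.eq | apply Dfn.mem)
    set D := ZFSet.sep (fun c => ∀ s ∈ Qc, ∀ t ∈ Qc,
        s ∈ c → LtC c t → ∃ x ∈ X, ∃ y ∈ X, s ∈ x ∧ LtC x t ∧ s ∈ y ∧ LtC y t ∧
          ∃ n ∈ ZFSet.omega, V x j n ∧ ¬ V y j n) R with hD
    have hDM : D ∈ SC.Ms π := hM.sep_mem hDd hR
    -- points of `D` are not points of `X`
    have hfar : ∀ x : ℝ, cutS x ∈ X → ∃ ε : ℝ, 0 < ε ∧ ∀ c : ℝ, cutS c ∈ D → ε ≤ |x - c| := by
      intro x hx
      obtain ⟨ε, hε, h1⟩ := hcont j hj x hx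
      refine ⟨ε, hε, fun c hc => ?_⟩
      by_contra h2
      have h3 := not_le.1 h2
      rw [abs_lt] at h3
      obtain ⟨s, hs1, hs2⟩ := exists_qv_btwn (show x - ε < c by linarith)
      obtain ⟨t, ht1, ht2⟩ := exists_qv_btwn (show c < x + ε by linarith)
      obtain ⟨y, hy, z, hz, h4, h5, h6, h7, n, hn, h8, h9⟩ := (ZFSet.mem_sep.1 hc).2 _
        (mem_Qc.2 ⟨s, rfl⟩) _ (mem_Qc.2 ⟨t, rfl⟩) (qc_mem_cutS.2 hs2) (ltC_iff.2 ht1)
      obtain ⟨y, rfl⟩ := hXr y hy
      obtain ⟨z, rfl⟩ := hXr z hz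
      rw [qc_mem_cutS] at h4 h6
      rw [ltC_iff] at h5 h7
      obtain ⟨n', -, h10⟩ := hVe _ hx j hj
      have h11 := h1 y hy (by rw [abs_lt]; constructor <;> linarith) n' h10
      have h12 := h1 z hz (by rw [abs_lt]; constructor <;> linarith) n' h10
      rw [hVu _ _ _ _ h8 h11] at h9
      exact h9 h12
    obtain ⟨e, he⟩ := h.finite_cohen hDM (by
      intro r
      obtain ⟨ε, hε, h1⟩ := hfar _ (hXq r)
      obtain ⟨s, hs1, hs2⟩ := exists_qv_btwn (show qv r - ε < qv r by linarith)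
      obtain ⟨t, ht1, ht2⟩ := exists_qv_btwn (show qv r < qv r + ε by linarith)
      refine ⟨s, t, hs2, ht1, fun c hc h2 => ?_⟩
      obtain ⟨-, c, rfl⟩ := (hR1 _).1 (ZFSet.mem_sep.1 hc).1
      rw [qc_mem_cutS, qc_mem_cutS, not_lt] at h2
      refine absurd (h1 c hc) (not_le.2 ?_)
      rw [abs_lt]
      constructor <;> linarith [h2.1, h2.2])
    obtain ⟨δ, hδ, h1⟩ := finset_gap (e.image fun c => cr π c.2) a
    have hnoD : ∀ c : ℝ, a < c → c < a + δ → cutS c ∉ D := by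
      intro c h2 h3 h4
      obtain ⟨h5, -⟩ := (hR1 _).1 (ZFSet.mem_sep.1 h4).1
      by_cases h6 : cutS c ∈ π.val An
      · obtain ⟨i, hi⟩ := h.mem_An.1 h6
        have h7 := cutS_injective hi
        subst h7
        have h8 := h1 (cr π i) (Finset.mem_image.2 ⟨((), i), he i h4, rfl⟩) h2.ne'
        rw [abs_sub_comm, abs_of_pos (by linarith)] at h8
        linarith
      · obtain ⟨ε, hε, h7⟩ := hfar c ((hX _).2 ⟨h5, ⟨_, rfl⟩, h6⟩)
        have h8 := h7 c h4
        rw [sub_self, abs_zero] at h8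
        linarith
    obtain ⟨r, hr1, hr2⟩ := exists_qv_btwn (show a < a + δ by linarith)
    obtain ⟨n, hn, hrn⟩ := hVe _ (hXq r) j hj
    have hnM := hM.trans _ h0 _ hn
    refine ⟨n, hn, δ, hδ, fun y hy h2 h3 => ?_⟩
    refine const_interval hM hQ hL hXM hXr hXq (P := fun x => V x j n) ?_ (u := a) (v := a + δ) ?_
      (hXq r) hy hr1 hr2 h2 h3 hrn
    · apply Dfn.comp3 (Q := fun a b c => V a b c) hVd
      · exact DfnF.proj 0
      · exact DfnF.const hjM
      · exact DfnF.const hnM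
    · intro c hc h4 h5
      have h6 := hnoD c h4 h5
      rw [hD, ZFSet.mem_sep, not_and] at h6
      have h7 := h6 ((hR1 _).2 ⟨hc, _, rfl⟩)
      push Not at h7
      obtain ⟨s, hs, t, ht, h8, h9, h10⟩ := h7
      obtain ⟨s, rfl⟩ := mem_Qc.1 hs
      obtain ⟨t, rfl⟩ := mem_Qc.1 ht
      refine ⟨qv s, qv t, qc_mem_cutS.1 h8, ltC_iff.1 h9, fun x y hx hy h11 h12 h13 h14 h15 => ?_⟩
      exact h10 _ hx _ hy (qc_mem_cutS.2 h11) (ltC_iff.2 h12) (qc_mem_cutS.2 h13)
        (ltC_iff.2 h14) n hn h15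
  -- the limit
  have hPd : Dfn (SC.Ms π) (SC.Ms π) fun w : Fin 1 → ZFSet.{0} => ∃ j ∈ J, ∃ n ∈ ZFSet.omega,
      w 0 = pair j n ∧ ∃ t ∈ Qc, LtC (cutS a) t ∧ ∀ x ∈ X, LtR (cutS a) x → LtC x t →
        V x j n := by
    (repeat' first
      | first | apply Dfn.comp2 (Q := fun a b => LtC a b) hltc | apply Dfn.comp2 (Q := fun a b => LtR a b) hlt | apply Dfn.comp3 (Q := fun a b c => V a b c) hVd
      | assumption
      | exact DfnF.proj _
      | exact DfnF.const (by assumption)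
      | exact DfnF.const' (by first | assumption | trivial) (by first | assumption | trivial)
      | exact Dfn.prop _
      | apply hB.isFunc' | apply hB.isInj' | apply hB.isBij' | apply hB.isOrdinal'
      | apply hB.subset' | apply hB.pair' | apply hB.insert'
      | apply Dfn.not | apply Dfn.and | apply Dfn.or | apply Dfn.imp | apply Dfn.iff
      | apply hB.bex | apply hB.ball | apply Dfn.ex | apply Dfn.all
      | apply Dfn.eq | apply Dfn.mem)
  set y := ZFSet.sep (fun z => ∃ j ∈ J, ∃ n ∈ ZFSet.omega, z = pair j n ∧ ∃ t ∈ Qc,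
    LtC (cutS a) t ∧ ∀ x ∈ X, LtR (cutS a) x → LtC x t → V x j n) (ZFSet.prod J ZFSet.omega)
    with hy
  have hyM : y ∈ SC.Ms π := hM.sep_mem hPd (hM.prod_mem hJ h0)
  have hymem : ∀ j ∈ J, ∀ n ∈ ZFSet.omega, pair j n ∈ y ↔ ∃ δ : ℝ, 0 < δ ∧
      ∀ x : ℝ, cutS x ∈ X → a < x → x < a + δ → V (cutS x) j n := by
    intro j hj n hn
    rw [hy, ZFSet.mem_sep]
    constructor
    · rintro ⟨-, j', hj', n', hn', h1, t, ht, h2, h3⟩
      obtain ⟨h4, h5⟩ := ZFSet.pair_inj.1 h1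
      subst h4 h5
      obtain ⟨t, rfl⟩ := mem_Qc.1 ht
      rw [ltC_iff] at h2
      refine ⟨qv t - a, by linarith, fun x hx h6 h7 => ?_⟩
      exact h3 _ hx (ltR_iff.2 h6) (ltC_iff.2 (by linarith))
    · rintro ⟨δ, hδ, h1⟩
      obtain ⟨t, ht1, ht2⟩ := exists_qv_btwn (show a < a + δ by linarith)
      refine ⟨ZFSet.pair_mem_prod.2 ⟨hj, hn⟩, j, hj, n, hn, rfl, _, mem_Qc.2 ⟨t, rfl⟩,
        ltC_iff.2 ht1, fun x hx h2 h3 => ?_⟩
      obtain ⟨x, rfl⟩ := hXr x hx
      exact h1 x hx (ltR_iff.1 h2) ((ltC_iff.1 h3).trans ht2)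
  have hyN : y ∈ N := by
    refine (hNJ y).2 ⟨hyM, fun z hz => ?_, fun j hj => ?_⟩
    · rw [hy] at hz
      exact (ZFSet.mem_sep.1 hz).1
    · obtain ⟨n, hn, h1⟩ := hlim j hj
      refine ⟨n, (hymem j hj n hn).2 h1, fun n' hn' => ?_⟩
      have hn'' : n' ∈ ZFSet.omega := by
        rw [hy] at hn'
        exact (ZFSet.pair_mem_prod.1 (ZFSet.mem_sep.1 hn').1).2
      obtain ⟨δ, hδ, h2⟩ := h1
      obtain ⟨δ', hδ', h3⟩ := (hymem j hj n' hn'').1 hn'
      obtain ⟨r, hr1, hr2⟩ := exists_qv_btwn (show a < min (a + δ) (a + δ') from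
        lt_min (by linarith) (by linarith))
      exact hVu _ _ _ _ (h3 _ (hXq r) hr1 (hr2.trans_le (min_le_right _ _)))
        (h2 _ (hXq r) hr1 (hr2.trans_le (min_le_left _ _)))
  -- approximation
  have happ : ∀ W ∈ ν, y ∈ W → ∀ δ : ℝ, 0 < δ → ∃ x : ℝ, cutS x ∈ X ∧ a < x ∧ x < a + δ ∧
      ∃ f ∈ C, pair (cutS x) f ∈ g ∧ f ∈ W := by
    intro W hW hyW δ hδ
    obtain ⟨-, -, h1⟩ := (hνt _).1 hW
    obtain ⟨F, hF, h2⟩ := h1 y hyW
    have key : ∀ F' : Finset ZFSet.{0}, F' ⊆ F → ∃ δ' : ℝ, 0 < δ' ∧ ∀ j ∈ F', ∀ n,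
        pair j n ∈ y → ∀ x : ℝ, cutS x ∈ X → a < x → x < a + δ' → V (cutS x) j n := by
      intro F'
      induction F' using Finset.induction_on with
      | empty => exact fun _ => ⟨1, one_pos, fun j hj => absurd hj (Finset.notMem_empty _)⟩
      | insert j F' _ ih =>
        intro hsub
        obtain ⟨δ1, hδ1, h3⟩ := ih fun x hx => hsub (Finset.mem_insert_of_mem hx)
        have hj : j ∈ J := hF j (hsub (Finset.mem_insert_self _ _))
        obtain ⟨n, hn, -⟩ := ((hNJ y).1 hyN).2.2 j hj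
        have hn' : n ∈ ZFSet.omega := (ZFSet.pair_mem_prod.1 (((hNJ y).1 hyN).2.1 hn)).2
        obtain ⟨δ2, hδ2, h4⟩ := (hymem j hj n hn').1 hn
        refine ⟨min δ1 δ2, lt_min hδ1 hδ2, fun k hk m hm x hx h5 h6 => ?_⟩
        have h7 := min_le_left δ1 δ2
        have h8 := min_le_right δ1 δ2
        rcases Finset.mem_insert.1 hk with rfl | hk
        · rw [(((hNJ y).1 hyN).2.2 k hj).unique hm hn]
          exact h4 x hx h5 (by linarith)
        · exact h3 k hk m hm x hx h5 (by linarith)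
    obtain ⟨δ', hδ', h3⟩ := key F subset_rfl
    obtain ⟨r, hr1, hr2⟩ := exists_qv_btwn (show a < min (a + δ) (a + δ') from
      lt_min (by linarith) (by linarith))
    obtain ⟨f, hf, h4⟩ := hval _ (hXq r)
    refine ⟨qv r, hXq r, hr1, hr2.trans_le (min_le_left _ _), f, hf, h4,
      h2 f (hCN hf) fun j hj n hn => ?_⟩
    obtain ⟨f', hf', h5, h6⟩ := h3 j hj n hn _ (hXq r) hr1 (hr2.trans_le (min_le_right _ _))
    rwa [huniq _ _ _ h4 h5]
  have hyC : y ∈ C := by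
    by_contra h1
    obtain ⟨x, -, -, -, f, hf, -, h2⟩ := happ _ hCcl (ZFSet.mem_sdiff.2 ⟨hyN, h1⟩) 1 one_pos
    exact (ZFSet.mem_sdiff.1 h2).2 hf
  obtain ⟨z, hz, hzy⟩ := hbij.2 y hyC
  obtain ⟨b, rfl⟩ := hXr z hz
  have hba : b ≠ a := fun h1 => haX (by rwa [h1] at hz)
  -- a neighbourhood of `b` that keeps away from the right side of `a`
  obtain ⟨U, hU, hbU, δ, hδ, hUa⟩ : ∃ U ∈ τ, cutS b ∈ U ∧ ∃ δ : ℝ, 0 < δ ∧ ∀ x : ℝ, a < x →
      x < a + δ → cutS x ∉ U := by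
    rcases lt_or_gt_of_ne hba with h1 | h1
    · obtain ⟨t, ht1, ht2⟩ := exists_qv_btwn h1
      have htM : qc t ∈ SC.Ms π := hM.trans _ hQ _ (mem_Qc.2 ⟨t, rfl⟩)
      refine ⟨ZFSet.sep (fun x => LtC x (qc t)) X, open_of hM hXM hXr hτ
        (P := fun x => LtC x (qc t)) ?_ ?_, ZFSet.mem_sep.2 ⟨hz, ltC_iff.2 ht1⟩, 1, one_pos,
        fun x hx _ h2 => ?_⟩
      · exact Dfn.comp2 (Q := fun a b => LtC a b) hltc (DfnF.proj 0) (DfnF.const htM)
      · intro x hx h2
        rw [ltC_iff] at h2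
        refine ⟨qv t - x, by linarith, fun w hw h3 => ltC_iff.2 ?_⟩
        rw [abs_lt] at h3
        linarith
      · have h3 := ltC_iff.1 (ZFSet.mem_sep.1 h2).2
        linarith
    · obtain ⟨t, ht1, ht2⟩ := exists_qv_btwn h1
      have htM : qc t ∈ SC.Ms π := hM.trans _ hQ _ (mem_Qc.2 ⟨t, rfl⟩)
      refine ⟨ZFSet.sep (fun x => qc t ∈ x) X, open_of hM hXM hXr hτ
        (P := fun x => qc t ∈ x) ?_ ?_, ZFSet.mem_sep.2 ⟨hz, qc_mem_cutS.2 ht2⟩, qv t - a,
        by linarith, fun x hx h3 h2 => ?_⟩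
      · exact Dfn.mem (DfnF.const htM) (DfnF.proj 0)
      · intro x hx h2
        rw [qc_mem_cutS] at h2
        refine ⟨x - qv t, by linarith, fun w hw h3 => qc_mem_cutS.2 ?_⟩
        rw [abs_lt] at h3
        linarith
      · have h4 := qc_mem_cutS.1 (ZFSet.mem_sep.1 h2).2
        linarith
  obtain ⟨-, hUX, -⟩ := (hτ _).1 hU
  obtain ⟨W, hW, h1⟩ := mem_subTop.1 ((hhomeo U hUX).1 hU)
  have h2 : y ∈ ZFSet.sep (fun y => ∃ x ∈ U, pair x y ∈ g) C :=
    ZFSet.mem_sep.2 ⟨hyC, _, hbU, hzy⟩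
  rw [h1] at h2
  obtain ⟨x, hx, h3, h4, f, hf, h5, h6⟩ := happ W hW (ZFSet.mem_inter.1 h2).1 δ hδ
  have h7 : f ∈ ZFSet.sep (fun y => ∃ x ∈ U, pair x y ∈ g) C := by
    rw [h1]
    exact ZFSet.mem_inter.2 ⟨h6, hf⟩
  obtain ⟨-, x', hx', h8⟩ := ZFSet.mem_sep.1 h7
  have h9 : x' = cutS x := hbij.1.2 _ _ _ h8 h5
  rw [h9] at hx'
  exact hUa x h3 h4 hx'

end

end Pool.Agent.Q211.FS
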