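import Pool.Agent.Q211.FS.Mod
import Pool.Agent.Q211.SY.Fin

/-!
# Finite sets of pairs of a generic function and an ordinal: homogeneity
-/

set_option autoImplicit false
set_option linter.unusedSectionVars false
set_option linter.unreachableTactic false
set_option linter.unusedTactic false

namespace Pool.Agent.Q211.FS

open Pool.Agent.W868 Pool.Agent.W868.PName Pool.Agent.Q211.SY
open ZFSet (pair)

theorem omega_sub_Al (n : ℕ) : ZFSet.omega ⊆ Al n := by
  intro z hz
  obtain ⟨k, rfl⟩ := mem_omega_iff.1 hz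
  rw [nat_eq, Al, Ordinal.toZFSet_mem_toZFSet_iff]
  exact lt_of_lt_of_le (Ordinal.nat_lt_omega0 k) (by
    have h := Cardinal.ord_le_ord.2 (Cardinal.aleph0_le_aleph (n : Ordinal.{0}))
    rwa [Cardinal.ord_aleph0] at h)

theorem nat_mem_Al (k n : ℕ) : nat k ∈ Al n := omega_sub_Al n (mem_omega_iff.2 ⟨k, rfl⟩)

/-- The element `k` of `Al n`. -/
noncomputable def nn (n k : ℕ) : Ty (Al n) := (exists_el (nat_mem_Al k n)).choose

theorem el_nn (n k : ℕ) : el (nn n k) = nat k := (exists_el (nat_mem_Al k n)).choose_spec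

/-- Adding the value `a` at the place `m`. -/
noncomputable def padd {n : ℕ} (q : CQ (Ty (Al n))) (m : ℕ) (a : Ty (Al n)) : CQ (Ty (Al n)) :=
  ⟨q.l ++ List.replicate (m - q.l.length) (nn n 0) ++ [a]⟩

theorem padd_le {n : ℕ} (q : CQ (Ty (Al n))) (m : ℕ) (a : Ty (Al n)) : padd q m a ≤ q :=
  ⟨List.replicate (m - q.l.length) (nn n 0) ++ [a], by rw [padd, List.append_assoc]⟩

theorem padd_at {n : ℕ} {q : CQ (Ty (Al n))} {m : ℕ} (h : q.l.length ≤ m) (a : Ty (Al n)) :
    (padd q m a).at m = some a := by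
  unfold CQ.at padd
  have h1 : (q.l ++ List.replicate (m - q.l.length) (nn n 0)).length = m := by
    simp only [List.length_append, List.length_replicate]
    omega
  simp only
  rw [List.getElem?_append_right h1.le, h1]
  simp

theorem ud_ne : UD fun _ (v : Fin 2 → ZFSet.{0}) => v 0 ≠ v 1 := by
  (repeat' first
    | assumption
    | exact UF.proj _
    | exact UF.om
    | exact UD.prop _
    | apply UD.not | apply UD.and | apply UD.or | apply UD.imp | apply UD.iff
    | apply UD.bex | apply UD.ball | apply UD.ex | apply UD.all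
    | apply UD.eq | apply UD.mem | apply UF.pair)

/-- The generic functions are distinct. -/
theorem gn_ne {π : Pkg PA} (hcl : SA.Cld π) {c c' : ℕ × ℕ} (h : c ≠ c')
    (h1 : Gn Al c.1 c.2 ∈ π.N) (h2 : Gn Al c'.1 c'.2 ∈ π.N) :
    π.val (Gn Al c.1 c.2) ≠ π.val (Gn Al c'.1 c'.2) := by
  classical
  obtain ⟨n, i⟩ := c
  obtain ⟨n', i'⟩ := c'
  refine of_dense (S := SA) ud_ne (x := ![Gn Al n i, Gn Al n' i']) ?_ hcl ?_ (m := 0) ?_
  · intro j
    fin_cases j
    exacts [hs_Gn _ _, hs_Gn _ _]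
  · intro j
    fin_cases j
    exacts [h1, h2]
  · intro q _
    set m := max (q.1 n i).l.length (q.1 n' i').l.length with hm
    set q1 : PA := upd q n i (padd (q.1 n i) m (nn n 0)) with hq1
    have h3 : q1.1 n' i' = q.1 n' i' := by
      rw [hq1, upd_ne]
      rintro ⟨rfl, rfl⟩
      exact h rfl
    have h4 : q1 ≤ q := upd_le (padd_le _ _ _)
    refine ⟨upd q1 n' i' (padd (q.1 n' i') m (nn n' 1)), (upd_le (by
      rw [h3]
      exact padd_le _ _ _)).trans h4, ?_⟩
    rintro π' hcl' hN' ⟨k, hk⟩ he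
    have h5 : ((π'.g k).1 n' i').at m = some (nn n' 1) := by
      refine CQ.at_mono (hk n' i') ?_
      rw [upd_self]
      exact padd_at (le_max_right _ _) _
    have h6 : ((π'.g k).1 n i).at m = some (nn n 0) := by
      refine CQ.at_mono (hk n i) ?_
      rw [upd_ne]
      · rw [hq1, upd_self]
        exact padd_at (le_max_left _ _) _
      · rintro ⟨rfl, rfl⟩
        exact h rfl
    have h7 : pair (nat m) (π'.hat (nat 0)) ∈ π'.val (Gn Al n i) :=
      (mem_Gn π').2 ⟨m, nn n 0, by rw [el_nn]; exact π'.nat_Z 0, by rw [el_nn], k, h6⟩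
    have h8 : pair (nat m) (π'.hat (nat 1)) ∈ π'.val (Gn Al n' i') :=
      (mem_Gn π').2 ⟨m, nn n' 1, by rw [el_nn]; exact π'.nat_Z 1, by rw [el_nn], k, h5⟩
    have he' : π'.val (Gn Al n i) = π'.val (Gn Al n' i') := he
    rw [← he'] at h8
    have h9 := Gn_func π' h7 h8
    rw [π'.hat_nat, π'.hat_nat] at h9
    exact absurd (nat_injective h9) (by norm_num)

/-- The pairs of a generic function and an ordinal. -/
abbrev TT : Type := Σ n : ℕ, ℕ × Ty (Al (n + 1))

/-- The column. -/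
def col (u : TT) : ℕ × ℕ := (u.1, u.2.1)

/-- The name of the pair. -/
noncomputable def un (u : TT) : PName PA := opN (Gn Al u.1 u.2.1) (check (el u.2.2))

/-- The action on the pairs. -/
def mv (σ : ℕ → Equiv.Perm ℕ) (u : TT) : TT := ⟨u.1, σ u.1 u.2.1, u.2.2⟩

theorem col_mv (σ : ℕ → Equiv.Perm ℕ) (u : TT) : col (mv σ u) = im σ (col u) := rfl

theorem ax_Gn (σ : ℕ → Equiv.Perm ℕ) (n i : ℕ) : ax σ (Gn Al n i) = Gn Al n (σ n i) := by
  have h3 : ∀ x : CQ (Ty (Al n)), FP.sm σ (upd ⊤ n i x) = upd (⊤ : PA) n (σ n i) x := by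
    intro x
    refine FP.ext' fun k j => ?_
    rw [FP.sm_app]
    by_cases h2 : k = n ∧ j = σ n i
    · obtain ⟨rfl, rfl⟩ := h2
      have h4 : (σ k)⁻¹ (σ k i) = i := by rw [Equiv.Perm.inv_eq_iff_eq]
      rw [upd_self, h4, upd_self]
    · rw [upd_ne _ _ _ _ h2, upd_ne]
      · rfl
      · rintro ⟨rfl, h4⟩
        rw [Equiv.Perm.inv_eq_iff_eq] at h4
        exact h2 ⟨rfl, h4⟩
  change act (FP.ac σ) (Gn Al n i) = _
  unfold Gn
  rw [act]
  congr 1
  · funext t
    change act (SA.ac σ) _ = _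
    rw [act_opN (SA.top σ), act_check (SA.top σ), act_check (SA.top σ)]
  · funext t
    exact h3 _

theorem ax_un (σ : ℕ → Equiv.Perm ℕ) (u : TT) : ax σ (un u) = un (mv σ u) := by
  unfold un
  change act (SA.ac σ) _ = _
  rw [act_opN (SA.top σ), act_check (SA.top σ)]
  have h := ax_Gn σ u.1 u.2.1
  change act (SA.ac σ) (Gn Al u.1 u.2.1) = _ at h
  rw [h]
  rfl

theorem ax_fnl (σ : ℕ → Equiv.Perm ℕ) (l : List TT) :
    ax σ (fnl un l) = fnl un (l.map (mv σ)) := act_fnl (SA.top σ) (ax_un σ) l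

theorem hs_un (u : TT) : SA.HS (un u) := SA.hs_opN (hs_Gn _ _) (SA.hs_check _)

theorem hs_fnlu (l : List TT) : SA.HS (fnl un l) := hs_fnl SA hs_un l

theorem fx_fnl {e : Finset (ℕ × ℕ)} {l : List TT} (h : ∀ u ∈ l, col u ∈ e) :
    Fx e (fnl un l) := by
  intro (σ : ℕ → Equiv.Perm ℕ) hσ p
  have h2 : l.map (mv σ) = l := by
    conv_rhs => rw [← List.map_id l]
    refine List.map_congr_left fun u hu => ?_
    have h3 : σ u.1 u.2.1 = u.2.1 := hσ _ (h u hu)
    unfold mv
    rw [h3]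
    rfl
  have h1 : ax σ (fnl un l) = fnl un l := by rw [ax_fnl, h2]
  change Feq (ax σ (fnl un l)) _ _
  rw [h1]
  exact Feq.refl _ _

theorem val_un {π : Pkg PA} {u : TT} (hu : un u ∈ π.N) :
    π.val (un u) = pair (π.val (Gn Al u.1 u.2.1)) (π.hat (el u.2.2)) :=
  π.val_opN (π.fst_mem hu) (π.snd_mem hu)

theorem TT_ext {u v : TT} (h1 : col u = col v) (h2 : el u.2.2 = el v.2.2) : u = v := by
  obtain ⟨n, i, a⟩ := u
  obtain ⟨n', i', a'⟩ := v
  obtain ⟨h3, h4⟩ := Prod.ext_iff.1 h1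
  change n = n' at h3
  subst h3
  change i = i' at h4
  subst h4
  have h5 : a = a' := el_injective h2
  subst h5
  rfl

/-- Equality of the values of the pairs. -/
theorem un_eq {π : Pkg PA} (hcl : SA.Cld π) {u v : TT} (hu : un u ∈ π.N) (hv : un v ∈ π.N)
    (h : π.val (un u) = π.val (un v)) : u = v := by
  rw [val_un hu, val_un hv] at h
  obtain ⟨h1, h2⟩ := ZFSet.pair_inj.1 h
  refine TT_ext ?_ ((π.hat_inj (π.snd_mem hu) (π.snd_mem hv)).1 h2)
  by_contra h3
  exact gn_ne hcl h3 (π.fst_mem hu) (π.fst_mem hv) h1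

/-- The sets `p` and `q` of pairs do not contradict each other. -/
def Cm (p q : ZFSet.{0}) : Prop := ∀ x a b, pair x a ∈ p → pair x b ∈ q → a = b

/-- The functions given by `i` in the sequence `F` have the same values at compatible
conditions. -/
def HH (M : Set ZFSet.{0}) (F i : ZFSet.{0}) : Prop :=
  ∀ f ∈ M, pair i f ∈ F → ∀ f' ∈ M, pair i f' ∈ F → ∀ p ∈ M, ∀ p' ∈ M, ∀ β ∈ M, ∀ β' ∈ M,
    (∀ x ∈ M, ∀ a ∈ M, ∀ b ∈ M, pair x a ∈ p → pair x b ∈ p' → a = b) →
    pair p β ∈ f → pair p' β' ∈ f' → β = β'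

/-- The value `β` is taken at `p` by the function given by `i`. -/
def EE (M : Set ZFSet.{0}) (F i p β : ZFSet.{0}) : Prop := ∃ f ∈ M, pair i f ∈ F ∧ pair p β ∈ f

theorem ud_psi : UD fun M (v : Fin 6 → ZFSet.{0}) =>
    HH M (v 0) (v 1) ∧ EE M (v 0) (v 1) (v 2) (v 4) ∧ EE M (v 0) (v 1) (v 3) (v 5) := by
  unfold HH EE
  (repeat' first
    | assumption
    | exact UF.proj _
    | exact UF.om
    | exact UD.prop _
    | apply UD.not | apply UD.and | apply UD.or | apply UD.imp | apply UD.iff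
    | apply UD.bex | apply UD.ball | apply UD.ex | apply UD.all
    | apply UD.eq | apply UD.mem | apply UF.pair)

theorem frc_value {F : PName PA} (hF : SA.HS F) {e : Finset (ℕ × ℕ)} (fF : Fx e F)
    {i b b' : ZFSet.{0}} {t t' : List TT} (ht' : ∀ u ∈ t', ∀ v ∈ t', col u = col v → u = v)
    (hag : ∀ u ∈ t, col u ∈ e → u ∈ t') {q : PA}
    (h : SA.Frc ud_psi ![F, check i, fnl un t, fnl un t', check b, check b'] q) : b = b' := by
  classical
  set T : Finset (ℕ × ℕ) := (t.map col).toFinset ∪ (t'.map col).toFinset with hT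
  have hTt : ∀ u ∈ t, col u ∈ T := fun u hu =>
    Finset.mem_union_left _ (List.mem_toFinset.2 (List.mem_map_of_mem hu))
  have hTt' : ∀ u ∈ t', col u ∈ T := fun u hu =>
    Finset.mem_union_right _ (List.mem_toFinset.2 (List.mem_map_of_mem hu))
  obtain ⟨σ, hσ, hmove, r, hr, hr'⟩ := exists_common e q q T fun _ _ _ => le_rfl
  have h1 := (Sys.frc_act (S := SA) σ).2 h
  have h2 : SA.Frc ud_psi ![F, check i, fnl un (t.map (mv σ)), fnl un (t'.map (mv σ)), check b,
      check b'] (FP.sm σ q) := by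
    refine (Sys.frc_congr ?_).1 h1
    intro j
    fin_cases j
    · exact fF σ hσ _
    · exact fx_check e i σ hσ _
    · change Feq (ax σ (fnl un t)) _ _
      rw [ax_fnl]
      exact Feq.refl _ _
    · change Feq (ax σ (fnl un t')) _ _
      rw [ax_fnl]
      exact Feq.refl _ _
    · exact fx_check e b σ hσ _
    · exact fx_check e b' σ hσ _
  obtain ⟨π, hN, h0, hcl, hR⟩ := Sys.exists_cld SA
    ({F, check i, check b, check b'} ∪ (un '' {u | u ∈ t} ∪ (un '' {u | u ∈ t'} ∪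
      (un '' {u | u ∈ t.map (mv σ)} ∪ un '' {u | u ∈ t'.map (mv σ)}))))
    ((Set.toFinite _).countable.union ((Set.Finite.image _ (List.finite_toSet _)).countable.union
      ((Set.Finite.image _ (List.finite_toSet _)).countable.union
      ((Set.Finite.image _ (List.finite_toSet _)).countable.union
      (Set.Finite.image _ (List.finite_toSet _)).countable)))) {rn insN}
    (Set.countable_singleton _) r
  have hFN : F ∈ π.N := hN (Or.inl (by simp))
  have hiN : (check i : PName PA) ∈ π.N := hN (Or.inl (by simp))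
  have hbN : (check b : PName PA) ∈ π.N := hN (Or.inl (by simp))
  have hbN' : (check b' : PName PA) ∈ π.N := hN (Or.inl (by simp))
  have ht1 : ∀ u ∈ t, un u ∈ π.N := fun u hu => hN (Or.inr (Or.inl ⟨u, hu, rfl⟩))
  have ht2 : ∀ u ∈ t', un u ∈ π.N := fun u hu => hN (Or.inr (Or.inr (Or.inl ⟨u, hu, rfl⟩)))
  have ht3 : ∀ u ∈ t.map (mv σ), un u ∈ π.N := fun u hu =>
    hN (Or.inr (Or.inr (Or.inr (Or.inl ⟨u, hu, rfl⟩))))
  have ht4 : ∀ u ∈ t'.map (mv σ), un u ∈ π.N := fun u hu =>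
    hN (Or.inr (Or.inr (Or.inr (Or.inr ⟨u, hu, rfl⟩))))
  have hM := T_ZF.isZF hcl
  have hS : ∀ l l' : List TT, ∀ j, SA.HS (![F, check i, fnl un l, fnl un l', check b,
      check b'] j) := by
    intro l l' j
    fin_cases j
    exacts [hF, SA.hs_check _, hs_fnlu _, hs_fnlu _, SA.hs_check _, SA.hs_check _]
  have f1 := fnl_mem hR rfl ht1
  have f2 := fnl_mem hR rfl ht2
  have f3 := fnl_mem hR rfl ht3
  have f4 := fnl_mem hR rfl ht4
  obtain ⟨h3, -, h4⟩ := (Sys.frc_sem (hS t t')).1 h π hcl (by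
    intro j
    fin_cases j
    exacts [hFN, hiN, f1, f2, hbN, hbN']) ⟨0, h0.le.trans hr⟩
  obtain ⟨-, h5, -⟩ := (Sys.frc_sem (hS _ _)).1 h2 π hcl (by
    intro j
    fin_cases j
    exacts [hFN, hiN, f3, f4, hbN, hbN']) ⟨0, h0.le.trans hr'⟩
  obtain ⟨f', hf', h6, h7⟩ := h4
  obtain ⟨f, hf, h8, h9⟩ := h5
  have h10 : π.hat b = π.hat b' := by
    refine h3 f hf h8 f' hf' h6 _ (Sys.mem_Ms f3 (hs_fnlu _)) _ (Sys.mem_Ms f2 (hs_fnlu _)) _
      (Sys.mem_Ms hbN (SA.hs_check _)) _ (Sys.mem_Ms hbN' (SA.hs_check _)) ?_ h9 h7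
    intro x _ a _ a' _ ha ha'
    obtain ⟨u, hu, huN, h11⟩ := (mem_fnl π).1 ha
    obtain ⟨v, hv, hvN, h12⟩ := (mem_fnl π).1 ha'
    rw [val_un huN] at h11
    rw [val_un hvN] at h12
    obtain ⟨rfl, rfl⟩ := ZFSet.pair_inj.1 h11
    obtain ⟨h13, rfl⟩ := ZFSet.pair_inj.1 h12
    have h14 : col u = col v := by
      by_contra h15
      exact gn_ne hcl h15 (π.fst_mem huN) (π.fst_mem hvN) h13
    obtain ⟨w, hw, rfl⟩ := List.mem_map.1 hu
    rw [col_mv] at h14
    have h15 : col w ∈ e := by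
      by_contra h16
      have h17 := (hmove (col w) (hTt w hw) h16).1
      rw [h14] at h17
      exact h17 (hTt' v hv)
    rw [mem_Hs'.1 hσ _ h15] at h14
    have h16 := ht' w (hag w hw h15) v hv h14
    rw [← h16]
    rfl
  exact (π.hat_inj hbN hbN').1 h10

end Pool.Agent.Q211.FS
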