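import Pool.Agent.Q211.FS.Nar2

/-!
# A narrow forcing that is not uniformly narrow: the proof
-/

set_option autoImplicit false
set_option linter.unusedSectionVars false
set_option linter.unreachableTactic false
set_option linter.unusedTactic false

namespace Pool.Agent.Q211.FS

open Pool.Agent.W868 Pool.Agent.W868.PName Pool.Agent.Q211.SY
open ZFSet (pair)

/-! ### Definable relations and cardinality -/

section bound

variable {K : Type} {Q : K → Type} [∀ k, Preorder (Q k)] [∀ k, OrderTop (Q k)] [DecidableEq K]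

/-- A bound for the cardinality of a set `B` of the ground model, if a definable relation assigns
different natural numbers to different elements of `B`. -/
theorem rel_bound {B : ZFSet.{0}} {n : ℕ} {R : Set ZFSet.{0} → (Fin (n + 2) → ZFSet.{0}) → Prop}
    (h : UD R) {x : Fin n → PName (FP Q)} (hx : ∀ i, (Sy Q).HS (x i)) {e : Finset (K × ℕ)}
    (fx : ∀ i, Fx e (x i)) {p : FP Q} (hp : Sp e p)
    (h1 : ∀ π : Pkg (FP Q), (Sy Q).Cld π → (∀ i, x i ∈ π.N) → (∃ j, π.g j ≤ p) →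
      (∀ b ∈ B, b ∈ π.Z → ∃ m : ℕ, R ((Sy Q).Ms π) (Fin.cons (π.hat b) (Fin.cons (nat m)
        (π.val ∘ x)))) ∧
      ∀ b ∈ B, b ∈ π.Z → ∀ b' ∈ B, b' ∈ π.Z → ∀ m : ℕ,
        R ((Sy Q).Ms π) (Fin.cons (π.hat b) (Fin.cons (nat m) (π.val ∘ x))) →
        R ((Sy Q).Ms π) (Fin.cons (π.hat b') (Fin.cons (nat m) (π.val ∘ x))) →
        π.hat b = π.hat b') :
    B.card ≤ Cardinal.mk {q : FP Q // Sp e q} * Cardinal.aleph0 := by
  classical
  let y : ZFSet.{0} → ℕ → Fin (n + 2) → PName (FP Q) := fun b m =>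
    Fin.cons (check b) (Fin.cons (check (nat m)) x)
  have hS : ∀ b m i, (Sy Q).HS (y b m i) := by
    intro b m i
    refine Fin.cases ?_ (fun i => ?_) i
    · exact (Sy Q).hs_check _
    · refine Fin.cases ?_ (fun i => ?_) i
      · exact (Sy Q).hs_check _
      · exact hx i
  have hfy : ∀ b m i, Fx e (y b m i) := by
    intro b m i
    refine Fin.cases ?_ (fun i => ?_) i
    · exact fx_check _ _
    · refine Fin.cases ?_ (fun i => ?_) i
      · exact fx_check _ _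
      · exact fx i
  have hv : ∀ (π : Pkg (FP Q)) b m, π.val ∘ y b m =
      Fin.cons (π.hat b) (Fin.cons (nat m) (π.val ∘ x)) := by
    intro π b m
    funext i
    refine Fin.cases ?_ (fun i => ?_) i
    · rfl
    · refine Fin.cases ?_ (fun i => ?_) i
      · exact π.hat_nat m
      · rfl
  have hyN : ∀ (π : Pkg (FP Q)) b m, (check b : PName (FP Q)) ∈ π.N → (∀ i, x i ∈ π.N) →
      ∀ i, y b m i ∈ π.N := by
    intro π b m hb hxN i
    refine Fin.cases ?_ (fun i => ?_) i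
    · exact hb
    · refine Fin.cases ?_ (fun i => ?_) i
      · exact π.nat_Z m
      · exact hxN i
  have key : ∀ b : Ty B, ∃ (q : FP Q) (m : ℕ), Sp e q ∧ q ≤ p ∧
      (Sy Q).Frc h (y (el b) m) q := by
    intro b
    obtain ⟨π, hN, h0, hcl, -⟩ := Sys.exists_cld (Sy Q) ({check (el b)} ∪ Set.range x)
      ((Set.countable_singleton _).union (Set.countable_range _)) ∅ Set.countable_empty p
    have hbN : (check (el b) : PName (FP Q)) ∈ π.N := hN (Or.inl rfl)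
    have hxN : ∀ i, x i ∈ π.N := fun i => hN (Or.inr ⟨i, rfl⟩)
    obtain ⟨m, h2⟩ := (h1 π hcl hxN ⟨0, h0.le⟩).1 _ (el_mem b) hbN
    rw [← hv] at h2
    obtain ⟨j, hj⟩ := (Sys.frc_iff h hcl fun i => ⟨hyN π _ m hbN hxN i, hS _ _ i⟩).1 h2
    refine ⟨res e (π.g j), m, sp_res _ _, ?_, frc_res (hfy _ _) hj⟩
    have h3 := res_mono (s := e) ((π.g_anti (Nat.zero_le j)).trans h0.le)
    rwa [hp.res_eq] at h3
  choose q m hq1 hq2 hq3 using key
  have hinj : Function.Injective fun b : Ty B => ((⟨q b, hq1 b⟩, m b) :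
      {q : FP Q // Sp e q} × ℕ) := by
    intro a b hab
    obtain ⟨h2, h3⟩ := Prod.ext_iff.1 hab
    have h2' : q a = q b := Subtype.ext_iff.1 h2
    have h3' : m a = m b := h3
    obtain ⟨π, hN, h0, hcl, -⟩ := Sys.exists_cld (Sy Q) ({check (el a), check (el b)} ∪
      Set.range x) ((Set.toFinite _).countable.union (Set.countable_range _)) ∅
      Set.countable_empty (q a)
    have haN : (check (el a) : PName (FP Q)) ∈ π.N := hN (Or.inl (by simp))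
    have hbN : (check (el b) : PName (FP Q)) ∈ π.N := hN (Or.inl (by simp))
    have hxN : ∀ i, x i ∈ π.N := fun i => hN (Or.inr ⟨i, rfl⟩)
    have h4 := (Sys.frc_sem (hS _ _)).1 (hq3 a) π hcl (hyN π _ _ haN hxN) ⟨0, h0.le⟩
    have h5 := (Sys.frc_sem (hS _ _)).1 (hq3 b) π hcl (hyN π _ _ hbN hxN)
      ⟨0, h0.le.trans h2'.le⟩
    rw [hv] at h4 h5
    rw [← h3'] at h5
    have h6 := (h1 π hcl hxN ⟨0, h0.le.trans (hq2 a)⟩).2 _ (el_mem a) haN _ (el_mem b) hbN _ h4 h5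
    exact el_injective ((π.hat_inj haN hbN).1 h6)
  have h2 := Cardinal.mk_le_of_injective hinj
  rw [Cardinal.mk_prod, Cardinal.mk_nat, Cardinal.lift_id, Cardinal.lift_id] at h2
  exact h2

end bound

theorem val_un' {π : Pkg PA} {u : TT} (hu : un u ∈ π.N) : π.val (un u) =
    pair (π.val (Gn Al (col u).1 (col u).2)) (π.hat (el u.2.2)) := val_un hu

/-- The part of `p` that lies over the set `Γ`. -/
noncomputable def part (Γ p : ZFSet.{0}) : ZFSet.{0} := ZFSet.sep (fun z => fs z ∈ Γ) p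

namespace IsMod2

variable {π : Pkg PA} (h : IsMod2 π)

include h

theorem isZF : IsZF (SA.Ms π) := h.toIsMod.isZF

theorem lam_mem : π.val Lam ∈ SA.Ms π := Sys.mem_Ms h.lam hs_Lam

theorem gn_mem (c : ℕ × ℕ) : π.val (Gn Al c.1 c.2) ∈ SA.Ms π := Sys.mem_Ms (h.gn _ _) (hs_Gn _ _)

theorem mem_Lam {z : ZFSet.{0}} : z ∈ π.val Lam ↔ ∃ u, un u ∈ π.N ∧ z = π.val (un u) := by
  rw [π.mem_val]
  constructor
  · rintro ⟨w, hw, c, hc, -, rfl⟩
    obtain ⟨u, rfl, -⟩ := el_Lam.1 hc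
    exact ⟨u, hw, rfl⟩
  · rintro ⟨u, hw, rfl⟩
    exact ⟨_, hw, ⊤, el_Lam.2 ⟨u, rfl, rfl⟩, ⟨0, le_top⟩, rfl⟩

theorem fnl_N {l : List TT} (hl : ∀ u ∈ l, un u ∈ π.N) : fnl un l ∈ π.N :=
  fnl_mem h.cl2 (by simp) hl

/-- The elements of the forcing. -/
theorem exists_list {p : ZFSet.{0}} (hp : p ∈ FinP (SA.Ms π) (π.val Lam)) :
    ∃ l : List TT, (∀ u ∈ l, un u ∈ π.N) ∧ p = π.val (fnl un l) := by
  classical
  obtain ⟨hpM, hpL, hfin, -⟩ := (mem_FinP h.isZF h.lam_mem).1 hp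
  have h1 : ∀ z ∈ hfin.toFinset, ∃ u, un u ∈ π.N ∧ z = π.val (un u) := by
    intro z hz
    exact h.mem_Lam.1 (hpL (hfin.mem_toFinset.1 hz))
  haveI : Nonempty TT := ⟨⟨0, 0, nn 1 0⟩⟩
  choose! g hg1 hg2 using h1
  refine ⟨hfin.toFinset.toList.map g, ?_, ?_⟩
  · intro u hu
    obtain ⟨z, hz, rfl⟩ := List.mem_map.1 hu
    exact hg1 z (Finset.mem_toList.1 hz)
  · ext z
    rw [mem_fnl]
    constructor
    · intro hz
      have hz' : z ∈ hfin.toFinset := hfin.mem_toFinset.2 hz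
      exact ⟨g z, List.mem_map_of_mem (Finset.mem_toList.2 hz'), hg1 z hz', hg2 z hz'⟩
    · rintro ⟨u, hu, -, rfl⟩
      obtain ⟨w, hw, rfl⟩ := List.mem_map.1 hu
      have hw' := Finset.mem_toList.1 hw
      rw [← hg2 w hw']
      exact hfin.mem_toFinset.1 hw'

/-- The generic functions of the columns in `e`. -/
theorem exists_gam (e : Finset (ℕ × ℕ)) :
    ∃ Γ ∈ SA.Ms π, ∀ c : ℕ × ℕ, π.val (Gn Al c.1 c.2) ∈ Γ ↔ c ∈ e := by
  classical
  have key : ∀ e : Finset (ℕ × ℕ), ∃ Γ ∈ SA.Ms π, ∀ z, z ∈ Γ ↔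
      ∃ c ∈ e, z = π.val (Gn Al c.1 c.2) := by
    intro e
    induction e using Finset.induction_on with
    | empty => exact ⟨∅, h.isZF.empty_mem, fun z => by simp⟩
    | insert c e _ ih =>
      obtain ⟨Γ, hΓ, h1⟩ := ih
      refine ⟨insert (π.val (Gn Al c.1 c.2)) Γ, h.isZF.insert_mem (h.gn_mem c) hΓ, fun z => ?_⟩
      rw [ZFSet.mem_insert_iff, h1]
      simp only [Finset.mem_insert, exists_eq_or_imp]
  obtain ⟨Γ, hΓ, h1⟩ := key e
  refine ⟨Γ, hΓ, fun c => ?_⟩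
  rw [h1]
  constructor
  · rintro ⟨c', hc', h2⟩
    by_contra h3
    have h4 : c ≠ c' := fun h5 => h3 (h5 ▸ hc')
    exact gn_ne h.cl h4 (h.gn _ _) (h.gn _ _) h2
  · exact fun hc => ⟨c, hc, rfl⟩

theorem part_mem {Γ p : ZFSet.{0}} (hΓ : Γ ∈ SA.Ms π) (hp : p ∈ SA.Ms π) :
    part Γ p ∈ SA.Ms π := by
  have hM := h.isZF
  have hB := hM.base
  exact hM.sep_mem (Q := fun z => fs z ∈ Γ) (Dfn.mem (hM.fs' (DfnF.proj 0)) (DfnF.const hΓ)) hp

theorem part_FinP {Γ p : ZFSet.{0}} (hΓ : Γ ∈ SA.Ms π)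
    (hp : p ∈ FinP (SA.Ms π) (π.val Lam)) : part Γ p ∈ FinP (SA.Ms π) (π.val Lam) := by
  obtain ⟨h1, h2, h3, h4⟩ := (mem_FinP h.isZF h.lam_mem).1 hp
  have h5 : part Γ p ⊆ p := fun z hz => (ZFSet.mem_sep.1 hz).1
  exact (mem_FinP h.isZF h.lam_mem).2 ⟨h.part_mem hΓ h1, fun z hz => h2 (h5 hz),
    h3.subset fun z hz => h5 hz, fun x a b ha hb => h4 x a b (h5 ha) (h5 hb)⟩

/-- Values of homomorphisms with a given support. -/
theorem value_eq {F : PName PA} (hF : SA.HS F) (hFN : F ∈ π.N) {e : Finset (ℕ × ℕ)} (fF : Fx e F)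
    {Γ : ZFSet.{0}} (hΓ : ∀ c : ℕ × ℕ, π.val (Gn Al c.1 c.2) ∈ Γ ↔ c ∈ e)
    {i : ZFSet.{0}} (hi : i ∈ SA.Ms π) (hio : i.IsOrdinal)
    (hun : ∀ f f', pair i f ∈ π.val F → pair i f' ∈ π.val F → f = f')
    (hom : ∀ f, pair i f ∈ π.val F → IsHom (FinP (SA.Ms π) (π.val Lam))
      (FinR (SA.Ms π) (π.val Lam)) f) {f p p' β β' : ZFSet.{0}} (hf : pair i f ∈ π.val F)
    (hp : pair p β ∈ f) (hp' : pair p' β' ∈ f) (hpp : part Γ p = part Γ p') : β = β' := by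
  have hM := h.isZF
  have hFM : π.val F ∈ SA.Ms π := Sys.mem_Ms hFN hF
  have hfM : f ∈ SA.Ms π := (hM.of_pair_mem (hM.trans _ hFM _ hf)).2
  obtain ⟨hpM, hβM⟩ := hM.of_pair_mem (hM.trans _ hfM _ hp)
  obtain ⟨hpM', hβM'⟩ := hM.of_pair_mem (hM.trans _ hfM _ hp')
  have hval : ∀ p β, pair p β ∈ f → p ∈ FinP (SA.Ms π) (π.val Lam) ∧ β.IsOrdinal := by
    intro p β h1
    obtain ⟨p1, h2, α, h3, h4⟩ := (hom f hf).1 _ h1
    obtain ⟨rfl, rfl⟩ := ZFSet.pair_inj.1 h4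
    exact ⟨h2, h3⟩
  have hW : ∀ x ∈ SA.Ms π, x ∈ π.W := by
    rintro x ⟨y, hy, rfl⟩
    exact π.val_mem_W hy.1
  obtain ⟨i0, hi0, rfl⟩ := π.ord_V hio (hW _ hi)
  obtain ⟨b, hb, rfl⟩ := π.ord_V (hval _ _ hp).2 (hW _ hβM)
  obtain ⟨b', hb', rfl⟩ := π.ord_V (hval _ _ hp').2 (hW _ hβM')
  obtain ⟨t, ht, rfl⟩ := h.exists_list (hval _ _ hp).1
  obtain ⟨t', ht', rfl⟩ := h.exists_list (hval _ _ hp').1
  have f1 := h.fnl_N ht
  have f2 := h.fnl_N ht'
  have hfun := ((mem_FinP hM h.lam_mem).1 (hval _ _ hp').1).2.2.2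
  have h1 : HH (SA.Ms π) (π.val F) (π.hat i0) := by
    intro f1 hf1 h2 f2 hf2 h3 q hq q' hq' γ hγ γ' hγ' hc h4 h5
    obtain rfl := hun f1 f2 h2 h3
    have hom1 := hom f1 h2
    have hq1 : q ∈ FinP (SA.Ms π) (π.val Lam) := by
      obtain ⟨p1, h6, α, h7, h8⟩ := hom1.1 _ h4
      rw [(ZFSet.pair_inj.1 h8).1]
      exact h6
    have hq1' : q' ∈ FinP (SA.Ms π) (π.val Lam) := by
      obtain ⟨p1, h6, α, h7, h8⟩ := hom1.1 _ h5
      rw [(ZFSet.pair_inj.1 h8).1]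
      exact h6
    refine hom1.2 q γ q' γ' h4 h5 (compat_of hM h.lam_mem hq1 hq1' ?_)
    intro x a b ha hb
    obtain ⟨hx, ha'⟩ := hM.of_pair_mem (hM.trans _ hq _ ha)
    exact hc x hx a ha' b (hM.of_pair_mem (hM.trans _ hq' _ hb)).2 ha hb
  have h2 : EE (SA.Ms π) (π.val F) (π.hat i0) (π.val (fnl un t)) (π.hat b) := ⟨f, hfM, hf, hp⟩
  have h3 : EE (SA.Ms π) (π.val F) (π.hat i0) (π.val (fnl un t')) (π.hat b') := ⟨f, hfM, hf, hp'⟩
  obtain ⟨j, hj⟩ := (Sys.frc_iff ud_psi h.cl (x := ![F, check i0, fnl un t, fnl un t', check b,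
    check b']) (fun j => by
      fin_cases j
      exacts [⟨hFN, hF⟩, ⟨hi0, SA.hs_check _⟩, ⟨f1, hs_fnlu _⟩, ⟨f2, hs_fnlu _⟩,
        ⟨hb, SA.hs_check _⟩, ⟨hb', SA.hs_check _⟩])).1 ⟨h1, h2, h3⟩
  have h4 : b = b' := by
    refine frc_value hF fF ?_ ?_ hj
    · intro u hu v hv huv
      refine TT_ext huv ?_
      have h5 : π.val (un u) ∈ π.val (fnl un t') := (mem_fnl π).2 ⟨u, hu, ht' u hu, rfl⟩
      have h6 : π.val (un v) ∈ π.val (fnl un t') := (mem_fnl π).2 ⟨v, hv, ht' v hv, rfl⟩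
      rw [val_un' (ht' u hu), huv] at h5
      rw [val_un' (ht' v hv)] at h6
      exact (π.hat_inj (π.snd_mem (ht' u hu)) (π.snd_mem (ht' v hv))).1 (hfun _ _ _ h5 h6)
    · intro u hu hue
      have h5 : π.val (un u) ∈ part Γ (π.val (fnl un t)) := by
        refine ZFSet.mem_sep.2 ⟨(mem_fnl π).2 ⟨u, hu, ht u hu, rfl⟩, ?_⟩
        rw [val_un' (ht u hu), fs_pair]
        exact (hΓ (col u)).2 hue
      rw [hpp] at h5
      obtain ⟨v, hv, hvN, h6⟩ := (mem_fnl π).1 (ZFSet.mem_sep.1 h5).1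
      rwa [un_eq h.cl (ht u hu) hvN h6]
  rw [h4]

/-- The set of the conditions over `Γ` is countable. -/
theorem cnt_part {e : Finset (ℕ × ℕ)} {Γ : ZFSet.{0}} (hΓM : Γ ∈ SA.Ms π)
    (hΓ : ∀ c : ℕ × ℕ, π.val (Gn Al c.1 c.2) ∈ Γ ↔ c ∈ e) :
    ZFSet.sep (fun s => part Γ s = s) (FinP (SA.Ms π) (π.val Lam)) ∈ SA.Ms π ∧
    CntIn (SA.Ms π) (ZFSet.sep (fun s => part Γ s = s) (FinP (SA.Ms π) (π.val Lam))) := by
  have hM := h.isZF
  have hB := hM.base
  have hP := FinP_mem hM h.lam_mem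
  have hpt : DfnF (SA.Ms π) (SA.Ms π) fun w : Fin 1 → ZFSet.{0} => part Γ (w 0) := by
    unfold part
    exact hM.sep' (Q := fun z _ => fs z ∈ Γ) (DfnF.proj 0)
      (Dfn.mem (hM.fs' (DfnF.proj 0)) (DfnF.const hΓM))
  have hYM : ZFSet.sep (fun s => part Γ s = s) (FinP (SA.Ms π) (π.val Lam)) ∈ SA.Ms π :=
    hM.sep_mem (Q := fun s => part Γ s = s) (Dfn.eq hpt (DfnF.proj 0)) hP
  refine ⟨hYM, ?_⟩
  set m := e.sup Prod.fst with hm
  -- the codes
  have h1 : CntIn (SA.Ms π) (π.hat (A0 e)) := by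
    obtain ⟨f, hf, hfi⟩ := π.exists_inj_V (h.a0 e) (h.al (m + 1)) (exists_isInj (card_A0 e))
    have hfM := h.toIsMod.V_sub hf
    refine cnt_image hM (h.toIsMod.cnt_Al (m + 1)) (h.toIsMod.hat_mem (h.al (m + 1)))
      (h.toIsMod.hat_mem (h.a0 e)) (G := fun a b => pair b a ∈ f) ?_ ?_ ?_
    · (repeat' first
        | assumption
        | exact DfnF.proj _
        | exact DfnF.const (by assumption)
        | exact DfnF.const' (by first | assumption | trivial) (by first | assumption | trivial)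
        | exact Dfn.prop _
        | apply hB.isFunc' | apply hB.isInj' | apply hB.isBij' | apply hB.isOrdinal'
        | apply hB.subset' | apply hB.pair' | apply hB.insert'
        | apply Dfn.not | apply Dfn.and | apply Dfn.or | apply Dfn.imp | apply Dfn.iff
        | apply hB.bex | apply hB.ball | apply Dfn.ex | apply Dfn.all
        | apply Dfn.eq | apply Dfn.mem)
    · exact fun a _ x _ y _ h2 h3 => hfi.2 _ _ _ h2 h3
    · intro x hx
      obtain ⟨y, hy, -⟩ := hfi.1.2 x hx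
      exact ⟨y, (ZFSet.pair_mem_prod.1 (hfi.1.1 hy)).2, hy⟩
  have hRM : π.val (Rl e) ∈ SA.Ms π := Sys.mem_Ms (h.rl e) (hs_Rl e)
  have hR : ∀ a s, pair a s ∈ π.val (Rl e) ↔ ∃ l : Le e, (check (cd l.1) : PName PA) ∈ π.N ∧
      fnl un l.1 ∈ π.N ∧ a = π.hat (cd l.1) ∧ s = π.val (fnl un l.1) := by
    intro a s
    rw [π.mem_val]
    constructor
    · rintro ⟨w, hw, c, hc, -, h2⟩
      obtain ⟨l, rfl, -⟩ := hc
      have hw' : opN (check (cd l.1)) (fnl un l.1) ∈ π.N := hw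
      have h3 : π.val (opN (check (cd l.1)) (fnl un l.1)) = pair a s := h2
      rw [π.val_opN (π.fst_mem hw') (π.snd_mem hw')] at h3
      obtain ⟨h4, h5⟩ := ZFSet.pair_inj.1 h3
      exact ⟨l, π.fst_mem hw', π.snd_mem hw', h4.symm, h5.symm⟩
    · rintro ⟨l, h2, h3, rfl, rfl⟩
      exact ⟨_, π.opN_mem h2 h3, ⊤, ⟨l, rfl, rfl⟩, ⟨0, le_top⟩, π.val_opN h2 h3⟩
  refine cnt_image hM h1 (h.toIsMod.hat_mem (h.a0 e)) hYM
    (G := fun a s => pair a s ∈ π.val (Rl e)) ?_ ?_ ?_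
  · (repeat' first
      | assumption
      | exact DfnF.proj _
      | exact DfnF.const (by assumption)
      | exact DfnF.const' (by first | assumption | trivial) (by first | assumption | trivial)
      | exact Dfn.prop _
      | apply hB.isFunc' | apply hB.isInj' | apply hB.isBij' | apply hB.isOrdinal'
      | apply hB.subset' | apply hB.pair' | apply hB.insert'
      | apply Dfn.not | apply Dfn.and | apply Dfn.or | apply Dfn.imp | apply Dfn.iff
      | apply hB.bex | apply hB.ball | apply Dfn.ex | apply Dfn.all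
      | apply Dfn.eq | apply Dfn.mem)
  · intro a _ s _ s' _ h2 h3
    obtain ⟨l, h4, h5, h6, rfl⟩ := (hR _ _).1 h2
    obtain ⟨l', h4', h5', h6', rfl⟩ := (hR _ _).1 h3
    rw [h6] at h6'
    have h7 := cd_injective ((π.hat_inj h4 h4').1 h6')
    rw [h7]
  · intro s hs
    obtain ⟨hsP, hsΓ⟩ := ZFSet.mem_sep.1 hs
    obtain ⟨l, hl, rfl⟩ := h.exists_list hsP
    have hle : ∀ u ∈ l, col u ∈ e := by
      intro u hu
      have h2 : π.val (un u) ∈ part Γ (π.val (fnl un l)) := by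
        rw [hsΓ]
        exact (mem_fnl π).2 ⟨u, hu, hl u hu, rfl⟩
      have h3 := (ZFSet.mem_sep.1 h2).2
      rw [val_un' (hl u hu), fs_pair] at h3
      exact (hΓ (col u)).1 h3
    obtain ⟨l', h2, h3⟩ := cdl_mem h.cl2 (un := un) (by simp) (h.fnl_N hl)
    have hle' : ∀ u ∈ l', col u ∈ e := by
      intro u hu
      have h4 : El (fnl un l') (un u) ⊤ := el_fnl.2 ⟨⟨u, hu, rfl⟩, rfl⟩
      rw [h2] at h4
      obtain ⟨⟨v, hv, h5⟩, -⟩ := el_fnl.1 h4
      have huN : un u ∈ π.N := by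
        rw [h5]
        exact hl v hv
      have h6 : u = v := un_eq h.cl huN (hl v hv) (by rw [h5])
      rw [h6]
      exact hle v hv
    refine ⟨π.hat (cd l'), ?_, (hR _ _).2 ⟨⟨l', hle'⟩, h3, ?_, rfl, ?_⟩⟩
    · exact (π.hat_mem_hat h3 (h.a0 e)).2 (ZFSet.mem_range.2 ⟨⟨l', hle'⟩, rfl⟩)
    · rw [h2]
      exact h.fnl_N hl
    · rw [h2]

end IsMod2

end Pool.Agent.Q211.FS
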