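import Pool.Agent.Q211.FS.Nar3

/-!
# A narrow forcing that is not uniformly narrow: conclusion
-/

set_option autoImplicit false
set_option linter.unusedSectionVars false
set_option linter.unreachableTactic false
set_option linter.unusedTactic false

namespace Pool.Agent.Q211.FS

open Pool.Agent.W868 Pool.Agent.W868.PName Pool.Agent.Q211.SY
open ZFSet (pair)

theorem card_sp_le (e : Finset (ℕ × ℕ)) :
    Cardinal.mk {q : PA // Sp e q} * Cardinal.aleph0 ≤
      Cardinal.aleph ((e.sup Prod.fst : ℕ) : Ordinal.{0}) := by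
  have h1 : Cardinal.mk {q : PA // Sp e q} ≤
      Cardinal.aleph ((e.sup Prod.fst : ℕ) : Ordinal.{0}) := by
    refine card_sp (Cardinal.aleph0_le_aleph _) fun t ht => ?_
    refine CQ.mk_le (Cardinal.aleph0_le_aleph _) ?_
    have h2 : Cardinal.mk (Ty (Al t.1)) = Cardinal.aleph (t.1 : Ordinal.{0}) := card_Al t.1
    rw [h2]
    refine Cardinal.aleph_le_aleph.2 ?_
    exact_mod_cast Finset.le_sup (f := Prod.fst) ht
  refine (mul_le_mul' h1 (Cardinal.aleph0_le_aleph ((e.sup Prod.fst : ℕ) : Ordinal.{0}))).trans ?_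
  rw [Cardinal.mul_eq_self (Cardinal.aleph0_le_aleph _)]

theorem snd_mem_sUnion {X a b : ZFSet.{0}} (h : pair a b ∈ X) :
    b ∈ ZFSet.sUnion (ZFSet.sUnion X) :=
  ZFSet.mem_sUnion.2 ⟨{a, b}, ZFSet.mem_sUnion.2 ⟨_, h, by simp [ZFSet.pair]⟩, by simp⟩

theorem nat_isOrdinal (n : ℕ) : (nat n).IsOrdinal := by
  rw [nat_eq]
  exact ZFSet.isOrdinal_toZFSet _

/-- The homomorphism that is given by a generic function. -/
def IsFx (M : Set ZFSet.{0}) (x A f : ZFSet.{0}) : Prop :=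
  ∀ z ∈ M, z ∈ f ↔ ∃ α ∈ A, z = pair {pair x α} α

theorem ud_th : UD fun M (v : Fin 3 → ZFSet.{0}) => (∃ f ∈ M, IsFx M (v 1) (v 2) f) ∧
    (∀ f ∈ M, IsFx M (v 1) (v 2) f → ∃ g ∈ M, pair f g ∈ v 0 ∧ IsInj (v 2) ZFSet.omega g) ∧
    ∀ f ∈ M, ∀ g ∈ M, ∀ g' ∈ M, pair f g ∈ v 0 → pair f g' ∈ v 0 → g = g' := by
  have h1 : UD fun M (v : Fin 4 → ZFSet.{0}) => IsFx M (v 2) (v 3) (v 0) := by
    unfold IsFx
    (repeat' first
      | apply UF.single
      | assumption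
      | exact UF.proj _
      | exact UF.om
      | exact UD.prop _
      | apply UD.not | apply UD.and | apply UD.or | apply UD.imp | apply UD.iff
      | apply UD.bex | apply UD.ball | apply UD.ex | apply UD.all
      | apply UD.eq | apply UD.mem | apply UF.pair)
  refine UD.and ?_ (UD.and ?_ ?_)
  · refine UD.ex (Q := fun M f (v : Fin 3 → ZFSet.{0}) => IsFx M (v 1) (v 2) f) h1
  · refine UD.all (Q := fun M f (v : Fin 3 → ZFSet.{0}) => IsFx M (v 1) (v 2) f →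
      ∃ g ∈ M, pair f g ∈ v 0 ∧ IsInj (v 2) ZFSet.omega g) ?_
    refine UD.imp h1 ?_
    (repeat' first
      | apply UD.isInj
      | assumption
      | exact UF.proj _
      | exact UF.om
      | exact UD.prop _
      | apply UD.not | apply UD.and | apply UD.or | apply UD.imp | apply UD.iff
      | apply UD.bex | apply UD.ball | apply UD.ex | apply UD.all
      | apply UD.eq | apply UD.mem | apply UF.pair)
  · (repeat' first
      | assumption
      | exact UF.proj _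
      | exact UF.om
      | exact UD.prop _
      | apply UD.not | apply UD.and | apply UD.or | apply UD.imp | apply UD.iff
      | apply UD.bex | apply UD.ball | apply UD.ex | apply UD.all
      | apply UD.eq | apply UD.mem | apply UF.pair)

theorem ud_rr : UD fun M (v : Fin 5 → ZFSet.{0}) => ∃ f ∈ M, IsFx M (v 3) (v 4) f ∧
    ∃ g ∈ M, pair f g ∈ v 2 ∧ pair (v 0) (v 1) ∈ g := by
  refine UD.ex (Q := fun M f (v : Fin 5 → ZFSet.{0}) => IsFx M (v 3) (v 4) f ∧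
    ∃ g ∈ M, pair f g ∈ v 2 ∧ pair (v 0) (v 1) ∈ g) ?_
  refine UD.and ?_ ?_
  · unfold IsFx
    (repeat' first
      | apply UF.single
      | assumption
      | exact UF.proj _
      | exact UF.om
      | exact UD.prop _
      | apply UD.not | apply UD.and | apply UD.or | apply UD.imp | apply UD.iff
      | apply UD.bex | apply UD.ball | apply UD.ex | apply UD.all
      | apply UD.eq | apply UD.mem | apply UF.pair)
  · (repeat' first
      | assumption
      | exact UF.proj _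
      | exact UF.om
      | exact UD.prop _
      | apply UD.not | apply UD.and | apply UD.or | apply UD.imp | apply UD.iff
      | apply UD.bex | apply UD.ball | apply UD.ex | apply UD.all
      | apply UD.eq | apply UD.mem | apply UF.pair)

theorem isFx_unique {M : Set ZFSet.{0}} (hM : IsZF M) {x A f f' : ZFSet.{0}} (hf : f ∈ M)
    (hf' : f' ∈ M) (h : IsFx M x A f) (h' : IsFx M x A f') : f = f' := by
  ext z
  constructor
  · intro hz
    have hzM := hM.trans _ hf _ hz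
    exact (h' z hzM).2 ((h z hzM).1 hz)
  · intro hz
    have hzM := hM.trans _ hf' _ hz
    exact (h z hzM).2 ((h' z hzM).1 hz)

namespace IsMod2

variable {π : Pkg PA} (h : IsMod2 π)

include h

omit h in
theorem hat_union_omega {μ : ZFSet.{0}} (hμ : μ ∈ π.Z) : ZFSet.omega ∪ μ ∈ π.Z ∧
    π.hat (ZFSet.omega ∪ μ) = ZFSet.omega ∪ π.hat μ := by
  constructor
  · rw [← ZFSet.sUnion_pair]
    exact π.union_Z (π.pair_Z π.omega_Z hμ)
  · ext z
    rw [π.mem_hat, ZFSet.mem_union, π.mem_hat]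
    conv_rhs => rw [← π.hat_omega, π.mem_hat]
    constructor
    · rintro ⟨y, hy, hyZ, rfl⟩
      rcases ZFSet.mem_union.1 hy with hy | hy
      · exact Or.inl ⟨y, hy, hyZ, rfl⟩
      · exact Or.inr ⟨y, hy, hyZ, rfl⟩
    · rintro (⟨y, hy, hyZ, rfl⟩ | ⟨y, hy, hyZ, rfl⟩)
      · exact ⟨y, ZFSet.mem_union.2 (Or.inl hy), hyZ, rfl⟩
      · exact ⟨y, ZFSet.mem_union.2 (Or.inr hy), hyZ, rfl⟩

/-- The forcing is narrow. -/
theorem narrow : NarrowIn (SA.Ms π) ZFSet.omega (FinP (SA.Ms π) (π.val Lam))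
    (FinR (SA.Ms π) (π.val Lam)) := by
  intro μ hμ hμo F hF hF1 hF2 hF3
  have hM := h.isZF
  have hB := hM.base
  have h0 := hM.infinity
  have hFM := hF
  obtain ⟨F, ⟨hFN, hFS⟩, rfl⟩ := hF
  obtain ⟨e, fF⟩ := sym_iff.1 hFS.sym
  obtain ⟨Γ, hΓM, hΓ⟩ := h.exists_gam e
  have hP := FinP_mem hM h.lam_mem
  obtain ⟨hYM, ε, hε, hεi⟩ := h.cnt_part hΓM hΓ
  have hpt : DfnF (SA.Ms π) (SA.Ms π) fun w : Fin 1 → ZFSet.{0} => part Γ (w 0) := by
    unfold part
    exact hM.sep' (Q := fun z _ => fs z ∈ Γ) (DfnF.proj 0)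
      (Dfn.mem (hM.fs' (DfnF.proj 0)) (DfnF.const hΓM))
  -- the union of the ranges
  have hB1 : ZFSet.sUnion (ZFSet.sUnion (ZFSet.sUnion (ZFSet.sUnion (ZFSet.sUnion
      (π.val F))))) ∈ SA.Ms π :=
    hM.union _ (hM.union _ (hM.union _ (hM.union _ (hM.union _ hFM))))
  have hS := hM.sep_mem (Q := fun α => ∃ i ∈ SA.Ms π, ∃ f ∈ SA.Ms π, ∃ p ∈ SA.Ms π,
    pair i f ∈ π.val F ∧ pair p α ∈ f) (by
      (repeat' first
        | assumption
        | exact DfnF.proj _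
        | exact DfnF.const (by assumption)
        | exact DfnF.const' (by first | assumption | trivial) (by first | assumption | trivial)
        | exact Dfn.prop _
        | apply hB.isFunc' | apply hB.isInj' | apply hB.isBij' | apply hB.isOrdinal'
        | apply hB.subset' | apply hB.pair' | apply hB.insert'
        | apply Dfn.not | apply Dfn.and | apply Dfn.or | apply Dfn.imp | apply Dfn.iff
        | apply hB.bex | apply hB.ball | apply Dfn.ex | apply Dfn.all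
        | apply Dfn.eq | apply Dfn.mem)) hB1
  have hSm : ∀ α, α ∈ ZFSet.sep (fun α => ∃ i ∈ SA.Ms π, ∃ f ∈ SA.Ms π, ∃ p ∈ SA.Ms π,
      pair i f ∈ π.val F ∧ pair p α ∈ f) (ZFSet.sUnion (ZFSet.sUnion (ZFSet.sUnion
      (ZFSet.sUnion (ZFSet.sUnion (π.val F)))))) ↔
      ∃ i f p, pair i f ∈ π.val F ∧ pair p α ∈ f := by
    intro α
    rw [ZFSet.mem_sep]
    constructor
    · rintro ⟨-, i, -, f, -, p, -, h1, h2⟩
      exact ⟨i, f, p, h1, h2⟩
    · rintro ⟨i, f, p, h1, h2⟩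
      obtain ⟨hi, hf⟩ := hM.of_pair_mem (hM.trans _ hFM _ h1)
      refine ⟨?_, i, hi, f, hf, p, (hM.of_pair_mem (hM.trans _ hf _ h2)).1, h1, h2⟩
      refine snd_mem_sUnion (a := p) (ZFSet.mem_sUnion.2 ⟨f, ?_, h2⟩)
      exact snd_mem_sUnion h1
  refine ⟨_, hS, hSm, ?_⟩
  -- the injection of `μ × ω`
  have hW : ∀ x ∈ SA.Ms π, x ∈ π.W := by
    rintro x ⟨y, hy, rfl⟩
    exact π.val_mem_W hy.1
  obtain ⟨μ0, hμ0, rfl⟩ := π.ord_V hμo (hW _ hμ)
  obtain ⟨hu1, hu2⟩ := hat_union_omega hμ0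
  obtain ⟨J, hJ, hJi⟩ := π.exists_inj_V (π.prod_Z hμ0 π.omega_Z) hu1 (exists_isInj (by
    rw [card_prod, card_omega]
    refine (Cardinal.mul_le_max_of_aleph0_le_right le_rfl).trans (max_le ?_ ?_)
    · exact ZFSet.card_mono fun z hz => ZFSet.mem_union.2 (Or.inr hz)
    · rw [← card_omega]
      exact ZFSet.card_mono fun z hz => ZFSet.mem_union.2 (Or.inl hz)))
  rw [π.hat_prod hμ0 π.omega_Z, π.hat_omega, hu2] at hJi
  have hOM : ZFSet.omega ∪ π.hat μ0 ∈ SA.Ms π := hM.union_mem h0 hμ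
  refine inj_image hM ⟨J, h.toIsMod.V_sub hJ, hJi⟩ (hM.prod_mem hμ h0) hS hOM ?_
    (G := fun a β => ∃ i ∈ π.hat μ0, ∃ k ∈ ZFSet.omega, a = pair i k ∧
      ∃ s ∈ ZFSet.sep (fun s => part Γ s = s) (FinP (SA.Ms π) (π.val Lam)), pair s k ∈ ε ∧
      ∃ f ∈ SA.Ms π, pair i f ∈ π.val F ∧ ∃ p ∈ SA.Ms π, pair p β ∈ f ∧ part Γ p = s) ?_ ?_ ?_
  · intro x hx
    rcases ZFSet.mem_union.1 hx with hx | hx
    · obtain ⟨n, rfl⟩ := mem_omega_iff.1 hx
      exact nat_isOrdinal n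
    · exact hμo.mem hx
  · (repeat' first
      | apply DfnF.comp1 (f := fun a => part Γ a) hpt
      | assumption
      | exact DfnF.proj _
      | exact DfnF.const (by assumption)
      | exact DfnF.const' (by first | assumption | trivial) (by first | assumption | trivial)
      | exact Dfn.prop _
      | apply hB.isFunc' | apply hB.isInj' | apply hB.isBij' | apply hB.isOrdinal'
      | apply hB.subset' | apply hB.pair' | apply hB.insert'
      | apply Dfn.not | apply Dfn.and | apply Dfn.or | apply Dfn.imp | apply Dfn.iff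
      | apply hB.bex | apply hB.ball | apply Dfn.ex | apply Dfn.all
      | apply Dfn.eq | apply Dfn.mem)
  · rintro a - β - β' - ⟨i, hi, k, hk, rfl, s, hs, h1, f, hf, h2, p, hp, h3, h4⟩
      ⟨i', hi', k', hk', h5, s', hs', h1', f', hf', h2', p', hp', h3', h4'⟩
    obtain ⟨rfl, rfl⟩ := ZFSet.pair_inj.1 h5
    have h6 := hεi.2 _ _ _ h1 h1'
    have h7 : f = f' := (hF2 i hi).unique h2 h2'
    subst h7
    refine h.value_eq hFS hFN fF hΓ (hM.trans _ hμ _ hi) (hμo.mem hi)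
      (fun f f' hf hf' => (hF2 i hi).unique hf hf') (fun f hf => hF3 i f hf) h2 h3 h3' ?_
    rw [h4, h4', h6]
  · intro β hβ
    obtain ⟨i, f, p, h1, h2⟩ := (hSm β).1 hβ
    obtain ⟨i', hi', f', h3⟩ := hF1 _ h1
    obtain ⟨rfl, rfl⟩ := ZFSet.pair_inj.1 h3
    have hfM := (hM.of_pair_mem (hM.trans _ hFM _ h1)).2
    obtain ⟨p', hp', α, -, h4⟩ := (hF3 i f h1).1 _ h2
    obtain ⟨rfl, rfl⟩ := ZFSet.pair_inj.1 h4
    have hs : part Γ p ∈ ZFSet.sep (fun s => part Γ s = s) (FinP (SA.Ms π) (π.val Lam)) := by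
      refine ZFSet.mem_sep.2 ⟨h.part_FinP hΓM hp', ?_⟩
      ext z
      unfold part
      rw [ZFSet.mem_sep, ZFSet.mem_sep]
      tauto
    obtain ⟨k, hk, -⟩ := hεi.1.2 _ hs
    have hkω := (ZFSet.pair_mem_prod.1 (hεi.1.1 hk)).2
    exact ⟨pair i k, ZFSet.pair_mem_prod.2 ⟨hi', hkω⟩, i, hi', k, hkω, rfl, _, hs, hk, f, hfM, h1,
      p, (hM.of_pair_mem (hM.trans _ hfM _ h2)).1, h2, rfl⟩

/-- The forcing is not uniformly narrow. -/
theorem not_uniform : ¬ UniformlyNarrowIn (SA.Ms π) ZFSet.omega (FinP (SA.Ms π) (π.val Lam))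
    (FinR (SA.Ms π) (π.val Lam)) := by
  classical
  rintro ⟨G, hG, hG1, hG2⟩
  have hM := h.isZF
  have hB := hM.base
  have h0 := hM.infinity
  have hGM := hG
  obtain ⟨G, ⟨hGN, hGS⟩, rfl⟩ := hG
  obtain ⟨e, fG⟩ := sym_iff.1 hGS.sym
  set n := e.sup Prod.fst with hn
  set e' := insert (n, 0) e with he'
  have hsup : e'.sup Prod.fst = n := by
    rw [he', Finset.sup_insert]
    exact max_eq_left le_rfl
  have hS : ∀ i, SA.HS (![G, Gn Al n 0, check (Al (n + 1))] i) := by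
    intro i
    fin_cases i
    exacts [hGS, hs_Gn _ _, SA.hs_check _]
  have hN : ∀ i, ![G, Gn Al n 0, check (Al (n + 1))] i ∈ π.N := by
    intro i
    fin_cases i
    exacts [hGN, h.gn _ _, h.al _]
  have hf : ∀ i, Fx e' (![G, Gn Al n 0, check (Al (n + 1))] i) := by
    intro i
    fin_cases i
    · exact fG.mono (Finset.subset_insert _ _)
    · exact (fx_Gn n 0).mono (by simp [he'])
    · exact fx_check _ _
  set x := π.val (Gn Al n 0) with hx
  set A := π.hat (Al (n + 1)) with hA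
  have hxM : x ∈ SA.Ms π := Sys.mem_Ms (h.gn _ _) (hs_Gn _ _)
  have hAM : A ∈ SA.Ms π := h.toIsMod.hat_mem (h.al _)
  have hAo : A.IsOrdinal := π.hat_isOrdinal (ZFSet.isOrdinal_toZFSet _)
  -- the homomorphism
  have hfd : DfnF (SA.Ms π) (SA.Ms π) fun w : Fin 1 → ZFSet.{0} => pair {pair x (w 0)} (w 0) :=
    hB.pair' (hB.single' (hB.pair' (DfnF.const hxM) (DfnF.proj 0))) (DfnF.proj 0)
  have hfM := hM.im_mem (x := A) hAM (h := fun α => pair {pair x α} α) hfd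
  have hfm : ∀ z, z ∈ W868.im (fun α => pair {pair x α} α) A ↔
      ∃ α ∈ A, z = pair {pair x α} α := fun z => mem_im
  have hP : ∀ α ∈ A, ({pair x α} : ZFSet.{0}) ∈ FinP (SA.Ms π) (π.val Lam) := by
    intro α hα
    have hαM := hM.trans _ hAM _ hα
    obtain ⟨a, ha, haZ, rfl⟩ := π.mem_hat.1 hα
    obtain ⟨a, rfl⟩ := exists_el ha
    refine (mem_FinP hM h.lam_mem).2 ⟨hM.single_mem (hM.pair_mem hxM hαM), ?_, ?_, ?_⟩
    · intro z hz
      rw [ZFSet.mem_singleton.1 hz]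
      have h1 : un ⟨n, 0, a⟩ ∈ π.N := π.opN_mem (h.gn _ _) haZ
      exact h.mem_Lam.2 ⟨⟨n, 0, a⟩, h1, (val_un h1).symm⟩
    · refine (Set.finite_singleton (pair x (π.hat (el a)))).subset fun z hz => ?_
      exact ZFSet.mem_singleton.1 hz
    · intro y b c hb hc
      have h1 := ZFSet.pair_inj.1 (ZFSet.mem_singleton.1 hb)
      have h2 := ZFSet.pair_inj.1 (ZFSet.mem_singleton.1 hc)
      rw [h1.2, h2.2]
  have hhom : IsHom (FinP (SA.Ms π) (π.val Lam)) (FinR (SA.Ms π) (π.val Lam))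
      (W868.im (fun α => pair {pair x α} α) A) := by
    refine ⟨fun z hz => ?_, fun p α q β hp hq hc => ?_⟩
    · obtain ⟨α, hα, rfl⟩ := (hfm z).1 hz
      exact ⟨_, hP α hα, α, hAo.mem hα, rfl⟩
    · obtain ⟨α', hα', h1⟩ := (hfm _).1 hp
      obtain ⟨rfl, rfl⟩ := ZFSet.pair_inj.1 h1
      obtain ⟨β', hβ', h2⟩ := (hfm _).1 hq
      obtain ⟨rfl, rfl⟩ := ZFSet.pair_inj.1 h2
      obtain ⟨r, hr, h3, h4⟩ := hc
      have h5 := (pair_mem_FinR.1 h3).2.2 (ZFSet.mem_singleton.2 rfl)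
      have h6 := (pair_mem_FinR.1 h4).2.2 (ZFSet.mem_singleton.2 rfl)
      exact ((mem_FinP hM h.lam_mem).1 hr).2.2.2 _ _ _ h5 h6
  -- the statement about `G`
  have hΘ : (∃ f ∈ SA.Ms π, IsFx (SA.Ms π) x A f) ∧
      (∀ f ∈ SA.Ms π, IsFx (SA.Ms π) x A f → ∃ g ∈ SA.Ms π, pair f g ∈ π.val G ∧
        IsInj A ZFSet.omega g) ∧
      ∀ f ∈ SA.Ms π, ∀ g ∈ SA.Ms π, ∀ g' ∈ SA.Ms π, pair f g ∈ π.val G →
        pair f g' ∈ π.val G → g = g' := by
    refine ⟨⟨_, hfM, fun z _ => hfm z⟩, fun f hf hfx => ?_, fun f _ g _ g' _ => hG1 f g g'⟩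
    have h1 : f = W868.im (fun α => pair {pair x α} α) A :=
      isFx_unique hM hf hfM hfx fun z _ => hfm z
    subst h1
    obtain ⟨g, hg, hgi⟩ := hG2 _ hfM hhom A hAM hAo (fun α => by
      constructor
      · exact fun hα => ⟨_, (hfm _).2 ⟨α, hα, rfl⟩⟩
      · rintro ⟨p, hp⟩
        obtain ⟨α', hα', h1⟩ := (hfm _).1 hp
        rw [(ZFSet.pair_inj.1 h1).2]
        exact hα')
    exact ⟨g, (hM.of_pair_mem (hM.trans _ hGM _ hg)).2, hg, hgi⟩
  obtain ⟨j, hj⟩ := (Sys.frc_iff ud_th h.cl (x := ![G, Gn Al n 0, check (Al (n + 1))])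
    fun i => ⟨hN i, hS i⟩).1 hΘ
  have hj' := frc_res hf hj
  have hb := rel_bound (B := Al (n + 1)) ud_rr hS hf (sp_res e' (π.g j)) (by
    intro π' hcl' hN' hgp
    have hM' := T_ZF.isZF hcl'
    obtain ⟨⟨f, hf, hfx⟩, h2, h3⟩ := (Sys.frc_sem hS).1 hj' π' hcl' hN' hgp
    have hAN : (check (Al (n + 1)) : PName PA) ∈ π'.N := hN' 2
    have hfx' : IsFx (SA.Ms π') (π'.val (Gn Al n 0)) (π'.hat (Al (n + 1))) f := hfx
    have h2' : ∀ f ∈ SA.Ms π', IsFx (SA.Ms π') (π'.val (Gn Al n 0)) (π'.hat (Al (n + 1))) f →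
      ∃ g ∈ SA.Ms π', pair f g ∈ π'.val G ∧ IsInj (π'.hat (Al (n + 1))) ZFSet.omega g := h2
    have h3' : ∀ f ∈ SA.Ms π', ∀ g ∈ SA.Ms π', ∀ g' ∈ SA.Ms π', pair f g ∈ π'.val G →
        pair f g' ∈ π'.val G → g = g' := h3
    obtain ⟨g, hg, hg1, hg2⟩ := h2' f hf hfx'
    constructor
    · intro b hb hbZ
      obtain ⟨m, hm, -⟩ := hg2.1.2 (π'.hat b) ((π'.hat_mem_hat hbZ hAN).2 hb)
      obtain ⟨k, rfl⟩ := mem_omega_iff.1 (ZFSet.pair_mem_prod.1 (hg2.1.1 hm)).2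
      exact ⟨k, f, hf, hfx', g, hg, hg1, hm⟩
    · rintro b hb hbZ b' hb' hbZ' m ⟨f1, hf1, h4, g1, hg1', h5, h6⟩ ⟨f2, hf2, h7, g2, hg2', h8, h9⟩
      have e1 : f1 = f := isFx_unique hM' hf1 hf h4 hfx'
      have e2 : f2 = f := isFx_unique hM' hf2 hf h7 hfx'
      subst e1
      subst e2
      have e3 : g1 = g := h3' _ hf g1 hg1' g hg h5 hg1
      have e4 : g2 = g := h3' _ hf g2 hg2' g hg h8 hg1
      subst e3
      subst e4
      exact hg2.2 _ _ _ h6 h9)
  have h1 := hb.trans (card_sp_le e')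
  rw [hsup, card_Al, Cardinal.aleph_le_aleph] at h1
  have h2 : n + 1 ≤ n := by exact_mod_cast h1
  omega

end IsMod2

end Pool.Agent.Q211.FS
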