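import Pool.Agent.Q211.FS.Mod

/-!
# One-point compactifications of countable discrete spaces, and countable products
-/

set_option autoImplicit false
set_option linter.unusedSectionVars false
set_option linter.unreachableTactic false
set_option linter.unusedTactic false

namespace Pool.Agent.Q211.FS

open Pool.Agent.W868 Pool.Agent.W868.PName Pool.Agent.Q211.SY
open ZFSet (pair)

/-! ### Power sets -/

/-- The power set of `x` in `M`. -/
noncomputable def PM (M : Set ZFSet.{0}) (x : ZFSet.{0}) : ZFSet.{0} :=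
  ZFSet.sep (fun z => z ∈ M) (ZFSet.powerset x)

theorem mem_PM {M : Set ZFSet.{0}} {x z : ZFSet.{0}} : z ∈ PM M x ↔ z ∈ M ∧ z ⊆ x := by
  rw [PM, ZFSet.mem_sep, ZFSet.mem_powerset, and_comm]

theorem PM_mem {M : Set ZFSet.{0}} (hM : IsZF M) {x : ZFSet.{0}} (hx : x ∈ M) : PM M x ∈ M := by
  obtain ⟨y, hy, h⟩ := hM.power x hx
  have h1 : y = PM M x := by
    ext z
    rw [h, mem_PM]
  exact h1 ▸ hy

theorem PM' {M : Set ZFSet.{0}} (hM : IsZF M) {n : ℕ} {F : (Fin n → ZFSet.{0}) → ZFSet.{0}}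
    (hF : DfnF M M F) : DfnF M M fun v => PM M (F v) := by
  have hB := hM.base
  refine DfnF.of_unique (R := fun y v => ∀ z ∈ M, z ∈ y ↔ z ⊆ F v) ?_ ?_
  · apply Dfn.all (Q := fun z (v : Fin (n + 1) → ZFSet.{0}) => z ∈ v 0 ↔ z ⊆ F (Fin.tail v))
    exact (Dfn.mem (DfnF.proj 0) (DfnF.proj 1)).iff (hB.subset' (DfnF.proj 0) hF.tail.tail)
  · intro v hv
    refine ⟨PM_mem hM (hF.1 v hv), fun y hy => ?_⟩
    constructor
    · intro h
      ext z
      rw [mem_PM]
      constructor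
      · intro hz
        have hzM := hM.trans _ hy _ hz
        exact ⟨hzM, (h z hzM).1 hz⟩
      · rintro ⟨hz, hz'⟩
        exact (h z hz).2 hz'
    · rintro rfl z hz
      rw [mem_PM]
      exact ⟨fun h => h.2, fun h => ⟨hz, h⟩⟩

/-! ### Finite sets -/

theorem finite_iff {M : Set ZFSet.{0}} (hM : IsZF M) {A : ZFSet.{0}} (hA : A ∈ M) :
    {z | z ∈ A}.Finite ↔ ∃ m ∈ ZFSet.omega, ∃ g ∈ M, IsBij m A g := by
  constructor
  · intro h
    obtain ⟨n, g, hg, hg'⟩ := exists_bij_of_finite hM hA h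
    exact ⟨nat n, mem_omega_iff.2 ⟨n, rfl⟩, g, hg, hg'⟩
  · rintro ⟨m, hm, g, -, hg⟩
    obtain ⟨n, rfl⟩ := mem_omega_iff.1 hm
    have h1 := card_eq_of_isBij hg
    rw [card_nat] at h1
    have h2 : Cardinal.mk (Ty A) = n := h1.symm
    have h3 : Finite (Ty A) := by
      rw [← Cardinal.lt_aleph0_iff_finite, h2]
      exact Cardinal.natCast_lt_aleph0
    have h4 : Finite {z // z ∈ A} := Finite.of_equiv _ (equivShrink _).symm
    exact h4

/-! ### The topology of the one-point compactification -/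

/-- The one-point compactification of the discrete space `a`; the point at infinity is `a`. -/
noncomputable def opc (M : Set ZFSet.{0}) (a : ZFSet.{0}) : ZFSet.{0} :=
  ZFSet.sep (fun U => a ∈ U → {x | x ∈ ZFSet.sep (fun y => y ∉ U) a}.Finite) (PM M (insert a a))

theorem mem_opc {M : Set ZFSet.{0}} {a U : ZFSet.{0}} : U ∈ opc M a ↔ U ∈ M ∧ U ⊆ insert a a ∧
    (a ∈ U → {x | x ∈ a ∧ x ∉ U}.Finite) := by
  rw [opc, ZFSet.mem_sep, mem_PM, and_assoc]
  simp only [ZFSet.mem_sep]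

theorem opc' {M : Set ZFSet.{0}} (hM : IsZF M) {n : ℕ} {F : (Fin n → ZFSet.{0}) → ZFSet.{0}}
    (hF : DfnF M M F) : DfnF M M fun v => opc M (F v) := by
  have hB := hM.base
  have h0 := hM.infinity
  have h2 : DfnF M M fun v : Fin 2 → ZFSet.{0} => ZFSet.sep (fun y => y ∉ v 0) (v 1) :=
    hM.sep' (Q := fun y (v : Fin 2 → ZFSet.{0}) => y ∉ v 0) (DfnF.proj 1) (by
      (repeat' first
        | assumption
        | exact DfnF.proj _
        | exact DfnF.const (by assumption)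
        | exact DfnF.const' (by first | assumption | trivial) (by first | assumption | trivial)
        | exact Dfn.prop _
        | apply hB.isFunc' | apply hB.isInj' | apply hB.isBij' | apply hB.isOrdinal'
        | apply hB.subset' | apply hB.pair' | apply hB.insert'
        | apply Dfn.not | apply Dfn.and | apply Dfn.or | apply Dfn.imp | apply Dfn.iff
        | apply hB.bex | apply hB.ball | apply Dfn.ex | apply Dfn.all
        | apply Dfn.eq | apply Dfn.mem))
  have h1 : DfnF M M fun v : Fin 1 → ZFSet.{0} => ZFSet.sep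
      (fun U => v 0 ∈ U → ∃ m ∈ ZFSet.omega, ∃ g ∈ M, IsBij m (ZFSet.sep (fun y => y ∉ U) (v 0)) g)
      (PM M (insert (v 0) (v 0))) := by
    refine hM.sep' (Q := fun U (v : Fin 1 → ZFSet.{0}) => v 0 ∈ U → ∃ m ∈ ZFSet.omega, ∃ g ∈ M,
      IsBij m (ZFSet.sep (fun y => y ∉ U) (v 0)) g)
      (PM' hM (hB.insert' (DfnF.proj 0) (DfnF.proj 0))) ?_
    (repeat' first
      | apply DfnF.comp2 (f := fun a b => ZFSet.sep (fun y => y ∉ a) b) h2
      | assumption
      | exact DfnF.proj _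
      | exact DfnF.const (by assumption)
      | exact DfnF.const' (by first | assumption | trivial) (by first | assumption | trivial)
      | exact Dfn.prop _
      | apply hB.isFunc' | apply hB.isInj' | apply hB.isBij' | apply hB.isOrdinal'
      | apply hB.subset' | apply hB.pair' | apply hB.insert'
      | apply Dfn.not | apply Dfn.and | apply Dfn.or | apply Dfn.imp | apply Dfn.iff
      | apply hB.bex | apply hB.ball | apply Dfn.ex | apply Dfn.all
      | apply Dfn.eq | apply Dfn.mem)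
  refine DfnF.comp1 (f := fun a => opc M a) (h1.congr fun v hv => ?_) hF
  ext U
  rw [ZFSet.mem_sep, opc, ZFSet.mem_sep]
  refine and_congr_right fun hU => imp_congr_right fun _ => ?_
  have hU' := (mem_PM.1 hU).1
  have hs : ZFSet.sep (fun y => y ∉ U) (v 0) ∈ M := hM.sep_mem (Q := fun y => y ∉ U) (by
    (repeat' first
      | assumption
      | exact DfnF.proj _
      | exact DfnF.const (by assumption)
      | exact DfnF.const' (by first | assumption | trivial) (by first | assumption | trivial)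
      | exact Dfn.prop _
      | apply hB.isFunc' | apply hB.isInj' | apply hB.isBij' | apply hB.isOrdinal'
      | apply hB.subset' | apply hB.pair' | apply hB.insert'
      | apply Dfn.not | apply Dfn.and | apply Dfn.or | apply Dfn.imp | apply Dfn.iff
      | apply hB.bex | apply hB.ball | apply Dfn.ex | apply Dfn.all
      | apply Dfn.eq | apply Dfn.mem)) (hv 0)
  exact (finite_iff hM hs).symm

theorem compact_opc {M : Set ZFSet.{0}} (a : ZFSet.{0}) : CompactIn M (insert a a) (opc M a) := by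
  classical
  intro C _ hC hcov
  obtain ⟨U0, hU0, ha⟩ := hcov a (ZFSet.mem_insert_iff.2 (Or.inl rfl))
  have hfin := (mem_opc.1 (hC hU0)).2.2 ha
  choose! V hV hxV using hcov
  refine ⟨insert U0 (hfin.toFinset.image V), ?_, ?_⟩
  · intro U hU
    rcases Finset.mem_insert.1 hU with rfl | hU
    · exact hU0
    · obtain ⟨x, hx, rfl⟩ := Finset.mem_image.1 hU
      exact hV x (ZFSet.mem_insert_iff.2 (Or.inr (hfin.mem_toFinset.1 hx).1))
  · intro x hx
    by_cases h : x ∈ U0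
    · exact ⟨U0, Finset.mem_insert_self _ _, h⟩
    · have hxa : x ∈ a := by
        rcases ZFSet.mem_insert_iff.1 hx with rfl | h1
        · exact absurd ha h
        · exact h1
      exact ⟨V x, Finset.mem_insert_of_mem (Finset.mem_image_of_mem _
        (hfin.mem_toFinset.2 ⟨hxa, h⟩)), hxV x hx⟩

/-! ### Metrizability -/

/-- The set of all `(k, (m, n))` with `1 / (k + 1) < m / (n + 1)`. -/
noncomputable def WW : ZFSet.{0} :=
  ZFSet.range fun t : {t : ℕ × ℕ × ℕ // (1 : ℝ) / (t.1 + 1) < t.2.1 / (t.2.2 + 1)} =>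
    pair (nat t.1.1) (pair (nat t.1.2.1) (nat t.1.2.2))

theorem mem_WW {k m n : ℕ} : pair (nat k) (pair (nat m) (nat n)) ∈ WW ↔
    (1 : ℝ) / (k + 1) < m / (n + 1) := by
  rw [WW, ZFSet.mem_range]
  constructor
  · rintro ⟨⟨⟨k', m', n'⟩, h⟩, h1⟩
    obtain ⟨h2, h3⟩ := ZFSet.pair_inj.1 h1
    obtain ⟨h3, h4⟩ := ZFSet.pair_inj.1 h3
    have h5 : k' = k := nat_injective h2
    have h6 : m' = m := nat_injective h3
    have h7 : n' = n := nat_injective h4
    subst h5 h6 h7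
    exact h
  · exact fun h => ⟨⟨(k, m, n), h⟩, rfl⟩

theorem metrizable_opc {M : Set ZFSet.{0}} (hM : IsZF M) (hW : WW ∈ M) {a : ZFSet.{0}}
    (ha : a ∈ M) (hc : CntIn M a) : MetrizableIn M (insert a a) (opc M a) := by
  classical
  obtain ⟨f, hf, hfi⟩ := hc
  have h1 : ∀ x, ∃ k : ℕ, x ∈ a → pair x (nat k) ∈ f := by
    intro x
    by_cases hx : x ∈ a
    · obtain ⟨y, hy, -⟩ := hfi.1.2 x hx
      obtain ⟨k, rfl⟩ := mem_omega_iff.1 (ZFSet.pair_mem_prod.1 (hfi.1.1 hy)).2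
      exact ⟨k, fun _ => hy⟩
    · exact ⟨0, fun h => absurd h hx⟩
  choose hh hhf using h1
  have hhinj : ∀ x ∈ a, ∀ y ∈ a, hh x = hh y → x = y := by
    intro x hx y hy h
    have h2 := hhf y hy
    rw [← h] at h2
    exact hfi.2 _ _ _ (hhf x hx) h2
  have hhun : ∀ x ∈ a, ∀ k, pair x (nat k) ∈ f ↔ k = hh x := by
    intro x hx k
    constructor
    · intro h
      exact nat_injective ((hfi.1.2 x hx).unique h (hhf x hx))
    · rintro rfl
      exact hhf x hx
  set w : ZFSet.{0} → ℝ := fun x => if x ∈ a then 1 / (hh x + 1) else 0 with hw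
  have hwpos : ∀ x ∈ a, 0 < w x := by
    intro x hx
    simp only [hw, hx, if_true]
    positivity
  have hw0 : ∀ x, x ∉ a → w x = 0 := fun x hx => by simp only [hw, hx, if_false]
  have hw1 : ∀ x ∈ a, w x = 1 / (hh x + 1) := fun x hx => by simp only [hw, hx, if_true]
  have hwn : ∀ x, 0 ≤ w x := by
    intro x
    by_cases hx : x ∈ a
    · exact (hwpos x hx).le
    · exact (hw0 x hx).ge
  set d : ZFSet.{0} → ZFSet.{0} → ℝ := fun x y => if x = y then 0 else max (w x) (w y) with hd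
  have hdself : ∀ x, d x x = 0 := fun x => by simp [hd]
  have hdne : ∀ x y, x ≠ y → d x y = max (w x) (w y) := fun x y h => by simp [hd, h]
  have haa : a ∉ a := ZFSet.mem_irrefl a
  refine ⟨d, fun x _ => hdself x, ?_, ?_, ?_, ?_, ?_⟩
  · intro x hx y hy h
    by_contra hne
    rw [hdne x y hne] at h
    have h2 : w x ≤ 0 := (le_max_left _ _).trans h.le
    have h3 : w y ≤ 0 := (le_max_right _ _).trans h.le
    have h4 : x ∉ a := fun h => absurd (hwpos x h) (not_lt.2 h2)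
    have h5 : y ∉ a := fun h => absurd (hwpos y h) (not_lt.2 h3)
    exact hne (((ZFSet.mem_insert_iff.1 hx).resolve_right h4).trans
      ((ZFSet.mem_insert_iff.1 hy).resolve_right h5).symm)
  · intro x _ y _
    by_cases h : x = y
    · rw [h]
    · rw [hdne x y h, hdne y x (Ne.symm h), max_comm]
  · intro x _ y _ z _
    by_cases hxz : x = z
    · rw [hxz, hdself]
      by_cases h : z = y
      · rw [h, hdself]
        simp
      · rw [hdne z y h, hdne y z (Ne.symm h)]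
        have := (hwn z).trans (le_max_left (w z) (w y))
        have := (hwn z).trans (le_max_right (w y) (w z))
        linarith
    · rw [hdne x z hxz]
      by_cases hxy : x = y
      · subst hxy
        rw [hdself, hdne x z hxz]
        simp
      · rw [hdne x y hxy]
        by_cases hyz : y = z
        · subst hyz
          rw [hdself]
          simp
        · rw [hdne y z hyz]
          have h2 : w x ≤ max (w x) (w y) := le_max_left _ _
          have h3 : w z ≤ max (w y) (w z) := le_max_right _ _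
          have h4 : 0 ≤ max (w x) (w y) := (hwn x).trans h2
          have h5 : 0 ≤ max (w y) (w z) := (hwn z).trans h3
          exact max_le (by linarith) (by linarith)
  · -- the code
    have hB := hM.base
    have h0 := hM.infinity
    have he := hM.empty_mem
    have hX : insert a a ∈ M := hM.insert_mem ha ha
    have hXX : ZFSet.prod (insert a a) (insert a a) ∈ M := hM.prod_mem hX hX
    have hoo : ZFSet.prod ZFSet.omega ZFSet.omega ∈ M := hM.prod_mem h0 h0
    refine ⟨ZFSet.sep (fun z => ∃ x ∈ insert a a, ∃ y ∈ insert a a, ∃ m ∈ ZFSet.omega,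
      ∃ n ∈ ZFSet.omega, z = pair (pair x y) (pair m n) ∧ ((x = y ∧ ∅ ∈ m) ∨ (x ≠ y ∧
        ((x ∉ a ∧ ∅ ∈ m) ∨ ∃ k ∈ ZFSet.omega, pair x k ∈ f ∧ pair k (pair m n) ∈ WW) ∧
        ((y ∉ a ∧ ∅ ∈ m) ∨ ∃ k ∈ ZFSet.omega, pair y k ∈ f ∧ pair k (pair m n) ∈ WW))))
      (ZFSet.prod (ZFSet.prod (insert a a) (insert a a)) (ZFSet.prod ZFSet.omega ZFSet.omega)),
      hM.sep_mem (Q := fun z => ∃ x ∈ insert a a, ∃ y ∈ insert a a, ∃ m ∈ ZFSet.omega,
      ∃ n ∈ ZFSet.omega, z = pair (pair x y) (pair m n) ∧ ((x = y ∧ ∅ ∈ m) ∨ (x ≠ y ∧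
        ((x ∉ a ∧ ∅ ∈ m) ∨ ∃ k ∈ ZFSet.omega, pair x k ∈ f ∧ pair k (pair m n) ∈ WW) ∧
        ((y ∉ a ∧ ∅ ∈ m) ∨ ∃ k ∈ ZFSet.omega, pair y k ∈ f ∧ pair k (pair m n) ∈ WW)))) (by
        (repeat' first
          | assumption
          | exact DfnF.proj _
          | exact DfnF.const (by assumption)
          | exact DfnF.const' (by first | assumption | trivial) (by first | assumption | trivial)
          | exact Dfn.prop _
          | apply hB.isFunc' | apply hB.isInj' | apply hB.isBij' | apply hB.isOrdinal'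
          | apply hB.subset' | apply hB.pair' | apply hB.insert'
          | apply Dfn.not | apply Dfn.and | apply Dfn.or | apply Dfn.imp | apply Dfn.iff
          | apply hB.bex | apply hB.ball | apply Dfn.ex | apply Dfn.all
          | apply Dfn.eq | apply Dfn.mem)) (hM.prod_mem hXX hoo), ?_⟩
    have hm0 : ∀ m n : ℕ, (∅ : ZFSet.{0}) ∈ nat m ↔ (0 : ℝ) < m / (n + 1) := by
      intro m n
      have h2 : (∅ : ZFSet.{0}) = nat 0 := rfl
      rw [h2, nat_mem_nat]
      constructor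
      · intro h
        have h3 : (0 : ℝ) < m := Nat.cast_pos.2 h
        positivity
      · intro h
        by_contra h3
        have h4 : m = 0 := by omega
        subst h4
        simp at h
    have hwl : ∀ x (m n : ℕ), ((x ∉ a ∧ ∅ ∈ nat m) ∨ ∃ k ∈ ZFSet.omega, pair x k ∈ f ∧
        pair k (pair (nat m) (nat n)) ∈ WW) ↔ w x < m / (n + 1) := by
      intro x m n
      by_cases hx : x ∈ a
      · rw [hw1 x hx]
        constructor
        · rintro (⟨h2, -⟩ | ⟨k, hk, h2, h3⟩)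
          · exact absurd hx h2
          · obtain ⟨k, rfl⟩ := mem_omega_iff.1 hk
            rw [(hhun x hx k).1 h2] at h3
            exact mem_WW.1 h3
        · intro h2
          exact Or.inr ⟨nat (hh x), mem_omega_iff.2 ⟨_, rfl⟩, hhf x hx, mem_WW.2 h2⟩
      · rw [hw0 x hx, hm0 m n]
        constructor
        · rintro (⟨-, h2⟩ | ⟨k, hk, h2, h3⟩)
          · exact h2
          · exact absurd (ZFSet.pair_mem_prod.1 (hfi.1.1 h2)).1 hx
        · exact fun h2 => Or.inl ⟨hx, h2⟩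
    have hdl : ∀ x y (m n : ℕ), d x y < m / (n + 1) ↔ ((x = y ∧ ∅ ∈ nat m) ∨ (x ≠ y ∧
        ((x ∉ a ∧ ∅ ∈ nat m) ∨ ∃ k ∈ ZFSet.omega, pair x k ∈ f ∧
          pair k (pair (nat m) (nat n)) ∈ WW) ∧
        ((y ∉ a ∧ ∅ ∈ nat m) ∨ ∃ k ∈ ZFSet.omega, pair y k ∈ f ∧
          pair k (pair (nat m) (nat n)) ∈ WW))) := by
      intro x y m n
      rw [hwl, hwl, hm0 m n]
      by_cases h : x = y
      · subst h
        rw [hdself]
        simp
      · rw [hdne x y h, max_lt_iff]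
        simp [h]
    intro z
    rw [ZFSet.mem_sep]
    constructor
    · rintro ⟨-, x, hx, y, hy, m, hm, n, hn, rfl, h2⟩
      obtain ⟨m, rfl⟩ := mem_omega_iff.1 hm
      obtain ⟨n, rfl⟩ := mem_omega_iff.1 hn
      exact ⟨x, hx, y, hy, m, n, rfl, (hdl x y m n).2 h2⟩
    · rintro ⟨x, hx, y, hy, m, n, rfl, h2⟩
      have hm : nat m ∈ ZFSet.omega := mem_omega_iff.2 ⟨m, rfl⟩
      have hn : nat n ∈ ZFSet.omega := mem_omega_iff.2 ⟨n, rfl⟩
      exact ⟨ZFSet.pair_mem_prod.2 ⟨ZFSet.pair_mem_prod.2 ⟨hx, hy⟩,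
        ZFSet.pair_mem_prod.2 ⟨hm, hn⟩⟩, x, hx, y, hy, _, hm, _, hn, rfl, (hdl x y m n).1 h2⟩
  · -- the topology
    intro U
    rw [mem_opc]
    refine and_congr_right fun _ => and_congr_right fun hUX => ?_
    constructor
    · intro hfin x hx
      by_cases hxa : x ∈ a
      · refine ⟨w x, hwpos x hxa, fun y _ hy => ?_⟩
        by_cases h : x = y
        · rwa [← h]
        · rw [hdne x y h] at hy
          exact absurd (le_max_left (w x) (w y)) (not_le.2 hy)
      · have hxe : x = a := (ZFSet.mem_insert_iff.1 (hUX hx)).resolve_right hxa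
        subst hxe
        have hf' := hfin hx
        refine ⟨1 / ((hf'.toFinset.sup hh : ℕ) + 1), by positivity, fun y hy hyd => ?_⟩
        rcases ZFSet.mem_insert_iff.1 hy with rfl | hya
        · exact hx
        · by_contra hyU
          have h2 : hh y ≤ hf'.toFinset.sup hh :=
            Finset.le_sup (hf'.mem_toFinset.2 ⟨hya, hyU⟩)
          have h3 : x ≠ y := fun h => hxa (h ▸ hya)
          rw [hdne x y h3, max_lt_iff, hw1 y hya] at hyd
          have h4 : (1 : ℝ) / ((hf'.toFinset.sup hh : ℕ) + 1) ≤ 1 / (hh y + 1) := by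
            refine one_div_le_one_div_of_le (by positivity) ?_
            have h5 : (hh y : ℝ) ≤ (hf'.toFinset.sup hh : ℕ) := Nat.cast_le.2 h2
            linarith
          linarith [hyd.2]
    · intro hop ha'
      obtain ⟨ε, hε, h2⟩ := hop a ha'
      obtain ⟨N, hN⟩ := exists_nat_gt (1 / ε)
      refine Set.Finite.of_finite_image (f := hh) ((Set.finite_Iio N).subset ?_) ?_
      · rintro _ ⟨y, ⟨hya, hyU⟩, rfl⟩
        rw [Set.mem_Iio]
        by_contra h3
        push Not at h3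
        apply hyU
        refine h2 y (ZFSet.mem_insert_iff.2 (Or.inr hya)) ?_
        have h4 : a ≠ y := fun h => haa (by rwa [← h] at hya)
        rw [hdne a y h4, hw0 a haa, hw1 y hya, max_eq_right (by positivity)]
        rw [div_lt_iff₀ (by positivity)]
        rw [div_lt_iff₀ hε] at hN
        have h5 : (N : ℝ) ≤ hh y := Nat.cast_le.2 h3
        nlinarith
      · rintro x ⟨hx, -⟩ y ⟨hy, -⟩ hxy
        exact hhinj x hx y hy hxy

/-! ### Products -/

/-- The sequence `X 0, X 1, ...` is an element of `M`. -/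
def SeqIn (M : Set ZFSet.{0}) (X : ℕ → ZFSet.{0}) : Prop :=
  ZFSet.range (fun n => pair (nat n) (X n)) ∈ M

/-- `(P, T)` is the product, in `M`, of the spaces `(X n, τ n)`: the elements of `P` are the
functions `f` in `M` on the natural numbers with `f n` in `X n` for all `n`, and the elements
of `T` are the subsets `W` of `P` in `M` such that every `f` in `W` has a basic neighbourhood
that is contained in `W`. -/
def IsProductIn (M : Set ZFSet.{0}) (X τ : ℕ → ZFSet.{0}) (P T : ZFSet.{0}) : Prop :=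
  (∀ f, f ∈ P ↔ f ∈ M ∧ (∀ z ∈ f, ∃ n : ℕ, ∃ x ∈ X n, z = pair (nat n) x) ∧
    ∀ n : ℕ, ∃! x, pair (nat n) x ∈ f) ∧
  ∀ W, W ∈ T ↔ W ∈ M ∧ W ⊆ P ∧ ∀ f ∈ W, ∃ (N : ℕ) (U : ℕ → ZFSet.{0}),
    (∀ n < N, U n ∈ τ n ∧ ∃ x ∈ U n, pair (nat n) x ∈ f) ∧
    ∀ g ∈ P, (∀ n < N, ∃ x ∈ U n, pair (nat n) x ∈ g) → g ∈ W

theorem mem_seq {X : ℕ → ZFSet.{0}} {n : ℕ} {A : ZFSet.{0}} :
    pair (nat n) A ∈ ZFSet.range (fun n => pair (nat n) (X n)) ↔ A = X n := by
  rw [ZFSet.mem_range]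
  constructor
  · rintro ⟨m, h⟩
    obtain ⟨h1, h2⟩ := ZFSet.pair_inj.1 h
    rw [← h2, nat_injective h1]
  · rintro rfl
    exact ⟨n, rfl⟩

theorem exists_product {M : Set ZFSet.{0}} (hM : IsZF M) {X τ : ℕ → ZFSet.{0}}
    (hX : SeqIn M X) (hτ : SeqIn M τ) : ∃ P ∈ M, ∃ T ∈ M, IsProductIn M X τ P T := by
  have hB := hM.base
  have h0 := hM.infinity
  unfold SeqIn at hX hτ
  have hXn : ∀ n, X n ∈ M := fun n => (hM.of_pair_mem (hM.trans _ hX _ (mem_seq.2 rfl))).2
  have hτn : ∀ n, τ n ∈ M := fun n => (hM.of_pair_mem (hM.trans _ hτ _ (mem_seq.2 rfl))).2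
  have hmX : ∀ n A, pair (nat n) A ∈ ZFSet.range (fun n => pair (nat n) (X n)) ↔ A = X n :=
    fun n A => mem_seq
  have hmτ : ∀ n A, pair (nat n) A ∈ ZFSet.range (fun n => pair (nat n) (τ n)) ↔ A = τ n :=
    fun n A => mem_seq
  set SX := ZFSet.range (fun n => pair (nat n) (X n)) with hSX
  set St := ZFSet.range (fun n => pair (nat n) (τ n)) with hSt
  -- the underlying set
  obtain ⟨R, hR, hRX⟩ : ∃ R ∈ M, ∀ n, X n ⊆ R := by
    obtain ⟨y, hy, h1⟩ := hM.image_mem hX (f := fun p => sn p) (hM.sn' (DfnF.proj 0))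
    refine ⟨ZFSet.sUnion y, hM.union _ hy, fun n z hz => ZFSet.mem_sUnion.2 ⟨X n, ?_, hz⟩⟩
    exact (h1 _).2 ⟨pair (nat n) (X n), (hmX n _).2 rfl, (sn_pair _ _).symm⟩
  have hoR : ZFSet.prod ZFSet.omega R ∈ M := hM.prod_mem h0 hR
  have hd1 : Dfn M M fun w : Fin 1 → ZFSet.{0} => (∀ z ∈ w 0, ∃ n ∈ ZFSet.omega, ∃ A ∈ M,
      pair n A ∈ SX ∧ ∃ x ∈ A, z = pair n x) ∧ ∀ n ∈ ZFSet.omega, ∃ x ∈ M, pair n x ∈ w 0 ∧
      ∀ y ∈ M, pair n y ∈ w 0 → y = x := by
    (repeat' first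
      | assumption
      | exact DfnF.proj _
      | exact DfnF.const (by assumption)
      | exact DfnF.const' (by first | assumption | trivial) (by first | assumption | trivial)
      | exact Dfn.prop _
      | apply hB.isFunc' | apply hB.isInj' | apply hB.isBij' | apply hB.isOrdinal'
      | apply hB.subset' | apply hB.pair' | apply hB.insert'
      | apply Dfn.not | apply Dfn.and | apply Dfn.or | apply Dfn.imp | apply Dfn.iff
      | apply hB.bex | apply hB.ball | apply Dfn.ex | apply Dfn.all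
      | apply Dfn.eq | apply Dfn.mem)
  have hP := hM.sep_mem (Q := fun f => (∀ z ∈ f, ∃ n ∈ ZFSet.omega, ∃ A ∈ M,
      pair n A ∈ SX ∧ ∃ x ∈ A, z = pair n x) ∧ ∀ n ∈ ZFSet.omega, ∃ x ∈ M, pair n x ∈ f ∧
      ∀ y ∈ M, pair n y ∈ f → y = x) hd1 (PM_mem hM hoR)
  have hPm : ∀ f, f ∈ ZFSet.sep (fun f => (∀ z ∈ f, ∃ n ∈ ZFSet.omega, ∃ A ∈ M,
      pair n A ∈ SX ∧ ∃ x ∈ A, z = pair n x) ∧ ∀ n ∈ ZFSet.omega, ∃ x ∈ M, pair n x ∈ f ∧
      ∀ y ∈ M, pair n y ∈ f → y = x) (PM M (ZFSet.prod ZFSet.omega R)) ↔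
      f ∈ M ∧ (∀ z ∈ f, ∃ n : ℕ, ∃ x ∈ X n, z = pair (nat n) x) ∧
        ∀ n : ℕ, ∃! x, pair (nat n) x ∈ f := by
    intro f
    rw [ZFSet.mem_sep, mem_PM]
    constructor
    · rintro ⟨⟨hf, hfR⟩, h1, h2⟩
      refine ⟨hf, fun z hz => ?_, fun n => ?_⟩
      · obtain ⟨n, hn, A, hA, h3, x, hx, rfl⟩ := h1 z hz
        obtain ⟨n, rfl⟩ := mem_omega_iff.1 hn
        rw [hmX] at h3
        exact ⟨n, x, h3 ▸ hx, rfl⟩
      · obtain ⟨x, hx, h3, h4⟩ := h2 (nat n) (mem_omega_iff.2 ⟨n, rfl⟩)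
        exact ⟨x, h3, fun y hy => h4 y (hM.of_pair_mem (hM.trans _ hf _ hy)).2 hy⟩
    · rintro ⟨hf, h1, h2⟩
      refine ⟨⟨hf, fun z hz => ?_⟩, fun z hz => ?_, fun n hn => ?_⟩
      · obtain ⟨n, x, hx, rfl⟩ := h1 z hz
        exact ZFSet.pair_mem_prod.2 ⟨mem_omega_iff.2 ⟨n, rfl⟩, hRX n hx⟩
      · obtain ⟨n, x, hx, rfl⟩ := h1 z hz
        exact ⟨nat n, mem_omega_iff.2 ⟨n, rfl⟩, X n, hXn n, (hmX n _).2 rfl, x, hx, rfl⟩
      · obtain ⟨n, rfl⟩ := mem_omega_iff.1 hn
        obtain ⟨x, hx, h3⟩ := h2 n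
        exact ⟨x, (hM.of_pair_mem (hM.trans _ hf _ hx)).2, hx, fun y _ hy => h3 y hy⟩
  set P := ZFSet.sep (fun f => (∀ z ∈ f, ∃ n ∈ ZFSet.omega, ∃ A ∈ M,
      pair n A ∈ SX ∧ ∃ x ∈ A, z = pair n x) ∧ ∀ n ∈ ZFSet.omega, ∃ x ∈ M, pair n x ∈ f ∧
      ∀ y ∈ M, pair n y ∈ f → y = x) (PM M (ZFSet.prod ZFSet.omega R)) with hPdef
  have hd2 : Dfn M M fun w : Fin 1 → ZFSet.{0} => ∀ f ∈ w 0, ∃ N ∈ ZFSet.omega, ∃ u ∈ M,
      (∀ n ∈ N, ∃ V ∈ M, pair n V ∈ u ∧ (∀ V' ∈ M, pair n V' ∈ u → V' = V) ∧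
        (∃ B ∈ M, pair n B ∈ St ∧ V ∈ B) ∧ ∃ x ∈ V, pair n x ∈ f) ∧
      ∀ g ∈ P, (∀ n ∈ N, ∀ V ∈ M, pair n V ∈ u → ∃ x ∈ V, pair n x ∈ g) → g ∈ w 0 := by
    (repeat' first
      | assumption
      | exact DfnF.proj _
      | exact DfnF.const (by assumption)
      | exact DfnF.const' (by first | assumption | trivial) (by first | assumption | trivial)
      | exact Dfn.prop _
      | apply hB.isFunc' | apply hB.isInj' | apply hB.isBij' | apply hB.isOrdinal'
      | apply hB.subset' | apply hB.pair' | apply hB.insert'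
      | apply Dfn.not | apply Dfn.and | apply Dfn.or | apply Dfn.imp | apply Dfn.iff
      | apply hB.bex | apply hB.ball | apply Dfn.ex | apply Dfn.all
      | apply Dfn.eq | apply Dfn.mem)
  refine ⟨P, hP, _, hM.sep_mem (Q := fun W => ∀ f ∈ W, ∃ N ∈ ZFSet.omega, ∃ u ∈ M,
      (∀ n ∈ N, ∃ V ∈ M, pair n V ∈ u ∧ (∀ V' ∈ M, pair n V' ∈ u → V' = V) ∧
        (∃ B ∈ M, pair n B ∈ St ∧ V ∈ B) ∧ ∃ x ∈ V, pair n x ∈ f) ∧
      ∀ g ∈ P, (∀ n ∈ N, ∀ V ∈ M, pair n V ∈ u → ∃ x ∈ V, pair n x ∈ g) → g ∈ W) hd2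
    (PM_mem hM hP), hPm, fun W => ?_⟩
  rw [ZFSet.mem_sep, mem_PM, and_assoc]
  refine and_congr_right fun hW => and_congr_right fun hWP => forall₂_congr fun f hf => ?_
  constructor
  · rintro ⟨N, hN, u, hu, h1, h2⟩
    obtain ⟨N, rfl⟩ := mem_omega_iff.1 hN
    have h3 : ∀ n, ∃ V, n < N → (pair (nat n) V ∈ u ∧ (∀ V' ∈ M, pair (nat n) V' ∈ u → V' = V) ∧
        V ∈ τ n ∧ ∃ x ∈ V, pair (nat n) x ∈ f) := by
      intro n
      by_cases hn : n < N
      · obtain ⟨V, -, h4, h5, ⟨B, -, h6, h7⟩, h8⟩ := h1 (nat n) (nat_mem_nat.2 hn)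
        rw [hmτ] at h6
        subst h6
        exact ⟨V, fun _ => ⟨h4, h5, h7, h8⟩⟩
      · exact ⟨∅, fun h => absurd h hn⟩
    choose V hV using h3
    refine ⟨N, V, fun n hn => (hV n hn).2.2, fun g hg h4 => h2 g hg fun n hn V' hV' h5 => ?_⟩
    obtain ⟨i, hi, rfl⟩ := mem_nat_iff.1 hn
    rw [(hV i hi).2.1 V' hV' h5]
    exact h4 i hi
  · rintro ⟨N, U, h1, h2⟩
    have hUM : ∀ n < N, U n ∈ M := fun n hn => hM.trans _ (hτn n) _ (h1 n hn).1
    refine ⟨nat N, mem_omega_iff.2 ⟨N, rfl⟩, fseq U N, fseq_mem hM hUM, ?_, ?_⟩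
    · intro n hn
      obtain ⟨i, hi, rfl⟩ := mem_nat_iff.1 hn
      exact ⟨U i, hUM i hi, pair_mem_fseq.2 ⟨hi, rfl⟩, fun V' _ h3 => (pair_mem_fseq.1 h3).2,
        ⟨τ i, hτn i, (hmτ i _).2 rfl, (h1 i hi).1⟩, (h1 i hi).2⟩
    · intro g hg h3
      exact h2 g hg fun n hn => h3 (nat n) (nat_mem_nat.2 hn) (U n) (hUM n hn)
        (pair_mem_fseq.2 ⟨hn, rfl⟩)

end Pool.Agent.Q211.FS
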