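import Pool.Agent.Q211.SY.Frc

/-!
# Finite support products of infinitely many copies of notions of forcing

For every `k : K` we have a notion of forcing `Q k`. The conditions are functions `p` with
`p k i ∈ Q k` for `k : K` and `i : ℕ` that are trivial at all but finitely many `(k, i)`; the group
consists of the permutations of the copies, and supports are finite.
-/

set_option autoImplicit false
set_option linter.unusedSectionVars false

namespace Pool.Agent.Q211.FS

open Pool.Agent.W868 Pool.Agent.W868.PName Pool.Agent.Q211.SY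
open ZFSet (pair)

variable {K : Type} (Q : K → Type) [∀ k, Preorder (Q k)] [∀ k, OrderTop (Q k)]

/-- The finite support product. -/
def FP : Type := {p : ∀ k, ℕ → Q k // {c : K × ℕ | p c.1 c.2 ≠ ⊤}.Finite}

variable {Q}

namespace FP

instance : Preorder (FP Q) where
  le p q := ∀ k i, p.1 k i ≤ q.1 k i
  le_refl p k i := le_rfl
  le_trans p q r h1 h2 k i := (h1 k i).trans (h2 k i)

theorem le_def {p q : FP Q} : p ≤ q ↔ ∀ k i, p.1 k i ≤ q.1 k i := Iff.rfl

instance : OrderTop (FP Q) where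
  top := ⟨fun _ _ => ⊤, by simp⟩
  le_top p k i := le_top

theorem top_app (k : K) (i : ℕ) : (⊤ : FP Q).1 k i = ⊤ := rfl

theorem ext' {p q : FP Q} (h : ∀ k i, p.1 k i = q.1 k i) : p = q :=
  Subtype.ext (funext fun k => funext fun i => h k i)

/-- The support. -/
noncomputable def supp (p : FP Q) : Finset (K × ℕ) := p.2.toFinset

theorem mem_supp {p : FP Q} {c : K × ℕ} : c ∈ p.supp ↔ p.1 c.1 c.2 ≠ ⊤ := by
  simp [supp]

/-- The action of a family of permutations. -/
def sm (σ : K → Equiv.Perm ℕ) (p : FP Q) : FP Q :=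
  ⟨fun k i => p.1 k ((σ k)⁻¹ i), by
    refine (p.2.image fun c => (c.1, σ c.1 c.2)).subset ?_
    rintro ⟨k, i⟩ h
    exact ⟨(k, (σ k)⁻¹ i), h, by simp⟩⟩

theorem sm_app (σ : K → Equiv.Perm ℕ) (p : FP Q) (k : K) (i : ℕ) :
    (sm σ p).1 k i = p.1 k ((σ k)⁻¹ i) := rfl

theorem sm_mul (σ τ : K → Equiv.Perm ℕ) (p : FP Q) : sm (σ * τ) p = sm σ (sm τ p) := by
  refine ext' fun k i => ?_
  simp only [sm_app, Pi.mul_apply, mul_inv_rev, Equiv.Perm.mul_apply]

theorem sm_one (p : FP Q) : sm 1 p = p := by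
  refine ext' fun k i => ?_
  simp [sm_app]

/-- The action as a homomorphism to the automorphisms. -/
def ac : (K → Equiv.Perm ℕ) →* (FP Q ≃o FP Q) where
  toFun σ :=
    { toFun := sm σ
      invFun := sm σ⁻¹
      left_inv := fun p => by rw [← sm_mul, inv_mul_cancel, sm_one]
      right_inv := fun p => by rw [← sm_mul, mul_inv_cancel, sm_one]
      map_rel_iff' := by
        intro p q
        constructor
        · intro h k i
          have h1 := h k (σ k i)
          simpa [sm_app] using h1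
        · intro h k i
          exact h k _ }
  map_one' := RelIso.ext fun p => sm_one p
  map_mul' σ τ := RelIso.ext fun p => sm_mul σ τ p

theorem ac_app (σ : K → Equiv.Perm ℕ) (p : FP Q) : ac σ p = sm σ p := rfl

end FP

/-- The pointwise stabilizer of a finite set of columns. -/
def Hs (K : Type) (e : Finset (K × ℕ)) : Subgroup (K → Equiv.Perm ℕ) where
  carrier := {σ | ∀ c ∈ e, σ c.1 c.2 = c.2}
  one_mem' := fun c _ => rfl
  mul_mem' := by
    intro σ τ h1 h2 c hc
    rw [Pi.mul_apply, Equiv.Perm.mul_apply, h2 c hc, h1 c hc]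
  inv_mem' := by
    intro σ h c hc
    rw [Pi.inv_apply, Equiv.Perm.inv_eq_iff_eq]
    exact (h c hc).symm

theorem mem_Hs {e : Finset (K × ℕ)} {σ : K → Equiv.Perm ℕ} :
    σ ∈ Hs K e ↔ ∀ c ∈ e, σ c.1 c.2 = c.2 := Iff.rfl

theorem Hs_mono {e e' : Finset (K × ℕ)} (h : e ⊆ e') : Hs K e' ≤ Hs K e :=
  fun _ hσ c hc => hσ c (h hc)

/-- The image of a column. -/
def im (σ : K → Equiv.Perm ℕ) (c : K × ℕ) : K × ℕ := (c.1, σ c.1 c.2)

theorem im_injective (σ : K → Equiv.Perm ℕ) : Function.Injective (im σ) := by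
  rintro ⟨k, i⟩ ⟨k', i'⟩ h
  simp only [im, Prod.mk.injEq] at h
  obtain ⟨rfl, h⟩ := h
  rw [(σ k).injective h]

theorem im_mul (σ τ : K → Equiv.Perm ℕ) (c : K × ℕ) : im (σ * τ) c = im σ (im τ c) := rfl

theorem im_one (c : K × ℕ) : im 1 c = c := rfl

theorem mem_Hs' {e : Finset (K × ℕ)} {σ : K → Equiv.Perm ℕ} :
    σ ∈ Hs K e ↔ ∀ c ∈ e, im σ c = c := by
  refine forall₂_congr fun c _ => ?_
  simp [im, Prod.ext_iff]

open Classical in
variable (Q) in
/-- The symmetric system. -/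
noncomputable def Sy : Sys (FP Q) where
  G := K → Equiv.Perm ℕ
  grp := inferInstance
  ac := FP.ac
  top σ := by
    refine FP.ext' fun k i => ?_
    rfl
  F := Set.range (Hs K)
  ne := ⟨_, ∅, rfl⟩
  conj := by
    rintro _ ⟨e, rfl⟩ g
    refine ⟨_, ⟨e.image (im g), rfl⟩, fun k hk => ?_⟩
    rw [mem_Hs'] at hk ⊢
    intro c hc
    have h1 := hk (im g c) (Finset.mem_image_of_mem _ hc)
    rw [im_mul, im_mul, h1, ← im_mul, inv_mul_cancel, im_one]
  dir := by
    rintro _ ⟨e, rfl⟩ _ ⟨e', rfl⟩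
    exact ⟨_, ⟨e ∪ e', rfl⟩, Hs_mono Finset.subset_union_left, Hs_mono Finset.subset_union_right⟩

theorem Sy_ac (σ : K → Equiv.Perm ℕ) (p : FP Q) : (Sy Q).ac σ p = FP.sm σ p := rfl

theorem mem_F {H : Subgroup (K → Equiv.Perm ℕ)} : H ∈ (Sy Q).F ↔ ∃ e, Hs K e = H := Iff.rfl

/-! ### Extending partial injections -/

theorem ext_perm {s : Set ℕ} (hs : s.Finite) {f : ℕ → ℕ} (hf : Set.InjOn f s) :
    ∃ σ : Equiv.Perm ℕ, ∀ i ∈ s, σ i = f i := by
  classical
  have h1 : Infinite ↥sᶜ := hs.infinite_compl.to_subtype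
  have h2 : Infinite ↥(f '' s)ᶜ := (hs.image f).infinite_compl.to_subtype
  obtain ⟨d1⟩ := nonempty_denumerable ↥sᶜ
  obtain ⟨d2⟩ := nonempty_denumerable ↥(f '' s)ᶜ
  let e2 : ↥sᶜ ≃ ↥(f '' s)ᶜ := Denumerable.equiv₂ _ _
  let e1 : s ≃ f '' s := hf.bijOn_image.equiv f
  refine ⟨(Equiv.Set.sumCompl s).symm.trans ((Equiv.sumCongr e1 e2).trans
    (Equiv.Set.sumCompl (f '' s))), fun i hi => ?_⟩
  simp only [Equiv.trans_apply]
  rw [Equiv.Set.sumCompl_symm_apply_of_mem hi]
  simp only [Equiv.sumCongr_apply, Sum.map_inl, Equiv.Set.sumCompl_apply_inl]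
  rfl

theorem ext_col {s : Set (K × ℕ)} (hs : s.Finite) {f : K × ℕ → K × ℕ} (hf : Set.InjOn f s)
    (hk : ∀ c ∈ s, (f c).1 = c.1) : ∃ σ : K → Equiv.Perm ℕ, ∀ c ∈ s, im σ c = f c := by
  have h : ∀ k, ∃ τ : Equiv.Perm ℕ, ∀ i, (k, i) ∈ s → τ i = (f (k, i)).2 := by
    intro k
    obtain ⟨τ, hτ⟩ := ext_perm (s := {i | (k, i) ∈ s}) (f := fun i => (f (k, i)).2)
      (hs.preimage (fun a _ b _ h => (Prod.ext_iff.1 h).2)) (by
        intro i hi j hj hij
        have h1 : f (k, i) = f (k, j) := Prod.ext ((hk _ hi).trans (hk _ hj).symm) hij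
        exact (Prod.ext_iff.1 (hf hi hj h1)).2)
    exact ⟨τ, hτ⟩
  choose σ hσ using h
  refine ⟨σ, ?_⟩
  rintro ⟨k, i⟩ hc
  exact Prod.ext (hk _ hc).symm (hσ k i hc)

/-- Moving columns away. -/
theorem exists_move (e s t : Finset (K × ℕ)) :
    ∃ σ ∈ Hs K e, ∀ c ∈ s, c ∉ e → im σ c ∉ t := by
  classical
  obtain ⟨N, hN⟩ : ∃ N : ℕ, ∀ c ∈ e ∪ s ∪ t, c.2 < N := by
    refine ⟨(e ∪ s ∪ t).sup (fun c => c.2 + 1), fun c hc => ?_⟩
    exact Finset.le_sup (f := fun c : K × ℕ => c.2 + 1) hc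
  obtain ⟨σ, hσ⟩ := ext_col (s := ((e ∪ s : Finset (K × ℕ)) : Set (K × ℕ)))
    (Finset.finite_toSet _) (f := fun c => if c ∈ e then c else (c.1, c.2 + N)) (by
      intro c hc d hd h
      have hc' : c.2 < N := hN c (Finset.mem_union_left _ hc)
      have hd' : d.2 < N := hN d (Finset.mem_union_left _ hd)
      by_cases h1 : c ∈ e <;> by_cases h2 : d ∈ e <;> simp only [h1, h2, if_true, if_false] at h
      · exact h
      · rw [h] at hc'
        simp at hc'
      · rw [← h] at hd'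
        simp at hd'
      · rw [Prod.ext_iff] at h
        exact Prod.ext h.1 (Nat.add_right_cancel h.2)) (by
      intro c _
      by_cases h1 : c ∈ e <;> simp [h1])
  refine ⟨σ, mem_Hs'.2 fun c hc => ?_, fun c hc hce ht => ?_⟩
  · have h1 := hσ c (by simp [hc])
    simpa [hc] using h1
  · have h1 := hσ c (by simp [hc])
    simp only [hce, if_false] at h1
    rw [h1] at ht
    have h2 : c.2 + N < N := hN _ (Finset.mem_union_right _ ht)
    omega

end Pool.Agent.Q211.FS
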