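import Pool.Agent.Q211.FS.Opc

/-!
# Real numbers in transitive models
-/

set_option autoImplicit false
set_option linter.unusedSectionVars false
set_option linter.unreachableTactic false
set_option linter.unusedTactic false

namespace Pool.Agent.Q211.FS

open Pool.Agent.W868 Pool.Agent.W868.PName Pool.Agent.Q211.SY
open ZFSet (pair)

/-- The code of the rational number `(a - b) / (c + 1)`. -/
noncomputable def qc (t : ℕ × ℕ × ℕ) : ZFSet.{0} := pair (pair (nat t.1) (nat t.2.1)) (nat t.2.2)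

/-- The rational number `(a - b) / (c + 1)`. -/
noncomputable def qv (t : ℕ × ℕ × ℕ) : ℝ := ((t.1 : ℝ) - t.2.1) / (t.2.2 + 1)

/-- The code of the real number `x`: the set of the codes of all rational numbers less
than `x`. -/
noncomputable def cutS (x : ℝ) : ZFSet.{0} :=
  ZFSet.range fun t : {t : ℕ × ℕ × ℕ // qv t < x} => qc t.1

theorem qc_injective : Function.Injective qc := by
  rintro ⟨a, b, c⟩ ⟨a', b', c'⟩ h
  obtain ⟨h1, h2⟩ := ZFSet.pair_inj.1 h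
  obtain ⟨h3, h4⟩ := ZFSet.pair_inj.1 h1
  have e1 : a = a' := nat_injective h3
  have e2 : b = b' := nat_injective h4
  have e3 : c = c' := nat_injective h2
  rw [e1, e2, e3]

theorem mem_cutS {x : ℝ} {z : ZFSet.{0}} : z ∈ cutS x ↔ ∃ t, qv t < x ∧ z = qc t := by
  rw [cutS, ZFSet.mem_range]
  constructor
  · rintro ⟨⟨t, ht⟩, rfl⟩
    exact ⟨t, ht, rfl⟩
  · rintro ⟨t, ht, rfl⟩
    exact ⟨⟨t, ht⟩, rfl⟩

theorem qc_mem_cutS {x : ℝ} {t : ℕ × ℕ × ℕ} : qc t ∈ cutS x ↔ qv t < x := by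
  rw [mem_cutS]
  constructor
  · rintro ⟨s, hs, h⟩
    rwa [qc_injective h]
  · exact fun h => ⟨t, h, rfl⟩

/-- Every rational number is coded. -/
theorem exists_qv (q : ℚ) : ∃ t, qv t = q := by
  obtain ⟨c, hc⟩ : ∃ c : ℕ, q.den = c + 1 := ⟨q.den - 1, by have := q.pos; omega⟩
  refine ⟨(q.num.toNat, (-q.num).toNat, c), ?_⟩
  have h1 : ((q.num.toNat : ℝ)) - ((-q.num).toNat : ℝ) = (q.num : ℝ) := by
    have h2 : ((q.num.toNat : ℤ)) - ((-q.num).toNat : ℤ) = q.num := by omega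
    exact_mod_cast congrArg (fun z : ℤ => (z : ℝ)) h2
  unfold qv
  simp only
  rw [h1]
  have h3 : ((c : ℝ) + 1) = (q.den : ℝ) := by
    rw [hc]
    push_cast
    ring
  rw [h3]
  have h4 := Rat.cast_def (K := ℝ) q
  exact h4.symm

theorem exists_qv_btwn {x y : ℝ} (h : x < y) : ∃ t, x < qv t ∧ qv t < y := by
  obtain ⟨q, h1, h2⟩ := exists_rat_btwn h
  obtain ⟨t, ht⟩ := exists_qv q
  exact ⟨t, by rwa [ht], by rwa [ht]⟩

theorem qv_rat (t : ℕ × ℕ × ℕ) : ∃ q : ℚ, qv t = q :=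
  ⟨((t.1 : ℚ) - t.2.1) / (t.2.2 + 1), by unfold qv; push_cast; rfl⟩

theorem cutS_injective : Function.Injective cutS := by
  intro x y h
  by_contra hne
  rcases lt_or_gt_of_ne hne with hlt | hlt
  · obtain ⟨t, h1, h2⟩ := exists_qv_btwn hlt
    have h3 := qc_mem_cutS.2 h2
    rw [← h, qc_mem_cutS] at h3
    linarith
  · obtain ⟨t, h1, h2⟩ := exists_qv_btwn hlt
    have h3 := qc_mem_cutS.2 h2
    rw [h, qc_mem_cutS] at h3
    linarith

/-- The set of all codes of rational numbers. -/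
noncomputable def Qc : ZFSet.{0} := ZFSet.range qc

theorem mem_Qc {z : ZFSet.{0}} : z ∈ Qc ↔ ∃ t, z = qc t := by
  rw [Qc, ZFSet.mem_range]
  exact ⟨fun ⟨t, h⟩ => ⟨t, h.symm⟩, fun ⟨t, h⟩ => ⟨t, h.symm⟩⟩

/-- The order of the rational numbers. -/
noncomputable def LQ : ZFSet.{0} :=
  ZFSet.range fun t : {t : (ℕ × ℕ × ℕ) × (ℕ × ℕ × ℕ) // qv t.1 < qv t.2} =>
    pair (qc t.1.1) (qc t.1.2)

theorem mem_LQ {s t : ℕ × ℕ × ℕ} : pair (qc s) (qc t) ∈ LQ ↔ qv s < qv t := by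
  rw [LQ, ZFSet.mem_range]
  constructor
  · rintro ⟨⟨⟨s', t'⟩, h⟩, h1⟩
    obtain ⟨h2, h3⟩ := ZFSet.pair_inj.1 h1
    have e1 := qc_injective h2
    have e2 := qc_injective h3
    simp only at e1 e2
    subst e1 e2
    exact h
  · exact fun h => ⟨⟨(s, t), h⟩, rfl⟩

/-! ### Sets that are fixed by the collapse -/

section hat

variable {P : Type} [Preorder P] [OrderTop P] (π : Pkg P)

theorem qc_Z (t : ℕ × ℕ × ℕ) : qc t ∈ π.Z ∧ π.hat (qc t) = qc t := by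
  have h2 := π.nat_Z t.1
  have h3 := π.nat_Z t.2.1
  have h4 := π.nat_Z t.2.2
  have h5 := π.pair_mem_Z h2 h3
  refine ⟨π.pair_mem_Z h5 h4, ?_⟩
  rw [qc, π.hat_pair h5 h4, π.hat_pair h2 h3, π.hat_nat, π.hat_nat, π.hat_nat]

theorem hat_fix {x : ZFSet.{0}} (h : ∀ z ∈ x, z ∈ π.Z ∧ π.hat z = z) : π.hat x = x := by
  ext z
  rw [π.mem_hat]
  constructor
  · rintro ⟨y, hy, -, rfl⟩
    rw [(h y hy).2]
    exact hy
  · intro hz
    exact ⟨z, hz, (h z hz).1, (h z hz).2⟩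

theorem hat_cutS (x : ℝ) : π.hat (cutS x) = cutS x := by
  refine hat_fix π fun z hz => ?_
  obtain ⟨t, -, rfl⟩ := mem_cutS.1 hz
  exact qc_Z π t

theorem hat_Qc : π.hat Qc = Qc := by
  refine hat_fix π fun z hz => ?_
  obtain ⟨t, rfl⟩ := mem_Qc.1 hz
  exact qc_Z π t

theorem hat_LQ : π.hat LQ = LQ := by
  refine hat_fix π fun z hz => ?_
  obtain ⟨t, rfl⟩ := ZFSet.mem_range.1 hz
  obtain ⟨h1, h2⟩ := qc_Z π t.1.1
  obtain ⟨h3, h4⟩ := qc_Z π t.1.2
  refine ⟨π.pair_mem_Z h1 h3, ?_⟩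
  rw [π.hat_pair h1 h3, h2, h4]

end hat

/-! ### Sets of real numbers in a model -/

/-- All the elements of `X` are codes of real numbers. -/
def IsRealSet (X : ZFSet.{0}) : Prop := ∀ z ∈ X, ∃ x : ℝ, z = cutS x

/-- `τ` is the topology on the set `X` of (codes of) real numbers in `M`, as a subspace of the real
line: its elements are the sets `U` in `M` that are relatively open in `X`. -/
def IsUsualTop (M : Set ZFSet.{0}) (X τ : ZFSet.{0}) : Prop :=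
  ∀ U, U ∈ τ ↔ U ∈ M ∧ U ⊆ X ∧ ∀ x : ℝ, cutS x ∈ U →
    ∃ ε : ℝ, 0 < ε ∧ ∀ y : ℝ, cutS y ∈ X → |x - y| < ε → cutS y ∈ U

/-- The real number `x` is less than the rational number `t`. -/
def LtC (x t : ZFSet.{0}) : Prop := ∃ r ∈ Qc, pair r t ∈ LQ ∧ r ∉ x

theorem ltC_iff {x : ℝ} {t : ℕ × ℕ × ℕ} : LtC (cutS x) (qc t) ↔ x < qv t := by
  constructor
  · rintro ⟨r, hr, h1, h2⟩
    obtain ⟨r, rfl⟩ := mem_Qc.1 hr
    rw [mem_LQ] at h1
    rw [qc_mem_cutS, not_lt] at h2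
    linarith
  · intro h
    obtain ⟨r, h1, h2⟩ := exists_qv_btwn h
    refine ⟨qc r, mem_Qc.2 ⟨r, rfl⟩, mem_LQ.2 h2, ?_⟩
    rw [qc_mem_cutS, not_lt]
    exact h1.le

section

variable {M : Set ZFSet.{0}} (hM : IsZF M) (hQ : Qc ∈ M) (hL : LQ ∈ M)

include hM hQ hL

theorem dfn_LtC : Dfn M M fun w : Fin 2 → ZFSet.{0} => LtC (w 0) (w 1) := by
  have hB := hM.base
  unfold LtC
  (repeat' first
    | assumption
    | exact DfnF.proj _
    | exact DfnF.const (by assumption)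
    | exact DfnF.const' (by first | assumption | trivial) (by first | assumption | trivial)
    | exact Dfn.prop _
    | apply hB.isFunc' | apply hB.isInj' | apply hB.isBij' | apply hB.isOrdinal'
    | apply hB.subset' | apply hB.pair' | apply hB.insert'
    | apply Dfn.not | apply Dfn.and | apply Dfn.or | apply Dfn.imp | apply Dfn.iff
    | apply hB.bex | apply hB.ball | apply Dfn.ex | apply Dfn.all
    | apply Dfn.eq | apply Dfn.mem)

/-- The usual topology exists. -/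
theorem exists_top {X : ZFSet.{0}} (hX : X ∈ M) (hXr : IsRealSet X) :
    ∃ τ ∈ M, IsUsualTop M X τ := by
  have hB := hM.base
  have hlt := dfn_LtC hM hQ hL
  refine ⟨_, hM.sep_mem (Q := fun U => ∀ x ∈ U, ∃ s ∈ Qc, ∃ t ∈ Qc, s ∈ x ∧ LtC x t ∧
    ∀ y ∈ X, s ∈ y → LtC y t → y ∈ U) (by
      (repeat' first
        | apply Dfn.comp2 (Q := fun a b => LtC a b) hlt
        | assumption
        | exact DfnF.proj _
        | exact DfnF.const (by assumption)
        | exact DfnF.const' (by first | assumption | trivial) (by first | assumption | trivial)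
        | exact Dfn.prop _
        | apply hB.isFunc' | apply hB.isInj' | apply hB.isBij' | apply hB.isOrdinal'
        | apply hB.subset' | apply hB.pair' | apply hB.insert'
        | apply Dfn.not | apply Dfn.and | apply Dfn.or | apply Dfn.imp | apply Dfn.iff
        | apply hB.bex | apply hB.ball | apply Dfn.ex | apply Dfn.all
        | apply Dfn.eq | apply Dfn.mem)) (PM_mem hM hX), fun U => ?_⟩
  rw [ZFSet.mem_sep, mem_PM, and_assoc]
  refine and_congr_right fun hU => and_congr_right fun hUX => ?_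
  constructor
  · intro h x hx
    obtain ⟨s, hs, t, ht, h1, h2, h3⟩ := h _ hx
    obtain ⟨s, rfl⟩ := mem_Qc.1 hs
    obtain ⟨t, rfl⟩ := mem_Qc.1 ht
    rw [qc_mem_cutS] at h1
    rw [ltC_iff] at h2
    refine ⟨min (x - qv s) (qv t - x), lt_min (by linarith) (by linarith), fun y hy hxy => ?_⟩
    rw [lt_min_iff, abs_lt, abs_lt] at hxy
    exact h3 _ hy (qc_mem_cutS.2 (by linarith)) (ltC_iff.2 (by linarith))
  · intro h z hz
    obtain ⟨x, rfl⟩ := hXr z (hUX hz)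
    obtain ⟨ε, hε, h1⟩ := h x hz
    obtain ⟨s, h2, h3⟩ := exists_qv_btwn (show x - ε < x by linarith)
    obtain ⟨t, h4, h5⟩ := exists_qv_btwn (show x < x + ε by linarith)
    refine ⟨qc s, mem_Qc.2 ⟨s, rfl⟩, qc t, mem_Qc.2 ⟨t, rfl⟩, qc_mem_cutS.2 h3, ltC_iff.2 h4,
      fun w hw h6 h7 => ?_⟩
    obtain ⟨y, rfl⟩ := hXr w hw
    rw [qc_mem_cutS] at h6
    rw [ltC_iff] at h7
    refine h1 y hw ?_
    rw [abs_lt]
    constructor <;> linarith

/-- The set of all real numbers of `M`. -/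
theorem exists_reals : ∃ X ∈ M, ∀ z, z ∈ X ↔ z ∈ M ∧ ∃ x : ℝ, z = cutS x := by
  have hB := hM.base
  refine ⟨_, hM.sep_mem (Q := fun S => (∃ q ∈ S, q = q) ∧ (∃ q ∈ Qc, q ∉ S) ∧
    (∀ q ∈ Qc, ∀ r ∈ S, pair q r ∈ LQ → q ∈ S) ∧ ∀ q ∈ S, ∃ r ∈ S, pair q r ∈ LQ) (by
      (repeat' first
        | assumption
        | exact DfnF.proj _
        | exact DfnF.const (by assumption)
        | exact DfnF.const' (by first | assumption | trivial) (by first | assumption | trivial)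
        | exact Dfn.prop _
        | apply hB.isFunc' | apply hB.isInj' | apply hB.isBij' | apply hB.isOrdinal'
        | apply hB.subset' | apply hB.pair' | apply hB.insert'
        | apply Dfn.not | apply Dfn.and | apply Dfn.or | apply Dfn.imp | apply Dfn.iff
        | apply hB.bex | apply hB.ball | apply Dfn.ex | apply Dfn.all
        | apply Dfn.eq | apply Dfn.mem)) (PM_mem hM hQ), fun S => ?_⟩
  rw [ZFSet.mem_sep, mem_PM, and_assoc]
  refine and_congr_right fun hS => ?_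
  constructor
  · rintro ⟨hSQ, ⟨q0, hq0, -⟩, ⟨q1, hq1, hq1'⟩, h1, h2⟩
    have hb : ∀ t, qc t ∈ S → ∀ r, qc r ∉ S → qv t ≤ qv r := by
      intro t ht r hr
      by_contra h3
      exact hr (h1 _ (mem_Qc.2 ⟨r, rfl⟩) _ ht (mem_LQ.2 (not_le.1 h3)))
    obtain ⟨t0, rfl⟩ := mem_Qc.1 (hSQ hq0)
    obtain ⟨t1, rfl⟩ := mem_Qc.1 hq1
    have hne : {y : ℝ | ∃ t, qc t ∈ S ∧ y = qv t}.Nonempty := ⟨_, t0, hq0, rfl⟩
    have hbd : BddAbove {y : ℝ | ∃ t, qc t ∈ S ∧ y = qv t} := by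
      refine ⟨qv t1, ?_⟩
      rintro _ ⟨t, ht, rfl⟩
      exact hb t ht t1 hq1'
    refine ⟨sSup {y : ℝ | ∃ t, qc t ∈ S ∧ y = qv t}, ?_⟩
    ext z
    rw [mem_cutS]
    constructor
    · intro hz
      obtain ⟨t, rfl⟩ := mem_Qc.1 (hSQ hz)
      obtain ⟨r, hr, h3⟩ := h2 _ hz
      obtain ⟨r, rfl⟩ := mem_Qc.1 (hSQ hr)
      exact ⟨t, (mem_LQ.1 h3).trans_le (le_csSup hbd ⟨r, hr, rfl⟩), rfl⟩
    · rintro ⟨t, ht, rfl⟩
      obtain ⟨_, ⟨r, hr, rfl⟩, h3⟩ := exists_lt_of_lt_csSup hne ht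
      exact h1 _ (mem_Qc.2 ⟨t, rfl⟩) _ hr (mem_LQ.2 h3)
  · rintro ⟨x, rfl⟩
    refine ⟨fun z hz => ?_, ?_, ?_, ?_, ?_⟩
    · obtain ⟨t, -, rfl⟩ := mem_cutS.1 hz
      exact mem_Qc.2 ⟨t, rfl⟩
    · obtain ⟨t, h1, h2⟩ := exists_qv_btwn (show x - 1 < x by linarith)
      exact ⟨qc t, qc_mem_cutS.2 h2, rfl⟩
    · obtain ⟨t, h1, h2⟩ := exists_qv_btwn (show x < x + 1 by linarith)
      refine ⟨qc t, mem_Qc.2 ⟨t, rfl⟩, ?_⟩
      rw [qc_mem_cutS, not_lt]
      exact h1.le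
    · intro q hq r hr h1
      obtain ⟨t, rfl⟩ := mem_Qc.1 hq
      obtain ⟨r, h2, rfl⟩ := mem_cutS.1 hr
      rw [mem_LQ] at h1
      exact qc_mem_cutS.2 (h1.trans h2)
    · intro q hq
      obtain ⟨t, h2, rfl⟩ := mem_cutS.1 hq
      obtain ⟨r, h3, h4⟩ := exists_qv_btwn h2
      exact ⟨qc r, qc_mem_cutS.2 h4, mem_LQ.2 h3⟩

end

end Pool.Agent.Q211.FS
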