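import Pool.Agent.Q211.FS.Prod

/-!
# Restriction of conditions, and homogeneity
-/

set_option autoImplicit false
set_option linter.unusedSectionVars false

namespace Pool.Agent.Q211.FS

open Pool.Agent.W868 Pool.Agent.W868.PName Pool.Agent.Q211.SY
open ZFSet (pair)

variable {K : Type} {Q : K → Type} [∀ k, Preorder (Q k)] [∀ k, OrderTop (Q k)]

open Classical in
/-- The condition `p` on the columns in `s`, and `q` elsewhere. -/
noncomputable def join (s : Finset (K × ℕ)) (p q : FP Q) : FP Q :=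
  ⟨fun k i => if (k, i) ∈ s then p.1 k i else q.1 k i, by
    refine (p.2.union q.2).subset ?_
    rintro ⟨k, i⟩ h
    change (if (k, i) ∈ s then p.1 k i else q.1 k i) ≠ ⊤ at h
    by_cases h1 : (k, i) ∈ s
    · rw [if_pos h1] at h
      exact Or.inl h
    · rw [if_neg h1] at h
      exact Or.inr h⟩

theorem join_pos {s : Finset (K × ℕ)} {p q : FP Q} {k : K} {i : ℕ} (h : (k, i) ∈ s) :
    (join s p q).1 k i = p.1 k i := if_pos h

theorem join_neg {s : Finset (K × ℕ)} {p q : FP Q} {k : K} {i : ℕ} (h : (k, i) ∉ s) :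
    (join s p q).1 k i = q.1 k i := if_neg h

/-- Restriction. -/
noncomputable def res (s : Finset (K × ℕ)) (p : FP Q) : FP Q := join s p ⊤

theorem res_pos {s : Finset (K × ℕ)} {p : FP Q} {k : K} {i : ℕ} (h : (k, i) ∈ s) :
    (res s p).1 k i = p.1 k i := if_pos h

theorem res_neg {s : Finset (K × ℕ)} {p : FP Q} {k : K} {i : ℕ} (h : (k, i) ∉ s) :
    (res s p).1 k i = ⊤ := if_neg h

theorem le_res (s : Finset (K × ℕ)) (p : FP Q) : p ≤ res s p := by
  intro k i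
  by_cases h : (k, i) ∈ s
  · rw [res_pos h]
  · rw [res_neg h]
    exact le_top

theorem res_mono {s : Finset (K × ℕ)} {p q : FP Q} (h : p ≤ q) : res s p ≤ res s q := by
  intro k i
  by_cases h1 : (k, i) ∈ s
  · rw [res_pos h1, res_pos h1]
    exact h k i
  · rw [res_neg h1, res_neg h1]

theorem res_eq {s : Finset (K × ℕ)} {p : FP Q} (h : ∀ c, c ∉ s → p.1 c.1 c.2 = ⊤) :
    res s p = p := by
  refine FP.ext' fun k i => ?_
  by_cases h1 : (k, i) ∈ s
  · rw [res_pos h1]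
  · rw [res_neg h1, h (k, i) h1]

/-- The support of `p` is contained in `s`. -/
def Sp (s : Finset (K × ℕ)) (p : FP Q) : Prop := ∀ c, c ∉ s → p.1 c.1 c.2 = ⊤

theorem sp_res (s : Finset (K × ℕ)) (p : FP Q) : Sp s (res s p) := fun c h => res_neg h

theorem Sp.res_eq {s : Finset (K × ℕ)} {p : FP Q} (h : Sp s p) : res s p = p := FS.res_eq h

theorem Sp.mono {s t : Finset (K × ℕ)} {p : FP Q} (h : Sp s p) (hst : s ⊆ t) : Sp t p :=
  fun c hc => h c fun h1 => hc (hst h1)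

theorem sp_supp (p : FP Q) : Sp p.supp p := by
  intro c hc
  by_contra h
  exact hc (FP.mem_supp.2 h)

theorem sm_im (σ : K → Equiv.Perm ℕ) (p : FP Q) (c : K × ℕ) :
    (FP.sm σ p).1 (im σ c).1 (im σ c).2 = p.1 c.1 c.2 := by
  simp [FP.sm_app, im]

theorem sm_inv_im (σ : K → Equiv.Perm ℕ) (p : FP Q) (c : K × ℕ) :
    (FP.sm σ⁻¹ p).1 c.1 c.2 = p.1 c.1 (σ c.1 c.2) := by
  simp [FP.sm_app]

theorem sm_le_sm {σ : K → Equiv.Perm ℕ} {p q : FP Q} (h : p ≤ q) : FP.sm σ p ≤ FP.sm σ q :=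
  fun k _ => h k _

theorem sm_inv_le {σ : K → Equiv.Perm ℕ} {p q : FP Q} (h : p ≤ FP.sm σ q) :
    FP.sm σ⁻¹ p ≤ q := by
  have h1 := sm_le_sm (σ := σ⁻¹) h
  rwa [← FP.sm_mul, inv_mul_cancel, FP.sm_one] at h1

theorem le_sm_of {σ : K → Equiv.Perm ℕ} {p q : FP Q} (h : FP.sm σ⁻¹ p ≤ q) :
    p ≤ FP.sm σ q := by
  have h1 := sm_le_sm (σ := σ) h
  rwa [← FP.sm_mul, mul_inv_cancel, FP.sm_one] at h1

theorem sm_fix {e : Finset (K × ℕ)} {σ : K → Equiv.Perm ℕ} (h : σ ∈ Hs K e) (p : FP Q)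
    {k : K} {i : ℕ} (hc : (k, i) ∈ e) : (FP.sm σ p).1 k i = p.1 k i := by
  have h1 : (σ k)⁻¹ i = i := by
    rw [Equiv.Perm.inv_eq_iff_eq]
    exact (h _ hc).symm
  rw [FP.sm_app, h1]

/-- Moving a condition away: for every `q` that is compatible with `p` on `e` there are a
permutation `σ` that fixes `e` and a common extension of `q` and `σ p`. -/
theorem exists_common (e : Finset (K × ℕ)) (p q : FP Q) (t : Finset (K × ℕ))
    (h : ∀ k i, (k, i) ∈ e → q.1 k i ≤ p.1 k i) :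
    ∃ σ ∈ Hs K e, (∀ c ∈ t, c ∉ e → im σ c ∉ t ∧ im σ c ∉ q.supp) ∧
      ∃ r ≤ q, r ≤ FP.sm σ p := by
  classical
  obtain ⟨σ, hσ, h1⟩ := exists_move e (t ∪ p.supp) (t ∪ q.supp)
  refine ⟨σ, hσ, fun c hc hce => ?_, ?_⟩
  · have h2 := h1 c (Finset.mem_union_left _ hc) hce
    exact ⟨fun h3 => h2 (Finset.mem_union_left _ h3), fun h3 => h2 (Finset.mem_union_right _ h3)⟩
  refine ⟨join ((FP.sm σ p).supp \ e) (FP.sm σ p) q, fun k i => ?_, fun k i => ?_⟩
  · by_cases h2 : (k, i) ∈ (FP.sm σ p).supp \ e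
    · rw [join_pos h2]
      obtain ⟨h3, h4⟩ := Finset.mem_sdiff.1 h2
      have hi : im σ (k, (σ k)⁻¹ i) = (k, i) := by simp [im]
      have h5 : (k, (σ k)⁻¹ i) ∉ e := by
        intro h6
        apply h4
        have h7 := mem_Hs'.1 hσ _ h6
        rw [hi] at h7
        rw [h7]
        exact h6
      have h6 : (k, (σ k)⁻¹ i) ∈ p.supp := by
        rw [FP.mem_supp] at h3 ⊢
        exact h3
      have h7 := h1 _ (Finset.mem_union_right _ h6) h5
      rw [hi] at h7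
      have h8 : q.1 k i = ⊤ := sp_supp q (k, i) fun h9 => h7 (Finset.mem_union_right _ h9)
      rw [h8]
      exact le_top
    · rw [join_neg h2]
  · by_cases h2 : (k, i) ∈ (FP.sm σ p).supp \ e
    · rw [join_pos h2]
    · rw [join_neg h2]
      by_cases h3 : (k, i) ∈ e
      · rw [sm_fix hσ p h3]
        exact h k i h3
      · have h4 : (FP.sm σ p).1 k i = ⊤ := by
          refine sp_supp (FP.sm σ p) (k, i) fun h5 => h2 ?_
          exact Finset.mem_sdiff.2 ⟨h5, h3⟩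
        rw [h4]
        exact le_top

/-- The name `x` is fixed by the stabilizer of `e`. -/
abbrev Fx (e : Finset (K × ℕ)) (x : PName (FP Q)) : Prop := (Sy Q).Fix (Hs K e) x

/-- The action on names. -/
abbrev ax (σ : K → Equiv.Perm ℕ) (x : PName (FP Q)) : PName (FP Q) := act (FP.ac σ) x

/-- Homogeneity: what is forced about names with support `e` is forced by the restriction
to `e`. -/
theorem frc_res {n : ℕ} {R : Set ZFSet.{0} → (Fin n → ZFSet.{0}) → Prop} {h : UD R}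
    {x : Fin n → PName (FP Q)} {e : Finset (K × ℕ)} (hx : ∀ i, Fx e (x i)) {p : FP Q}
    (hf : (Sy Q).Frc h x p) : (Sy Q).Frc h x (res e p) := by
  refine Sys.frc_dense fun q hq => ?_
  obtain ⟨σ, hσ, -, r, hr, hr'⟩ := exists_common e p q ∅ (by
    intro k i hk
    have h1 := hq k i
    rwa [res_pos hk] at h1)
  exact ⟨r, hr, (Sys.frc_fix hx hσ hf).mono hr'⟩

theorem sym_iff {x : PName (FP Q)} : (Sy Q).Sym x ↔ ∃ e, Fx e x := by
  constructor
  · rintro ⟨H, ⟨e, rfl⟩, h⟩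
    exact ⟨e, h⟩
  · rintro ⟨e, h⟩
    exact ⟨_, ⟨e, rfl⟩, h⟩

theorem Fx.mono {e e' : Finset (K × ℕ)} {x : PName (FP Q)} (h : Fx e x) (he : e ⊆ e') :
    Fx e' x := Sys.Fix.mono h (Hs_mono he)

theorem ax_mul (σ τ : K → Equiv.Perm ℕ) (x : PName (FP Q)) : ax (σ * τ) x = ax σ (ax τ x) := by
  unfold ax
  rw [FP.ac.map_mul, act_mul]

theorem feq_ax {σ : K → Equiv.Perm ℕ} {x y : PName (FP Q)} {p : FP Q} (h : Feq x y p) :
    Feq (ax σ x) (ax σ y) (FP.sm σ p) := feq_act' h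

/-- The image of a name only depends on the action on the support. -/
theorem feq_of_agree {e : Finset (K × ℕ)} {x : PName (FP Q)} (hx : Fx e x)
    {σ τ : K → Equiv.Perm ℕ} (h : ∀ c ∈ e, im σ c = im τ c) (p : FP Q) :
    Feq (ax σ x) (ax τ x) p := by
  have h1 : (τ⁻¹ * σ : K → Equiv.Perm ℕ) ∈ Hs K e := by
    rw [mem_Hs']
    intro c hc
    rw [im_mul, h c hc, ← im_mul, inv_mul_cancel, im_one]
  have h2 : Feq (ax τ (ax (τ⁻¹ * σ) x)) (ax τ x) (FP.sm τ (FP.sm τ⁻¹ p)) :=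
    feq_ax (hx _ h1 (FP.sm τ⁻¹ p))
  rw [← ax_mul, mul_inv_cancel_left, ← FP.sm_mul, mul_inv_cancel, FP.sm_one] at h2
  exact h2

theorem Fx.ax [DecidableEq K] {e : Finset (K × ℕ)} {x : PName (FP Q)} (hx : Fx e x)
    (σ : K → Equiv.Perm ℕ) : Fx (e.image (im σ)) (ax σ x) := by
  intro (τ : K → Equiv.Perm ℕ) hτ p
  have h1 : Feq (FS.ax (τ * σ) x) (FS.ax σ x) p := by
    refine feq_of_agree hx (fun c hc => ?_) p
    rw [im_mul]
    exact mem_Hs'.1 hτ _ (Finset.mem_image_of_mem _ hc)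
  rw [ax_mul] at h1
  exact h1

theorem fmem_ax {σ : K → Equiv.Perm ℕ} {x y : PName (FP Q)} {p : FP Q} (h : Fmem x y p) :
    Fmem (ax σ x) (ax σ y) (FP.sm σ p) := fmem_act' h

theorem hs_ax {x : PName (FP Q)} (hx : (Sy Q).HS x) (σ : K → Equiv.Perm ℕ) :
    (Sy Q).HS (ax σ x) := (Sy Q).hs_act hx σ

end Pool.Agent.Q211.FS
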