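import Pool.Agent.Q211.FS.Met

/-!
# Compact metrizable spaces with a well-ordered network are separable
-/

set_option autoImplicit false
set_option linter.unusedSectionVars false
set_option linter.unreachableTactic false
set_option linter.unusedTactic false

namespace Pool.Agent.Q211.FS

open Pool.Agent.W868 Pool.Agent.W868.PName Pool.Agent.Q211.SY
open ZFSet (pair)

/-- The set `Z(κ)` is nonempty. -/
def ne (X Z κ : ZFSet.{0}) : Prop := ∃ z ∈ X, pair κ z ∈ Z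

/-- The step of the construction. -/
def St (X D I Z κ n κ' : ZFSet.{0}) : Prop :=
  κ' ∈ I ∧ ne X Z κ' ∧ (∀ z ∈ X, pair κ' z ∈ Z → pair κ z ∈ Z) ∧ smal X D Z κ' n

/-- The least one. -/
def Lst (X D I Z κ n κ' : ZFSet.{0}) : Prop :=
  St X D I Z κ n κ' ∧ ∀ κ'' ∈ κ', ¬ St X D I Z κ n κ''

/-- `f` is the beginning of the sequence that starts with `κ`. -/
def App (X D I Z f κ n : ZFSet.{0}) : Prop :=
  ZFSet.IsFunc (insert n n) I f ∧ pair ∅ κ ∈ f ∧
    ∀ i ∈ n, ∀ a ∈ I, ∀ b ∈ I, pair i a ∈ f → pair (insert i i) b ∈ f → Lst X D I Z a i b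

/-- The point `x` is in the closure of all the sets of the sequence that starts with `κ`. -/
def Good (M : Set ZFSet.{0}) (X τ D I Z κ x : ZFSet.{0}) : Prop :=
  ∀ n ∈ ZFSet.omega, ∀ f ∈ M, App X D I Z f κ n → ∀ b ∈ I, pair n b ∈ f →
    ∀ U ∈ τ, x ∈ U → ∃ z ∈ U, pair b z ∈ Z

open Classical in
/-- The sequence. -/
noncomputable def sq (X D I Z κ : ZFSet.{0}) : ℕ → ZFSet.{0}
  | 0 => κ
  | n + 1 => if h : ∃ κ', Lst X D I Z (sq X D I Z κ n) (nat n) κ' then h.choose else ∅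

section

variable {M : Set ZFSet.{0}} {X τ D I Z : ZFSet.{0}} {d : ZFSet.{0} → ZFSet.{0} → ℝ}

section

variable (hN : isNet X D I Z)

include hN

theorem exists_lst {κ : ZFSet.{0}} (hκ : κ ∈ I) (h : ne X Z κ) (n : ℕ) :
    ∃ κ', Lst X D I Z κ (nat n) κ' := by
  obtain ⟨κ', h1, h2, h3, h4⟩ := hN.2.2 κ hκ h (nat n) (mem_omega_iff.2 ⟨n, rfl⟩)
  have h5 : {κ' | St X D I Z κ (nat n) κ'}.Nonempty := ⟨κ', h1, h2, h3, h4⟩
  exact ⟨ZFSet.mem_wf.min _ h5, ZFSet.mem_wf.min_mem _ h5, fun κ'' h6 h7 =>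
    ZFSet.mem_wf.not_lt_min _ (x := κ'') h7 h6⟩

theorem lst_unique {κ n a b : ZFSet.{0}} (ha : Lst X D I Z κ n a) (hb : Lst X D I Z κ n b) :
    a = b := by
  rcases (hN.1 a ha.1.1).mem_trichotomous (hN.1 b hb.1.1) with h | h | h
  · exact absurd ha.1 (hb.2 _ h)
  · exact h
  · exact absurd hb.1 (ha.2 _ h)

theorem sq_step {κ : ZFSet.{0}} (hκ : κ ∈ I) (h : ne X Z κ) (n : ℕ) :
    sq X D I Z κ n ∈ I ∧ ne X Z (sq X D I Z κ n) ∧
      Lst X D I Z (sq X D I Z κ n) (nat n) (sq X D I Z κ (n + 1)) := by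
  have key : ∀ n, sq X D I Z κ n ∈ I → ne X Z (sq X D I Z κ n) →
      Lst X D I Z (sq X D I Z κ n) (nat n) (sq X D I Z κ (n + 1)) := by
    intro n h1 h2
    have h3 := exists_lst hN h1 h2 n
    have h4 : sq X D I Z κ (n + 1) = h3.choose := by
      rw [sq, dif_pos h3]
    rw [h4]
    exact h3.choose_spec
  induction n with
  | zero => exact ⟨hκ, h, key 0 hκ h⟩
  | succ n ih =>
    obtain ⟨-, -, h3⟩ := ih
    exact ⟨h3.1.1, h3.1.2.1, key _ h3.1.1 h3.1.2.1⟩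

theorem sq_sub {κ : ZFSet.{0}} (hκ : κ ∈ I) (h : ne X Z κ) {i j : ℕ} (hij : i ≤ j) :
    ∀ z ∈ X, pair (sq X D I Z κ j) z ∈ Z → pair (sq X D I Z κ i) z ∈ Z := by
  induction hij with
  | refl => exact fun z _ hz => hz
  | step _ ih => exact fun z hz h1 => ih z hz ((sq_step hN hκ h _).2.2.1.2.2.1 z hz h1)

theorem app_eq {κ f : ZFSet.{0}} {n : ℕ} (hf : App X D I Z f κ (nat n)) {i : ℕ} (hi : i ≤ n)
    {b : ZFSet.{0}} (hb : pair (nat i) b ∈ f) (hκ : κ ∈ I) (h : ne X Z κ) :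
    b = sq X D I Z κ i := by
  obtain ⟨h1, h2, h3⟩ := hf
  induction i generalizing b with
  | zero =>
    have h4 : nat 0 ∈ insert (nat n) (nat n) := by
      change nat 0 ∈ nat (n + 1)
      exact nat_mem_nat.2 (Nat.succ_pos n)
    exact (h1.2 _ h4).unique hb h2
  | succ i ih =>
    have h4 : nat i ∈ insert (nat n) (nat n) := by
      change nat i ∈ nat (n + 1)
      exact nat_mem_nat.2 (by omega)
    obtain ⟨a, ha, -⟩ := h1.2 _ h4
    have h5 := ih (by omega) ha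
    subst h5
    have h6 := h3 (nat i) (nat_mem_nat.2 (by omega)) _ (ZFSet.pair_mem_prod.1 (h1.1 ha)).2 b
      (ZFSet.pair_mem_prod.1 (h1.1 hb)).2 ha hb
    exact lst_unique hN h6 (sq_step hN hκ h i).2.2

theorem app_fseq {κ : ZFSet.{0}} (hκ : κ ∈ I) (h : ne X Z κ) (n : ℕ) :
    App X D I Z (fseq (sq X D I Z κ) (n + 1)) κ (nat n) := by
  refine ⟨isFunc_fseq (n := n + 1) fun i _ => (sq_step hN hκ h i).1,
    pair_mem_fseq (i := 0) |>.2 ⟨Nat.succ_pos n, rfl⟩, ?_⟩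
  intro i hi a _ b _ ha hb
  obtain ⟨i, hi, rfl⟩ := mem_nat_iff.1 hi
  obtain ⟨-, rfl⟩ := pair_mem_fseq.1 ha
  obtain ⟨-, rfl⟩ := pair_mem_fseq (i := i + 1) |>.1 hb
  exact (sq_step hN hκ h i).2.2

theorem good_iff (hM : IsZF M) (hI : I ∈ M) {κ x : ZFSet.{0}} (hκ : κ ∈ I) (h : ne X Z κ) :
    Good M X τ D I Z κ x ↔ ∀ n, ∀ U ∈ τ, x ∈ U → ∃ z ∈ U, pair (sq X D I Z κ n) z ∈ Z := by
  constructor
  · intro hg n U hU hx
    exact hg (nat n) (mem_omega_iff.2 ⟨n, rfl⟩) _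
      (fseq_mem hM fun i _ => hM.trans _ hI _ (sq_step hN hκ h i).1) (app_fseq hN hκ h n) _
      (sq_step hN hκ h n).1 (pair_mem_fseq.2 ⟨Nat.lt_succ_self n, rfl⟩) U hU hx
  · intro hg no hno f _ hf b _ hb U hU hx
    obtain ⟨n, rfl⟩ := mem_omega_iff.1 hno
    rw [app_eq hN hf le_rfl hb hκ h]
    exact hg n U hU hx

end

variable (s : Sp0 M X τ d D) (hI : I ∈ M) (hZ : Z ∈ M) (hN : isNet X D I Z)

include s hI hZ hN

/-- Existence of the points. -/
theorem exists_good {κ : ZFSet.{0}} (hκ : κ ∈ I) (h : ne X Z κ) :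
    ∃ x ∈ X, Good M X τ D I Z κ x := by
  classical
  have hB := s.hM.base
  have hMX := s.hX
  have hMτ := s.hτ
  have hMD := s.hD
  have hMκ := s.hM.trans _ hI _ hκ
  have h0 := s.hM.infinity
  have he := s.hM.empty_mem
  by_contra hcon
  push Not at hcon
  have hdf : Dfn M M fun w : Fin 1 → ZFSet.{0} => ∃ n ∈ ZFSet.omega, ∃ f ∈ M, App X D I Z f κ n ∧
      ∃ b ∈ I, pair n b ∈ f ∧ ∀ z ∈ w 0, pair b z ∉ Z := by
    unfold App Lst St ne smal
    (repeat' first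
      | assumption
      | exact DfnF.proj _
      | exact DfnF.const (by assumption)
      | exact DfnF.const' (by first | assumption | trivial) (by first | assumption | trivial)
      | exact Dfn.prop _
      | apply hB.isFunc' | apply hB.isInj' | apply hB.isBij' | apply hB.isOrdinal'
      | apply hB.subset' | apply hB.pair' | apply hB.insert'
      | apply Dfn.not | apply Dfn.and | apply Dfn.or | apply Dfn.imp | apply Dfn.iff
      | apply hB.bex | apply hB.ball | apply Dfn.ex | apply Dfn.all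
      | apply Dfn.eq | apply Dfn.mem)
  obtain ⟨F, hF, hF'⟩ := s.cpt (ZFSet.sep (fun U => ∃ n ∈ ZFSet.omega, ∃ f ∈ M,
    App X D I Z f κ n ∧ ∃ b ∈ I, pair n b ∈ f ∧ ∀ z ∈ U, pair b z ∉ Z) τ)
    (s.hM.sep_mem (Q := fun U => ∃ n ∈ ZFSet.omega, ∃ f ∈ M,
    App X D I Z f κ n ∧ ∃ b ∈ I, pair n b ∈ f ∧ ∀ z ∈ U, pair b z ∉ Z) hdf hMτ)
    (fun U hU => (ZFSet.mem_sep.1 hU).1) (by
      intro x hx
      have h1 := hcon x hx
      rw [good_iff hN s.hM hI hκ h] at h1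
      push Not at h1
      obtain ⟨n, U, hU, hxU, h2⟩ := h1
      exact ⟨U, ZFSet.mem_sep.2 ⟨hU, nat n, mem_omega_iff.2 ⟨n, rfl⟩, _,
        fseq_mem s.hM fun i _ => s.hM.trans _ hI _ (sq_step hN hκ h i).1, app_fseq hN hκ h n, _,
        (sq_step hN hκ h n).1, pair_mem_fseq.2 ⟨Nat.lt_succ_self n, rfl⟩, h2⟩, hxU⟩)
  have h1 : ∀ U ∈ F, ∃ n : ℕ, ∀ z ∈ U, pair (sq X D I Z κ n) z ∉ Z := by
    intro U hU
    obtain ⟨-, no, hno, f, -, hf, b, -, hb, h2⟩ := ZFSet.mem_sep.1 (hF U hU)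
    obtain ⟨n, rfl⟩ := mem_omega_iff.1 hno
    rw [app_eq hN hf le_rfl hb hκ h] at h2
    exact ⟨n, h2⟩
  choose! n hn using h1
  obtain ⟨z, hz, hz'⟩ := (sq_step hN hκ h (F.sup n)).2.1
  obtain ⟨U, hU, hzU⟩ := hF' z hz
  exact hn U hU z hzU (sq_sub hN hκ h (Finset.le_sup hU) z hz hz')

theorem good_near {κ x : ZFSet.{0}} (hκ : κ ∈ I) (h : ne X Z κ) (hx : x ∈ X)
    (hg : Good M X τ D I Z κ x) (n k : ℕ) : ∃ z ∈ X, pair (sq X D I Z κ n) z ∈ Z ∧
      d x z < 1 / (k + 1) := by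
  rw [good_iff hN s.hM hI hκ h] at hg
  obtain ⟨U, hU, hxU, hU'⟩ := s.ball x hx k
  obtain ⟨z, hz, hz'⟩ := hg n U hU hxU
  exact ⟨z, ((hU' z).1 hz).1, hz', ((hU' z).1 hz).2⟩

omit hI hZ hN in
theorem eq_of_small {x y : ZFSet.{0}} (hx : x ∈ X) (hy : y ∈ X)
    (h : ∀ n : ℕ, d x y < 3 / (n + 1)) : x = y := by
  refine s.m.eq_of x hx y hy ?_
  refine le_antisymm ?_ (s.nonneg hx hy)
  by_contra h1
  push Not at h1
  obtain ⟨n, hn⟩ := exists_nat_gt (3 / d x y)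
  have h2 := h n
  have h3 : 3 / ((n : ℝ) + 1) < d x y := by
    rw [div_lt_iff₀ (by positivity)]
    rw [div_lt_iff₀ h1] at hn
    nlinarith
  linarith

theorem good_unique {κ x y : ZFSet.{0}} (hκ : κ ∈ I) (h : ne X Z κ) (hx : x ∈ X) (hy : y ∈ X)
    (hg : Good M X τ D I Z κ x) (hg' : Good M X τ D I Z κ y) : x = y := by
  refine eq_of_small s hx hy fun n => ?_
  obtain ⟨z, hz, h1, h2⟩ := good_near s hI hZ hN hκ h hx hg (n + 1) n
  obtain ⟨w, hw, h3, h4⟩ := good_near s hI hZ hN hκ h hy hg' (n + 1) n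
  have h5 := (sq_step hN hκ h n).2.2.1.2.2.2 z hz w hw h1 h3
  rw [s.ent z hz w hw] at h5
  have h6 := s.m.tri x hx z hz y hy
  have h7 := s.m.tri z hz w hw y hy
  rw [s.m.symm w hw y hy] at h7
  have h8 : (3 : ℝ) / (n + 1) = 1 / (n + 1) + 1 / (n + 1) + 1 / (n + 1) := by ring
  rw [h8]
  linarith

theorem dfn_good : Dfn M M fun w : Fin 2 → ZFSet.{0} =>
    ne X Z (w 0) ∧ Good M X τ D I Z (w 0) (w 1) := by
  have hB := s.hM.base
  have hMX := s.hX
  have hMτ := s.hτ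
  have hMD := s.hD
  have h0 := s.hM.infinity
  have he := s.hM.empty_mem
  unfold Good App Lst St ne smal
  (repeat' first
    | assumption
    | exact DfnF.proj _
    | exact DfnF.const (by assumption)
    | exact DfnF.const' (by first | assumption | trivial) (by first | assumption | trivial)
    | exact Dfn.prop _
    | apply hB.isFunc' | apply hB.isInj' | apply hB.isBij' | apply hB.isOrdinal'
    | apply hB.subset' | apply hB.pair' | apply hB.insert'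
    | apply Dfn.not | apply Dfn.and | apply Dfn.or | apply Dfn.imp | apply Dfn.iff
    | apply hB.bex | apply hB.ball | apply Dfn.ex | apply Dfn.all
    | apply Dfn.eq | apply Dfn.mem)

end

end Pool.Agent.Q211.FS
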