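import Pool.Agent.Q211.FS.Sep

/-!
# Compact metrizable spaces with a well-ordered network are separable: the dense set
-/

set_option autoImplicit false
set_option linter.unusedSectionVars false
set_option linter.unreachableTactic false
set_option linter.unusedTactic false

namespace Pool.Agent.Q211.FS

open Pool.Agent.W868 Pool.Agent.W868.PName Pool.Agent.Q211.SY
open ZFSet (pair)

/-- The point `x` belongs to `κ`. -/
def GG (M : Set ZFSet.{0}) (X τ D I Z κ x : ZFSet.{0}) : Prop :=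
  ne X Z κ ∧ Good M X τ D I Z κ x

/-- The point of `κ` is far from the points of all the smaller ordinals. -/
def JK (M : Set ZFSet.{0}) (X τ D I Z κ k : ZFSet.{0}) : Prop :=
  ne X Z κ ∧ ∀ μ ∈ κ, μ ∈ I → ∀ x ∈ X, ∀ y ∈ X, GG M X τ D I Z κ x → GG M X τ D I Z μ y →
    pair (pair x y) k ∉ D

/-- The order. -/
def RR (M : Set ZFSet.{0}) (X τ D I Z μ κ : ZFSet.{0}) : Prop :=
  (∃ k ∈ ZFSet.omega, JK M X τ D I Z μ k ∧ ¬ JK M X τ D I Z κ k) ∨
    ((∀ k ∈ ZFSet.omega, JK M X τ D I Z μ k ↔ JK M X τ D I Z κ k) ∧ μ ∈ κ)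

section

variable {M : Set ZFSet.{0}} {X τ D I Z : ZFSet.{0}} {d : ZFSet.{0} → ZFSet.{0} → ℝ}
  (s : Sp0 M X τ d D) (hI : I ∈ M) (hZ : Z ∈ M) (hN : isNet X D I Z)

include s hI hZ hN

theorem dfn_JK : Dfn M M fun w : Fin 2 → ZFSet.{0} => JK M X τ D I Z (w 0) (w 1) := by
  have hB := s.hM.base
  have hMX := s.hX
  have hMτ := s.hτ
  have hMD := s.hD
  have h0 := s.hM.infinity
  have he := s.hM.empty_mem
  have hg : Dfn M M fun w : Fin 2 → ZFSet.{0} => GG M X τ D I Z (w 0) (w 1) :=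
    dfn_good s hI hZ hN
  unfold JK ne
  (repeat' first
    | apply Dfn.comp2 (Q := fun a b => GG M X τ D I Z a b) hg
    | assumption
    | exact DfnF.proj _
    | exact DfnF.const (by assumption)
    | exact DfnF.const' (by first | assumption | trivial) (by first | assumption | trivial)
    | exact Dfn.prop _
    | apply hB.isFunc' | apply hB.isInj' | apply hB.isBij' | apply hB.isOrdinal'
    | apply hB.subset' | apply hB.pair' | apply hB.insert'
    | apply Dfn.not | apply Dfn.and | apply Dfn.or | apply Dfn.imp | apply Dfn.iff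
    | apply hB.bex | apply hB.ball | apply Dfn.ex | apply Dfn.all
    | apply Dfn.eq | apply Dfn.mem)

theorem dfn_RR : Dfn M M fun w : Fin 2 → ZFSet.{0} => RR M X τ D I Z (w 0) (w 1) := by
  have hB := s.hM.base
  have h0 := s.hM.infinity
  have hg := dfn_JK s hI hZ hN
  unfold RR
  (repeat' first
    | apply Dfn.comp2 (Q := fun a b => JK M X τ D I Z a b) hg
    | assumption
    | exact DfnF.proj _
    | exact DfnF.const (by assumption)
    | exact DfnF.const' (by first | assumption | trivial) (by first | assumption | trivial)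
    | exact Dfn.prop _
    | apply hB.isFunc' | apply hB.isInj' | apply hB.isBij' | apply hB.isOrdinal'
    | apply hB.subset' | apply hB.pair' | apply hB.insert'
    | apply Dfn.not | apply Dfn.and | apply Dfn.or | apply Dfn.imp | apply Dfn.iff
    | apply hB.bex | apply hB.ball | apply Dfn.ex | apply Dfn.all
    | apply Dfn.eq | apply Dfn.mem)

theorem JK_mono {κ : ZFSet.{0}} {k l : ℕ} (h : JK M X τ D I Z κ (nat k)) (hkl : k ≤ l) :
    JK M X τ D I Z κ (nat l) := by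
  refine ⟨h.1, fun μ hμ hμI x hx y hy h1 h2 h3 => h.2 μ hμ hμI x hx y hy h1 h2 ?_⟩
  rw [s.ent x hx y hy] at h3 ⊢
  exact s.lt_small h3 hkl

theorem JK_fin (k : ℕ) : {κ | κ ∈ I ∧ JK M X τ D I Z κ (nat k)}.Finite := by
  classical
  by_contra hinf
  have hinf' : {κ | κ ∈ I ∧ JK M X τ D I Z κ (nat k)}.Infinite := hinf
  obtain ⟨mo, hmo, hm⟩ := (s.reg (nat k) (mem_omega_iff.2 ⟨k, rfl⟩)).1
  obtain ⟨m, rfl⟩ := mem_omega_iff.1 hmo
  let a : ℕ ↪ {κ | κ ∈ I ∧ JK M X τ D I Z κ (nat k)} := hinf'.natEmbedding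
  have hex : ∀ i, ∃ x ∈ X, Good M X τ D I Z (a i) x := fun i =>
    exists_good s hI hZ hN (a i).2.1 (a i).2.2.1
  choose y hyX hy using hex
  obtain ⟨io, hio, jo, hjo, x, hx, z, hz, h1, h2, h3⟩ := hm (fseq y m)
    (fseq_mem s.hM fun i _ => s.hM.trans _ s.hX _ (hyX i)) (isFunc_fseq fun i _ => hyX i)
  obtain ⟨i, hi, rfl⟩ := mem_nat_iff.1 hio
  obtain ⟨j, hj, rfl⟩ := mem_nat_iff.1 hjo
  obtain ⟨-, rfl⟩ := pair_mem_fseq.1 h1
  obtain ⟨-, rfl⟩ := pair_mem_fseq.1 h2
  have hg : ∀ i, GG M X τ D I Z (a i) (y i) := fun i => ⟨(a i).2.2.1, hy i⟩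
  have h4 : (a i).1 ≠ (a j).1 := by
    intro h
    have h5 := a.injective (Subtype.ext h)
    omega
  rcases (hN.1 _ (a i).2.1).mem_trichotomous (hN.1 _ (a j).2.1) with h | h | h
  · exact (a j).2.2.2 _ h (a i).2.1 _ (hyX j) _ (hyX i) (hg j) (hg i) h3
  · exact h4 h
  · refine (a i).2.2.2 _ h (a j).2.1 _ (hyX i) _ (hyX j) (hg i) (hg j) ?_
    rw [s.ent _ (hyX j) _ (hyX i)] at h3
    rw [s.ent _ (hyX i) _ (hyX j), s.m.symm _ (hyX i) _ (hyX j)]
    exact h3

/-- The countable index set. -/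
theorem cnt_J : CntIn M (ZFSet.sep (fun κ => ∃ k ∈ ZFSet.omega, JK M X τ D I Z κ k) I) := by
  classical
  have hB := s.hM.base
  have h0 := s.hM.infinity
  have hg := dfn_JK s hI hZ hN
  have hJM : ZFSet.sep (fun κ => ∃ k ∈ ZFSet.omega, JK M X τ D I Z κ k) I ∈ M :=
    s.hM.sep_mem (Q := fun κ => ∃ k ∈ ZFSet.omega, JK M X τ D I Z κ k) (by
      (repeat' first
        | apply Dfn.comp2 (Q := fun a b => JK M X τ D I Z a b) hg
        | assumption
        | exact DfnF.proj _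
        | exact DfnF.const (by assumption)
        | exact DfnF.const' (by first | assumption | trivial) (by first | assumption | trivial)
        | exact Dfn.prop _
        | apply hB.isFunc' | apply hB.isInj' | apply hB.isBij' | apply hB.isOrdinal'
        | apply hB.subset' | apply hB.pair' | apply hB.insert'
        | apply Dfn.not | apply Dfn.and | apply Dfn.or | apply Dfn.imp | apply Dfn.iff
        | apply hB.bex | apply hB.ball | apply Dfn.ex | apply Dfn.all
        | apply Dfn.eq | apply Dfn.mem)) hI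
  have hmem : ∀ κ, κ ∈ ZFSet.sep (fun κ => ∃ k ∈ ZFSet.omega, JK M X τ D I Z κ k) I ↔
      κ ∈ I ∧ ∃ k : ℕ, JK M X τ D I Z κ (nat k) := by
    intro κ
    rw [ZFSet.mem_sep]
    refine and_congr_right fun _ => ?_
    constructor
    · rintro ⟨k, hk, h⟩
      obtain ⟨k, rfl⟩ := mem_omega_iff.1 hk
      exact ⟨k, h⟩
    · rintro ⟨k, h⟩
      exact ⟨nat k, mem_omega_iff.2 ⟨k, rfl⟩, h⟩
  -- the least index
  let kk : ZFSet.{0} → ℕ := fun κ =>
    if h : ∃ k : ℕ, JK M X τ D I Z κ (nat k) then Nat.find h else 0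
  have hkk : ∀ κ, (∃ k : ℕ, JK M X τ D I Z κ (nat k)) → ∀ k, JK M X τ D I Z κ (nat k) ↔
      kk κ ≤ k := by
    intro κ h k
    simp only [kk, dif_pos h]
    constructor
    · exact fun h1 => Nat.find_min' h h1
    · exact fun h1 => JK_mono s hI hZ hN (Nat.find_spec h) h1
  have hRR : ∀ μ κ, (∃ k : ℕ, JK M X τ D I Z μ (nat k)) → (∃ k : ℕ, JK M X τ D I Z κ (nat k)) →
      (RR M X τ D I Z μ κ ↔ kk μ < kk κ ∨ (kk μ = kk κ ∧ μ ∈ κ)) := by
    intro μ κ hμ hκ
    have h1 := hkk μ hμ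
    have h2 := hkk κ hκ
    unfold RR
    refine or_congr ?_ (and_congr_left fun _ => ?_)
    · constructor
      · rintro ⟨k, hk, h3, h4⟩
        obtain ⟨k, rfl⟩ := mem_omega_iff.1 hk
        rw [h1] at h3
        rw [h2] at h4
        omega
      · intro h3
        refine ⟨nat (kk μ), mem_omega_iff.2 ⟨_, rfl⟩, (h1 _).2 le_rfl, fun h4 => ?_⟩
        have h5 := (h2 _).1 h4
        omega
    · constructor
      · intro h3
        have h4 := (h3 (nat (kk μ)) (mem_omega_iff.2 ⟨_, rfl⟩)).1 ((h1 _).2 le_rfl)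
        have h5 := (h3 (nat (kk κ)) (mem_omega_iff.2 ⟨_, rfl⟩)).2 ((h2 _).2 le_rfl)
        rw [h2] at h4
        rw [h1] at h5
        omega
      · intro h3 k hk
        obtain ⟨k, rfl⟩ := mem_omega_iff.1 hk
        rw [h1, h2, h3]
  refine cnt_of_order s.hM hJM (R := fun μ κ => RR M X τ D I Z μ κ) (dfn_RR s hI hZ hN)
    ?_ ?_ ?_ ?_
  · intro κ hκ h
    obtain ⟨hκI, hκ'⟩ := (hmem κ).1 hκ
    rcases (hRR κ κ hκ' hκ').1 h with h1 | h1
    · omega
    · exact ZFSet.mem_irrefl _ h1.2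
  · intro κ hκ μ hμ ν hν h1 h2
    obtain ⟨hκI, hκ'⟩ := (hmem κ).1 hκ
    obtain ⟨hμI, hμ'⟩ := (hmem μ).1 hμ
    obtain ⟨hνI, hν'⟩ := (hmem ν).1 hν
    rw [hRR κ μ hκ' hμ'] at h1
    rw [hRR μ ν hμ' hν'] at h2
    rw [hRR κ ν hκ' hν']
    rcases h1 with h1 | ⟨h1, h3⟩ <;> rcases h2 with h2 | ⟨h2, h4⟩
    · left; omega
    · left; omega
    · left; omega
    · right
      exact ⟨by omega, (hN.1 ν hνI).mem_trans h3 h4⟩
  · intro κ hκ μ hμ
    obtain ⟨hκI, hκ'⟩ := (hmem κ).1 hκ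
    obtain ⟨hμI, hμ'⟩ := (hmem μ).1 hμ
    rw [hRR κ μ hκ' hμ', hRR μ κ hμ' hκ']
    rcases lt_trichotomy (kk κ) (kk μ) with h | h | h
    · exact Or.inr (Or.inl (Or.inl h))
    · rcases (hN.1 κ hκI).mem_trichotomous (hN.1 μ hμI) with h1 | h1 | h1
      · exact Or.inr (Or.inl (Or.inr ⟨h, h1⟩))
      · exact Or.inl h1
      · exact Or.inr (Or.inr (Or.inr ⟨h.symm, h1⟩))
    · exact Or.inr (Or.inr (Or.inl h))
  · intro κ hκ
    obtain ⟨hκI, hκ'⟩ := (hmem κ).1 hκ
    refine (JK_fin s hI hZ hN (kk κ)).subset ?_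
    rintro μ ⟨hμ, h⟩
    obtain ⟨hμI, hμ'⟩ := (hmem μ).1 hμ
    rw [hRR μ κ hμ' hκ'] at h
    exact ⟨hμI, (hkk μ hμ' _).2 (by omega)⟩

/-- Compact metrizable spaces with a well-ordered network are separable. -/
theorem separable_of_net : SeparableIn M X τ := by
  classical
  have hB := s.hM.base
  have h0 := s.hM.infinity
  have hJ := dfn_JK s hI hZ hN
  have hg : Dfn M M fun w : Fin 2 → ZFSet.{0} => GG M X τ D I Z (w 0) (w 1) :=
    dfn_good s hI hZ hN
  have hJM : ZFSet.sep (fun κ => ∃ k ∈ ZFSet.omega, JK M X τ D I Z κ k) I ∈ M :=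
    s.hM.sep_mem (Q := fun κ => ∃ k ∈ ZFSet.omega, JK M X τ D I Z κ k) (by
      (repeat' first
        | apply Dfn.comp2 (Q := fun a b => JK M X τ D I Z a b) hJ
        | assumption
        | exact DfnF.proj _
        | exact DfnF.const (by assumption)
        | exact DfnF.const' (by first | assumption | trivial) (by first | assumption | trivial)
        | exact Dfn.prop _
        | apply hB.isFunc' | apply hB.isInj' | apply hB.isBij' | apply hB.isOrdinal'
        | apply hB.subset' | apply hB.pair' | apply hB.insert'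
        | apply Dfn.not | apply Dfn.and | apply Dfn.or | apply Dfn.imp | apply Dfn.iff
        | apply hB.bex | apply hB.ball | apply Dfn.ex | apply Dfn.all
        | apply Dfn.eq | apply Dfn.mem)) hI
  have hc := cnt_J s hI hZ hN
  set J := ZFSet.sep (fun κ => ∃ k ∈ ZFSet.omega, JK M X τ D I Z κ k) I with hJdef
  have hMX := s.hX
  have hYM : ZFSet.sep (fun x => ∃ κ ∈ J, GG M X τ D I Z κ x) X ∈ M :=
    s.hM.sep_mem (Q := fun x => ∃ κ ∈ J, GG M X τ D I Z κ x) (by
      (repeat' first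
        | apply Dfn.comp2 (Q := fun a b => GG M X τ D I Z a b) hg
        | assumption
        | exact DfnF.proj _
        | exact DfnF.const (by assumption)
        | exact DfnF.const' (by first | assumption | trivial) (by first | assumption | trivial)
        | exact Dfn.prop _
        | apply hB.isFunc' | apply hB.isInj' | apply hB.isBij' | apply hB.isOrdinal'
        | apply hB.subset' | apply hB.pair' | apply hB.insert'
        | apply Dfn.not | apply Dfn.and | apply Dfn.or | apply Dfn.imp | apply Dfn.iff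
        | apply hB.bex | apply hB.ball | apply Dfn.ex | apply Dfn.all
        | apply Dfn.eq | apply Dfn.mem)) s.hX
  refine ⟨_, hYM, fun x hx => (ZFSet.mem_sep.1 hx).1, ?_, ?_⟩
  · refine cnt_image s.hM hc hJM hYM hg ?_ ?_
    · intro κ hκ x hx y hy h1 h2
      exact good_unique s hI hZ hN (ZFSet.mem_sep.1 hκ).1 h1.1 (ZFSet.mem_sep.1 hx).1
        (ZFSet.mem_sep.1 hy).1 h1.2 h2.2
    · exact fun x hx => (ZFSet.mem_sep.1 hx).2
  · rintro U hU ⟨x, hx⟩
    obtain ⟨-, hUX, hU'⟩ := (s.m.top U).1 hU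
    obtain ⟨ε, hε, h1⟩ := hU' x hx
    have hxX := hUX hx
    obtain ⟨n, hn⟩ := exists_nat_gt (3 / ε)
    have h2 : 3 / ((n : ℝ) + 1) < ε := by
      rw [div_lt_iff₀ (by positivity)]
      rw [div_lt_iff₀ hε] at hn
      nlinarith
    -- the first point
    obtain ⟨κ, hκI, h3, h4⟩ := hN.2.1 x hxX (nat n) (mem_omega_iff.2 ⟨n, rfl⟩)
    have hne : ne X Z κ := ⟨x, hxX, h3⟩
    obtain ⟨y, hyX, hy⟩ := exists_good s hI hZ hN hκI hne
    obtain ⟨z, hz, h5, h6⟩ := good_near s hI hZ hN hκI hne hyX hy 0 n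
    have h7 := (s.ent x hxX z hz n).1 (h4 x hxX z hz h3 h5)
    have h8 : d x y < 2 / (n + 1) := by
      have h9 := s.m.tri x hxX z hz y hyX
      rw [s.m.symm z hz y hyX] at h9
      have h10 : (2 : ℝ) / (n + 1) = 1 / (n + 1) + 1 / (n + 1) := by ring
      rw [h10]
      linarith
    -- the least ordinal whose point is near
    have hS : {μ | μ ∈ I ∧ ne X Z μ ∧ ∃ w ∈ X, Good M X τ D I Z μ w ∧
        d y w < 1 / (n + 1)}.Nonempty := by
      refine ⟨κ, hκI, hne, y, hyX, hy, ?_⟩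
      rw [s.m.self y hyX]
      positivity
    obtain ⟨hμI, hμne, w, hwX, hw, h9⟩ := ZFSet.mem_wf.min_mem _ hS
    have hmin : ∀ ν, ν ∈ ZFSet.mem_wf.min _ hS → ν ∈ I → ne X Z ν → ∀ v ∈ X,
        Good M X τ D I Z ν v → 1 / (n + 1) ≤ d y v := by
      intro ν hν hνI hνne v hv hvg
      by_contra h10
      push Not at h10
      have h11 : ν ∈ {μ | μ ∈ I ∧ ne X Z μ ∧ ∃ w ∈ X, Good M X τ D I Z μ w ∧
        d y w < 1 / (n + 1)} := ⟨hνI, hνne, v, hv, hvg, h10⟩
      exact ZFSet.mem_wf.not_lt_min _ h11 hν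
    set μ := ZFSet.mem_wf.min _ hS with hμ
    obtain ⟨k, hk⟩ := exists_nat_gt (1 / (1 / ((n : ℝ) + 1) - d y w))
    have hpos : 0 < 1 / ((n : ℝ) + 1) - d y w := by linarith
    have h10 : 1 / ((k : ℝ) + 1) < 1 / ((n : ℝ) + 1) - d y w := by
      rw [div_lt_iff₀ (by positivity)]
      rw [div_lt_iff₀ hpos] at hk
      nlinarith
    have hμJ : μ ∈ J := by
      refine ZFSet.mem_sep.2 ⟨hμI, nat k, mem_omega_iff.2 ⟨k, rfl⟩, hμne, ?_⟩
      intro ν hν hνI x' hx' v hv h11 h12 h13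
      have h14 := good_unique s hI hZ hN hμI hμne hx' hwX h11.2 hw
      subst h14
      rw [s.ent x' hx' v hv] at h13
      have h15 := hmin ν hν hνI h12.1 v hv h12.2
      have h16 := s.m.tri y hyX x' hx' v hv
      linarith
    refine ⟨w, ZFSet.mem_sep.2 ⟨hwX, μ, hμJ, hμne, hw⟩, h1 w hwX ?_⟩
    have h11 := s.m.tri x hxX y hyX w hwX
    have h12 : (3 : ℝ) / (n + 1) = 2 / (n + 1) + 1 / (n + 1) := by ring
    linarith

end

/-- In a symmetric submodel of a finite support product, all compact metrizable spaces are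
separable. -/
theorem separable {K : Type} {Q : K → Type} [∀ k, Preorder (Q k)] [∀ k, OrderTop (Q k)]
    [DecidableEq K] {π : Pkg (FP Q)} (hcl : (Sy Q).Cld π) {X τ : ZFSet.{0}}
    (hX : X ∈ (Sy Q).Ms π) (hτ : τ ∈ (Sy Q).Ms π) (hm : MetrizableIn ((Sy Q).Ms π) X τ)
    (hc : CompactIn ((Sy Q).Ms π) X τ) : SeparableIn ((Sy Q).Ms π) X τ := by
  obtain ⟨d, m⟩ := hm
  have hM := T_ZF.isZF hcl
  obtain ⟨D, hD, h1⟩ := exists_ent hM hX m
  have s : Sp0 ((Sy Q).Ms π) X τ d D := ⟨hM, hX, hτ, m, hD, h1, hc⟩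
  obtain ⟨I, hI, Z, hZ, hN⟩ := net_of_reg hcl hX hD s.reg
  exact separable_of_net s hI hZ hN

end Pool.Agent.Q211.FS
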