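import Pool.Agent.Q211.FS.Res
import Pool.Agent.Q211.SY.Seq

/-!
# Small conditions: points of totally bounded spaces

Let `X` be totally bounded with respect to the entourages `D`. Every condition with support `e`
has an extension with support `e` such that all the copies of a given point of `X` that lie in the
copies of this condition are close to each other.
-/

set_option autoImplicit false
set_option linter.unusedSectionVars false
set_option linter.unreachableTactic false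
set_option linter.unusedTactic false

namespace Pool.Agent.Q211.FS

open Pool.Agent.W868 Pool.Agent.W868.PName Pool.Agent.Q211.SY
open ZFSet (pair)

/-- There are no `m` points of `X` that are pairwise not `k`-close. -/
def tb (M : Set ZFSet.{0}) (X D k m : ZFSet.{0}) : Prop :=
  ∀ t ∈ M, ZFSet.IsFunc m X t → ∃ i ∈ m, ∃ j ∈ i, ∃ x ∈ X, ∃ y ∈ X,
    pair j x ∈ t ∧ pair i y ∈ t ∧ pair (pair x y) k ∈ D

/-- `l`-closeness is half of `k`-closeness. -/
def hf (X D k l : ZFSet.{0}) : Prop :=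
  ∀ x ∈ X, ∀ y ∈ X, ∀ z ∈ X, pair (pair x z) l ∈ D → pair (pair y z) l ∈ D → pair (pair x y) k ∈ D

/-- Totally bounded. -/
def reg (M : Set ZFSet.{0}) (X D : ZFSet.{0}) : Prop :=
  ∀ k ∈ ZFSet.omega, (∃ m ∈ ZFSet.omega, tb M X D k m) ∧ ∃ l ∈ ZFSet.omega, hf X D k l

theorem ud_tb : UD fun M (v : Fin 4 → ZFSet.{0}) => tb M (v 0) (v 1) (v 2) (v 3) := by
  unfold tb
  refine UD.all (Q := fun M t (v : Fin 4 → ZFSet.{0}) => ZFSet.IsFunc (v 3) (v 0) t →
    ∃ i ∈ v 3, ∃ j ∈ i, ∃ x ∈ v 0, ∃ y ∈ v 0,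
    pair j x ∈ t ∧ pair i y ∈ t ∧ pair (pair x y) (v 2) ∈ v 1) ?_
  refine UD.imp (UD.isFunc (UF.proj 4) (UF.proj 1) (UF.proj 0)) ?_
  (repeat' first
    | assumption
    | exact UF.proj _
    | exact UF.om
    | exact UD.prop _
    | apply UD.not | apply UD.and | apply UD.or | apply UD.imp | apply UD.iff
    | apply UD.bex | apply UD.ball | apply UD.ex | apply UD.all
    | apply UD.eq | apply UD.mem | apply UF.pair)

theorem ud_hf : UD fun _ (v : Fin 4 → ZFSet.{0}) => hf (v 0) (v 1) (v 2) (v 3) := by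
  unfold hf
  (repeat' first
    | assumption
    | exact UF.proj _
    | exact UF.om
    | exact UD.prop _
    | apply UD.not | apply UD.and | apply UD.or | apply UD.imp | apply UD.iff
    | apply UD.bex | apply UD.ball | apply UD.ex | apply UD.all
    | apply UD.eq | apply UD.mem | apply UF.pair)

theorem ud_reg : UD fun M (v : Fin 2 → ZFSet.{0}) => reg M (v 0) (v 1) := by
  unfold reg
  refine UD.ball (Q := fun M k (v : Fin 2 → ZFSet.{0}) =>
    (∃ m ∈ ZFSet.omega, tb M (v 0) (v 1) k m) ∧ ∃ l ∈ ZFSet.omega, hf (v 0) (v 1) k l) UF.om ?_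
  refine UD.and ?_ ?_
  · refine UD.bex (Q := fun M m (v : Fin 3 → ZFSet.{0}) => tb M (v 1) (v 2) (v 0) m) UF.om ?_
    exact UD.comp4M ud_tb (UF.proj 2) (UF.proj 3) (UF.proj 1) (UF.proj 0)
  · refine UD.bex (Q := fun M l (v : Fin 3 → ZFSet.{0}) => hf (v 1) (v 2) (v 0) l) UF.om ?_
    exact UD.comp4M (Q := fun _ a b c d => hf a b c d) ud_hf (UF.proj 2) (UF.proj 3) (UF.proj 1)
      (UF.proj 0)

theorem ud_far : UD fun _ (v : Fin 4 → ZFSet.{0}) => pair (pair (v 2) (v 3)) (v 1) ∉ v 0 := by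
  (repeat' first
    | assumption
    | exact UF.proj _
    | exact UF.om
    | exact UD.prop _
    | apply UD.not | apply UD.and | apply UD.or | apply UD.imp | apply UD.iff
    | apply UD.bex | apply UD.ball | apply UD.ex | apply UD.all
    | apply UD.eq | apply UD.mem | apply UF.pair)

variable {K : Type} {Q : K → Type} [∀ k, Preorder (Q k)] [∀ k, OrderTop (Q k)] [DecidableEq K]

/-! ### Independent copies -/

/-- The copies `σ` and `τ` of `e` only have columns of `E` in common. -/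
def Ind (E e : Finset (K × ℕ)) (σ τ : K → Equiv.Perm ℕ) : Prop :=
  ∀ c ∈ e, ∀ d ∈ e, im σ c = im τ d → c ∈ E

theorem exists_theta {E e : Finset (K × ℕ)} (hE : E ⊆ e) {σ τ σ' τ' : K → Equiv.Perm ℕ}
    (h1 : σ ∈ Hs K E) (h2 : τ ∈ Hs K E) (h1' : σ' ∈ Hs K E) (h2' : τ' ∈ Hs K E)
    (h : Ind E e σ τ) (h' : Ind E e σ' τ') : ∃ θ ∈ Hs K E,
      (∀ c ∈ e, im θ (im σ c) = im σ' c) ∧ ∀ c ∈ e, im θ (im τ c) = im τ' c := by
  classical
  set f : K × ℕ → K × ℕ := fun d =>
    if d ∈ e.image (im σ) then im σ' (im σ⁻¹ d) else im τ' (im τ⁻¹ d) with hf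
  have f1 : ∀ c ∈ e, f (im σ c) = im σ' c := by
    intro c hc
    have h3 : im σ c ∈ e.image (im σ) := Finset.mem_image_of_mem _ hc
    simp only [hf, h3, if_true]
    rw [← im_mul σ⁻¹ σ, inv_mul_cancel, im_one]
  have f2 : ∀ c ∈ e, f (im τ c) = im τ' c := by
    intro c hc
    by_cases h3 : im τ c ∈ e.image (im σ)
    · obtain ⟨d, hd, h4⟩ := Finset.mem_image.1 h3
      have h5 : d ∈ E := h d hd c hc h4
      have h6 : c = d := by
        apply im_injective τ
        rw [← h4, mem_Hs'.1 h1 d h5, mem_Hs'.1 h2 d h5]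
      subst h6
      rw [← h4, f1 c hc, mem_Hs'.1 h1' c h5, mem_Hs'.1 h2' c h5]
    · simp only [hf, h3, if_false]
      rw [← im_mul τ⁻¹ τ, inv_mul_cancel, im_one]
  obtain ⟨θ, hθ⟩ := ext_col (s := ((e.image (im σ) ∪ e.image (im τ) : Finset (K × ℕ)) :
    Set (K × ℕ))) (Finset.finite_toSet _) (f := f) (by
      intro d1 hd1 d2 hd2 h12
      simp only [Finset.coe_union, Finset.coe_image, Set.mem_union, Set.mem_image,
        Finset.mem_coe] at hd1 hd2
      rcases hd1 with ⟨c1, hc1, rfl⟩ | ⟨c1, hc1, rfl⟩ <;>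
        rcases hd2 with ⟨c2, hc2, rfl⟩ | ⟨c2, hc2, rfl⟩
      · rw [f1 c1 hc1, f1 c2 hc2] at h12
        rw [im_injective _ h12]
      · rw [f1 c1 hc1, f2 c2 hc2] at h12
        have h5 : c1 ∈ E := h' c1 hc1 c2 hc2 h12
        rw [mem_Hs'.1 h1' c1 h5, ← mem_Hs'.1 h2' c1 h5] at h12
        rw [← im_injective _ h12, mem_Hs'.1 h1 c1 h5, mem_Hs'.1 h2 c1 h5]
      · rw [f2 c1 hc1, f1 c2 hc2] at h12
        have h5 : c2 ∈ E := h' c2 hc2 c1 hc1 h12.symm
        rw [mem_Hs'.1 h1' c2 h5, ← mem_Hs'.1 h2' c2 h5] at h12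
        rw [im_injective _ h12, mem_Hs'.1 h1 c2 h5, mem_Hs'.1 h2 c2 h5]
      · rw [f2 c1 hc1, f2 c2 hc2] at h12
        rw [im_injective _ h12]) (by
      intro d hd
      simp only [Finset.coe_union, Finset.coe_image, Set.mem_union, Set.mem_image,
        Finset.mem_coe] at hd
      rcases hd with ⟨c, hc, rfl⟩ | ⟨c, hc, rfl⟩
      · rw [f1 c hc]
        rfl
      · rw [f2 c hc]
        rfl)
  have g1 : ∀ c ∈ e, im θ (im σ c) = im σ' c := fun c hc =>
    (hθ _ (by simpa using Or.inl ⟨_, _, hc, rfl⟩)).trans (f1 c hc)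
  have g2 : ∀ c ∈ e, im θ (im τ c) = im τ' c := fun c hc =>
    (hθ _ (by simpa using Or.inr ⟨_, _, hc, rfl⟩)).trans (f2 c hc)
  refine ⟨θ, mem_Hs'.2 fun c hc => ?_, g1, g2⟩
  have h3 := g1 c (hE hc)
  rwa [mem_Hs'.1 h1 c hc, mem_Hs'.1 h1' c hc] at h3

theorem exists_indep (E e : Finset (K × ℕ)) : ∃ σ : ℕ → K → Equiv.Perm ℕ,
    (∀ i, σ i ∈ Hs K E) ∧ ∀ i j, i ≠ j → Ind E e (σ i) (σ j) := by
  classical
  obtain ⟨N, hN⟩ : ∃ N : ℕ, ∀ c ∈ E ∪ e, c.2 < N := by
    refine ⟨(E ∪ e).sup (fun c => c.2 + 1), fun c hc => ?_⟩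
    exact Finset.le_sup (f := fun c : K × ℕ => c.2 + 1) hc
  have h : ∀ n : ℕ, ∃ σ : K → Equiv.Perm ℕ, ∀ c ∈ E ∪ e,
      im σ c = if c ∈ E then c else (c.1, c.2 + n * N) := by
    intro n
    obtain ⟨σ, hσ⟩ := ext_col (s := ((E ∪ e : Finset (K × ℕ)) : Set (K × ℕ)))
      (Finset.finite_toSet _) (f := fun c => if c ∈ E then c else (c.1, c.2 + n * N)) (by
        intro c hc d hd h
        have hc' : c.2 < N := hN c hc
        have hd' : d.2 < N := hN d hd
        by_cases h1 : c ∈ E <;> by_cases h2 : d ∈ E <;> simp only [h1, h2, if_true, if_false] at h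
        · exact h
        · rcases Nat.eq_zero_or_pos n with rfl | hn
          · simpa using h
          · rw [h] at hc'
            simp only at hc'
            nlinarith
        · rcases Nat.eq_zero_or_pos n with rfl | hn
          · simpa using h
          · rw [← h] at hd'
            simp only at hd'
            nlinarith
        · rw [Prod.ext_iff] at h
          exact Prod.ext h.1 (Nat.add_right_cancel h.2)) (by
        intro c _
        by_cases h1 : c ∈ E <;> simp [h1])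
    exact ⟨σ, fun c hc => hσ c hc⟩
  choose σ hσ using h
  refine ⟨σ, fun i => mem_Hs'.2 fun c hc => ?_, fun i j hij c hc d hd h => ?_⟩
  · rw [hσ i c (Finset.mem_union_left _ hc), if_pos hc]
  · by_contra h1
    have hc' : c.2 < N := hN c (Finset.mem_union_right _ hc)
    have hd' : d.2 < N := hN d (Finset.mem_union_right _ hd)
    rw [hσ i c (Finset.mem_union_right _ hc), hσ j d (Finset.mem_union_right _ hd), if_neg h1] at h
    by_cases h2 : d ∈ E
    · rw [if_pos h2] at h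
      rcases Nat.eq_zero_or_pos i with rfl | hi
      · apply h1
        simp only [zero_mul, add_zero] at h
        rw [← h] at h2
        exact h2
      · rw [← h] at hd'
        simp only at hd'
        nlinarith
    · rw [if_neg h2] at h
      have h3 := (Prod.ext_iff.1 h).2
      simp only at h3
      rcases lt_or_gt_of_ne hij with h4 | h4
      · nlinarith
      · nlinarith

theorem le_sm_iff {σ : K → Equiv.Perm ℕ} {p q : FP Q} :
    q ≤ FP.sm σ p ↔ ∀ c : K × ℕ, q.1 c.1 (σ c.1 c.2) ≤ p.1 c.1 c.2 := by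
  constructor
  · intro h c
    have h1 := h c.1 (σ c.1 c.2)
    simpa [FP.sm_app] using h1
  · intro h k i
    have h1 := h (k, (σ k)⁻¹ i)
    rw [FP.sm_app]
    simpa using h1

/-- A condition below given conditions in independent copies. -/
theorem exists_union {E e : Finset (K × ℕ)} (hE : E ⊆ e) {m : ℕ} (b : Fin m → FP Q)
    (hb : ∀ i, Sp e (b i))
    (hbE : ∀ i j, ∀ c ∈ E, (b i).1 c.1 c.2 = (b j).1 c.1 c.2)
    {σ : Fin m → K → Equiv.Perm ℕ} (hσ : ∀ i, σ i ∈ Hs K E)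
    (h : ∀ i j, i ≠ j → Ind E e (σ i) (σ j)) : ∃ u : FP Q, ∀ i, u ≤ FP.sm (σ i) (b i) := by
  classical
  let u : ∀ k, ℕ → Q k := fun k j =>
    if h : ∃ i : Fin m, (k, (σ i k)⁻¹ j) ∈ e then (b h.choose).1 k ((σ h.choose k)⁻¹ j) else ⊤
  have hu : {c : K × ℕ | u c.1 c.2 ≠ ⊤}.Finite := by
    refine (Set.finite_iUnion fun i : Fin m => ((Finset.finite_toSet e).image
      (im (σ i)))).subset ?_
    rintro ⟨k, j⟩ hc
    simp only [u, ne_eq, Set.mem_setOf_eq] at hc
    by_cases h1 : ∃ i : Fin m, (k, (σ i k)⁻¹ j) ∈ e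
    · obtain ⟨i, hi⟩ := h1
      exact Set.mem_iUnion.2 ⟨i, (k, (σ i k)⁻¹ j), hi, by simp [im]⟩
    · rw [dif_neg h1] at hc
      exact absurd rfl hc
  refine ⟨⟨u, hu⟩, fun i => le_sm_iff.2 fun c => ?_⟩
  change u c.1 (σ i c.1 c.2) ≤ _
  by_cases hc : c ∈ e
  · have h1 : ∃ i' : Fin m, (c.1, (σ i' c.1)⁻¹ (σ i c.1 c.2)) ∈ e :=
      ⟨i, by simpa using hc⟩
    simp only [u]
    rw [dif_pos h1]
    have h2 := h1.choose_spec
    set i' := h1.choose
    have h3 : im (σ i) c = im (σ i') (c.1, (σ i' c.1)⁻¹ (σ i c.1 c.2)) := by simp [im]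
    by_cases h4 : i = i'
    · rw [← h4]
      simp
    · have h5 : c ∈ E := h i i' h4 c hc _ h2 h3
      have h6 : (c.1, (σ i' c.1)⁻¹ (σ i c.1 c.2)) = c := by
        apply im_injective (σ i')
        rw [← h3, mem_Hs'.1 (hσ i) c h5, mem_Hs'.1 (hσ i') c h5]
      have h7 : (σ i' c.1)⁻¹ (σ i c.1 c.2) = c.2 := congrArg Prod.snd h6
      rw [h7, hbE i' i c h5]
  · rw [hb i c hc]
    exact le_top

end Pool.Agent.Q211.FS
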