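import Pool.Agent.Q211.FS.Small

/-!
# Small conditions: the extension lemma
-/

set_option autoImplicit false
set_option linter.unusedSectionVars false
set_option linter.unreachableTactic false
set_option linter.unusedTactic false

namespace Pool.Agent.Q211.FS

open Pool.Agent.W868 Pool.Agent.W868.PName Pool.Agent.Q211.SY
open ZFSet (pair)

variable {K : Type} {Q : K → Type} [∀ k, Preorder (Q k)] [∀ k, OrderTop (Q k)] [DecidableEq K]

theorem fx_check (e : Finset (K × ℕ)) (a : ZFSet.{0}) : Fx (Q := Q) e (check a) := by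
  intro σ _ p
  rw [act_check ((Sy Q).top σ)]
  exact Feq.refl _ _

/-- The data of a totally bounded space. -/
structure Dat (X D : PName (FP Q)) (E : Finset (K × ℕ)) (p0 : FP Q) : Prop where
  hX : (Sy Q).HS X
  hD : (Sy Q).HS D
  fX : Fx E X
  fD : Fx E D
  hp : (Sy Q).Frc ud_reg ![X, D] p0

/-- A point of the space. -/
structure Pt (X : PName (FP Q)) (E : Finset (K × ℕ)) (p0 : FP Q) (x : PName (FP Q))
    (e : Finset (K × ℕ)) (p : FP Q) : Prop where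
  hE : E ⊆ e
  hx : (Sy Q).HS x
  fx : Fx e x
  sp : Sp e p
  le : p ≤ p0
  mem : Fmem x X p

variable {X D x : PName (FP Q)} {E e : Finset (K × ℕ)} {p0 px : FP Q}

/-- `p` forces that `x` and `y` are not `l`-close. -/
def Far (D : PName (FP Q)) (l : ℕ) (x y : PName (FP Q)) (p : FP Q) : Prop :=
  (Sy Q).Frc ud_far ![D, check (nat l), x, y] p

theorem hs4 {a b c d : PName (FP Q)} (ha : (Sy Q).HS a) (hb : (Sy Q).HS b) (hc : (Sy Q).HS c)
    (hd : (Sy Q).HS d) : ∀ i, (Sy Q).HS (![a, b, c, d] i) := by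
  intro i
  fin_cases i
  exacts [ha, hb, hc, hd]

theorem fx4 {a b c d : PName (FP Q)} (ha : Fx e a) (hb : Fx e b) (hc : Fx e c)
    (hd : Fx e d) : ∀ i, Fx e (![a, b, c, d] i) := by
  intro i
  fin_cases i
  exacts [ha, hb, hc, hd]

theorem mem4 {α : Type*} {N : Set α} {a b c d : α} (ha : a ∈ N) (hb : b ∈ N) (hc : c ∈ N)
    (hd : d ∈ N) : ∀ i, ![a, b, c, d] i ∈ N := by
  intro i
  fin_cases i
  exacts [ha, hb, hc, hd]

/-- What far means. -/
theorem far_sem (hD : (Sy Q).HS D) {y : PName (FP Q)} (hx : (Sy Q).HS x) (hy : (Sy Q).HS y)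
    {l : ℕ} {p : FP Q} (h : Far D l x y p) {π : Pkg (FP Q)} (hcl : (Sy Q).Cld π)
    (h1 : D ∈ π.N) (h2 : x ∈ π.N) (h3 : y ∈ π.N) {m : ℕ} (hm : π.g m ≤ p) :
    pair (pair (π.val x) (π.val y)) (nat l) ∉ π.val D := by
  have h4 : (check (nat l) : PName (FP Q)) ∈ π.N := π.nat_Z l
  have h5 := (Sys.frc_sem (hs4 hD ((Sy Q).hs_check _) hx hy)).1 h π hcl
    (mem4 h1 h4 h2 h3) ⟨m, hm⟩
  have h6 : π.val (check (nat l)) = nat l := π.hat_nat l
  have h7 : pair (pair (π.val x) (π.val y)) (π.val (check (nat l))) ∉ π.val D := h5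
  rwa [h6] at h7

theorem far_of (hD : (Sy Q).HS D) {y : PName (FP Q)} (hx : (Sy Q).HS x) (hy : (Sy Q).HS y)
    {l : ℕ} {π : Pkg (FP Q)} (hcl : (Sy Q).Cld π)
    (h1 : D ∈ π.N) (h2 : x ∈ π.N) (h3 : y ∈ π.N)
    (h : pair (pair (π.val x) (π.val y)) (nat l) ∉ π.val D) : ∃ k, Far D l x y (π.g k) := by
  have h4 : (check (nat l) : PName (FP Q)) ∈ π.N := π.nat_Z l
  have h6 : π.val (check (nat l)) = nat l := π.hat_nat l
  rw [← h6] at h
  have h5 := Sys.frc_iff ud_far hcl (x := ![D, check (nat l), x, y]) fun i =>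
    ⟨mem4 h1 h4 h2 h3 i, hs4 hD ((Sy Q).hs_check _) hx hy i⟩
  exact h5.1 h

/-- The relation between conditions: all independent copies of `x` below copies of `b` and `c`
are not `l`-close. -/
def Rel (D x : PName (FP Q)) (E e : Finset (K × ℕ)) (l : ℕ) (b c : FP Q) : Prop :=
  ∀ σ ∈ Hs K E, ∀ τ ∈ Hs K E, Ind E e σ τ → ∀ q, q ≤ FP.sm σ b → q ≤ FP.sm τ c →
    Far D l (ax σ x) (ax τ x) q

theorem Rel.mono {l : ℕ} {b c b' c' : FP Q} (h : Rel D x E e l b c) (hb : b' ≤ b) (hc : c' ≤ c) :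
    Rel D x E e l b' c' := fun σ hσ τ hτ hi q h1 h2 =>
  h σ hσ τ hτ hi q (h1.trans (sm_le_sm hb)) (h2.trans (sm_le_sm hc))

theorem rel_of_far (hE : E ⊆ e) (fD : Fx E D) (fx : Fx e x) {l : ℕ}
    {σ τ : K → Equiv.Perm ℕ} (hσ : σ ∈ Hs K E) (hτ : τ ∈ Hs K E) (hi : Ind E e σ τ) {q : FP Q}
    (h : Far D l (ax σ x) (ax τ x) q) :
    Rel D x E e l (res e (FP.sm σ⁻¹ q)) (res e (FP.sm τ⁻¹ q)) := by
  classical
  intro σ' hσ' τ' hτ' hi' q' h1 h2
  set s := e.image (im σ) ∪ e.image (im τ) with hs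
  have hEs : E ⊆ s := by
    intro c hc
    refine Finset.mem_union_left _ (Finset.mem_image.2 ⟨c, hE hc, mem_Hs'.1 hσ c hc⟩)
  have h3 : Far D l (ax σ x) (ax τ x) (res s q) :=
    frc_res (fx4 (fD.mono hEs) (fx_check _ _) ((fx.ax σ).mono Finset.subset_union_left)
      ((fx.ax τ).mono Finset.subset_union_right)) h
  obtain ⟨θ, hθ, g1, g2⟩ := exists_theta hE hσ hτ hσ' hτ' hi hi'
  have h4 := (Sys.frc_act (S := Sy Q) θ).2 h3
  have h5 : Far D l (ax σ' x) (ax τ' x) (FP.sm θ (res s q)) := by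
    refine (Sys.frc_congr ?_).1 h4
    intro i
    fin_cases i
    · exact fD θ hθ _
    · exact fx_check E (nat l) θ hθ _
    · have h6 : Feq (ax (θ * σ) x) (ax σ' x) (FP.sm θ (res s q)) :=
        feq_of_agree fx (fun c hc => g1 c hc) _
      rw [ax_mul] at h6
      exact h6
    · have h6 : Feq (ax (θ * τ) x) (ax τ' x) (FP.sm θ (res s q)) :=
        feq_of_agree fx (fun c hc => g2 c hc) _
      rw [ax_mul] at h6
      exact h6
  refine Sys.Frc.mono h5 (le_sm_iff.2 fun d => ?_)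
  by_cases hd : d ∈ s
  · rcases Finset.mem_union.1 hd with hd' | hd'
    · obtain ⟨c, hc, rfl⟩ := Finset.mem_image.1 hd'
      have h6 := le_sm_iff.1 h1 c
      rw [res_pos (k := c.1) (i := c.2) hc, sm_inv_im] at h6
      have h7 : θ c.1 (σ c.1 c.2) = σ' c.1 c.2 := congrArg Prod.snd (g1 c hc)
      have h8 : (res s q).1 c.1 (σ c.1 c.2) = q.1 c.1 (σ c.1 c.2) := res_pos hd
      change q'.1 c.1 (θ c.1 (σ c.1 c.2)) ≤ (res s q).1 c.1 (σ c.1 c.2)
      rw [h8, h7]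
      exact h6
    · obtain ⟨c, hc, rfl⟩ := Finset.mem_image.1 hd'
      have h6 := le_sm_iff.1 h2 c
      rw [res_pos (k := c.1) (i := c.2) hc, sm_inv_im] at h6
      have h7 : θ c.1 (τ c.1 c.2) = τ' c.1 c.2 := congrArg Prod.snd (g2 c hc)
      have h8 : (res s q).1 c.1 (τ c.1 c.2) = q.1 c.1 (τ c.1 c.2) := res_pos hd
      change q'.1 c.1 (θ c.1 (τ c.1 c.2)) ≤ (res s q).1 c.1 (τ c.1 c.2)
      rw [h8, h7]
      exact h6
  · rw [res_neg hd]
    exact le_top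

/-- Families of conditions whose copies of `x` are pairwise not close. -/
def Fam (D x : PName (FP Q)) (E e : Finset (K × ℕ)) (l : ℕ) (b0 : FP Q) (m : ℕ) : Prop :=
  ∃ b : Fin m → FP Q, (∀ i, Sp e (b i)) ∧ (∀ i, b i ≤ b0) ∧
    (∀ i j, ∀ c ∈ E, (b i).1 c.1 c.2 = (b j).1 c.1 c.2) ∧
    ∀ i j, j < i → Rel D x E e l (b j) (b i)

theorem val_mem_of_le {y : PName (FP Q)} {p : FP Q} (h : Fmem y X p) {π : Pkg (FP Q)}
    (h1 : y ∈ π.N) (h2 : X ∈ π.N) {m : ℕ} (hm : π.g m ≤ p) : π.val y ∈ π.val X :=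
  (π.val_mem_iff h1 h2).2 ⟨m, h.mono hm⟩

theorem Pt.mem_ax (P : Pt X E p0 x e px) (fX : Fx E X) {σ : K → Equiv.Perm ℕ} (hσ : σ ∈ Hs K E) :
    Fmem (ax σ x) X (FP.sm σ px) :=
  fmem_congr (Feq.refl _ _) (fX σ hσ _) (fmem_ax (σ := σ) P.mem)

theorem fam_bound (d : Dat X D E p0) (P : Pt X E p0 x e px) {b0 : FP Q} (hb0 : b0 ≤ px)
    {l m : ℕ} (htb : (Sy Q).Frc ud_tb ![X, D, check (nat l), check (nat m)] b0) :
    ¬ Fam D x E e l b0 m := by
  classical
  rintro ⟨b, hb1, hb2, hb3, hb4⟩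
  obtain ⟨σ, hσ, hi⟩ := exists_indep E e
  obtain ⟨u, hu⟩ := exists_union P.hE b hb1 hb3 (σ := fun i => σ i) (fun i => hσ i)
    fun i j hij => hi i j fun h => hij (Fin.ext h)
  -- a condition that forces the bound and lies below all the copies
  obtain ⟨u', hu', hf⟩ : ∃ u' : FP Q, (∀ i : Fin m, u' ≤ FP.sm (σ i) (b i)) ∧
      (Sy Q).Frc ud_tb ![X, D, check (nat l), check (nat m)] u' := by
    rcases Nat.eq_zero_or_pos m with rfl | hm
    · exact ⟨b0, fun i => i.elim0, htb⟩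
    · refine ⟨u, hu, ?_⟩
      have h1 : (Sy Q).Frc ud_tb ![X, D, check (nat l), check (nat m)] (FP.sm (σ 0) b0) :=
        Sys.frc_fix (S := Sy Q) (fx4 d.fX d.fD (fx_check _ _) (fx_check _ _)) (hσ 0) htb
      exact h1.mono ((hu ⟨0, hm⟩).trans (sm_le_sm (hb2 _)))
  obtain ⟨π, hN, h0, hcl, -⟩ := Sys.exists_cld (Sy Q)
    ({X, D} ∪ Set.range fun i => ax (σ i) x)
    ((Set.toFinite _).countable.union (Set.countable_range _)) ∅ Set.countable_empty u'
  have hXN : X ∈ π.N := hN (Or.inl (Or.inl rfl))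
  have hDN : D ∈ π.N := hN (Or.inl (Or.inr rfl))
  have hxN : ∀ i, ax (σ i) x ∈ π.N := fun i => hN (Or.inr ⟨i, rfl⟩)
  have hM := T_ZF.isZF hcl
  have h1 := (Sys.frc_sem (hs4 d.hX d.hD ((Sy Q).hs_check _) ((Sy Q).hs_check _))).1 hf π hcl
    (mem4 hXN hDN (π.nat_Z l) (π.nat_Z m)) ⟨0, h0.le⟩
  have h2 : tb ((Sy Q).Ms π) (π.val X) (π.val D) (nat l) (nat m) := by
    have h3 : tb ((Sy Q).Ms π) (π.val X) (π.val D) (π.val (check (nat l)))
      (π.val (check (nat m))) := h1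
    have h4 : π.val (check (nat l)) = nat l := π.hat_nat l
    have h5 : π.val (check (nat m)) = nat m := π.hat_nat m
    rwa [h4, h5] at h3
  have hmem : ∀ i < m, π.val (ax (σ i) x) ∈ π.val X := by
    intro i him
    refine val_mem_of_le (P.mem_ax d.fX (hσ i)) (hxN i) hXN (m := 0) ?_
    exact h0.le.trans ((hu' ⟨i, him⟩).trans (sm_le_sm ((hb2 _).trans hb0)))
  obtain ⟨i, hi', j, hj, y, hy, z, hz, h3, h4, h5⟩ := h2 (fseq (fun i => π.val (ax (σ i) x)) m)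
    (fseq_mem hM fun i _ => Sys.mem_Ms (hxN i) (hs_ax P.hx _)) (isFunc_fseq hmem)
  obtain ⟨i, hi'', rfl⟩ := mem_nat_iff.1 hi'
  obtain ⟨j, hj', rfl⟩ := mem_nat_iff.1 hj
  obtain ⟨-, rfl⟩ := pair_mem_fseq.1 h3
  obtain ⟨-, rfl⟩ := pair_mem_fseq.1 h4
  have hjm := hj'.trans hi''
  have h6 : Rel D x E e l (b ⟨j, hjm⟩) (b ⟨i, hi''⟩) := hb4 ⟨i, hi''⟩ ⟨j, hjm⟩ hj'
  have h7 := h6 (σ j) (hσ j) (σ i) (hσ i) (hi j i hj'.ne) u' (hu' ⟨j, hjm⟩) (hu' ⟨i, hi''⟩)
  exact far_sem d.hD (hs_ax P.hx _) (hs_ax P.hx _) h7 hcl hDN (hxN j) (hxN i) h0.le h5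

/-- Strengthening on `E`. -/
theorem exists_ind_small (d : Dat X D E p0) (P : Pt X E p0 x e px) {b0 : FP Q} (hb0 : b0 ≤ px)
    (hs : Sp e b0) {l m : ℕ}
    (htb : (Sy Q).Frc ud_tb ![X, D, check (nat l), check (nat m)] b0) :
    ∃ b ≤ b0, Sp e b ∧ ∀ σ ∈ Hs K E, ∀ τ ∈ Hs K E, Ind E e σ τ → ∀ q, q ≤ FP.sm σ b →
      q ≤ FP.sm τ b → ¬ Far D l (ax σ x) (ax τ x) q := by
  classical
  have hex : ∃ n, ¬ Fam D x E e l b0 n := ⟨m, fam_bound d P hb0 htb⟩
  have h1 : Fam D x E e l b0 1 := ⟨fun _ => b0, fun _ => hs, fun _ => le_rfl, fun _ _ _ _ => rfl,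
    fun i j hij => by
      have h1 := i.2
      have h2 := j.2
      have h3 : j.1 < i.1 := hij
      omega⟩
  have h0 : Fam D x E e l b0 0 := ⟨fun _ => b0, fun _ => hs, fun _ => le_rfl, fun _ _ _ _ => rfl,
    fun i => i.elim0⟩
  obtain ⟨n, hn, hn'⟩ : ∃ n, Fam D x E e l b0 (n + 1) ∧ ¬ Fam D x E e l b0 (n + 2) := by
    have h2 := Nat.find_spec hex
    have h3 : Nat.find hex ≠ 0 := fun h => h2 (h ▸ h0)
    have h4 : Nat.find hex ≠ 1 := fun h => h2 (h ▸ h1)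
    obtain ⟨n, h5⟩ : ∃ n, Nat.find hex = n + 2 := ⟨Nat.find hex - 2, by omega⟩
    refine ⟨n, ?_, h5 ▸ h2⟩
    by_contra h6
    have h7 := Nat.find_min' hex h6
    omega
  obtain ⟨b, hb1, hb2, hb3, hb4⟩ := hn
  refine ⟨b 0, hb2 0, hb1 0, ?_⟩
  intro σ hσ τ hτ hi q hq1 hq2 hfar
  apply hn'
  have hr := rel_of_far P.hE d.fD P.fx hσ hτ hi hfar
  set b' := res e (FP.sm σ⁻¹ q) with hb'
  set c' := res e (FP.sm τ⁻¹ q) with hc'
  have hb'le : b' ≤ b 0 := by
    have h2 := res_mono (s := e) (sm_inv_le hq1)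
    rwa [(hb1 0).res_eq] at h2
  have hc'le : c' ≤ b 0 := by
    have h2 := res_mono (s := e) (sm_inv_le hq2)
    rwa [(hb1 0).res_eq] at h2
  have hb'E : ∀ c ∈ E, b'.1 c.1 c.2 = q.1 c.1 c.2 := by
    intro c hc
    rw [hb', res_pos (k := c.1) (i := c.2) (P.hE hc), sm_inv_im, hσ c hc]
  have hc'E : ∀ c ∈ E, c'.1 c.1 c.2 = q.1 c.1 c.2 := by
    intro c hc
    rw [hc', res_pos (k := c.1) (i := c.2) (P.hE hc), sm_inv_im, hτ c hc]
  have hqE : ∀ i, ∀ c ∈ E, q.1 c.1 c.2 ≤ (b i).1 c.1 c.2 := by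
    intro i c hc
    rw [hb3 i 0 c hc, ← hb'E c hc]
    exact hb'le c.1 c.2
  have hjle : ∀ i, join E q (b i) ≤ b i := by
    intro i k j
    by_cases h : (k, j) ∈ E
    · rw [join_pos h]
      exact hqE i _ h
    · rw [join_neg h]
  have hjsp : ∀ i, Sp e (join E q (b i)) := by
    intro i c hc
    have h : (c.1, c.2) ∉ E := fun h => hc (P.hE h)
    rw [join_neg h]
    exact hb1 i c hc
  refine ⟨Fin.cons b' (fun i => if i = 0 then c' else join E q (b i)), ?_, ?_, ?_, ?_⟩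
  · intro i
    refine Fin.cases ?_ (fun i => ?_) i
    · exact sp_res _ _
    · simp only [Fin.cons_succ]
      by_cases h : i = 0
      · rw [if_pos h]
        exact sp_res _ _
      · rw [if_neg h]
        exact hjsp i
  · intro i
    refine Fin.cases ?_ (fun i => ?_) i
    · exact hb'le.trans (hb2 0)
    · simp only [Fin.cons_succ]
      by_cases h : i = 0
      · rw [if_pos h]
        exact hc'le.trans (hb2 0)
      · rw [if_neg h]
        exact (hjle i).trans (hb2 i)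
  · have key : ∀ i : Fin (n + 2), ∀ c ∈ E, ((Fin.cons b' (fun i => if i = 0 then c'
        else join E q (b i)) : Fin (n + 2) → FP Q) i).1 c.1 c.2 = q.1 c.1 c.2 := by
      intro i c hc
      refine Fin.cases ?_ (fun i => ?_) i
      · exact hb'E c hc
      · simp only [Fin.cons_succ]
        by_cases h : i = 0
        · rw [if_pos h]
          exact hc'E c hc
        · rw [if_neg h]
          exact join_pos hc
    intro i j c hc
    exact (key i c hc).trans (key j c hc).symm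
  · intro i j
    refine Fin.cases ?_ (fun i => ?_) i
    · intro h
      exact absurd h (Fin.not_lt_zero j)
    · refine Fin.cases ?_ (fun j => ?_) j
      · intro _
        simp only [Fin.cons_succ, Fin.cons_zero]
        by_cases h : i = 0
        · rw [if_pos h]
          exact hr
        · rw [if_neg h]
          exact (hb4 i 0 (Fin.pos_of_ne_zero h)).mono hb'le (hjle i)
      · intro hij
        simp only [Fin.cons_succ]
        have hij' : j < i := Fin.succ_lt_succ_iff.1 hij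
        have hi0 : i ≠ 0 := fun h => Fin.not_lt_zero j (h ▸ hij')
        rw [if_neg hi0]
        by_cases h : j = 0
        · rw [if_pos h]
          exact (hb4 i 0 (Fin.pos_of_ne_zero hi0)).mono hc'le (hjle i)
        · rw [if_neg h]
          exact (hb4 i j hij').mono (hjle j) (hjle i)

/-- The condition `b` is small. -/
def Sma (D x : PName (FP Q)) (E : Finset (K × ℕ)) (k : ℕ) (b : FP Q) : Prop :=
  ∀ σ ∈ Hs K E, ∀ τ ∈ Hs K E, ∀ q, q ≤ FP.sm σ b → q ≤ FP.sm τ b →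
    ¬ Far D k (ax σ x) (ax τ x) q

/-- Every condition has a small extension. -/
theorem exists_small (d : Dat X D E p0) (P : Pt X E p0 x e px) {b0 : FP Q} (hb0 : b0 ≤ px)
    (hs : Sp e b0) (k : ℕ) : ∃ b ≤ b0, Sp e b ∧ Sma D x E k b := by
  classical
  -- decide the constants
  obtain ⟨l, m, b1, hb1, hs1, htb, hhf⟩ : ∃ (l m : ℕ) (b1 : FP Q), b1 ≤ b0 ∧ Sp e b1 ∧
      (Sy Q).Frc ud_tb ![X, D, check (nat l), check (nat m)] b1 ∧
      (Sy Q).Frc ud_hf ![X, D, check (nat k), check (nat l)] b1 := by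
    obtain ⟨π, hN, h0, hcl, -⟩ := Sys.exists_cld (Sy Q) {X, D} (Set.toFinite _).countable ∅
      Set.countable_empty b0
    have hXN : X ∈ π.N := hN (Or.inl rfl)
    have hDN : D ∈ π.N := hN (Or.inr rfl)
    have h1 : reg ((Sy Q).Ms π) (π.val X) (π.val D) := by
      refine (Sys.frc_sem (x := ![X, D]) ?_).1 d.hp π hcl ?_ ⟨0, h0.le.trans (hb0.trans P.le)⟩
      · intro i
        fin_cases i
        exacts [d.hX, d.hD]
      · intro i
        fin_cases i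
        exacts [hXN, hDN]
    obtain ⟨-, lo, hlo, h2⟩ := h1 (nat k) (mem_omega_iff.2 ⟨k, rfl⟩)
    obtain ⟨l, rfl⟩ := mem_omega_iff.1 hlo
    obtain ⟨⟨mo, hmo, h3⟩, -⟩ := h1 (nat l) (mem_omega_iff.2 ⟨l, rfl⟩)
    obtain ⟨m, rfl⟩ := mem_omega_iff.1 hmo
    have hcc : ∀ n, π.val (check (nat n)) = nat n := fun n => π.hat_nat n
    rw [← hcc k, ← hcc l] at h2
    rw [← hcc l, ← hcc m] at h3
    obtain ⟨i, hi⟩ := (Sys.frc_iff ud_hf hcl (x := ![X, D, check (nat k), check (nat l)])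
      fun i => ⟨mem4 hXN hDN (π.nat_Z k) (π.nat_Z l) i,
        hs4 d.hX d.hD ((Sy Q).hs_check _) ((Sy Q).hs_check _) i⟩).1 h2
    obtain ⟨j, hj⟩ := (Sys.frc_iff ud_tb hcl (x := ![X, D, check (nat l), check (nat m)])
      fun i => ⟨mem4 hXN hDN (π.nat_Z l) (π.nat_Z m) i,
        hs4 d.hX d.hD ((Sy Q).hs_check _) ((Sy Q).hs_check _) i⟩).1 h3
    refine ⟨l, m, res e (π.g (max i j)), ?_, sp_res _ _, ?_, ?_⟩
    · have h4 : π.g (max i j) ≤ b0 := (π.g_anti (Nat.zero_le _)).trans h0.le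
      have h5 := res_mono (s := e) h4
      rwa [hs.res_eq] at h5
    · exact frc_res (fx4 (d.fX.mono P.hE) (d.fD.mono P.hE) (fx_check _ _) (fx_check _ _))
        (hj.mono (π.g_le_right i j))
    · exact frc_res (fx4 (d.fX.mono P.hE) (d.fD.mono P.hE) (fx_check _ _) (fx_check _ _))
        (hi.mono (π.g_le_left i j))
  obtain ⟨b, hb, hsb, hsm⟩ := exists_ind_small d P (hb1.trans hb0) hs1 htb
  refine ⟨b, hb.trans hb1, hsb, ?_⟩
  intro σ hσ τ hτ q hq1 hq2 hfar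
  -- a third copy
  obtain ⟨ρ, hρ, hmove, r, hr, hr'⟩ := exists_common E b q
    (e ∪ (e.image (im σ) ∪ e.image (im τ))) (by
      intro k' i hc
      have h1 := hq1 k' i
      rwa [sm_fix hσ b hc] at h1)
  have hEs : ∀ σ ∈ Hs K E, ∀ c ∈ e, im σ c ∈ E → c ∈ E := by
    intro σ hσ c hc h1
    have h2 := mem_Hs'.1 hσ _ h1
    rw [im_injective σ h2] at h1
    exact h1
  have hind : ∀ ν ∈ Hs K E, (∀ c ∈ e, im ν c ∈ e.image (im σ) ∪ e.image (im τ)) →
      Ind E e ν ρ := by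
    intro ν hν hsub c hc c' hc' h1
    by_contra h2
    have h3 : c' ∉ E := by
      intro h3
      rw [mem_Hs'.1 hρ c' h3] at h1
      exact h2 (hEs ν hν c hc (h1 ▸ h3))
    have h4 := (hmove c' (Finset.mem_union_left _ hc') h3).1
    rw [← h1] at h4
    exact h4 (Finset.mem_union_right _ (hsub c hc))
  have hiσ : Ind E e σ ρ := hind σ hσ fun c hc =>
    Finset.mem_union_left _ (Finset.mem_image_of_mem _ hc)
  have hiτ : Ind E e τ ρ := hind τ hτ fun c hc =>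
    Finset.mem_union_right _ (Finset.mem_image_of_mem _ hc)
  obtain ⟨π, hN, h0, hcl, -⟩ := Sys.exists_cld (Sy Q) {X, D, ax σ x, ax τ x, ax ρ x}
    (Set.toFinite _).countable ∅ Set.countable_empty r
  have hXN : X ∈ π.N := hN (by simp)
  have hDN : D ∈ π.N := hN (by simp)
  have hσN : ax σ x ∈ π.N := hN (by simp)
  have hτN : ax τ x ∈ π.N := hN (by simp)
  have hρN : ax ρ x ∈ π.N := hN (by simp)
  have hbx : b ≤ px := hb.trans (hb1.trans hb0)
  have hm1 : π.val (ax σ x) ∈ π.val X := val_mem_of_le (P.mem_ax d.fX hσ) hσN hXN (m := 0)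
    (h0.le.trans (hr.trans (hq1.trans (sm_le_sm hbx))))
  have hm2 : π.val (ax τ x) ∈ π.val X := val_mem_of_le (P.mem_ax d.fX hτ) hτN hXN (m := 0)
    (h0.le.trans (hr.trans (hq2.trans (sm_le_sm hbx))))
  have hm3 : π.val (ax ρ x) ∈ π.val X := val_mem_of_le (P.mem_ax d.fX hρ) hρN hXN (m := 0)
    (h0.le.trans (hr'.trans (sm_le_sm hbx)))
  have h1 := far_sem d.hD (hs_ax P.hx _) (hs_ax P.hx _) hfar hcl hDN hσN hτN
    (m := 0) (h0.le.trans hr)
  -- the half property holds: it is forced by a copy of `b1`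
  have hhf' : (Sy Q).Frc ud_hf ![X, D, check (nat k), check (nat l)] (FP.sm σ b1) :=
    Sys.frc_fix (S := Sy Q) (fx4 d.fX d.fD (fx_check _ _) (fx_check _ _)) hσ hhf
  have h2 := (Sys.frc_sem (hs4 d.hX d.hD ((Sy Q).hs_check _) ((Sy Q).hs_check _))).1 hhf' π hcl
    (mem4 hXN hDN (π.nat_Z k) (π.nat_Z l))
    ⟨0, h0.le.trans (hr.trans (hq1.trans (sm_le_sm hb)))⟩
  have h3 : hf (π.val X) (π.val D) (nat k) (nat l) := by
    have h4 : hf (π.val X) (π.val D) (π.val (check (nat k))) (π.val (check (nat l))) := h2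
    have h5 : ∀ n, π.val (check (nat n)) = nat n := fun n => π.hat_nat n
    rwa [h5, h5] at h4
  have h4 : pair (pair (π.val (ax σ x)) (π.val (ax ρ x))) (nat l) ∉ π.val D ∨
      pair (pair (π.val (ax τ x)) (π.val (ax ρ x))) (nat l) ∉ π.val D := by
    by_contra h5
    push Not at h5
    exact h1 (h3 _ hm1 _ hm2 _ hm3 h5.1 h5.2)
  have hle : ∀ j, π.g j ≤ r := fun j => (π.g_anti (Nat.zero_le j)).trans h0.le
  rcases h4 with h4 | h4
  · obtain ⟨j, hj⟩ := far_of d.hD (hs_ax P.hx _) (hs_ax P.hx _) hcl hDN hσN hρN h4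
    exact hsm σ hσ ρ hρ hiσ _ ((hle j).trans (hr.trans hq1)) ((hle j).trans hr') hj
  · obtain ⟨j, hj⟩ := far_of d.hD (hs_ax P.hx _) (hs_ax P.hx _) hcl hDN hτN hρN h4
    exact hsm τ hτ ρ hρ hiτ _ ((hle j).trans (hr.trans hq2)) ((hle j).trans hr') hj

end Pool.Agent.Q211.FS
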